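import Pool.Agent.FLY.Defs

/-!
# Random homomorphisms of all four classes of groups to `PSL_n(q)`, all `q` (MP_5b5212_al): statements

`S_X` is the statement of module `X`; the module proves `theorem t_X : M_X` (or `t_X : S_X` if there is
no `M_X`) in `Pool/Agent/FLY/X.lean`, namespace `FLY`, importing this file. The proved files of `Pool/Agent/FLX`, `SRJ`,
`FLC`, `FL0`, `FLN`, `FLW`, `FGE`, `FG2`, `FGQ`, `RSF`, `Lib_helper13` may be imported. `d = m.length`, `σ = sig m`,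
`h = κ.h`, `θ = th κ m = σ + h - 2`, `κ₀ = (d + σ)/2 - 1 + h`, `q = Nat.card F`. In proofs by cases over `κ : Kd` the type
`Fin κ.h` reduces to `Fin 0`, `Fin 1`, `Fin 2`.

Plan. Count: Frobenius' formula with the sharp character bound for all `q` (`FLX.S_XMB`, `FLX.S_SBX`). Irreducibility: let `W` be
a simple invariant subspace, `k = dim W`, `l = n - k`. The number of the tuples that induce `(a, u)` on `W` and `(b, v)` on `V / W` is at most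
`q^((h-1) k l) ∏ Zc(g_j, a_j, b_j) |Hk|` (`FBK`), `Zc(a,b)² ≤ |C(a)| |C(b)| q^(2 k l - n²/m_j)` (`CSE`), the number of the `(a, u)` in given
classes is at most `q^(C + κ₀ k²) ∏ |C(a_j)|^(-1/2)` (`UPE`): the centralizers cancel (`PAK`). If `k ≥ 2/θ` then `|Hk| ≤ q^l` is small enough.
If `k < 2/θ` then the average of `|Hk|` is small: a homomorphism `f ≠ 0` embeds `W` in `V / W`, and the number of the
`(b, v)` with a given image of `W` is counted in the same way (`STK`, `AVK`).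
-/

namespace FLY

open RSF FL0 FGE Polynomial Pool.Agent.Lib_helper13

noncomputable section

/-! ## 1. Modules over `F[X]` -/

/-- **CYZ**, the cyclic case. `A = F[X]/(p^s)`, `B = F[X]/(p^t)`, `a`, `b` the multiplication by `X`, `e = deg p`, `D(c)` the upper right
block of `g (bk a c b)`: linear in `c`, and `Zc` is the number of the `c` with `D(c) = 0` (the diagonal blocks are `g(a) = 0`, `g(b) = 0`:
`s, t ≤ M`), so it is enough that the range of `D` has dimension at least `e (s + t - M)`. Let `ε : B → F` be the coefficient of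
`X^(e t - 1)`, `c_φ(y) = ε(y) φ(X)`, `φ ∈ F[X]`. In `A × B` with `x = bk a c_φ b`: `x^i (0, 1) = (0, X^i)` for `i < e t` and
`x^(e t) (0, 1) = (φ, X^(e t))`, so `p^t(x) (0, 1) = (φ, 0)` (`p^t` is monic) and `g(x) (0, 1) = ((g/p^t) φ, 0)`. If `D(c_φ) = 0` then
`p^s ∣ (g/p^t) φ`, so `p^(s+t-M) ∣ φ` (`M` is the exact multiplicity of `p` in `g`). So the linear map `φ ↦ D(c_φ)` has the kernel in
`(p^(s+t-M))`, and its range has dimension at least `e (s+t-M)`. -/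
def S_CYZ : Prop :=
  ∀ (F : Type) [Field F] [Finite F] (g p : F[X]) (M s t : ℕ), g.Monic → p.Monic → Irreducible p →
    p ^ M ∣ g → ¬ p ^ (M + 1) ∣ g → s ≤ M → t ≤ M →
    ∀ (A B : Type) [AddCommGroup A] [Module F A] [AddCommGroup B] [Module F B]
      (a : A →ₗ[F] A) (b : B →ₗ[F] B) (eA : A ≃ₗ[F] (F[X] ⧸ Ideal.span {p ^ s}))
      (eB : B ≃ₗ[F] (F[X] ⧸ Ideal.span {p ^ t})),
      (∀ v, eA (a v) = Ideal.Quotient.mk _ X * eA v) → (∀ v, eB (b v) = Ideal.Quotient.mk _ X * eB v) →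
      Zc g a b * Nat.card F ^ (p.natDegree * (s + t - M)) ≤
        Nat.card F ^ ((p.natDegree * s) * (p.natDegree * t))

/-- **HMZ**: `SRJ.S_HMF` (see `SRJ/HMF.lean`) with one more claim. The index set is the set of the pairs `(p, j)`, `1 ≤ j ≤ M_p`, `M_p` the multiplicity
of `p` in `g`; `s (p, j) = (p, M_p + 1 - j)` (`s j = j` for the indices of weight `0`). Decompose `A` and `B` in cyclic modules
`F[X]/(p^i)`, `F[X]/(p'^j)`: `c` is a family of blocks, and `[A c; 0 B]` is killed by `g` iff this holds for every pair of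
summands (the upper right block of `g [A c; 0 B]` is linear in `c`, `∑ g_k ∑_{i+j=k-1} A^i c B^j`). For `p = p'` `S_CYZ`, for `p ≠ p'` the trivial bound.
`∑ deg p · max(i + j - M_p, 0)` over the pairs of summands is `∑_j w_j ν_j(A) ν_(s j)(B)`, because `i + j - M_p` is the number of the `r`
with `1 ≤ r ≤ M_p`, `r ≤ i`, `M_p + 1 - r ≤ j`. -/
def S_HMZ : Prop :=
  ∀ (F : Type) [Field F] [Finite F] (g : F[X]), g.Monic →
    ∃ (w : Fin g.natDegree → ℕ) (s : Fin g.natDegree → Fin g.natDegree)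
      (ν : (n : ℕ) → Matrix (Fin n) (Fin n) F → Fin g.natDegree → ℕ),
      ∑ j, w j = g.natDegree ∧ (∀ j, w (s j) = w j ∧ s (s j) = j) ∧
      ∀ (a b : ℕ) (A : Matrix (Fin a) (Fin a) F) (B : Matrix (Fin b) (Fin b) F),
        aeval A g = 0 → aeval B g = 0 →
        (∑ j, w j * ν a A j = a) ∧ (∀ j, w j = 0 → ν a A j = 0) ∧
        Nat.card {f : Matrix (Fin b) (Fin a) F // f * A = B * f} =
          Nat.card F ^ (∑ j, w j * (ν a A j * ν b B j)) ∧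
        (a = b → ν a A = ν b B → ∃ (P : Matrix (Fin b) (Fin a) F) (Q : Matrix (Fin a) (Fin b) F),
          P * Q = 1 ∧ Q * P = 1 ∧ P * A = B * P) ∧
        Nat.card {c : Matrix (Fin a) (Fin b) F // aeval (Matrix.fromBlocks A c 0 B) g = 0} *
          Nat.card F ^ (∑ j, w j * (ν a A j * ν b B (s j))) ≤ Nat.card F ^ (a * b)

def M_HMZ : Prop := S_CYZ → S_HMZ

/-- **CSE**, Cauchy-Schwarz. Bases (`Module.finBasis`): matrices `A`, `B`, `α = dim A`, `β = dim B`; `Zc ≤ q^(α β - S)`,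
`S = ∑ w_j ν_j(A) ν_(s j)(B)`, `Cm a = q^(∑ w ν(A)²)`, `Cm b = q^(∑ w ν(B)²)`, and `∑_j w_j (r ν_j(A) + ν_(s j)(B))² ≥ (r α + β)² / deg g`
(`∑ w = deg g`, `∑_j w_j ν_(s j)(B) = β`, `∑_j w_j ν_(s j)(B)² = ∑ w_j ν_j(B)²`). -/
def S_CSE : Prop :=
  ∀ (F A B : Type) [Field F] [Finite F] [AddCommGroup A] [Module F A] [FiniteDimensional F A]
    [AddCommGroup B] [Module F B] [FiniteDimensional F B] (g : F[X]), g.Monic → 1 ≤ g.natDegree →
    ∀ (a : A →ₗ[F] A) (b : B →ₗ[F] B), aeval a g = 0 → aeval b g = 0 → ∀ r : ℕ,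
      (Zc g a b : ℝ) ^ (2 * r) ≤ (Cm a : ℝ) ^ (r ^ 2) * Cm b *
        (Nat.card F : ℝ) ^ (2 * (r : ℝ) * Module.finrank F A * Module.finrank F B -
          ((r : ℝ) * Module.finrank F A + Module.finrank F B) ^ 2 / g.natDegree)

def M_CSE : Prop := S_HMZ → S_CSE

/-- **CLE**, classes. (1) One `r` for each value of `ν` (`S_HMZ`, fourth claim; `ν_j ≤ n`, and `ν_j = 0` if `w_j = 0`). (2) The class has
`|GL_n| / |C_GL(y)|` elements (`clq_orbit` in `SRJ/CLQ.lean`), `SRJ.S_AUL`, `|GL_n| ≤ q^(n²)`. (3) `∑ w_j ν_j² ≥ n² / deg g`. -/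
def S_CLE : Prop :=
  ∀ (F V : Type) [Field F] [Finite F] [AddCommGroup V] [Module F V] [FiniteDimensional F V]
    (g : F[X]), g.Monic → 1 ≤ g.natDegree →
    (∃ R : Finset (V →ₗ[F] V), R.card ≤ (Module.finrank F V + 1) ^ g.natDegree ∧
      (∀ r ∈ R, aeval r g = 0) ∧ ∀ a : V →ₗ[F] V, aeval a g = 0 → ∃ r ∈ R, Cj r a) ∧
    ∀ y : V →ₗ[F] V, aeval y g = 0 →
      Nat.card {t : V →ₗ[F] V // Cj y t} * Cm y ≤
        4 ^ g.natDegree * Nat.card F ^ (Module.finrank F V ^ 2) ∧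
      (Nat.card F : ℝ) ^ ((Module.finrank F V : ℝ) ^ 2 / g.natDegree) ≤ Cm y

def M_CLE : Prop := S_HMZ → SRJ.S_AUL → S_CLE

/-- **SPA**. (1) `c ↦ c` restricted to `W` gives a matrix killed by `g` (the subspace `A × W` of `A × B` is invariant under
`bk a c b`), and two `c` with the same restriction differ by a `c'` with `c' = 0` on `W`, `g (bk a c' b)` has the upper right block `0` (linear
in `c`), i.e. `c'` induces `B / W → A` killed in the same way. (2) conjugation. (3) clear. -/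
def S_SPA : Prop :=
  ∀ (F A B : Type) [Field F] [Finite F] [AddCommGroup A] [Module F A] [FiniteDimensional F A]
    [AddCommGroup B] [Module F B] [FiniteDimensional F B] (g : F[X]) (a : A →ₗ[F] A) (b : B →ₗ[F] B),
    aeval a g = 0 → aeval b g = 0 →
    (∀ (W : Submodule F B) (h : W ≤ W.comap b),
      Zc g a b ≤ Zc g a (b.restrict h) * Zc g a (W.mapQ W b h)) ∧
    (∀ (A' : Type) [AddCommGroup A'] [Module F A'] (a' : A' →ₗ[F] A') (e : A ≃ₗ[F] A'),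
      (∀ v, e (a v) = a' (e v)) → Zc g a' b = Zc g a b) ∧
    (∀ (B' : Type) [AddCommGroup B'] [Module F B'] (b' : B' →ₗ[F] B') (e : B ≃ₗ[F] B'),
      (∀ v, e (b v) = b' (e v)) → Zc g a b' = Zc g a b) ∧
    1 ≤ Zc g a b ∧ Zc g a b ≤ Nat.card F ^ (Module.finrank F A * Module.finrank F B)

/-! ## 2. Block triangular tuples -/

/-- **ZAK**: `FL0.S_ZAN`, `FLN.S_ZAN`, `FLW.S_ZAN` (`o = true`, `o = false`); the last two factors are the same sets. -/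
def S_ZAK : Prop :=
  ∀ (κ : Kd) (F A B : Type) [Field F] [Finite F] [AddCommGroup A] [Module F A] [FiniteDimensional F A]
    [AddCommGroup B] [Module F B] [FiniteDimensional F B] (d : ℕ) (z : F), z ≠ 0 →
    ∀ (a : Fin d → (A →ₗ[F] A)) (u : Fin κ.h → (A →ₗ[F] A)) (b : Fin d → (B →ₗ[F] B))
      (v : Fin κ.h → (B →ₗ[F] B)), (∀ i, IsUnit (u i)) → (∀ i, IsUnit (v i)) →
      Wk κ z (List.ofFn a).prod u = 0 → Wk κ z (List.ofFn b).prod v = 0 →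
      Nat.card F ^ (Module.finrank F A * Module.finrank F B) ≤
        Nat.card {y : B →ₗ[F] A // ∃ (h : Fin d → (B →ₗ[F] A)) (f : Fin κ.h → (B →ₗ[F] A)),
          uk κ z a u b v (fun j => a j ∘ₗ h j - h j ∘ₗ b j) f = y} * Nat.card (Hk κ a u b v)

def M_ZAK : Prop := FL0.S_ZAN → FLN.S_ZAN → FLW.S_ZAN → S_ZAK

/-- **ZOK** (compare `FLW/ZON.lean`). The `c_j` with `g_j (bk a_j c_j b_j) = 0` are a subspace `Z_j` with `Zc` elements, which contains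
the `a_j h - h b_j` (`bk a (a h - h b) b` is conjugate to `bk a 0 b` by `bk 1 h 1`). `Wk` of the block matrices is `0` iff its upper
right block `uk ⋯ c f` is `0`. The linear map `uk` on `∏ Z_j × Hom(B, A)^h` has an image with at least `q^(α β) / |Hk|` elements (`S_ZAK`). -/
def S_ZOK : Prop :=
  ∀ (κ : Kd) (F A B : Type) [Field F] [Finite F] [AddCommGroup A] [Module F A] [FiniteDimensional F A]
    [AddCommGroup B] [Module F B] [FiniteDimensional F B] (d : ℕ) (z : F), z ≠ 0 →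
    ∀ (g : Fin d → F[X]) (a : Fin d → (A →ₗ[F] A)) (u : Fin κ.h → (A →ₗ[F] A))
      (b : Fin d → (B →ₗ[F] B)) (v : Fin κ.h → (B →ₗ[F] B)), Tl κ z g a u → Tl κ z g b v →
      Nat.card {p : (Fin d → (B →ₗ[F] A)) × (Fin κ.h → (B →ₗ[F] A)) //
          (∀ j, aeval (bk (a j) (p.1 j) (b j)) (g j) = 0) ∧
          Wk κ z (List.ofFn fun j => bk (a j) (p.1 j) (b j)).prod
            (fun i => bk (u i) (p.2 i) (v i)) = 0} *
        Nat.card F ^ (Module.finrank F A * Module.finrank F B) ≤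
      Nat.card F ^ (κ.h * (Module.finrank F A * Module.finrank F B)) *
        (∏ j, Zc (g j) (a j) (b j)) * Nat.card (Hk κ a u b v)

def M_ZOK : Prop := S_ZAK → S_ZOK

/-- **FBK** (copy `FLW/FIB.lean`). A complement of `W` identifies `V` with `W × (V / W)`. -/
def S_FBK : Prop :=
  ∀ (κ : Kd) (F V : Type) [Field F] [Finite F] [AddCommGroup V] [Module F V] [FiniteDimensional F V]
    (d : ℕ) (z : F), z ≠ 0 → ∀ (g : Fin d → F[X]) (W : Submodule F V) (a : Fin d → (W →ₗ[F] W))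
      (u : Fin κ.h → (W →ₗ[F] W)) (b : Fin d → ((V ⧸ W) →ₗ[F] (V ⧸ W)))
      (v : Fin κ.h → ((V ⧸ W) →ₗ[F] (V ⧸ W))), Tl κ z g a u → Tl κ z g b v →
      Nat.card {x : (Fin d → (V →ₗ[F] V)) × (Fin κ.h → (V →ₗ[F] V)) //
          Tl κ z g x.1 x.2 ∧ ∃ h : Ik x.1 x.2 W,
            sb x.1 W h.1 = a ∧ sb x.2 W h.2 = u ∧ qt x.1 W h.1 = b ∧ qt x.2 W h.2 = v} *
        Nat.card F ^ (Module.finrank F W * Module.finrank F (V ⧸ W)) ≤
      Nat.card F ^ (κ.h * (Module.finrank F W * Module.finrank F (V ⧸ W))) *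
        (∏ j, Zc (g j) (a j) (b j)) * Nat.card (Hk κ a u b v)

def M_FBK : Prop := S_ZOK → S_FBK

/-- **TLR**. The restriction of a tuple to an invariant subspace and the induced tuple of the quotient; the multiplication of the `e i` by the
sign. (Restrictions of invertible maps to invariant subspaces of finite dimension are invertible.) -/
def S_TLR : Prop :=
  ∀ (κ : Kd) (F V : Type) [Field F] [AddCommGroup V] [Module F V] [FiniteDimensional F V]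
    (d : ℕ) (z : F) (g : Fin d → F[X]) (x : Fin d → (V →ₗ[F] V)) (e : Fin κ.h → (V →ₗ[F] V)),
    Tl κ z g x e →
    (∀ (W : Submodule F V) (h : Ik x e W),
      Tl κ z g (sb x W h.1) (sb e W h.2) ∧ Tl κ z g (qt x W h.1) (qt e W h.2)) ∧
    Tl κ z g x (fun i => sgk F κ • e i)

/-- **SMS**. Kernel and range of `f ∈ Hk` are invariant. (1) `f ↦ f v₀`, `v₀ ≠ 0` fixed, is injective. (2) the kernel is `0` or everything. -/
def S_SMS : Prop :=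
  ∀ (κ : Kd) (F A B : Type) [Field F] [Finite F] [AddCommGroup A] [Module F A] [FiniteDimensional F A]
    [AddCommGroup B] [Module F B] [FiniteDimensional F B] (d : ℕ) (α : Fin d → (A →ₗ[F] A))
    (u : Fin κ.h → (A →ₗ[F] A)) (β : Fin d → (B →ₗ[F] B)) (v : Fin κ.h → (B →ₗ[F] B)), Sk α u →
      Nat.card (Hk κ α u β v) ≤ Nat.card F ^ Module.finrank F B ∧
      ∀ f : Hk κ α u β v, f.1 ≠ 0 → Function.Injective f.1

/-! ## 3. Frobenius' formula for `GL_n` -/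

/-- **KWS**. `o0`: the sum is `X 1`. `n1`: `FLN.S_FSI` (last claim). `o1`, `n2`: `FLW.S_COM`, `FLW.S_CON`. -/
def S_KWS : Prop :=
  ∀ (κ : Kd) (G : Type) [Group G] [Fintype G] (X : G → ℂ) (H : Subgroup G), H.Normal → IsIrr X →
    ‖∑ᶠ b : Fin κ.h → H, X (wk κ fun i => (b i : G))‖ * ‖X 1‖ ^ κ.h ≤
      (Nat.card G : ℝ) ^ κ.h * ‖X 1‖

def M_KWS : Prop := FLN.S_FSI → FLW.S_COM → FLW.S_CON → S_KWS

/-- **UFR** (compare `FLW/FRO.lean`). `FLC.S_FRB` summed over `b ∈ GL_n^h`: `N |GL_n| = ∏ |cl| ∑_X ∏ (X (y j) / X 1) X 1 ∑_b X (wk b z⁻¹)`. Linear `X`: at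
most `|GL_n|^h` each, `q - 1` of them (`FLC.S_LIN`). Other `X`: `|∑_b X (wk b z⁻¹)| = |∑_b X (wk b)| ≤ |GL_n|^h X(1)^(1-h)` (`z` acts by a scalar of
absolute value `1`; `S_KWS`), `FLX.S_XMB` with `ε = θ / (2 d)`: with `δ_j = cN (y j) q^(-n²/m_j)` the term is at most
`|GL_n|^h ∏ δ_j^(1/2) X(1)^(∑ (1/m_j + ε) - d + 2 - h) = |GL_n|^h ∏ δ_j^(1/2) X(1)^(-θ/2)`; `FLC.S_ZET`: the sum is at most `|GL_n|^h ∏ δ_j^(1/2) q`.
`δ_j ≥ 1` (`FLX.S_TYP` and Cauchy-Schwarz). -/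
def S_UFR : Prop :=
  ∀ (κ : Kd) (m : List ℕ), (∀ k ∈ m, 2 ≤ k) → 0 < th κ m → ∃ r : ℕ, ∀ n, r ≤ n →
    ∀ (F : Type) [Field F] [Finite F] (z : F), z ≠ 0 → ∀ g : Fin m.length → F[X], Gp m g →
    ∀ y : Fin m.length → GL (Fin n) F, (∀ j, aeval (y j).1 (g j) = 0) →
      (Nat.card {t : (Fin m.length → GL (Fin n) F) × (Fin κ.h → GL (Fin n) F) //
          (∀ j, IsConj (y j) (t.1 j)) ∧
          (List.ofFn t.1).prod.1 * (wk κ t.2).1 = Matrix.scalar (Fin n) z} : ℝ) *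
        Nat.card (GL (Fin n) F) ≤
      (∏ j, (Nat.card {t : GL (Fin n) F // IsConj (y j) t} : ℝ)) *
        (Nat.card (GL (Fin n) F) : ℝ) ^ κ.h *
        (2 * Nat.card F * ∏ j, ((SRJ.cN (y j).1 : ℝ) *
          (Nat.card F : ℝ) ^ (-((n : ℝ) ^ 2 / m.get j))) ^ (1 / 2 : ℝ))

def M_UFR : Prop :=
  FLC.S_MN → FLC.S_FRB → FLX.S_XMB → FLC.S_ZET → FLC.S_LIN → FLX.S_TYP → S_KWS → S_UFR

/-- **UPE** (compare `FLW/UPB.lean`), all dimensions `n`. A basis; the `t_j`, `e_i` are invertible (`g_j(0) ≠ 0`). For `n ≥ r`: `S_UFR`,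
`|cl (y j)| ≤ 4^(m_j) q^(n²) / Cm (y j)` (`S_CLE`), `|GL_n|^h / |GL_n| ≤ 4 q^((h-1) n²)`: exponent
`d n² + (h - 1) n² - (d - σ) n² / 2 = κ₀ n²`. For `n < r`: at most `q^((d+h) n²)`, and `Cm ≤ q^(n²)`. -/
def S_UPE : Prop :=
  ∀ (κ : Kd) (m : List ℕ), (∀ k ∈ m, 2 ≤ k) → 0 < th κ m → ∃ C : ℝ, 0 ≤ C ∧
    ∀ (F V : Type) [Field F] [Finite F] [AddCommGroup V] [Module F V] [FiniteDimensional F V]
      (z : F), z ≠ 0 → ∀ g : Fin m.length → F[X], Gp m g →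
    ∀ y : Fin m.length → (V →ₗ[F] V), (∀ j, aeval (y j) (g j) = 0) →
      (Nat.card {t : (Fin m.length → (V →ₗ[F] V)) × (Fin κ.h → (V →ₗ[F] V)) //
          (∀ j, Cj (y j) (t.1 j)) ∧ (∀ i, IsUnit (t.2 i)) ∧
          Wk κ z (List.ofFn t.1).prod t.2 = 0} : ℝ) ≤
      (Nat.card F : ℝ) ^ (C + ((m.length + sig m) / 2 - 1 + κ.h) * (Module.finrank F V : ℝ) ^ 2) *
        ∏ j, (Cm (y j) : ℝ) ^ (-(1 / 2) : ℝ)

def M_UPE : Prop := S_PI → S_CLE → S_UFR → S_UPE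

/-! ## 4. Tuples with an invariant subspace -/

/-- **PAK** (compare `FLW/PAR.lean`). `α = dim W`, `β = dim V / W`. Sum over the classes of the `a_j`, `b_j` (`S_CLE` (1): at most
`((α+1) (β+1))^(m.sum)` possibilities): at most `q^(C + κ₀ α²) ∏ Cm^(-1/2)` and `q^(C + κ₀ β²) ∏ Cm^(-1/2)` tuples `(a, u)`, `(b, v)` (`S_TLR`, `S_UPE`), for
each at most `q^((h-1) α β) ∏ Zc H` tuples `x` (`S_FBK`), `∏ Zc ≤ ∏ (Cm (a_j) Cm (b_j))^(1/2) q^(d α β - (d-σ) n²/2)` (`S_CSE`, `r = 1`; `S_SPA`: `Zc` depends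
only on the classes). `κ₀ (α² + β²) + (d + h - 1) α β - (d-σ) n²/2 = (θ + 1) n² - (θ + 1) α β`. -/
def S_PAK : Prop :=
  ∀ (κ : Kd) (m : List ℕ), (∀ k ∈ m, 2 ≤ k) → 0 < th κ m → ∃ C : ℝ, 0 ≤ C ∧
    ∀ (F V : Type) [Field F] [Finite F] [AddCommGroup V] [Module F V] [FiniteDimensional F V]
      (z : F), z ≠ 0 → ∀ g : Fin m.length → F[X], Gp m g → ∀ (W : Submodule F V) (H : ℝ), 0 ≤ H →
      (Nat.card {x : (Fin m.length → (V →ₗ[F] V)) × (Fin κ.h → (V →ₗ[F] V)) //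
          Tl κ z g x.1 x.2 ∧ ∃ h : Ik x.1 x.2 W,
            (Nat.card (Hk κ (sb x.1 W h.1) (sb x.2 W h.2) (qt x.1 W h.1) (qt x.2 W h.2)) : ℝ) ≤ H} : ℝ) ≤
      ((Module.finrank F V : ℝ) + 1) ^ (2 * m.sum) *
        (Nat.card F : ℝ) ^ (C + (th κ m + 1) * (Module.finrank F V : ℝ) ^ 2 -
          (th κ m + 1) * (Module.finrank F W * Module.finrank F (V ⧸ W))) * H

def M_PAK : Prop := S_CLE → S_CSE → S_SPA → S_UPE → S_TLR → S_FBK → S_PAK

/-- **ARK**. Sum over the classes of the `b_j` (`S_CLE`, at most `(β+1)^(m.sum)`), `S_UPE`, `om` depends only on the classes (`S_SPA`), and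
`∏ Zc^r ≤ ∏ Cm (a_j)^(r²/2) Cm (b_j)^(1/2) q^(d r k β - (d-σ) (r k + β)²/2)` (`S_CSE`), `Cm (a_j) ≤ q^(k²)`. -/
def S_ARK : Prop :=
  ∀ (κ : Kd) (m : List ℕ), (∀ k ∈ m, 2 ≤ k) → 0 < th κ m → ∀ k r : ℕ, ∃ C : ℝ, 0 ≤ C ∧
    ∀ (F A B : Type) [Field F] [Finite F] [AddCommGroup A] [Module F A] [FiniteDimensional F A]
      [AddCommGroup B] [Module F B] [FiniteDimensional F B] (z : F), z ≠ 0 →
    ∀ g : Fin m.length → F[X], Gp m g → Module.finrank F A = k →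
    ∀ a : Fin m.length → (A →ₗ[F] A), (∀ j, aeval (a j) (g j) = 0) →
      Ar κ z g r a B ≤ ((Module.finrank F B : ℝ) + 1) ^ m.sum *
        (Nat.card F : ℝ) ^ (C + ((m.length + sig m) / 2 - 1 + κ.h) * (Module.finrank F B : ℝ) ^ 2 -
          (m.length - sig m) * ((Module.finrank F B : ℝ) + r * k) ^ 2 / 2)

def M_ARK : Prop := S_CLE → S_CSE → S_SPA → S_UPE → S_ARK

/-- **STK**, one step. `|Hk|` is `1` plus the number of the `f ≠ 0`, which are injective (`S_SMS`): `β ≥ k`. For each of the at most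
`q^(k β)` injective `f : A → B` let `W' = range f`, `a' = f a f⁻¹`, `u' = sgk f u f⁻¹` on `W'` (`f` is an isomorphism `A ≃ W'`, `(a', u')` is again simple and
satisfies `Tl`, `S_TLR`). The `(b, v)` with `f ∈ Hk κ a u b v` preserve `W'` and induce `(a', u')` on it; they induce a `(b'', v'')` on `B / W'` with `Tl`
(`S_TLR`), and for given `(b'', v'')` their number is at most `q^((h-1) k (β-k)) ∏ Zc (a'_j, b''_j) |Hk κ a' u' b'' v''|` (`S_FBK`), which is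
`q^((d+h-1) k (β-k)) om (a', b'') |Hk|`. And `om (a, b) ≤ om (a', b'')`: `Zc (a, b) ≤ Zc (a, b|W') Zc (a, b'')`, `Zc (a, b|W') ≤ q^(k²)`,
`Zc (a, b'') = Zc (a', b'')` (`S_SPA`). So the sum is at most `q^((d+h-1) k (β-k)) Zr (r+1) a' u' (B / W')`. -/
def S_STK : Prop :=
  ∀ (κ : Kd) (F A B : Type) [Field F] [Finite F] [AddCommGroup A] [Module F A] [FiniteDimensional F A]
    [AddCommGroup B] [Module F B] [FiniteDimensional F B] (d : ℕ) (z : F), z ≠ 0 →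
    ∀ (g : Fin d → F[X]) (a : Fin d → (A →ₗ[F] A)) (u : Fin κ.h → (A →ₗ[F] A)), Tl κ z g a u →
      Sk a u → ∀ (r : ℕ) (K : ℝ), 0 ≤ K →
      (∀ (A' B' : Type) [AddCommGroup A'] [Module F A'] [FiniteDimensional F A']
        [AddCommGroup B'] [Module F B'] [FiniteDimensional F B'] (a' : Fin d → (A' →ₗ[F] A'))
        (u' : Fin κ.h → (A' →ₗ[F] A')), Tl κ z g a' u' → Sk a' u' →
        Module.finrank F A' = Module.finrank F A →
        Module.finrank F B' + Module.finrank F A = Module.finrank F B →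
          Zr κ z g (r + 1) a' u' B' ≤ K) →
      Zr κ z g r a u B ≤ Ar κ z g r a B + K * (Nat.card F : ℝ) ^
        ((Module.finrank F A : ℝ) * Module.finrank F B + ((d : ℝ) + κ.h - 1) *
          (Module.finrank F A * ((Module.finrank F B : ℝ) - Module.finrank F A)))

def M_STK : Prop := S_TLR → S_FBK → S_SPA → S_SMS → S_STK

/-- **AVK**. `U_r(β) = κ₀ β² - (d-σ) (β + r k)²/2`, `M = m.sum`. Claim for `j = 0, 1, …`: for all `r ≤ R` (fixed, large) and all `B` (`β = dim B`), `(a, u)`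
simple of dimension `k ≥ 1`: `Zr r a u B ≤ (β+1)^M q^(C_j + U_r(β)) (1 + q^((1 - j θ k) β))` for `r + j ≤ R`. `j = 0`: `|Hk| ≤ q^β` (`S_SMS`), `S_ARK`
(`C_0` the maximum of the constants for `r ≤ R`). Step: `S_STK`, `S_ARK` and the claim for `j`, `r + 1`, `β - k`:
`k β + (d+h-1) k (β-k) + U_(r+1)(β-k) - U_r(β) = - θ k β + (κ₀ - (d + h - 1)) k²` (`2 κ₀ = d + σ - 2 + 2 h`), and
`(1 - j θ k) (β - k) ≤ (1 - j θ k) β + j θ k²`, `1 + q^(- θ k β) (1 + q^((1 - j θ k) β)) ≤ 2 (1 + q^((1 - (j+1) θ k) β))`. Take `j` with `j θ k ≥ 1`,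
`R = j + 1`, `r = 1`. -/
def S_AVK : Prop :=
  ∀ (κ : Kd) (m : List ℕ), (∀ k ∈ m, 2 ≤ k) → 0 < th κ m → ∀ k : ℕ, 1 ≤ k → ∃ C : ℝ, 0 ≤ C ∧
    ∀ (F A B : Type) [Field F] [Finite F] [AddCommGroup A] [Module F A] [FiniteDimensional F A]
      [AddCommGroup B] [Module F B] [FiniteDimensional F B] (z : F), z ≠ 0 →
    ∀ g : Fin m.length → F[X], Gp m g → Module.finrank F A = k →
    ∀ (a : Fin m.length → (A →ₗ[F] A)) (u : Fin κ.h → (A →ₗ[F] A)), Tl κ z g a u → Sk a u →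
      Zr κ z g 1 a u B ≤ ((Module.finrank F B : ℝ) + 1) ^ m.sum *
        (Nat.card F : ℝ) ^ (C + ((m.length + sig m) / 2 - 1 + κ.h) * (Module.finrank F B : ℝ) ^ 2 -
          (m.length - sig m) * ((Module.finrank F B : ℝ) + k) ^ 2 / 2)

def M_AVK : Prop := S_SMS → S_ARK → S_STK → S_AVK

/-- **SUK**. At most `q^((d+h) k²)` tuples `(a, u)` on `W`; for each of them the number of the `x` is at most
`∑_(b,v) q^((h-1) k β) ∏ Zc |Hk| = q^((d+h-1) k β) Zr 1 a u (V / W)` (`S_FBK`, `S_TLR`), `S_AVK`, `β = n - k`: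
`(d+h-1) k β + κ₀ β² - (d-σ) n²/2 = (θ+1) n² - (θ+1) k β - κ₀ k²`. -/
def S_SUK : Prop :=
  ∀ (κ : Kd) (m : List ℕ), (∀ k ∈ m, 2 ≤ k) → 0 < th κ m → ∀ k : ℕ, 1 ≤ k → ∃ C : ℝ, 0 ≤ C ∧
    ∀ (F V : Type) [Field F] [Finite F] [AddCommGroup V] [Module F V] [FiniteDimensional F V]
      (z : F), z ≠ 0 → ∀ g : Fin m.length → F[X], Gp m g → ∀ W : Submodule F V,
      Module.finrank F W = k →
      (Nat.card {x : (Fin m.length → (V →ₗ[F] V)) × (Fin κ.h → (V →ₗ[F] V)) //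
          Tl κ z g x.1 x.2 ∧ ∃ h : Ik x.1 x.2 W, Sk (sb x.1 W h.1) (sb x.2 W h.2)} : ℝ) ≤
      ((Module.finrank F V : ℝ) + 1) ^ m.sum *
        (Nat.card F : ℝ) ^ (C + (th κ m + 1) * (Module.finrank F V : ℝ) ^ 2 -
          (th κ m + 1) * (k * ((Module.finrank F V : ℝ) - k)))

def M_SUK : Prop := S_TLR → S_FBK → S_AVK → S_SUK

/-- **REK** (compare `FLW/RED.lean`). The tuple as a tuple of endomorphisms of `F^n`. Let `W` be a nonzero invariant subspace of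
minimal dimension `k`: it is simple, `1 ≤ k ≤ n - 1`, `β = n - k`. At most `4 q^(k β)` subspaces `W` of dimension `k` (`S_SUB`). If `k ≥ 2/θ` then
`|Hk| ≤ q^β ≤ q^(θ k β / 2)` (`S_SMS`): `S_PAK` with `H = q^(θ k β / 2)`. If `k < 2/θ`: `S_SUK`, `C` the maximum of these finitely many
constants. In both cases the exponent is at most `C + (θ+1) n² - (θ/2) k β`, `k β ≥ n - 1`. -/
def S_REK : Prop :=
  ∀ (κ : Kd) (m : List ℕ), (∀ k ∈ m, 2 ≤ k) → 0 < th κ m → ∃ C : ℝ, 0 ≤ C ∧ ∀ n : ℕ, 1 ≤ n →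
    ∀ (F : Type) [Field F] [Finite F] (z : F), z ≠ 0 → ∀ g : Fin m.length → F[X], Gp m g →
      (Nat.card {t : (Fin m.length → GL (Fin n) F) × (Fin κ.h → GL (Fin n) F) //
        (∀ j, aeval (t.1 j).1 (g j) = 0) ∧
        (List.ofFn t.1).prod.1 * (wk κ t.2).1 = Matrix.scalar (Fin n) z ∧
        ∃ W : Submodule F (Fin n → F), W ≠ ⊥ ∧ W ≠ ⊤ ∧
          (∀ j, ∀ w ∈ W, (t.1 j).1.mulVec w ∈ W) ∧ ∀ i, ∀ w ∈ W, (t.2 i).1.mulVec w ∈ W} : ℝ) ≤
      ((n : ℝ) + 1) ^ C * (Nat.card F : ℝ) ^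
        ((th κ m + 1) * (n : ℝ) ^ 2 + C - th κ m / 2 * n)

def M_REK : Prop := S_SUB → S_SMS → S_PAK → S_SUK → S_REK

/-! ## 5. Homomorphisms and lifts -/

/-- **GRP**: `FL0.S_HO0`, `FLN.S_HO`, `FLW.S_HO`; the range of `ρ` is generated by the images of the generators. -/
def S_GRP : Prop :=
  ∀ (G : Type) [Group G] (m : List ℕ) (Q : Subgroup G → Prop),
    (Nat.card (OGroup 0 m →* G) = Nat.card (Tk .o0 G m) ∧
      prob (OGroup 0 m) G (fun ρ => Q ρ.range) = prk .o0 G m Q) ∧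
    (Nat.card (NGroup 1 m →* G) = Nat.card (Tk .n1 G m) ∧
      prob (NGroup 1 m) G (fun ρ => Q ρ.range) = prk .n1 G m Q) ∧
    (Nat.card (OGroup 1 m →* G) = Nat.card (Tk .o1 G m) ∧
      prob (OGroup 1 m) G (fun ρ => Q ρ.range) = prk .o1 G m Q) ∧
    (Nat.card (NGroup 2 m →* G) = Nat.card (Tk .n2 G m) ∧
      prob (NGroup 2 m) G (fun ρ => Q ρ.range) = prk .n2 G m Q)

def M_GRP : Prop := FL0.S_HO0 → FLN.S_HO → FLW.S_HO → S_GRP

/-- **LFK** (as `FLW/LFH.lean`; the fibres of `SL_n^(d+h) → PSL_n^(d+h)` have `|Z|^(d+h)` elements). -/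
def S_LFK : Prop :=
  ∀ (κ : Kd) (n : ℕ) (F : Type) [Field F] [Finite F] (m : List ℕ)
    (E : (Fin m.length → PS n F) → (Fin κ.h → PS n F) → Prop),
    Nat.card {A : (Fin m.length → SL n F) × (Fin κ.h → SL n F) //
        (∀ j, A.1 j ^ m.get j ∈ Subgroup.center (SL n F)) ∧
        E (fun j => mk (A.1 j)) (fun i => mk (A.2 i)) ∧
        (List.ofFn A.1).prod * wk κ A.2 ∈ Subgroup.center (SL n F)} =
      Nat.card (Subgroup.center (SL n F)) ^ (m.length + κ.h) *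
        Nat.card {p : Tk κ (PS n F) m // E p.1.1 p.1.2}

/-- **NSG** (compare `FLW/FRO.lean`, `FLW/SMC.lean`). `C_j` the image of `CA n F m_j` in `GL_n`, invariant under conjugation; `H` the image of `SL_n`.
`FLC.S_FRB`, summed over the tuples of classes in `∏ C_j` and over `b ∈ H^h` (product `s wk(b)⁻¹`), `S_j = ∑_{t ∈ C_j} X t`:
`N |GL_n| = ∑_X X 1 ∏ (S_j / X 1) ∑_{b ∈ H^h} X(wk b s⁻¹)` (or directly, as in `SRJ.S_PVL` (2)). Linear `X = ld l` (`FLC.S_LIN`): every term is `∏ |C_j| |SL_n|^h` (all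
determinants are `1`), sum `(q-1) ∏ |C_j| |SL_n|^h = |GL_n| / |SL_n| · ⋯`. Others: `|S_j| ≤ |C_j| X(1)^(1/m_j + ε)` (`FLX.S_SBX`, `ε = θ / (2 d)`),
`|∑_b| ≤ |GL_n|^h X(1)^(1-h)` (`S_KWS`): at most `∏ |C_j| |GL_n|^h X(1)^(-θ/2)`, `FLC.S_ZET`: sum at most `∏ |C_j| |GL_n|^h (q-1) q^(-c' n)`;
`|GL_n|^h = (q-1)^h |SL_n|^h`, `(q-1)^h ≤ q^(c' n / 2)`. -/
def S_NSG : Prop :=
  ∀ (κ : Kd) (m : List ℕ), (∀ k ∈ m, 2 ≤ k) → 0 < th κ m → ∃ (c : ℝ) (r : ℕ), 0 < c ∧ 1 ≤ r ∧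
    ∀ n, r ≤ n → ∀ (F : Type) [Field F] [Finite F], ∀ s ∈ Subgroup.center (SL n F),
      |(Nat.card {A : (Fin m.length → SL n F) × (Fin κ.h → SL n F) //
          (∀ j, A.1 j ^ m.get j ∈ Subgroup.center (SL n F)) ∧
          (List.ofFn A.1).prod * wk κ A.2 = s} : ℝ) * Nat.card (SL n F) -
          (∏ j, (Nat.card (CA n F (m.get j)) : ℝ)) * (Nat.card (SL n F) : ℝ) ^ κ.h| ≤
        (∏ j, (Nat.card (CA n F (m.get j)) : ℝ)) * (Nat.card (SL n F) : ℝ) ^ κ.h *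
          (Nat.card F : ℝ) ^ (-c * (n : ℝ))

def M_NSG : Prop :=
  FLC.S_MN → FLC.S_FRB → SRJ.S_PVL → FLX.S_SBX → FLC.S_ZET → FLC.S_LIN → S_KWS → S_NSG

/-- **CTG** (compare `FLW/CNT.lean`). The sum over `s ∈ Z` of the numbers of `S_NSG` is `|Z|^(d+h)` times `|Tk|` (`S_LFK`), `|CA n F k| = |Z| jn k`
(`FL0.S_LFH`), `|SL_n| = |Z| |PSL_n|`. -/
def S_CTG : Prop :=
  ∀ (κ : Kd) (m : List ℕ), (∀ k ∈ m, 2 ≤ k) → 0 < th κ m → ∃ (c : ℝ) (r : ℕ), 0 < c ∧ 1 ≤ r ∧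
    ∀ n, r ≤ n → ∀ (F : Type) [Field F] [Finite F],
      |(Nat.card (Tk κ (PS n F) m) : ℝ) * Nat.card (PS n F) /
          ((Nat.card (PS n F) : ℝ) ^ κ.h * JJ (PS n F) m) - 1| ≤ (Nat.card F : ℝ) ^ (-c * (n : ℝ))

def M_CTG : Prop := FL0.S_LFH → S_LFK → S_NSG → S_CTG

/-- **LOG** (compare `FLW/LOW.lean`): `(1/2) |PSL_n|^(h-1) ∏ jn ≥ (1/2) |PSL_n|^(d+h-1) q^(∑ (- n²/m_j - 4 m_j²))`, `|PSL_n| ≥ q^(n²-2) / 4`. -/
def S_LOG : Prop :=
  ∀ (κ : Kd) (m : List ℕ), (∀ k ∈ m, 2 ≤ k) → 0 < th κ m → ∃ (C : ℝ) (r : ℕ), 0 ≤ C ∧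
    ∀ n, r ≤ n → ∀ (F : Type) [Field F] [Finite F],
      (Nat.card F : ℝ) ^ ((th κ m + 1) * (n : ℝ) ^ 2 - C) ≤ Nat.card (Tk κ (PS n F) m)

def M_LOG : Prop := S_PI → S_PJ → S_CTG → S_LOG

/-- **FIG** (compare `FLW/FII.lean`). If `rg p` is reducible then all preimages of its generators preserve some `W ≠ ⊥, ⊤`. The number of such
`p` is at most the number of the tuples `(A, B)` in `SL_n` (lifts) with `A_j^(m_j) = λ_j` scalar, `∏ A_j wk B = s` scalar, all preserving `W`: for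
given `(λ_j)`, `s` (at most `q^(d+1)` possibilities, all `≠ 0`) `S_REK` with `g_j = X^(m_j) - λ_j`, `z = s`. Divide by `S_LOG`, `S_POL`. -/
def S_FIG : Prop :=
  ∀ (κ : Kd) (m : List ℕ), (∀ k ∈ m, 2 ≤ k) → 0 < th κ m → ∃ (c : ℝ) (r : ℕ), 0 < c ∧
    ∀ n, r ≤ n → ∀ (F : Type) [Field F] [Finite F],
      prk κ (PS n F) m (fun H => ¬ Irr H) ≤ (Nat.card F : ℝ) ^ (-c * (n : ℝ))

def M_FIG : Prop := S_REK → S_LOG → S_POL → S_FIG

/-! ## 6. Subgroups -/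

/-- **SSG** (compare `FLW/FIII.lean`). For one conjugate `M'` of `M` at most `|M|^(d+h-1)` tuples (`t_1` is determined by the others, `d ≥ 1`).
In total at most `|S| |G| |M|^(d+h-2) ≤ |S| |G|^(d+h-1) q^(-ϑ (d+h-2) n²)`, `d + h ≥ 3`, and `(d+h-1) - ϑ (d+h-2) < θ + 1`. Divide by `S_LOG`. -/
def S_SSG : Prop :=
  ∀ (κ : Kd) (m : List ℕ), (∀ k ∈ m, 2 ≤ k) → 0 < th κ m → ∀ ϑ : ℝ,
    (m.length - sig m) < ϑ * (m.length + κ.h - 2) →
    ∃ (η : ℝ) (r : ℕ), 0 < η ∧ ∀ n, r ≤ n → ∀ (F : Type) [Field F] [Finite F],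
    ∀ S : Set (Subgroup (PS n F)), (S.ncard : ℝ) ≤ (Nat.card F : ℝ) ^ (η * (n : ℝ) ^ 2) →
      (∀ M ∈ S, (Nat.card F : ℝ) ^ (ϑ * (n : ℝ) ^ 2) ≤ M.index) →
      prk κ (PS n F) m (fun H => ∃ M ∈ S, InConj H M) ≤ (Nat.card F : ℝ) ^ (-(n : ℝ))

def M_SSG : Prop := S_LOG → S_SSG

/-- **PRG** (copy `FGQ/PRQ.lean`). The number of the tuples `p` with `All (rg p) (Q T)` is at most
`(Bd C (μ n²))^h ∏_(j≠i) (q Bd C (μ (1-1/m_j) n²))`: `t_i` is determined by the others. Divide by `S_LOG`: the exponent is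
`(1 - μ) + μ (h + σ - 1 + 1/m_i) - (θ + 1) = - (1-μ) θ + μ / m_i ≤ - (θ - 1/m_i) / 2` (times `n²`). -/
def S_PRG : Prop :=
  ∀ (κ : Kd) (m : List ℕ), (∀ k ∈ m, 2 ≤ k) → 0 < th κ m → (∃ k ∈ m, 1 / (k : ℝ) < th κ m) →
    ∀ C : ℝ, 0 ≤ C → ∃ r : ℕ, ∀ n, r ≤ n → ∀ (F : Type) [Field F] [Finite F],
    ∀ (I : Type) [Finite I] (Q : I → Matrix (Fin n) (Fin n) F → Prop) (μ : ℝ), 0 ≤ μ → μ ≤ 1 / 2 →
      (Nat.card I : ℝ) ≤ Bd C n F ((1 - μ) * (n : ℝ) ^ 2) →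
      (∀ T, ∀ k ∈ m, ∀ β : F, (Nat.card {y : GL (Fin n) F //
          y.1 ^ k = β • (1 : Matrix (Fin n) (Fin n) F) ∧ Q T y.1} : ℝ) ≤
        Bd C n F (μ * (1 - 1 / (k : ℝ)) * (n : ℝ) ^ 2)) →
      (∀ T, (Nat.card {y : GL (Fin n) F // Q T y.1} : ℝ) ≤ Bd C n F (μ * (n : ℝ) ^ 2)) →
      prk κ (PS n F) m (fun H => ∃ T, All H (Q T)) ≤ (Nat.card F : ℝ) ^ (-(2 * (n : ℝ)))

def M_PRG : Prop := S_LOG → S_PRG

/-- **GEG** (copy `FGQ/GEQ.lean`). -/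
def S_GEG : Prop :=
  ∀ (κ : Kd) (m : List ℕ), (∀ k ∈ m, 2 ≤ k) → 0 < th κ m → (∃ k ∈ m, 1 / (k : ℝ) < th κ m) →
    ∃ r : ℕ, ∀ n, r ≤ n → ∀ (F : Type) [Field F] [Finite F],
      prk κ (PS n F) m (fun H => Irr H ∧ Geo H) ≤ (Nat.card F : ℝ) ^ (-((n : ℝ) / 2))

def M_GEG : Prop := S_PRG → S_C2R → S_C2N → FGQ.S_C2Q → S_C2S → S_C3R → S_C3N → FGQ.S_C3Q →
  S_C3S → S_C4N → FGQ.S_C4Q → S_C4S → S_C5N → FGQ.S_C5Q → S_C5S → S_C8R → S_C8N → FGQ.S_C8Q →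
  S_C8S → S_GEG

/-- **GAG** (copy `FGQ/GAQ.lean`). -/
def S_GAG : Prop :=
  ∀ (κ : Kd) (m : List ℕ), (∀ k ∈ m, 2 ≤ k) → 0 < th κ m → (∃ k ∈ m, 1 / (k : ℝ) < th κ m) →
    ∃ r : ℕ, ∀ n, r ≤ n → ∀ (F : Type) [Field F] [Finite F],
      prk κ (PS n F) m (fun H => C6 H ∨ C7 H) ≤ (Nat.card F : ℝ) ^ (-((n : ℝ) / 2))

def M_GAG : Prop := S_PRG → S_C6N → S_C6S → S_C7N → S_C7S → S_GAG

/-- the final statement for the tuples -/
def S_FNK : Prop :=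
  ∀ (κ : Kd) (m : List ℕ), (∀ k ∈ m, 2 ≤ k) → 0 < th κ m → ∀ ϑ : ℝ,
    (m.length - sig m) < ϑ * (m.length + κ.h - 2) →
    ∃ (c : ℝ) (r : ℕ), 0 < c ∧ ∀ n, r ≤ n → ∀ (F : Type) [Field F] [Finite F],
      |(Nat.card (Tk κ (PS n F) m) : ℝ) * (Nat.card (PS n F) : ℝ) ^ (1 - (κ.h : ℤ)) /
          (m.map fun k => (Nat.card {t : PS n F // t ^ k = 1} : ℝ)).prod - 1| ≤
        (Nat.card F : ℝ) ^ (-c * (n : ℝ)) ∧
      ∀ S : Set (Subgroup (PS n F)), (S.ncard : ℝ) ≤ (Nat.card F : ℝ) ^ (c * (n : ℝ) ^ 2) →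
        (∀ M ∈ S, (Nat.card F : ℝ) ^ (ϑ * (n : ℝ) ^ 2) ≤ M.index) →
        1 - (Nat.card F : ℝ) ^ (-c * (n : ℝ)) ≤ prk κ (PS n F) m
          (fun H => Irr H ∧ (∀ M ∈ S, ¬ InConj H M) ∧
            ((∃ k ∈ m, 1 / (k : ℝ) < sig m + κ.h - 2) → ¬ Asch H))

/-- **FNK** (compare `FGE/FN2.lean`): `S_CTG`, and the sum of the four proportions. -/
def M_FNK : Prop := S_CTG → S_FIG → S_SSG → S_GEG → S_GAG → S_FNK

/-- **MAG**: `S_GRP` and `S_FNK` for the four `κ`. -/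
def M_MAG : Prop := S_GRP → S_FNK → MainG

end

end FLY
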