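import Mathlib
import Pool.Agent.FLY.StY

/-!
# Module ARK: the sum of `om ^ r` over the tuples, summed over the classes
-/

set_option autoImplicit false

namespace FLY

open RSF FL0 FGE Polynomial Pool.Agent.Lib_helper13

noncomputable section

theorem ark_sum_inv (m : List ℕ) :
    ∑ j : Fin m.length, (1 / (m.get j : ℝ)) = m.length - sig m := by
  unfold sig
  induction m with
  | nil => simp
  | cons k m ih =>
    have h : ∑ j : Fin (k :: m).length, (1 / ((k :: m).get j : ℝ)) =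
        1 / (k : ℝ) + ∑ j : Fin m.length, (1 / (m.get j : ℝ)) :=
      Fin.sum_univ_succ (n := m.length) fun j => (1 / ((k :: m).get j : ℝ))
    rw [h, ih]
    simp only [List.length_cons, List.map_cons, List.sum_cons]
    push_cast
    ring

theorem ark_prod_pow (m : List ℕ) (x : ℝ) :
    ∏ j : Fin m.length, x ^ (m.get j) = x ^ m.sum := by
  induction m with
  | nil => simp
  | cons k m ih =>
    have h : ∏ j : Fin (k :: m).length, x ^ ((k :: m).get j) =
        x ^ k * ∏ j : Fin m.length, x ^ (m.get j) :=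
      Fin.prod_univ_succ (n := m.length) fun j => x ^ ((k :: m).get j)
    rw [h, ih, List.sum_cons, pow_add]

theorem ark_Cm_le {F V : Type} [Field F] [Finite F] [AddCommGroup V] [Module F V]
    [FiniteDimensional F V] (a : V →ₗ[F] V) :
    (Cm a : ℝ) ≤ (Nat.card F : ℝ) ^ (Module.finrank F V ^ 2) := by
  have : Finite V := Module.finite_of_finite F
  have : Finite (V →ₗ[F] V) := Module.finite_of_finite F
  have h1 : Cm a ≤ Nat.card (V →ₗ[F] V) := by
    unfold Cm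
    exact Nat.card_le_card_of_injective _ Subtype.val_injective
  have h2 : Nat.card (V →ₗ[F] V) = Nat.card F ^ (Module.finrank F V ^ 2) := by
    rw [Module.natCard_eq_pow_finrank (K := F), Module.finrank_linearMap, _root_.sq]
  rw [h2] at h1
  exact_mod_cast h1

theorem ark_Cm_pos {F V : Type} [Field F] [Finite F] [AddCommGroup V] [Module F V]
    [FiniteDimensional F V] (a : V →ₗ[F] V) : (0 : ℝ) < (Cm a : ℝ) := by
  have : Finite V := Module.finite_of_finite F
  have : Finite (V →ₗ[F] V) := Module.finite_of_finite F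
  have : Nonempty {c : V →ₗ[F] V // c ∘ₗ a = a ∘ₗ c} := ⟨⟨0, by simp⟩⟩
  have h : 0 < Cm a := by
    unfold Cm
    exact Nat.card_pos
  exact_mod_cast h

/-- one factor -/
theorem ark_factor (hCSE : S_CSE) {F A B : Type} [Field F] [Finite F] [AddCommGroup A] [Module F A]
    [FiniteDimensional F A] [AddCommGroup B] [Module F B] [FiniteDimensional F B] (g : F[X])
    (hg : g.Monic) (hd : 1 ≤ g.natDegree) (a : A →ₗ[F] A) (b : B →ₗ[F] B) (ha : aeval a g = 0)
    (hb : aeval b g = 0) (r : ℕ) :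
    ((Zc g a b : ℝ) / (Nat.card F : ℝ) ^ (Module.finrank F A * Module.finrank F B)) ^ r ≤
      (Nat.card F : ℝ) ^ ((((Module.finrank F A : ℝ) * r) ^ 2 -
        ((r : ℝ) * Module.finrank F A + Module.finrank F B) ^ 2 * (1 / (g.natDegree : ℝ))) / 2) *
        (Cm b : ℝ) ^ (1 / 2 : ℝ) := by
  have hq : (0 : ℝ) < (Nat.card F : ℝ) := by exact_mod_cast Nat.card_pos
  have hCb := ark_Cm_pos b
  have hCa := ark_Cm_pos a
  have h := hCSE F A B g hg hd a b ha hb r
  set k : ℝ := (Module.finrank F A : ℝ) with hk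
  set β : ℝ := (Module.finrank F B : ℝ) with hβ
  set q : ℝ := (Nat.card F : ℝ) with hqd
  set Z : ℝ := (Zc g a b : ℝ) with hZ
  have hZ0 : 0 ≤ Z := Nat.cast_nonneg _
  set D : ℝ := (g.natDegree : ℝ) with hD
  have hpow : q ^ (Module.finrank F A * Module.finrank F B) = q ^ (k * β) := by
    rw [hk, hβ, ← Nat.cast_mul, Real.rpow_natCast]
  rw [hpow]
  have hx0 : 0 ≤ (Z / q ^ (k * β)) ^ r := by positivity
  have hy0 : 0 ≤ q ^ (((k * r) ^ 2 - ((r : ℝ) * k + β) ^ 2 * (1 / D)) / 2) *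
      (Cm b : ℝ) ^ (1 / 2 : ℝ) := by positivity
  have hCa2 : (Cm a : ℝ) ^ (r ^ 2) ≤ q ^ ((k * r) ^ 2) := by
    have h1 : (Cm a : ℝ) ≤ q ^ (k ^ 2) := by
      have := ark_Cm_le a
      rw [← hqd] at this
      have e : k ^ 2 = ((Module.finrank F A ^ 2 : ℕ) : ℝ) := by
        rw [hk]
        push_cast
        rfl
      rw [e, Real.rpow_natCast]
      exact this
    calc (Cm a : ℝ) ^ (r ^ 2) ≤ (q ^ (k ^ 2)) ^ (r ^ 2) := pow_le_pow_left₀ hCa.le h1 _
      _ = q ^ ((k * r) ^ 2) := by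
        rw [← Real.rpow_natCast, ← Real.rpow_mul hq.le]
        congr 1
        push_cast
        ring
  refine le_of_sq_le_sq ?_ hy0
  have hysq : (q ^ (((k * r) ^ 2 - ((r : ℝ) * k + β) ^ 2 * (1 / D)) / 2) *
      (Cm b : ℝ) ^ (1 / 2 : ℝ)) ^ 2 =
      q ^ ((k * r) ^ 2 - ((r : ℝ) * k + β) ^ 2 * (1 / D)) * Cm b := by
    have e1 : ∀ x : ℝ, (q ^ (x / 2)) ^ 2 = q ^ x := by
      intro x
      rw [← Real.rpow_natCast (q ^ (x / 2)) 2, ← Real.rpow_mul hq.le]
      congr 1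
      push_cast
      ring
    have e2 : ((Cm b : ℝ) ^ (1 / 2 : ℝ)) ^ 2 = Cm b := by
      rw [← Real.rpow_natCast ((Cm b : ℝ) ^ (1 / 2 : ℝ)) 2, ← Real.rpow_mul hCb.le]
      norm_num
    rw [mul_pow, e1, e2]
  have hxsq : ((Z / q ^ (k * β)) ^ r) ^ 2 = Z ^ (2 * r) * q ^ (-(2 * (r : ℝ) * k * β)) := by
    rw [← pow_mul, div_pow, mul_comm r 2, div_eq_mul_inv]
    congr 1
    rw [← Real.rpow_natCast (q ^ (k * β)), ← Real.rpow_mul hq.le, ← Real.rpow_neg hq.le]
    congr 1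
    push_cast
    ring
  rw [hysq, hxsq]
  calc Z ^ (2 * r) * q ^ (-(2 * (r : ℝ) * k * β))
      ≤ ((Cm a : ℝ) ^ (r ^ 2) * Cm b * q ^ (2 * (r : ℝ) * k * β - ((r : ℝ) * k + β) ^ 2 / D)) *
        q ^ (-(2 * (r : ℝ) * k * β)) := by gcongr
    _ ≤ (q ^ ((k * r) ^ 2) * Cm b * q ^ (2 * (r : ℝ) * k * β - ((r : ℝ) * k + β) ^ 2 / D)) *
        q ^ (-(2 * (r : ℝ) * k * β)) := by gcongr
    _ = (q ^ ((k * r) ^ 2) * (q ^ (2 * (r : ℝ) * k * β - ((r : ℝ) * k + β) ^ 2 / D) *
        q ^ (-(2 * (r : ℝ) * k * β)))) * Cm b := by ring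
    _ = q ^ ((k * r) ^ 2 - ((r : ℝ) * k + β) ^ 2 * (1 / D)) * Cm b := by
        rw [← Real.rpow_add hq, ← Real.rpow_add hq]
        congr 2
        ring

theorem ark_om_congr (hSPA : S_SPA) {F A B : Type} [Field F] [Finite F] [AddCommGroup A]
    [Module F A] [FiniteDimensional F A] [AddCommGroup B] [Module F B] [FiniteDimensional F B]
    {d : ℕ} (g : Fin d → F[X]) (a : Fin d → (A →ₗ[F] A)) (b b' : Fin d → (B →ₗ[F] B))
    (ha : ∀ j, aeval (a j) (g j) = 0) (hb : ∀ j, aeval (b j) (g j) = 0)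
    (h : ∀ j, Cj (b j) (b' j)) : om g a b' = om g a b := by
  unfold om
  refine Finset.prod_congr rfl fun j _ => ?_
  obtain ⟨e, he⟩ := h j
  rw [(hSPA F A B (g j) (a j) (b j) (ha j) (hb j)).2.2.1 B (b' j) e he]

theorem ark_om_nonneg {F A B : Type} [Field F] [AddCommGroup A] [Module F A] [AddCommGroup B]
    [Module F B] {d : ℕ} (g : Fin d → F[X]) (a : Fin d → (A →ₗ[F] A)) (b : Fin d → (B →ₗ[F] B)) :
    0 ≤ om g a b := by
  unfold om
  exact Finset.prod_nonneg fun j _ => by positivity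

theorem ark_om_le (hCSE : S_CSE) {F A B : Type} [Field F] [Finite F] [AddCommGroup A]
    [Module F A] [FiniteDimensional F A] [AddCommGroup B] [Module F B] [FiniteDimensional F B]
    (m : List ℕ) (hm : ∀ k ∈ m, 2 ≤ k) (g : Fin m.length → F[X]) (hg : Gp m g)
    (a : Fin m.length → (A →ₗ[F] A)) (b : Fin m.length → (B →ₗ[F] B))
    (ha : ∀ j, aeval (a j) (g j) = 0) (hb : ∀ j, aeval (b j) (g j) = 0) (r : ℕ) :
    om g a b ^ r ≤
      (Nat.card F : ℝ) ^ ((m.length * ((Module.finrank F A : ℝ) * r) ^ 2 -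
        ((r : ℝ) * Module.finrank F A + Module.finrank F B) ^ 2 * (m.length - sig m)) / 2) *
        ∏ j, (Cm (b j) : ℝ) ^ (1 / 2 : ℝ) := by
  have hq : (0 : ℝ) < (Nat.card F : ℝ) := by exact_mod_cast Nat.card_pos
  have h1 : ∀ j : Fin m.length, 1 ≤ (g j).natDegree := by
    intro j
    rw [(hg j).2.1]
    have := hm (m.get j) (List.get_mem m j)
    omega
  have hD : ∀ j : Fin m.length, ((g j).natDegree : ℝ) = m.get j := fun j => by rw [(hg j).2.1]
  unfold om
  rw [← Finset.prod_pow]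
  calc ∏ j, ((Zc (g j) (a j) (b j) : ℝ) /
        (Nat.card F : ℝ) ^ (Module.finrank F A * Module.finrank F B)) ^ r
      ≤ ∏ j : Fin m.length, ((Nat.card F : ℝ) ^ ((((Module.finrank F A : ℝ) * r) ^ 2 -
        ((r : ℝ) * Module.finrank F A + Module.finrank F B) ^ 2 * (1 / (m.get j : ℝ))) / 2) *
        (Cm (b j) : ℝ) ^ (1 / 2 : ℝ)) := by
        refine Finset.prod_le_prod (fun j _ => by positivity) fun j _ => ?_
        rw [← hD j]
        exact ark_factor hCSE (g j) (hg j).1 (h1 j) (a j) (b j) (ha j) (hb j) r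
    _ = _ := by
        rw [Finset.prod_mul_distrib, ← Real.rpow_sum_of_pos hq]
        congr 2
        rw [← ark_sum_inv m, ← Finset.sum_div, Finset.sum_sub_distrib, ← Finset.mul_sum]
        simp

theorem t_ARK : M_ARK := by
  intro hCLE hCSE hSPA hUPE κ m hm hth k r
  obtain ⟨C₀, hC₀, hU⟩ := hUPE κ m hm hth
  refine ⟨C₀ + m.length * ((k : ℝ) * r) ^ 2 / 2, by positivity, ?_⟩
  intro F A B _ _ _ _ _ _ _ _ z hz g hg hk a ha
  classical
  have : Finite B := Module.finite_of_finite F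
  have : Finite (B →ₗ[F] B) := Module.finite_of_finite F
  have hq : (0 : ℝ) < (Nat.card F : ℝ) := by exact_mod_cast Nat.card_pos
  have h1 : ∀ j : Fin m.length, 1 ≤ (g j).natDegree := by
    intro j
    rw [(hg j).2.1]
    have := hm (m.get j) (List.get_mem m j)
    omega
  have hR : ∀ j : Fin m.length, ∃ R : Finset (B →ₗ[F] B),
      R.card ≤ (Module.finrank F B + 1) ^ (g j).natDegree ∧
      (∀ r ∈ R, aeval r (g j) = 0) ∧ ∀ a : B →ₗ[F] B, aeval a (g j) = 0 → ∃ r ∈ R, Cj r a :=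
    fun j => (hCLE F B (g j) (hg j).1 (h1 j)).1
  choose R hRc hRg hRe using hR
  have hρ : ∀ p : {p : (Fin m.length → (B →ₗ[F] B)) × (Fin κ.h → (B →ₗ[F] B)) //
      Tl κ z g p.1 p.2}, ∃ ρ : Fin m.length → (B →ₗ[F] B), ∀ j, ρ j ∈ R j ∧ Cj (ρ j) (p.1.1 j) := by
    intro p
    have : ∀ j, ∃ x, x ∈ R j ∧ Cj x (p.1.1 j) := fun j => by
      obtain ⟨x, hx, hx2⟩ := hRe j (p.1.1 j) (p.2.1 j)
      exact ⟨x, hx, hx2⟩
    choose ρ hρ using this
    exact ⟨ρ, hρ⟩
  choose ρ hρ using hρ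
  letI : Fintype {p : (Fin m.length → (B →ₗ[F] B)) × (Fin κ.h → (B →ₗ[F] B)) //
      Tl κ z g p.1 p.2} := Fintype.ofFinite _
  have hmaps : ∀ p ∈ (Finset.univ : Finset {p : (Fin m.length → (B →ₗ[F] B)) ×
      (Fin κ.h → (B →ₗ[F] B)) // Tl κ z g p.1 p.2}), ρ p ∈ Fintype.piFinset R := by
    intro p _
    rw [Fintype.mem_piFinset]
    exact fun j => (hρ p j).1
  unfold Ar
  rw [finsum_eq_sum_of_fintype, ← Finset.sum_fiberwise_of_maps_to hmaps]
  set E : ℝ := C₀ + m.length * ((k : ℝ) * r) ^ 2 / 2 +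
    ((m.length + sig m) / 2 - 1 + κ.h) * (Module.finrank F B : ℝ) ^ 2 -
    (m.length - sig m) * ((Module.finrank F B : ℝ) + r * k) ^ 2 / 2 with hE
  have hcard : ((Fintype.piFinset R).card : ℝ) ≤ ((Module.finrank F B : ℝ) + 1) ^ m.sum := by
    rw [Fintype.card_piFinset]
    push_cast
    calc ∏ j, ((R j).card : ℝ) ≤ ∏ j : Fin m.length, ((Module.finrank F B : ℝ) + 1) ^ (m.get j) := by
          refine Finset.prod_le_prod (fun j _ => Nat.cast_nonneg _) fun j _ => ?_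
          have := hRc j
          rw [(hg j).2.1] at this
          exact_mod_cast this
      _ = _ := ark_prod_pow m _
  have hterm : ∀ σ ∈ Fintype.piFinset R,
      ∑ p ∈ Finset.univ.filter (fun p : {p : (Fin m.length → (B →ₗ[F] B)) ×
        (Fin κ.h → (B →ₗ[F] B)) // Tl κ z g p.1 p.2} => ρ p = σ), om g a p.1.1 ^ r ≤
      (Nat.card F : ℝ) ^ E := by
    intro σ hσ
    rw [Fintype.mem_piFinset] at hσ
    have hσ0 : ∀ j, aeval (σ j) (g j) = 0 := fun j => hRg j _ (hσ j)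
    have hCpos : ∀ j, (0 : ℝ) < (Cm (σ j) : ℝ) := fun j => ark_Cm_pos _
    -- all the terms are equal
    have hsum : ∑ p ∈ Finset.univ.filter (fun p : {p : (Fin m.length → (B →ₗ[F] B)) ×
        (Fin κ.h → (B →ₗ[F] B)) // Tl κ z g p.1 p.2} => ρ p = σ), om g a p.1.1 ^ r =
        ((Finset.univ.filter (fun p : {p : (Fin m.length → (B →ₗ[F] B)) ×
        (Fin κ.h → (B →ₗ[F] B)) // Tl κ z g p.1 p.2} => ρ p = σ)).card : ℝ) * om g a σ ^ r := by
      rw [Finset.sum_congr rfl (g := fun _ => om g a σ ^ r), Finset.sum_const, nsmul_eq_mul]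
      intro p hp
      rw [Finset.mem_filter] at hp
      rw [ark_om_congr hSPA g a σ p.1.1 ha hσ0 fun j => by rw [← hp.2]; exact (hρ p j).2]
    -- their number
    have hnum : ((Finset.univ.filter (fun p : {p : (Fin m.length → (B →ₗ[F] B)) ×
        (Fin κ.h → (B →ₗ[F] B)) // Tl κ z g p.1 p.2} => ρ p = σ)).card : ℝ) ≤
        (Nat.card F : ℝ) ^ (C₀ + ((m.length + sig m) / 2 - 1 + κ.h) *
          (Module.finrank F B : ℝ) ^ 2) * ∏ j, (Cm (σ j) : ℝ) ^ (-(1 / 2) : ℝ) := by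
      refine le_trans ?_ (hU F B z hz g hg σ hσ0)
      have hle : (Finset.univ.filter (fun p : {p : (Fin m.length → (B →ₗ[F] B)) ×
        (Fin κ.h → (B →ₗ[F] B)) // Tl κ z g p.1 p.2} => ρ p = σ)).card ≤
          Nat.card {t : (Fin m.length → (B →ₗ[F] B)) × (Fin κ.h → (B →ₗ[F] B)) //
          (∀ j, Cj (σ j) (t.1 j)) ∧ (∀ i, IsUnit (t.2 i)) ∧
          Wk κ z (List.ofFn t.1).prod t.2 = 0} := by
        rw [← Nat.card_eq_finsetCard]
        refine Nat.card_le_card_of_injective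
          (fun p => ⟨p.1.1, fun j => ?_, p.1.2.2.1, p.1.2.2.2⟩) ?_
        · have hp := (Finset.mem_filter.1 p.2).2
          have h3 := (hρ p.1 j).2
          rw [hp] at h3
          exact h3
        · intro p p' h
          have h2 := congrArg Subtype.val h
          exact Subtype.ext (Subtype.ext h2)
      exact_mod_cast hle
    have hom := ark_om_le hCSE m hm g hg a σ ha hσ0 r
    have hprod : (∏ j, (Cm (σ j) : ℝ) ^ (-(1 / 2) : ℝ)) * (∏ j, (Cm (σ j) : ℝ) ^ (1 / 2 : ℝ)) =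
        1 := by
      rw [← Finset.prod_mul_distrib]
      refine Finset.prod_eq_one fun j _ => ?_
      rw [← Real.rpow_add (hCpos j)]
      norm_num
    rw [hsum]
    calc _ ≤ ((Nat.card F : ℝ) ^ (C₀ + ((m.length + sig m) / 2 - 1 + κ.h) *
          (Module.finrank F B : ℝ) ^ 2) * ∏ j, (Cm (σ j) : ℝ) ^ (-(1 / 2) : ℝ)) *
          ((Nat.card F : ℝ) ^ ((m.length * ((Module.finrank F A : ℝ) * r) ^ 2 -
        ((r : ℝ) * Module.finrank F A + Module.finrank F B) ^ 2 * (m.length - sig m)) / 2) *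
        ∏ j, (Cm (σ j) : ℝ) ^ (1 / 2 : ℝ)) :=
          mul_le_mul hnum hom (pow_nonneg (ark_om_nonneg g a σ) r)
            (mul_nonneg (by positivity) (Finset.prod_nonneg fun j _ => by positivity))
      _ = ((Nat.card F : ℝ) ^ (C₀ + ((m.length + sig m) / 2 - 1 + κ.h) *
          (Module.finrank F B : ℝ) ^ 2) *
          (Nat.card F : ℝ) ^ ((m.length * ((Module.finrank F A : ℝ) * r) ^ 2 -
        ((r : ℝ) * Module.finrank F A + Module.finrank F B) ^ 2 * (m.length - sig m)) / 2)) *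
          ((∏ j, (Cm (σ j) : ℝ) ^ (-(1 / 2) : ℝ)) * ∏ j, (Cm (σ j) : ℝ) ^ (1 / 2 : ℝ)) := by
          ring
      _ = (Nat.card F : ℝ) ^ E := by
          rw [hprod, mul_one, ← Real.rpow_add hq, hk, hE]
          congr 1
          ring
  calc _ ≤ ∑ σ ∈ Fintype.piFinset R, (Nat.card F : ℝ) ^ E := Finset.sum_le_sum hterm
    _ = ((Fintype.piFinset R).card : ℝ) * (Nat.card F : ℝ) ^ E := by
        rw [Finset.sum_const, nsmul_eq_mul]
    _ ≤ _ := mul_le_mul_of_nonneg_right hcard (by positivity)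

end

end FLY
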