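import Mathlib
import Pool.Agent.FLY.StY

/-!
# The average number of homomorphisms (module AVK)
-/

set_option autoImplicit false

namespace FLY

open RSF FL0 FGE Polynomial Pool.Agent.Lib_helper13

/-- the claim of the induction -/
def avk_cl (κ : Kd) (m : List ℕ) (k : ℕ) (j r : ℕ) : Prop :=
  ∃ C : ℝ, 0 ≤ C ∧
    ∀ (F A B : Type) [Field F] [Finite F] [AddCommGroup A] [Module F A] [FiniteDimensional F A]
      [AddCommGroup B] [Module F B] [FiniteDimensional F B] (z : F), z ≠ 0 →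
    ∀ g : Fin m.length → F[X], Gp m g → Module.finrank F A = k →
    ∀ (a : Fin m.length → (A →ₗ[F] A)) (u : Fin κ.h → (A →ₗ[F] A)), Tl κ z g a u → Sk a u →
      Zr κ z g r a u B ≤ ((Module.finrank F B : ℝ) + 1) ^ m.sum *
        (Nat.card F : ℝ) ^ (C + ((m.length + sig m) / 2 - 1 + κ.h) * (Module.finrank F B : ℝ) ^ 2 -
          (m.length - sig m) * ((Module.finrank F B : ℝ) + r * k) ^ 2 / 2) *
        (1 + (Nat.card F : ℝ) ^ ((1 - j * th κ m * k) * (Module.finrank F B : ℝ)))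

lemma avk_om_nonneg {F A B : Type} [Field F] [AddCommGroup A] [Module F A] [AddCommGroup B]
    [Module F B] {d : ℕ} (g : Fin d → F[X]) (a : Fin d → (A →ₗ[F] A)) (b : Fin d → (B →ₗ[F] B)) :
    0 ≤ om g a b := by
  unfold om
  exact Finset.prod_nonneg fun j _ => by positivity

lemma avk_ar_nonneg {F A B : Type} [Field F] [AddCommGroup A] [Module F A] [AddCommGroup B]
    [Module F B] {d : ℕ} (κ : Kd) (z : F) (g : Fin d → F[X]) (r : ℕ) (a : Fin d → (A →ₗ[F] A)) :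
    0 ≤ Ar κ z g r a B := by
  unfold Ar
  exact finsum_nonneg fun p => pow_nonneg (avk_om_nonneg _ _ _) _

lemma avk_zr_le {F A B : Type} [Field F] [Finite F] [AddCommGroup A] [Module F A]
    [FiniteDimensional F A] [AddCommGroup B] [Module F B] [FiniteDimensional F B] {d : ℕ}
    (κ : Kd) (z : F) (g : Fin d → F[X]) (r : ℕ) (a : Fin d → (A →ₗ[F] A))
    (u : Fin κ.h → (A →ₗ[F] A)) (hS : S_SMS) (hs : Sk a u) :
    Zr κ z g r a u B ≤ Ar κ z g r a B * (Nat.card F : ℝ) ^ (Module.finrank F B) := by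
  have hfin1 : Finite (B →ₗ[F] B) := Module.finite_of_finite F
  have hfin : Finite {p : (Fin d → (B →ₗ[F] B)) × (Fin κ.h → (B →ₗ[F] B)) //
      Tl κ z g p.1 p.2} := inferInstance
  have := Fintype.ofFinite {p : (Fin d → (B →ₗ[F] B)) × (Fin κ.h → (B →ₗ[F] B)) //
      Tl κ z g p.1 p.2}
  unfold Zr Ar
  rw [finsum_eq_sum_of_fintype, finsum_eq_sum_of_fintype, Finset.sum_mul]
  refine Finset.sum_le_sum fun p _ => ?_
  refine mul_le_mul_of_nonneg_left ?_ (pow_nonneg (avk_om_nonneg _ _ _) _)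
  have h := (hS κ F A B d a u p.1.1 p.1.2 hs).1
  exact_mod_cast h

lemma avk_q {F : Type} [Field F] [Finite F] : (2 : ℝ) ≤ (Nat.card F : ℝ) := by
  have : 1 < Nat.card F := Finite.one_lt_card
  exact_mod_cast this

lemma avk_zero (κ : Kd) (m : List ℕ) (hm : ∀ k ∈ m, 2 ≤ k) (hθ : 0 < th κ m) (k : ℕ)
    (hS : S_SMS) (hA : S_ARK) (r : ℕ) : avk_cl κ m k 0 r := by
  obtain ⟨C, hC, h⟩ := hA κ m hm hθ k r
  refine ⟨C, hC, ?_⟩
  intro F A B _ _ _ _ _ _ _ _ z hz g hg hk a u hT hs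
  have h1 := avk_zr_le (B := B) κ z g r a u hS hs
  have h2 := h F A B z hz g hg hk a hT.1
  refine h1.trans ?_
  refine mul_le_mul h2 ?_ (by positivity) ?_
  · have : (Nat.card F : ℝ) ^ (Module.finrank F B) =
        (Nat.card F : ℝ) ^ ((1 - ((0 : ℕ) : ℝ) * th κ m * k) * (Module.finrank F B : ℝ)) := by
      rw [← Real.rpow_natCast]
      congr 1
      push_cast
      ring
    rw [this]
    linarith [show (0 : ℝ) ≤ 1 by norm_num]
  · positivity

lemma avk_arith (θ d σ h β k r j C1 C2 : ℝ) (hθ : θ = σ + h - 2)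
    (q : ℝ) (hq : 2 ≤ q) (hk : 0 ≤ k) (hβ : 0 ≤ β) (hj : 0 ≤ j) (hθ0 : 0 < θ)
    (hC1 : 0 ≤ C1) (hC2 : 0 ≤ C2) :
    q ^ (C1 + ((d + σ) / 2 - 1 + h) * β ^ 2 - (d - σ) * (β + r * k) ^ 2 / 2) +
      q ^ (C2 + ((d + σ) / 2 - 1 + h) * (β - k) ^ 2 - (d - σ) * ((β - k) + (r + 1) * k) ^ 2 / 2) *
        (1 + q ^ ((1 - j * θ * k) * (β - k))) * q ^ (k * β + (d + h - 1) * (k * (β - k))) ≤
    q ^ ((C1 + C2 + |((d + σ) / 2 - 1 + h) - (d + h - 1)| * k ^ 2 + j * θ * k ^ 2 + 1) +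
        ((d + σ) / 2 - 1 + h) * β ^ 2 - (d - σ) * (β + r * k) ^ 2 / 2) *
      (1 + q ^ ((1 - (j + 1) * θ * k) * β)) := by
  have hq0 : 0 < q := by linarith
  have hq1 : 1 ≤ q := by linarith
  set U : ℝ := ((d + σ) / 2 - 1 + h) * β ^ 2 - (d - σ) * (β + r * k) ^ 2 / 2 with hU
  set E : ℝ := |((d + σ) / 2 - 1 + h) - (d + h - 1)| * k ^ 2 with hE
  have hE0 : 0 ≤ E := by positivity
  have hEle : (((d + σ) / 2 - 1 + h) - (d + h - 1)) * k ^ 2 ≤ E :=
    mul_le_mul_of_nonneg_right (le_abs_self _) (by positivity)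
  have e1 : C1 + ((d + σ) / 2 - 1 + h) * β ^ 2 - (d - σ) * (β + r * k) ^ 2 / 2 = U + C1 := by
    rw [hU]; ring
  have e2 : C2 + ((d + σ) / 2 - 1 + h) * (β - k) ^ 2 -
      (d - σ) * ((β - k) + (r + 1) * k) ^ 2 / 2 + (k * β + (d + h - 1) * (k * (β - k))) =
      U + (C2 - θ * k * β + (((d + σ) / 2 - 1 + h) - (d + h - 1)) * k ^ 2) := by
    rw [hU, hθ]; ring
  have e3 : (C1 + C2 + E + j * θ * k ^ 2 + 1) +
        ((d + σ) / 2 - 1 + h) * β ^ 2 - (d - σ) * (β + r * k) ^ 2 / 2 =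
      U + (C1 + C2 + E + j * θ * k ^ 2 + 1) := by
    rw [hU]; ring
  rw [e1, e3]
  have e4 : q ^ (C2 + ((d + σ) / 2 - 1 + h) * (β - k) ^ 2 -
        (d - σ) * ((β - k) + (r + 1) * k) ^ 2 / 2) *
        (1 + q ^ ((1 - j * θ * k) * (β - k))) * q ^ (k * β + (d + h - 1) * (k * (β - k))) =
      q ^ U * (q ^ (C2 - θ * k * β + (((d + σ) / 2 - 1 + h) - (d + h - 1)) * k ^ 2) *
        (1 + q ^ ((1 - j * θ * k) * (β - k)))) := by
    rw [mul_right_comm, ← Real.rpow_add hq0, e2, Real.rpow_add hq0, mul_assoc]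
  rw [e4, Real.rpow_add hq0 U C1, Real.rpow_add hq0 U (C1 + C2 + E + j * θ * k ^ 2 + 1), ← mul_add,
    mul_assoc (q ^ U)]
  refine mul_le_mul_of_nonneg_left ?_ (by positivity)
  -- the powers without `q ^ U`
  set T : ℝ := C1 + C2 + E + j * θ * k ^ 2 with hT
  have hT0 : 0 ≤ T := by positivity
  set Y : ℝ := q ^ ((1 - (j + 1) * θ * k) * β) with hY
  have hY0 : 0 < Y := by positivity
  have f1 : q ^ C1 ≤ q ^ T := Real.rpow_le_rpow_of_exponent_le hq1 (by
    rw [hT]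
    have : 0 ≤ j * θ * k ^ 2 := by positivity
    linarith)
  have f2 : q ^ (C2 - θ * k * β + (((d + σ) / 2 - 1 + h) - (d + h - 1)) * k ^ 2) ≤ q ^ T := by
    refine Real.rpow_le_rpow_of_exponent_le hq1 ?_
    have h1 : 0 ≤ j * θ * k ^ 2 := by positivity
    have h2 : 0 ≤ θ * k * β := by positivity
    rw [hT]
    linarith
  have f3 : q ^ (C2 - θ * k * β + (((d + σ) / 2 - 1 + h) - (d + h - 1)) * k ^ 2) *
      q ^ ((1 - j * θ * k) * (β - k)) ≤ q ^ T * Y := by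
    rw [hY, ← Real.rpow_add hq0, ← Real.rpow_add hq0]
    refine Real.rpow_le_rpow_of_exponent_le hq1 ?_
    rw [hT]
    nlinarith [hEle]
  have f4 : q ^ (T + 1) = q ^ T * q := by rw [Real.rpow_add hq0, Real.rpow_one]
  rw [f4]
  have hqT : 0 < q ^ T := by positivity
  calc q ^ C1 + q ^ (C2 - θ * k * β + (((d + σ) / 2 - 1 + h) - (d + h - 1)) * k ^ 2) *
        (1 + q ^ ((1 - j * θ * k) * (β - k)))
      = q ^ C1 + (q ^ (C2 - θ * k * β + (((d + σ) / 2 - 1 + h) - (d + h - 1)) * k ^ 2) +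
        q ^ (C2 - θ * k * β + (((d + σ) / 2 - 1 + h) - (d + h - 1)) * k ^ 2) *
        q ^ ((1 - j * θ * k) * (β - k))) := by ring
    _ ≤ q ^ T + (q ^ T + q ^ T * Y) := add_le_add f1 (add_le_add f2 f3)
    _ ≤ q ^ T * 2 * (1 + Y) := by nlinarith
    _ ≤ q ^ T * q * (1 + Y) := by
        refine mul_le_mul_of_nonneg_right ?_ (by positivity)
        exact mul_le_mul_of_nonneg_left hq hqT.le

lemma avk_step (κ : Kd) (m : List ℕ) (hm : ∀ k ∈ m, 2 ≤ k) (hθ : 0 < th κ m) (k : ℕ)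
    (hA : S_ARK) (hK : S_STK) (j r : ℕ) (hcl : avk_cl κ m k j (r + 1)) :
    avk_cl κ m k (j + 1) r := by
  obtain ⟨C1, hC1, h1⟩ := hA κ m hm hθ k r
  obtain ⟨C2, hC2, h2⟩ := hcl
  refine ⟨C1 + C2 + |(((m.length : ℝ) + sig m) / 2 - 1 + κ.h) - ((m.length : ℝ) + κ.h - 1)| *
    (k : ℝ) ^ 2 + j * th κ m * (k : ℝ) ^ 2 + 1, by positivity, ?_⟩
  intro F A B _ _ _ _ _ _ _ _ z hz g hg hk a u hT hs
  have hq2 : (2 : ℝ) ≤ (Nat.card F : ℝ) := avk_q
  have hq0 : (0 : ℝ) < (Nat.card F : ℝ) := by linarith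
  have hAr := h1 F A B z hz g hg hk a hT.1
  have har := avk_arith (th κ m) m.length (sig m) κ.h (Module.finrank F B) k r j C1 C2 rfl
    (Nat.card F) hq2 (by positivity) (by positivity) (by positivity) hθ hC1 hC2
  push_cast
  by_cases hβ : k ≤ Module.finrank F B
  · -- the main case
    have hK1 := hK κ F A B m.length z hz g a u hT hs r
      (((Module.finrank F B : ℝ) + 1) ^ m.sum *
        ((Nat.card F : ℝ) ^ (C2 + (((m.length : ℝ) + sig m) / 2 - 1 + κ.h) *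
            ((Module.finrank F B : ℝ) - k) ^ 2 -
          ((m.length : ℝ) - sig m) * (((Module.finrank F B : ℝ) - k) + ((r : ℝ) + 1) * k) ^ 2 / 2) *
        (1 + (Nat.card F : ℝ) ^ ((1 - (j : ℝ) * th κ m * k) * ((Module.finrank F B : ℝ) - k)))))
      (by positivity) (by
        intro A' B' _ _ _ _ _ _ a' u' hT' hs' hA' hB'
        have h3 := h2 F A' B' z hz g hg (hA'.trans hk) a' u' hT' hs'
        rw [hk] at hB'
        have h4 : (Module.finrank F B' : ℝ) = (Module.finrank F B : ℝ) - k := by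
          rw [← hB']; push_cast; ring
        rw [h4] at h3
        refine h3.trans ?_
        push_cast
        rw [mul_assoc]
        refine mul_le_mul_of_nonneg_right ?_ (by positivity)
        refine pow_le_pow_left₀ ?_ ?_ _
        · have : (k : ℝ) ≤ (Module.finrank F B : ℝ) := by exact_mod_cast hβ
          linarith
        · have : (0 : ℝ) ≤ (k : ℝ) := by positivity
          linarith)
    rw [hk] at hK1
    refine hK1.trans ?_
    refine (add_le_add hAr le_rfl).trans ?_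
    have hP : (0 : ℝ) ≤ ((Module.finrank F B : ℝ) + 1) ^ m.sum := by positivity
    have := mul_le_mul_of_nonneg_left har hP
    refine le_trans (le_of_eq ?_) (this.trans (le_of_eq ?_))
    · ring
    · ring
  · -- no injective homomorphisms
    have hK1 := hK κ F A B m.length z hz g a u hT hs r 0 le_rfl (by
        intro A' B' _ _ _ _ _ _ a' u' hT' hs' hA' hB'
        exact absurd (by omega : k ≤ Module.finrank F B) hβ)
    rw [zero_mul, add_zero] at hK1
    refine hK1.trans (hAr.trans ?_)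
    have hP : (0 : ℝ) ≤ ((Module.finrank F B : ℝ) + 1) ^ m.sum := by positivity
    have hpos : 0 ≤ (Nat.card F : ℝ) ^ (C2 + (((m.length : ℝ) + sig m) / 2 - 1 + κ.h) *
            ((Module.finrank F B : ℝ) - k) ^ 2 -
          ((m.length : ℝ) - sig m) * (((Module.finrank F B : ℝ) - k) + ((r : ℝ) + 1) * k) ^ 2 / 2) *
        (1 + (Nat.card F : ℝ) ^ ((1 - (j : ℝ) * th κ m * k) * ((Module.finrank F B : ℝ) - k))) *
        (Nat.card F : ℝ) ^ ((k : ℝ) * (Module.finrank F B : ℝ) +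
          ((m.length : ℝ) + κ.h - 1) * ((k : ℝ) * ((Module.finrank F B : ℝ) - k))) := by
      positivity
    have := mul_le_mul_of_nonneg_left (le_trans (le_add_of_nonneg_right hpos) har) hP
    refine this.trans (le_of_eq ?_)
    ring

lemma avk_all (κ : Kd) (m : List ℕ) (hm : ∀ k ∈ m, 2 ≤ k) (hθ : 0 < th κ m) (k : ℕ)
    (hS : S_SMS) (hA : S_ARK) (hK : S_STK) : ∀ j r : ℕ, avk_cl κ m k j r := by
  intro j
  induction j with
  | zero => exact fun r => avk_zero κ m hm hθ k hS hA r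
  | succ j ih => exact fun r => avk_step κ m hm hθ k hA hK j r (ih (r + 1))

/-- module AVK -/
theorem t_AVK : M_AVK := by
  intro hS hA hK κ m hm hθ k hk
  obtain ⟨j, hj⟩ := exists_nat_ge (1 / (th κ m * k))
  have hk0 : (0 : ℝ) < (k : ℝ) := by exact_mod_cast hk
  have hj1 : 1 ≤ (j : ℝ) * th κ m * k := by
    rw [div_le_iff₀ (by positivity)] at hj
    linarith
  obtain ⟨C, hC, h⟩ := avk_all κ m hm hθ k hS hA hK j 1
  refine ⟨C + 1, by positivity, ?_⟩
  intro F A B _ _ _ _ _ _ _ _ z hz g hg hkA a u hT hs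
  have hq2 : (2 : ℝ) ≤ (Nat.card F : ℝ) := avk_q
  have hq0 : (0 : ℝ) < (Nat.card F : ℝ) := by linarith
  refine (h F A B z hz g hg hkA a u hT hs).trans ?_
  have h1 : (Nat.card F : ℝ) ^ ((1 - (j : ℝ) * th κ m * k) * (Module.finrank F B : ℝ)) ≤ 1 := by
    refine Real.rpow_le_one_of_one_le_of_nonpos (by linarith) ?_
    exact mul_nonpos_of_nonpos_of_nonneg (by linarith) (by positivity)
  rw [mul_assoc]
  refine mul_le_mul_of_nonneg_left ?_ (by positivity)
  have e : C + 1 + (((m.length : ℝ) + sig m) / 2 - 1 + κ.h) * (Module.finrank F B : ℝ) ^ 2 -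
          ((m.length : ℝ) - sig m) * ((Module.finrank F B : ℝ) + k) ^ 2 / 2 =
      (C + (((m.length : ℝ) + sig m) / 2 - 1 + κ.h) * (Module.finrank F B : ℝ) ^ 2 -
          ((m.length : ℝ) - sig m) * ((Module.finrank F B : ℝ) + ((1 : ℕ) : ℝ) * k) ^ 2 / 2) + 1 := by
    push_cast
    ring
  rw [e, Real.rpow_add hq0, Real.rpow_one]
  refine mul_le_mul_of_nonneg_left ?_ (by positivity)
  linarith

end FLY
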