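import Pool.Agent.FLY.StY

/-!
# FLY, module CLE: the conjugacy classes of the endomorphisms killed by a polynomial
-/

set_option autoImplicit false

namespace FLY

open RSF FL0 FGE Polynomial Pool.Agent.Lib_helper13

noncomputable section

section

variable {F V : Type} [Field F] [AddCommGroup V] [Module F V] [FiniteDimensional F V]

/-- the matrix of an endomorphism -/
def cle_m (F V : Type) [Field F] [AddCommGroup V] [Module F V] [FiniteDimensional F V] :
    (V →ₗ[F] V) ≃ₐ[F] Matrix (Fin (Module.finrank F V)) (Fin (Module.finrank F V)) F :=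
  LinearMap.toMatrixAlgEquiv (Module.finBasis F V)

lemma cle_aeval {a : V →ₗ[F] V} {g : F[X]} (h : aeval a g = 0) :
    aeval (cle_m F V a) g = 0 := by
  have h1 : aeval ((cle_m F V).toAlgHom a) g = (cle_m F V).toAlgHom (aeval a g) :=
    Polynomial.aeval_algHom_apply _ _ _
  rw [h, map_zero] at h1
  exact h1

lemma cle_Cj {a b : V →ₗ[F] V} : Cj a b ↔
    ∃ P Q : Matrix (Fin (Module.finrank F V)) (Fin (Module.finrank F V)) F,
      P * Q = 1 ∧ Q * P = 1 ∧ P * cle_m F V a = cle_m F V b * P := by
  constructor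
  · rintro ⟨e, he⟩
    refine ⟨cle_m F V e.toLinearMap, cle_m F V e.symm.toLinearMap, ?_, ?_, ?_⟩
    · rw [← map_mul, ← map_one (cle_m F V)]
      congr 1
      ext v
      simp
    · rw [← map_mul, ← map_one (cle_m F V)]
      congr 1
      ext v
      simp
    · rw [← map_mul, ← map_mul]
      congr 1
      ext v
      exact he v
  · rintro ⟨P, Q, h1, h2, h3⟩
    have k1 : (cle_m F V).symm P * (cle_m F V).symm Q = 1 := by
      rw [← map_mul, h1, map_one]
    have k2 : (cle_m F V).symm Q * (cle_m F V).symm P = 1 := by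
      rw [← map_mul, h2, map_one]
    have k3 : (cle_m F V).symm P * a = b * (cle_m F V).symm P := by
      apply (cle_m F V).injective
      rw [map_mul, map_mul, AlgEquiv.apply_symm_apply, h3]
    refine ⟨LinearEquiv.ofLinearMap ((cle_m F V).symm P) ((cle_m F V).symm Q) k1 k2, fun v => ?_⟩
    exact LinearMap.congr_fun k3 v

lemma cle_Cm (a : V →ₗ[F] V) : Cm a = SRJ.cN (cle_m F V a) := by
  unfold Cm SRJ.cN
  refine Nat.card_congr ((cle_m F V).toEquiv.subtypeEquiv fun c => ?_)
  constructor
  · intro h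
    have h1 : c * a = a * c := h
    show cle_m F V c * cle_m F V a = cle_m F V a * cle_m F V c
    rw [← map_mul, h1, map_mul]
  · intro h
    have h1 : cle_m F V c * cle_m F V a = cle_m F V a * cle_m F V c := h
    rw [← map_mul, ← map_mul] at h1
    exact (cle_m F V).injective h1

/-- the size of a conjugacy class of matrices -/
lemma cle_orbit [Finite F] {n : ℕ} (A : Matrix (Fin n) (Fin n) F) :
    (MulAction.orbit (ConjAct (Matrix (Fin n) (Fin n) F)ˣ) A).ncard *
      Nat.card {B : GL (Fin n) F // (B : Matrix (Fin n) (Fin n) F) * A =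
        A * (B : Matrix (Fin n) (Fin n) F)} =
      Nat.card (GL (Fin n) F) := by
  have h1 : Nat.card {B : GL (Fin n) F // (B : Matrix (Fin n) (Fin n) F) * A =
        A * (B : Matrix (Fin n) (Fin n) F)} =
      Nat.card (MulAction.stabilizer (ConjAct (Matrix (Fin n) (Fin n) F)ˣ) A) := by
    refine Nat.card_congr (ConjAct.toConjAct.toEquiv.subtypeEquiv fun B => ?_)
    show _ ↔ ConjAct.toConjAct B ∈ MulAction.stabilizer (ConjAct (Matrix (Fin n) (Fin n) F)ˣ) A
    rw [MulAction.mem_stabilizer_iff, ConjAct.units_smul_def, ConjAct.ofConjAct_toConjAct]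
    constructor
    · intro h
      rw [h, Units.mul_inv_cancel_right]
    · intro h
      rw [← Units.eq_mul_inv_iff_mul_eq, inv_inv] at h
      rw [h]
  rw [h1, ← MulAction.index_stabilizer, Subgroup.index_mul_card]
  rfl

end

lemma cle_GL (F : Type) [Field F] [Finite F] (n : ℕ) :
    Nat.card (GL (Fin n) F) ≤ Nat.card F ^ (n ^ 2) := by
  have h1 : Nat.card (GL (Fin n) F) ≤ Nat.card (Matrix (Fin n) (Fin n) F) :=
    Nat.card_le_card_of_injective (fun B : GL (Fin n) F => (B : Matrix (Fin n) (Fin n) F))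
      Units.val_injective
  refine h1.trans (le_of_eq ?_)
  have h2 : Nat.card (Matrix (Fin n) (Fin n) F) = Nat.card (Fin n → Fin n → F) := rfl
  rw [h2, Nat.card_fun, Nat.card_fun, Nat.card_eq_fintype_card (α := Fin n), Fintype.card_fin,
    ← pow_mul, pow_two]

/-- Cauchy-Schwarz for the multiplicities -/
lemma cle_cs {d n : ℕ} (w ν : Fin d → ℕ) (hw : ∑ j, w j = d) (hn : ∑ j, w j * ν j = n)
    (hd : 1 ≤ d) : (n : ℝ) ^ 2 / d ≤ ((∑ j, w j * (ν j * ν j) : ℕ) : ℝ) := by
  have hd0 : (0 : ℝ) < d := by exact_mod_cast hd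
  rw [div_le_iff₀ hd0]
  have h1 := Finset.sum_sq_le_sum_mul_sum_of_sq_le_mul (Finset.univ : Finset (Fin d))
    (r := fun j => (w j : ℝ) * ν j) (f := fun j => (w j : ℝ)) (g := fun j => (w j : ℝ) * (ν j * ν j))
    (fun j _ => by positivity) (fun j _ => by positivity) (fun j _ => le_of_eq (by ring))
  have e1 : ∑ j, (w j : ℝ) * ν j = n := by exact_mod_cast hn
  have e2 : ∑ j, (w j : ℝ) = d := by exact_mod_cast hw
  rw [e1, e2] at h1
  push_cast
  linarith

theorem t_CLE : M_CLE := by
  classical
  intro hHMZ hAUL F V _ _ _ _ _ g hg hd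
  obtain ⟨w, s, ν, hw, -, hν⟩ := hHMZ F g hg
  have hfin : Finite (V →ₗ[F] V) := (cle_m F V).toEquiv.finite_iff.2 inferInstance
  set n := Module.finrank F V with hn
  constructor
  · -- representatives
    have : Fintype (V →ₗ[F] V) := Fintype.ofFinite _
    set S : Finset (V →ₗ[F] V) := Finset.univ.filter fun a => aeval a g = 0 with hS
    set β : (V →ₗ[F] V) → (Fin g.natDegree → ℕ) := fun a => ν n (cle_m F V a) with hβ
    set T : Finset (Fin g.natDegree → ℕ) := S.image β with hT
    have hTcard : T.card ≤ (n + 1) ^ g.natDegree := by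
      have h1 : T ⊆ Fintype.piFinset fun _ : Fin g.natDegree => Finset.range (n + 1) := by
        intro b hb
        rw [hT, Finset.mem_image] at hb
        obtain ⟨a, ha, rfl⟩ := hb
        rw [hS, Finset.mem_filter] at ha
        rw [Fintype.mem_piFinset]
        intro j
        rw [Finset.mem_range]
        obtain ⟨h1, h2, -⟩ := hν n n (cle_m F V a) (cle_m F V a) (cle_aeval ha.2) (cle_aeval ha.2)
        by_cases hj : w j = 0
        · have h3 : β a j = 0 := h2 j hj
          rw [h3]
          omega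
        · have h3 : w j * β a j ≤ n := by
            conv_rhs => rw [← h1]
            exact Finset.single_le_sum (f := fun j => w j * ν n (cle_m F V a) j)
              (fun _ _ => Nat.zero_le _) (Finset.mem_univ j)
          have h4 : 1 * β a j ≤ w j * β a j := Nat.mul_le_mul_right _ (by omega)
          omega
      have h2 := Finset.card_le_card h1
      rw [Fintype.card_piFinset_const, Finset.card_range] at h2
      exact h2
    have hrep : ∀ b : Fin g.natDegree → ℕ, ∃ r : V →ₗ[F] V, b ∈ T → r ∈ S ∧ β r = b := by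
      intro b
      by_cases hb : b ∈ T
      · rw [hT, Finset.mem_image] at hb
        obtain ⟨a, ha, hab⟩ := hb
        exact ⟨a, fun _ => ⟨ha, hab⟩⟩
      · exact ⟨0, fun h => absurd h hb⟩
    choose rep hrep using hrep
    refine ⟨T.image rep, Finset.card_image_le.trans hTcard, ?_, ?_⟩
    · intro r hr
      rw [Finset.mem_image] at hr
      obtain ⟨b, hb, rfl⟩ := hr
      have := (hrep b hb).1
      rw [hS, Finset.mem_filter] at this
      exact this.2
    · intro a ha
      have haS : a ∈ S := by rw [hS, Finset.mem_filter]; exact ⟨Finset.mem_univ _, ha⟩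
      have haT : β a ∈ T := Finset.mem_image_of_mem β haS
      refine ⟨rep (β a), Finset.mem_image_of_mem rep haT, ?_⟩
      obtain ⟨h1, h2⟩ := hrep (β a) haT
      rw [hS, Finset.mem_filter] at h1
      obtain ⟨-, -, -, h4, -⟩ := hν n n (cle_m F V (rep (β a))) (cle_m F V a) (cle_aeval h1.2)
        (cle_aeval ha)
      exact cle_Cj.2 (h4 rfl h2)
  · intro y hy
    obtain ⟨h1, -, h3, -, -⟩ := hν n n (cle_m F V y) (cle_m F V y) (cle_aeval hy) (cle_aeval hy)
    have hcm : Cm y = Nat.card F ^ (∑ j, w j * (ν n (cle_m F V y) j * ν n (cle_m F V y) j)) := by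
      rw [cle_Cm]
      exact h3
    constructor
    · have hcl : Nat.card {t : V →ₗ[F] V // Cj y t} ≤
          (MulAction.orbit (ConjAct (Matrix (Fin n) (Fin n) F)ˣ) (cle_m F V y)).ncard := by
        rw [← Nat.card_coe_set_eq]
        refine Nat.card_le_card_of_injective (fun t => ⟨cle_m F V t.1, ?_⟩) ?_
        · obtain ⟨P, Q, hPQ, hQP, hP⟩ := cle_Cj.1 t.2
          refine ⟨ConjAct.toConjAct (⟨P, Q, hPQ, hQP⟩ : (Matrix (Fin n) (Fin n) F)ˣ), ?_⟩
          show ConjAct.toConjAct (⟨P, Q, hPQ, hQP⟩ : (Matrix (Fin n) (Fin n) F)ˣ) • cle_m F V y =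
            cle_m F V t.1
          rw [ConjAct.units_smul_def, ConjAct.ofConjAct_toConjAct]
          show P * cle_m F V y * Q = cle_m F V t.1
          rw [hP, mul_assoc, hPQ, mul_one]
        · intro t t' htt
          exact Subtype.ext ((cle_m F V).injective (congrArg Subtype.val htt))
      have horb := cle_orbit (F := F) (cle_m F V y)
      have haul := hAUL F g hg n (cle_m F V y) (cle_aeval hy)
      rw [cle_Cm]
      calc Nat.card {t : V →ₗ[F] V // Cj y t} * SRJ.cN (cle_m F V y)
          ≤ (MulAction.orbit (ConjAct (Matrix (Fin n) (Fin n) F)ˣ) (cle_m F V y)).ncard *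
            (4 ^ g.natDegree * Nat.card {B : GL (Fin n) F // (B : Matrix (Fin n) (Fin n) F) *
              cle_m F V y = cle_m F V y * (B : Matrix (Fin n) (Fin n) F)}) :=
            Nat.mul_le_mul hcl haul
        _ = 4 ^ g.natDegree * ((MulAction.orbit (ConjAct (Matrix (Fin n) (Fin n) F)ˣ)
              (cle_m F V y)).ncard * Nat.card {B : GL (Fin n) F //
                (B : Matrix (Fin n) (Fin n) F) * cle_m F V y =
                cle_m F V y * (B : Matrix (Fin n) (Fin n) F)}) := by ring
        _ = 4 ^ g.natDegree * Nat.card (GL (Fin n) F) := by rw [horb]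
        _ ≤ 4 ^ g.natDegree * Nat.card F ^ (n ^ 2) := Nat.mul_le_mul_left _ (cle_GL F n)
    · rw [hcm]
      have hq1 : (1 : ℝ) ≤ (Nat.card F : ℝ) := by
        exact_mod_cast (Finite.one_lt_card (α := F)).le
      have hcs := cle_cs w (ν n (cle_m F V y)) hw h1 hd
      rw [Nat.cast_pow, ← Real.rpow_natCast (Nat.card F : ℝ)]
      exact Real.rpow_le_rpow_of_exponent_le hq1 hcs

end

end FLY
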