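import Pool.Agent.FLY.StY

/-!
# FLY_CSE: the Cauchy-Schwarz bound for the number of the block triangular extensions
-/

set_option autoImplicit false

namespace FLY

open RSF FL0 FGE Polynomial Pool.Agent.Lib_helper13

noncomputable section

theorem cse_aeval {F A : Type} [Field F] [AddCommGroup A] [Module F A] {ι : Type} [Fintype ι]
    [DecidableEq ι] (bA : Module.Basis ι F A) (a : A →ₗ[F] A) (g : F[X]) :
    aeval (LinearMap.toMatrixAlgEquiv bA a) g = 0 ↔ aeval a g = 0 := by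
  have h := Polynomial.aeval_algHom_apply (LinearMap.toMatrixAlgEquiv bA).toAlgHom a g
  have h' : aeval (LinearMap.toMatrixAlgEquiv bA a) g =
      LinearMap.toMatrixAlgEquiv bA (aeval a g) := h
  rw [h']
  constructor
  · intro h0
    exact (LinearMap.toMatrixAlgEquiv bA).injective (by rw [h0, map_zero])
  · intro h0
    rw [h0, map_zero]

theorem cse_cm {F A : Type} [Field F] [AddCommGroup A] [Module F A] {ι : Type} [Fintype ι]
    [DecidableEq ι] (bA : Module.Basis ι F A) (a : A →ₗ[F] A) :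
    Nat.card {f : Matrix ι ι F // f * LinearMap.toMatrixAlgEquiv bA a =
      LinearMap.toMatrixAlgEquiv bA a * f} = Cm a := by
  unfold Cm
  refine (Nat.card_congr ((LinearMap.toMatrixAlgEquiv bA).toEquiv.subtypeEquiv fun c => ?_)).symm
  change c * a = a * c ↔ LinearMap.toMatrixAlgEquiv bA c * LinearMap.toMatrixAlgEquiv bA a =
    LinearMap.toMatrixAlgEquiv bA a * LinearMap.toMatrixAlgEquiv bA c
  rw [← map_mul, ← map_mul]
  exact (LinearMap.toMatrixAlgEquiv bA).injective.eq_iff.symm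

theorem cse_bk {F A B : Type} [Field F] [AddCommGroup A] [Module F A] [AddCommGroup B]
    [Module F B] {ι κ : Type} [Fintype ι] [DecidableEq ι] [Fintype κ] [DecidableEq κ]
    (bA : Module.Basis ι F A) (bB : Module.Basis κ F B) (a : A →ₗ[F] A) (b : B →ₗ[F] B)
    (c : B →ₗ[F] A) :
    LinearMap.toMatrixAlgEquiv (bA.prod bB) (bk a c b) =
      Matrix.fromBlocks (LinearMap.toMatrixAlgEquiv bA a) (LinearMap.toMatrix bB bA c) 0
        (LinearMap.toMatrixAlgEquiv bB b) := by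
  ext i j
  rw [LinearMap.toMatrixAlgEquiv_apply]
  rcases i with i | i <;> rcases j with j | j <;>
    simp [bk, LinearMap.toMatrixAlgEquiv_apply, LinearMap.toMatrix_apply]

theorem cse_zc {F A B : Type} [Field F] [AddCommGroup A] [Module F A] [AddCommGroup B]
    [Module F B] {ι κ : Type} [Fintype ι] [DecidableEq ι] [Fintype κ] [DecidableEq κ]
    (bA : Module.Basis ι F A) (bB : Module.Basis κ F B) (a : A →ₗ[F] A) (b : B →ₗ[F] B)
    (g : F[X]) :
    Nat.card {c : Matrix ι κ F // aeval (Matrix.fromBlocks (LinearMap.toMatrixAlgEquiv bA a) c 0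
      (LinearMap.toMatrixAlgEquiv bB b)) g = 0} = Zc g a b := by
  unfold Zc
  refine (Nat.card_congr ((LinearMap.toMatrix bB bA).toEquiv.subtypeEquiv fun c => ?_)).symm
  change aeval (bk a c b) g = 0 ↔ aeval (Matrix.fromBlocks (LinearMap.toMatrixAlgEquiv bA a)
    (LinearMap.toMatrix bB bA c) 0 (LinearMap.toMatrixAlgEquiv bB b)) g = 0
  rw [← cse_bk, cse_aeval]

/-- the inequality for the exponents -/
theorem cse_cs {m : ℕ} (w : Fin m → ℕ) (s : Fin m → Fin m) (x y : Fin m → ℕ) (α β r : ℕ)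
    (hw : ∑ j, w j = m) (hs : ∀ j, w (s j) = w j ∧ s (s j) = j)
    (hx : ∑ j, w j * x j = α) (hy : ∑ j, w j * y j = β) (hm : 1 ≤ m) :
    ((r : ℝ) * α + β) ^ 2 / m ≤ (r : ℝ) ^ 2 * ((∑ j, w j * (x j * x j) : ℕ) : ℝ) +
      2 * r * ((∑ j, w j * (x j * y (s j)) : ℕ) : ℝ) + ((∑ j, w j * (y j * y j) : ℕ) : ℝ) := by
  let σ : Equiv.Perm (Fin m) := ⟨s, s, fun j => (hs j).2, fun j => (hs j).2⟩
  have e1 : ∑ j, w j * y (s j) = β := by
    rw [← hy, ← Equiv.sum_comp σ fun j => w j * y j]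
    exact Finset.sum_congr rfl fun j _ => by
      change w j * y (s j) = w (s j) * y (s j)
      rw [(hs j).1]
  have e2 : ∑ j, w j * (y (s j) * y (s j)) = ∑ j, w j * (y j * y j) := by
    rw [← Equiv.sum_comp σ fun j => w j * (y j * y j)]
    exact Finset.sum_congr rfl fun j _ => by
      change w j * (y (s j) * y (s j)) = w (s j) * (y (s j) * y (s j))
      rw [(hs j).1]
  have hcs : (∑ j, (w j : ℝ) * ((r : ℝ) * x j + y (s j))) ^ 2 ≤
      (∑ j, (w j : ℝ)) * ∑ j, (w j : ℝ) * ((r : ℝ) * x j + y (s j)) ^ 2 := by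
    apply Finset.sum_sq_le_sum_mul_sum_of_sq_eq_mul
    · intro j _
      positivity
    · intro j _
      positivity
    · intro j _
      ring
  have f1 : (∑ j, (w j : ℝ)) = m := by
    rw [← Nat.cast_sum, hw]
  have f2 : (∑ j, (w j : ℝ) * ((r : ℝ) * x j + y (s j))) = (r : ℝ) * α + β := by
    rw [← hx, ← e1]
    push_cast
    rw [Finset.mul_sum, ← Finset.sum_add_distrib]
    exact Finset.sum_congr rfl fun j _ => by ring
  have f3 : (∑ j, (w j : ℝ) * ((r : ℝ) * x j + y (s j)) ^ 2) =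
      (r : ℝ) ^ 2 * ((∑ j, w j * (x j * x j) : ℕ) : ℝ) +
      2 * r * ((∑ j, w j * (x j * y (s j)) : ℕ) : ℝ) + ((∑ j, w j * (y j * y j) : ℕ) : ℝ) := by
    rw [← e2]
    push_cast
    rw [Finset.mul_sum, Finset.mul_sum, ← Finset.sum_add_distrib, ← Finset.sum_add_distrib]
    exact Finset.sum_congr rfl fun j _ => by ring
  rw [f1, f2, f3] at hcs
  have hm' : (0 : ℝ) < m := by exact_mod_cast hm
  rw [div_le_iff₀ hm']
  linarith

theorem t_CSE : M_CSE := by
  intro hH F A B _ _ _ _ _ _ _ _ g hg hg1 a b ha hb r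
  obtain ⟨w, s, ν, hw, hs, H⟩ := hH F g hg
  set bA := Module.finBasis F A with hbA
  set bB := Module.finBasis F B with hbB
  have hMA := (cse_aeval bA a g).2 ha
  have hMB := (cse_aeval bB b g).2 hb
  obtain ⟨hα, -, hAA, -, -⟩ := H _ _ _ _ hMA hMA
  obtain ⟨hβ, -, hBB, -, -⟩ := H _ _ _ _ hMB hMB
  obtain ⟨-, -, -, -, hAB⟩ := H _ _ _ _ hMA hMB
  rw [cse_cm] at hAA hBB
  rw [cse_zc] at hAB
  have hq : (1 : ℝ) < (Nat.card F : ℝ) := by
    exact_mod_cast Finite.one_lt_card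
  set q : ℝ := (Nat.card F : ℝ) with hqd
  have hq0 : (0 : ℝ) < q := by linarith
  have key := cse_cs w s _ _ _ _ r hw hs hα hβ hg1
  set S := ∑ j, w j * (ν _ ((LinearMap.toMatrixAlgEquiv bA) a) j *
    ν _ ((LinearMap.toMatrixAlgEquiv bB) b) (s j)) with hS
  have z1 : (Zc g a b : ℝ) ≤ q ^ ((Module.finrank F A : ℝ) * Module.finrank F B - S) := by
    rw [Real.rpow_sub hq0, le_div_iff₀ (Real.rpow_pos_of_pos hq0 _), Real.rpow_natCast]
    have : q ^ ((Module.finrank F A : ℝ) * Module.finrank F B) =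
        q ^ (Module.finrank F A * Module.finrank F B) := by
      rw [← Real.rpow_natCast]
      push_cast
      rfl
    rw [this, hqd]
    exact_mod_cast hAB
  have z2 : (Zc g a b : ℝ) ^ (2 * r) ≤
      q ^ (2 * (r : ℝ) * ((Module.finrank F A : ℝ) * Module.finrank F B - S)) := by
    refine (pow_le_pow_left₀ (Nat.cast_nonneg _) z1 (2 * r)).trans (le_of_eq ?_)
    rw [← Real.rpow_natCast, ← Real.rpow_mul hq0.le]
    congr 1
    push_cast
    ring
  refine z2.trans ?_
  rw [hAA, hBB]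
  have c1 : (((Nat.card F ^ (∑ j, w j * (ν _ ((LinearMap.toMatrixAlgEquiv bA) a) j *
      ν _ ((LinearMap.toMatrixAlgEquiv bA) a) j)) : ℕ) : ℝ)) ^ (r ^ 2) =
      q ^ ((r : ℝ) ^ 2 * ((∑ j, w j * (ν _ ((LinearMap.toMatrixAlgEquiv bA) a) j *
      ν _ ((LinearMap.toMatrixAlgEquiv bA) a) j) : ℕ) : ℝ)) := by
    rw [Nat.cast_pow, ← pow_mul, ← Real.rpow_natCast]
    congr 1
    push_cast
    ring
  have c2 : (((Nat.card F ^ (∑ j, w j * (ν _ ((LinearMap.toMatrixAlgEquiv bB) b) j *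
      ν _ ((LinearMap.toMatrixAlgEquiv bB) b) j)) : ℕ) : ℝ)) =
      q ^ (((∑ j, w j * (ν _ ((LinearMap.toMatrixAlgEquiv bB) b) j *
      ν _ ((LinearMap.toMatrixAlgEquiv bB) b) j) : ℕ) : ℝ)) := by
    rw [Nat.cast_pow, Real.rpow_natCast]
  rw [c1, c2, ← Real.rpow_add hq0, ← Real.rpow_add hq0]
  apply Real.rpow_le_rpow_of_exponent_le hq.le
  have e : 2 * (r : ℝ) * ((Module.finrank F A : ℝ) * Module.finrank F B - S) =
    2 * (r : ℝ) * Module.finrank F A * Module.finrank F B - 2 * r * S := by ring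
  rw [e]
  linarith

end

end FLY
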