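import Mathlib
import Pool.Agent.FLY.StY
import Pool.Agent.FL0.CNT0

set_option autoImplicit false

/-!
# The number of tuples `Tk` in `PSL_n(q)`, all four classes (module CTG)
-/

namespace FLY

open RSF FL0 Polynomial Pool.Agent.Lib_helper13

noncomputable section

open CNT0 in
theorem t_CTG : M_CTG := by
  intro hLFH0 hLFK hNSG κ m hm hth
  obtain ⟨c, r1, hc, hr1, h1⟩ := hNSG κ m hm hth
  refine ⟨c, r1, hc, hr1, fun n hn F _ _ => ?_⟩
  have hfin := JL.finite_SL (F := F) (n := n)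
  have hfp := finPS n F
  have hft : Fintype (Subgroup.center (SL n F) : Set (SL n F)) := Fintype.ofFinite _
  have hg : 0 < Nat.card (Subgroup.center (SL n F)) := Nat.card_pos
  have hgR : (0 : ℝ) < Nat.card (Subgroup.center (SL n F)) := by exact_mod_cast hg
  have hSR : (0 : ℝ) < Nat.card (SL n F) := by exact_mod_cast (Nat.card_pos (α := SL n F))
  have hPR : (0 : ℝ) < Nat.card (PS n F) := by exact_mod_cast (Nat.card_pos (α := PS n F))
  have hSh : (0 : ℝ) < (Nat.card (SL n F) : ℝ) ^ κ.h := pow_pos hSR _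
  obtain ⟨hL1, -⟩ := hLFH0 n F
  have hcount := hLFK κ n F m (fun _ _ => True)
  have e1 : Nat.card {p : Tk κ (PS n F) m // True} = Nat.card (Tk κ (PS n F) m) :=
    Nat.card_congr (Equiv.subtypeUnivEquiv fun _ => trivial)
  have e2 : Nat.card {A : (Fin m.length → SL n F) × (Fin κ.h → SL n F) //
      (∀ j, A.1 j ^ m.get j ∈ Subgroup.center (SL n F)) ∧ True ∧
        (List.ofFn A.1).prod * wk κ A.2 ∈ Subgroup.center (SL n F)} =
      ∑ s : (Subgroup.center (SL n F) : Set (SL n F)),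
        Nat.card {A : (Fin m.length → SL n F) × (Fin κ.h → SL n F) //
        (∀ j, A.1 j ^ m.get j ∈ Subgroup.center (SL n F)) ∧
          (List.ofFn A.1).prod * wk κ A.2 = s} := by
    rw [← card_fib (fun A : (Fin m.length → SL n F) × (Fin κ.h → SL n F) =>
      ∀ j, A.1 j ^ m.get j ∈ Subgroup.center (SL n F))
      (fun A => (List.ofFn A.1).prod * wk κ A.2)]
    refine Nat.card_congr (Equiv.subtypeEquivRight fun A => ?_)
    simp
  rw [e1, e2] at hcount
  have hP : ∏ j, (Nat.card (CA n F (m.get j)) : ℝ) =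
      (Nat.card (Subgroup.center (SL n F)) : ℝ) ^ m.length * JJ (PS n F) m := by
    rw [JJ_eq, Nat.cast_prod]
    simp only [hL1, Nat.cast_mul]
    rw [Finset.prod_mul_distrib, Finset.prod_const, Finset.card_univ, Fintype.card_fin]
  have hJ : (0 : ℝ) < JJ (PS n F) m := by
    rw [JJ_eq]
    exact_mod_cast Finset.prod_pos fun j _ => jn_pos n F (m.get j)
  have hcard : (Nat.card (SL n F) : ℝ) =
      (Nat.card (PS n F) : ℝ) * Nat.card (Subgroup.center (SL n F)) := by
    rw [Subgroup.card_eq_card_quotient_mul_card_subgroup (Subgroup.center (SL n F)), Nat.cast_mul]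
  have hsum : ∑ s : (Subgroup.center (SL n F) : Set (SL n F)),
      (Nat.card {A : (Fin m.length → SL n F) × (Fin κ.h → SL n F) //
        (∀ j, A.1 j ^ m.get j ∈ Subgroup.center (SL n F)) ∧
          (List.ofFn A.1).prod * wk κ A.2 = s} : ℝ) / (Nat.card (SL n F) : ℝ) ^ κ.h =
      (Nat.card (Subgroup.center (SL n F)) : ℝ) ^ m.length *
        ((Nat.card (Tk κ (PS n F) m) : ℝ) / (Nat.card (PS n F) : ℝ) ^ κ.h) := by
    rw [← Finset.sum_div, div_eq_iff hSh.ne', hcard]
    have h3 : (∑ s : (Subgroup.center (SL n F) : Set (SL n F)),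
        (Nat.card {A : (Fin m.length → SL n F) × (Fin κ.h → SL n F) //
          (∀ j, A.1 j ^ m.get j ∈ Subgroup.center (SL n F)) ∧
            (List.ofFn A.1).prod * wk κ A.2 = s} : ℝ)) =
        (Nat.card (Subgroup.center (SL n F)) : ℝ) ^ (m.length + κ.h) *
          (Nat.card (Tk κ (PS n F) m) : ℝ) := by
      exact_mod_cast hcount
    rw [h3, pow_add, mul_pow]
    field_simp
  have key := real_ineq (fun s : (Subgroup.center (SL n F) : Set (SL n F)) =>
      (Nat.card {A : (Fin m.length → SL n F) × (Fin κ.h → SL n F) //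
        (∀ j, A.1 j ^ m.get j ∈ Subgroup.center (SL n F)) ∧
          (List.ofFn A.1).prod * wk κ A.2 = s} : ℝ) / (Nat.card (SL n F) : ℝ) ^ κ.h)
    ((Nat.card (Tk κ (PS n F) m) : ℝ) / (Nat.card (PS n F) : ℝ) ^ κ.h)
    (Nat.card (PS n F)) (JJ (PS n F) m) (Nat.card (Subgroup.center (SL n F))) 1
    ((Nat.card F : ℝ) ^ (-c * (n : ℝ))) (∏ j, (Nat.card (CA n F (m.get j)) : ℝ))
    (∏ j, (Nat.card (CA n F (m.get j)) : ℝ)) (Nat.card (SL n F))
    m.length hgR hJ
    (by rw [← Nat.card_eq_fintype_card]; rfl) hsum hcard hP (by rw [one_mul])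
    (Real.rpow_nonneg (Nat.cast_nonneg _) _) fun s => by
      have h4 := h1 n hn F s.1 s.2
      rw [div_mul_eq_mul_div, div_sub' hSh.ne', abs_div, abs_of_pos hSh, div_le_iff₀ hSh]
      refine (le_of_eq ?_).trans (h4.trans (le_of_eq ?_))
      · rw [mul_comm ((Nat.card (SL n F) : ℝ) ^ κ.h)]
      · ring
  have hsimp : (Nat.card (Tk κ (PS n F) m) : ℝ) / (Nat.card (PS n F) : ℝ) ^ κ.h *
      (Nat.card (PS n F) : ℝ) / (JJ (PS n F) m : ℝ) =
      (Nat.card (Tk κ (PS n F) m) : ℝ) * Nat.card (PS n F) /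
        ((Nat.card (PS n F) : ℝ) ^ κ.h * JJ (PS n F) m) := by
    field_simp
  rw [hsimp, one_mul] at key
  exact key

end

end FLY
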