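import Mathlib
import Pool.Agent.FLY.StY

/-!
# Module CYZ: cyclic modules, the rank of a linear map
-/

set_option autoImplicit false

namespace FLY

open RSF FL0 FGE Polynomial Pool.Agent.Lib_helper13

section cyz

variable {F A B : Type} [Field F] [AddCommGroup A] [Module F A] [AddCommGroup B] [Module F B]

theorem cyz_apply (a : A →ₗ[F] A) (b : B →ₗ[F] B) (c : B →ₗ[F] A) (v : A × B) :
    bk a c b v = (a v.1 + c v.2, b v.2) := rfl

theorem cyz_mul (a a' : A →ₗ[F] A) (c c' : B →ₗ[F] A) (b b' : B →ₗ[F] B) :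
    bk a c b * bk a' c' b' = bk (a * a') (a ∘ₗ c' + c ∘ₗ b') (b * b') := by
  apply LinearMap.ext
  intro v
  rw [Module.End.mul_apply, cyz_apply, cyz_apply, cyz_apply, Module.End.mul_apply,
    Module.End.mul_apply, map_add, LinearMap.add_apply, LinearMap.comp_apply,
    LinearMap.comp_apply, add_assoc]

theorem cyz_add (a a' : A →ₗ[F] A) (c c' : B →ₗ[F] A) (b b' : B →ₗ[F] B) :
    bk a c b + bk a' c' b' = bk (a + a') (c + c') (b + b') := by
  apply LinearMap.ext
  intro v
  rw [LinearMap.add_apply, cyz_apply, cyz_apply, cyz_apply, LinearMap.add_apply,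
    LinearMap.add_apply, LinearMap.add_apply, Prod.mk_add_mk, add_add_add_comm]

/-- The upper right block of `g (bk a c b)` is linear in `c`. -/
theorem cyz_block (a : A →ₗ[F] A) (b : B →ₗ[F] B) (g : F[X]) :
    ∃ D : (B →ₗ[F] A) →ₗ[F] (B →ₗ[F] A),
      ∀ c, aeval (bk a c b) g = bk (aeval a g) (D c) (aeval b g) := by
  induction g using Polynomial.induction_on with
  | C r =>
    refine ⟨0, fun c => ?_⟩
    apply LinearMap.ext
    intro v
    rw [aeval_C, aeval_C, aeval_C, cyz_apply, Module.algebraMap_end_apply,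
      Module.algebraMap_end_apply, Module.algebraMap_end_apply, LinearMap.zero_apply,
      LinearMap.zero_apply, add_zero]
    rfl
  | add p q hp hq =>
    obtain ⟨D, hD⟩ := hp
    obtain ⟨D', hD'⟩ := hq
    refine ⟨D + D', fun c => ?_⟩
    rw [map_add, map_add, map_add, hD, hD', cyz_add, LinearMap.add_apply]
  | monomial n r h =>
    obtain ⟨D, hD⟩ := h
    refine ⟨{ toFun := fun c => (aeval a (C r * X ^ n : F[X])) ∘ₗ c + D c ∘ₗ b
              map_add' := fun c c' => ?_
              map_smul' := fun k c => ?_ }, fun c => ?_⟩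
    · rw [map_add, LinearMap.comp_add, LinearMap.add_comp]
      abel
    · rw [map_smul, LinearMap.comp_smul, LinearMap.smul_comp, smul_add, RingHom.id_apply]
    · have e1 : aeval (bk a c b) (C r * X ^ (n + 1) : F[X]) =
          aeval (bk a c b) (C r * X ^ n : F[X]) * bk a c b := by
        rw [pow_succ, ← mul_assoc, map_mul, aeval_X]
      have e2 : aeval a (C r * X ^ (n + 1) : F[X]) = aeval a (C r * X ^ n : F[X]) * a := by
        rw [pow_succ, ← mul_assoc, map_mul, aeval_X]
      have e3 : aeval b (C r * X ^ (n + 1) : F[X]) = aeval b (C r * X ^ n : F[X]) * b := by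
        rw [pow_succ, ← mul_assoc, map_mul, aeval_X]
      rw [e1, e2, e3, hD, cyz_mul]
      rfl

/-- The action of polynomials. -/
theorem cyz_act {I : Ideal F[X]} (e : A ≃ₗ[F] (F[X] ⧸ I)) (a : A →ₗ[F] A)
    (ha : ∀ v, e (a v) = Ideal.Quotient.mk _ X * e v) (h : F[X]) (v : A) :
    e (aeval a h v) = Ideal.Quotient.mk I h * e v := by
  induction h using Polynomial.induction_on generalizing v with
  | C r =>
    rw [aeval_C, Module.algebraMap_end_apply, map_smul]
    obtain ⟨w, hw⟩ := Ideal.Quotient.mk_surjective (e v)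
    rw [← hw, ← map_mul, ← smul_eq_C_mul]
    rfl
  | add p q hp hq =>
    rw [map_add, LinearMap.add_apply, map_add, hp, hq, map_add, add_mul]
  | monomial n r h =>
    rw [pow_succ, ← mul_assoc, map_mul, aeval_X, Module.End.mul_apply, h, ha, ← mul_assoc, ← map_mul]

theorem cyz_adj_finite {f : F[X]} (hf : f.Monic) : Module.Finite F (F[X] ⧸ Ideal.span {f}) :=
  (AdjoinRoot.powerBasis' hf).finite

theorem cyz_adj_finrank {f : F[X]} (hf : f.Monic) :
    Module.finrank F (F[X] ⧸ Ideal.span {f}) = f.natDegree := by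
  have h := (AdjoinRoot.powerBasis' hf).finrank
  rw [AdjoinRoot.powerBasis'_dim] at h
  exact h

/-- The coefficient of `X ^ n`. -/
theorem cyz_coef {f : F[X]} (hf : f.Monic) (n : ℕ) (e : B ≃ₗ[F] (F[X] ⧸ Ideal.span {f})) :
    ∃ ε : B →ₗ[F] F, ∀ h : F[X], ε (e.symm (Ideal.Quotient.mk _ h)) = (h %ₘ f).coeff n := by
  refine ⟨(Polynomial.lcoeff F n) ∘ₗ (AdjoinRoot.modByMonicHom hf) ∘ₗ e.toLinearMap,
    fun h => ?_⟩
  change (Polynomial.lcoeff F n) (AdjoinRoot.modByMonicHom hf
    (e (e.symm (Ideal.Quotient.mk (Ideal.span {f}) h)))) = _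
  rw [LinearEquiv.apply_symm_apply]
  have h1 : AdjoinRoot.modByMonicHom hf (Ideal.Quotient.mk (Ideal.span {f}) h) = h %ₘ f :=
    AdjoinRoot.modByMonicHom_mk hf h
  rw [h1]
  rfl

/-- The value of `f (bk a c b)` at `(0, y)`, `f` monic of degree `N`, `c (b ^ i y) = 0` for `i < N - 1` and
`c (b ^ (N - 1) y) = w`. -/
theorem cyz_monic {f : F[X]} (hf : f.Monic) (a : A →ₗ[F] A) (b : B →ₗ[F] B) (c : B →ₗ[F] A)
    (y : B) (w : A) (n : ℕ) (hN : f.natDegree = n + 1) (h0 : ∀ i < n, c ((b ^ i) y) = 0)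
    (h1 : c ((b ^ n) y) = w) : aeval (bk a c b) f (0, y) = (w, aeval b f y) := by
  have key : ∀ i ≤ n, (bk a c b ^ i) (0, y) = (0, (b ^ i) y) := by
    intro i
    induction i with
    | zero => intro _; rfl
    | succ i ih =>
      intro hi
      rw [pow_succ', Module.End.mul_apply, ih (by omega), cyz_apply]
      simp only [map_zero, zero_add]
      rw [h0 i (by omega), pow_succ', Module.End.mul_apply]
  have key2 : (bk a c b ^ (n + 1)) (0, y) = (w, (b ^ (n + 1)) y) := by
    rw [pow_succ', Module.End.mul_apply, key n le_rfl, cyz_apply]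
    simp only [map_zero, zero_add]
    rw [h1, pow_succ', Module.End.mul_apply]
  have hs := hf.as_sum
  rw [hN] at hs
  have e1 : ∀ (V : Type) [AddCommGroup V] [Module F V] (x : V →ₗ[F] V) (v : V),
      aeval x f v = (x ^ (n + 1)) v + ∑ i ∈ Finset.range (n + 1), f.coeff i • (x ^ i) v := by
    intro V _ _ x v
    conv_lhs => rw [hs]
    rw [map_add, map_pow, aeval_X, LinearMap.add_apply, map_sum, LinearMap.sum_apply]
    congr 1
    refine Finset.sum_congr rfl fun i _ => ?_
    rw [map_mul, aeval_C, map_pow, aeval_X, Module.End.mul_apply, Module.algebraMap_end_apply]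
  rw [e1, e1, key2]
  have e2 : ∑ i ∈ Finset.range (n + 1), f.coeff i • (bk a c b ^ i) ((0 : A), y) =
      ((0 : A), ∑ i ∈ Finset.range (n + 1), f.coeff i • (b ^ i) y) := by
    have e3 : ∀ i ∈ Finset.range (n + 1), f.coeff i • (bk a c b ^ i) ((0 : A), y) =
        ((0 : A), f.coeff i • (b ^ i) y) := by
      intro i hi
      rw [key i (by rw [Finset.mem_range] at hi; omega), Prod.smul_mk, smul_zero]
    rw [Finset.sum_congr rfl e3]
    apply Prod.ext
    · rw [Prod.fst_sum]
      exact Finset.sum_const_zero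
    · rw [Prod.snd_sum]
  rw [e2, Prod.mk_add_mk, add_zero]

/-- Divisibility. -/
theorem cyz_dvd {g p φ g₁ : F[X]} {M s t : ℕ} (hp : p.Monic) (hi : Irreducible p) (hM : p ^ M ∣ g)
    (hM' : ¬ p ^ (M + 1) ∣ g) (hg : g = g₁ * p ^ t) (hst : M ≤ s + t) (h : p ^ s ∣ g₁ * φ) :
    p ^ (s + t - M) ∣ φ := by
  obtain ⟨u, hu⟩ := hM
  have hpu : ¬ p ∣ u := by
    rintro ⟨v, hv⟩
    apply hM'
    refine ⟨v, ?_⟩
    rw [hu, hv, pow_succ]
    ring
  have h1 : p ^ (s + t) ∣ p ^ M * (u * φ) := by
    obtain ⟨v, hv⟩ := h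
    refine ⟨v, ?_⟩
    rw [← mul_assoc, ← hu, hg, pow_add]
    calc g₁ * p ^ t * φ = (g₁ * φ) * p ^ t := by ring
      _ = p ^ s * p ^ t * v := by rw [hv]; ring
  have h2 : p ^ M * p ^ (s + t - M) ∣ p ^ M * (u * φ) := by
    rw [← pow_add]
    have e : M + (s + t - M) = s + t := by omega
    rwa [e]
  have h3 : p ^ (s + t - M) ∣ u * φ :=
    (mul_dvd_mul_iff_left (pow_ne_zero M hp.ne_zero)).1 h2
  have h4 : IsCoprime (p ^ (s + t - M)) u :=
    ((Irreducible.coprime_iff_not_dvd hi).2 hpu).pow_left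
  exact h4.dvd_of_dvd_mul_left h3

end cyz

/-- CYZ. -/
theorem t_CYZ : S_CYZ := by
  intro F _ _ g p M s t hg hp hi hM hM' hs ht A B _ _ _ _ a b eA eB ha hb
  have hps : (p ^ s).Monic := hp.pow s
  have hpt : (p ^ t).Monic := hp.pow t
  have hfA : Module.Finite F A :=
    haveI := cyz_adj_finite hps
    Module.Finite.equiv eA.symm
  have hfB : Module.Finite F B :=
    haveI := cyz_adj_finite hpt
    Module.Finite.equiv eB.symm
  have hdA : Module.finrank F A = p.natDegree * s := by
    rw [eA.finrank_eq, cyz_adj_finrank hps, hp.natDegree_pow, mul_comm]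
  have hdB : Module.finrank F B = p.natDegree * t := by
    rw [eB.finrank_eq, cyz_adj_finrank hpt, hp.natDegree_pow, mul_comm]
  have hfin : Finite (B →ₗ[F] A) := Module.finite_of_finite F
  have hcard : Nat.card (B →ₗ[F] A) = Nat.card F ^ ((p.natDegree * s) * (p.natDegree * t)) := by
    rw [Module.natCard_eq_pow_finrank (K := F), Module.finrank_linearMap, hdA, hdB, mul_comm]
  rw [← hcard]
  have hpos : 0 < p.natDegree := hi.natDegree_pos
  rcases Nat.eq_zero_or_pos (s + t - M) with h0 | h0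
  · rw [h0, mul_zero, pow_zero, mul_one]
    exact Nat.card_le_card_of_injective Subtype.val Subtype.val_injective
  have htpos : 0 < t := by omega
  obtain ⟨n, hn⟩ : ∃ n, (p ^ t).natDegree = n + 1 := by
    have h1 : 0 < (p ^ t).natDegree := by
      rw [hp.natDegree_pow]
      exact Nat.mul_pos htpos hpos
    exact ⟨(p ^ t).natDegree - 1, by omega⟩
  obtain ⟨ε, hε⟩ := cyz_coef hpt n eB
  set y₀ : B := eB.symm 1 with hy₀
  set x₀ : A := eA.symm 1 with hx₀
  have hby : ∀ h : F[X], aeval b h y₀ = eB.symm (Ideal.Quotient.mk _ h) := by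
    intro h
    apply eB.injective
    rw [cyz_act eB b hb, hy₀, LinearEquiv.apply_symm_apply, LinearEquiv.apply_symm_apply, mul_one]
  set cf : F[X] → (B →ₗ[F] A) := fun φ => (LinearMap.toSpanSingleton F A (aeval a φ x₀)) ∘ₗ ε
    with hcf
  have hcfv : ∀ φ y, cf φ y = ε y • aeval a φ x₀ := fun φ y => rfl
  obtain ⟨g₁, hg₁⟩ : p ^ t ∣ g := (pow_dvd_pow p ht).trans hM
  rw [mul_comm] at hg₁
  obtain ⟨D, hD⟩ := cyz_block a b g
  have hker : ∀ φ, D (cf φ) = 0 → p ^ (s + t - M) ∣ φ := by
    intro φ hφ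
    have hga : aeval a g = 0 := by
      apply LinearMap.ext
      intro v
      apply eA.injective
      rw [cyz_act eA a ha, LinearMap.zero_apply, map_zero]
      have h1 : Ideal.Quotient.mk (Ideal.span {p ^ s}) g = 0 :=
        Ideal.Quotient.eq_zero_iff_mem.2
          (Ideal.mem_span_singleton.2 ((pow_dvd_pow p hs).trans hM))
      rw [h1, zero_mul]
    have h1 : aeval (bk a (cf φ) b) g (0, y₀) = (0, aeval b g y₀) := by
      rw [hD, hφ, cyz_apply, hga]
      simp only [LinearMap.zero_apply, add_zero]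
    have h2 : aeval (bk a (cf φ) b) (p ^ t) (0, y₀) = (aeval a φ x₀, aeval b (p ^ t) y₀) := by
      apply cyz_monic hpt a b (cf φ) y₀ (aeval a φ x₀) n hn
      · intro i hi'
        have e1 : (b ^ i) y₀ = aeval b (X ^ i : F[X]) y₀ := by
          rw [map_pow, aeval_X]
        rw [hcfv, e1, hby, hε]
        have e2 : (X ^ i : F[X]) %ₘ p ^ t = X ^ i := by
          rw [modByMonic_eq_self_iff hpt, degree_X_pow, degree_eq_natDegree hpt.ne_zero, hn]
          exact_mod_cast (by omega : i < n + 1)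
        rw [e2, coeff_X_pow, if_neg (by omega), zero_smul]
      · have e1 : (b ^ n) y₀ = aeval b (X ^ n : F[X]) y₀ := by
          rw [map_pow, aeval_X]
        rw [hcfv, e1, hby, hε]
        have e2 : (X ^ n : F[X]) %ₘ p ^ t = X ^ n := by
          rw [modByMonic_eq_self_iff hpt, degree_X_pow, degree_eq_natDegree hpt.ne_zero, hn]
          exact_mod_cast (by omega : n < n + 1)
        rw [e2, coeff_X_pow, if_pos rfl, one_smul]
    have h3 : aeval b (p ^ t) y₀ = 0 := by
      rw [hby]
      have h4 : Ideal.Quotient.mk (Ideal.span {p ^ t}) (p ^ t) = 0 :=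
        Ideal.Quotient.eq_zero_iff_mem.2 (Ideal.mem_span_singleton_self _)
      rw [h4, map_zero]
    rw [h3] at h2
    obtain ⟨D₁, hD₁⟩ := cyz_block a b g₁
    rw [hg₁, map_mul, Module.End.mul_apply, h2, hD₁, cyz_apply] at h1
    have h5 := congrArg Prod.fst h1
    simp only [map_zero, add_zero] at h5
    have h6 : aeval a (g₁ * φ) x₀ = 0 := by
      rw [map_mul, Module.End.mul_apply]
      exact h5
    have h7 := congrArg eA h6
    rw [cyz_act eA a ha, hx₀, LinearEquiv.apply_symm_apply, mul_one, map_zero] at h7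
    have h8 : p ^ s ∣ g₁ * φ := Ideal.mem_span_singleton.1 (Ideal.Quotient.eq_zero_iff_mem.1 h7)
    exact cyz_dvd hp hi hM hM' hg₁ (by omega) h8
  have hzero : ∀ c : B →ₗ[F] A, aeval (bk a c b) g = 0 → D c = 0 := by
    intro c hc
    apply LinearMap.ext
    intro v
    have h1 : aeval (bk a c b) g (0, v) = 0 := by
      rw [hc]
      rfl
    rw [hD, cyz_apply] at h1
    have h2 := congrArg Prod.fst h1
    simp only [map_zero, zero_add] at h2
    exact h2
  set K := p.natDegree * (s + t - M) with hK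
  have hcK : Nat.card F ^ K = Nat.card (Polynomial.degreeLT F K) := by
    rw [Nat.card_congr (Polynomial.degreeLTEquiv F K).toEquiv, Nat.card_fun, Nat.card_eq_fintype_card (α := Fin K),
      Fintype.card_fin]
  unfold Zc
  rw [hcK, ← Nat.card_prod]
  apply Nat.card_le_card_of_injective
    (fun q : {c : B →ₗ[F] A // aeval (bk a c b) g = 0} × Polynomial.degreeLT F K =>
      q.1.1 + cf q.2.1)
  rintro ⟨⟨c, hc⟩, ⟨φ, hφ⟩⟩ ⟨⟨c', hc'⟩, ⟨φ', hφ'⟩⟩ he
  simp only at he
  have h1 : cf (φ - φ') = c' - c := by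
    have e1 : cf (φ - φ') = cf φ - cf φ' := by
      apply LinearMap.ext
      intro y
      rw [LinearMap.sub_apply, hcfv, hcfv, hcfv, map_sub, LinearMap.sub_apply, smul_sub]
    rw [e1, sub_eq_sub_iff_add_eq_add, add_comm, he, add_comm]
  have h2 : D (cf (φ - φ')) = 0 := by
    rw [h1, map_sub, hzero c hc, hzero c' hc', sub_zero]
  have h3 := hker _ h2
  have h4 : φ - φ' = 0 := by
    apply eq_zero_of_dvd_of_degree_lt h3
    have e1 : (p ^ (s + t - M)).degree = (K : WithBot ℕ) := by
      rw [degree_eq_natDegree (hp.pow _).ne_zero, hp.natDegree_pow, hK, mul_comm]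
    rw [e1]
    exact Polynomial.mem_degreeLT.1 (Submodule.sub_mem _ hφ hφ')
  have h5 : φ = φ' := sub_eq_zero.1 h4
  subst h5
  have h6 : c = c' := add_right_cancel he
  subst h6
  rfl

end FLY
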