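import Pool.Agent.FLX.StX
import Pool.Agent.FGQ.StQ
import Pool.Agent.FLW.StW

/-!
# Random homomorphisms of all four classes of groups to `PSL_n(q)`, all `q` (MP_5b5212_al): definitions

The four classes are treated at the same time: `Kd.o0` the oriented groups of genus `0`, `Kd.n1` the non-oriented groups of
genus `1`, `Kd.o1` the oriented groups of genus `1`, `Kd.n2` the non-oriented groups of genus `2`. `κ.h` is the number
of the generators without order, `wk κ` the word in these.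
-/

namespace FLY

open RSF FL0 FGE Polynomial

noncomputable section

/-- the four classes -/
inductive Kd : Type
  | o0 : Kd
  | n1 : Kd
  | o1 : Kd
  | n2 : Kd

/-- the number of the generators without order -/
def Kd.h : Kd → ℕ
  | .o0 => 0
  | .n1 => 1
  | .o1 => 2
  | .n2 => 2

/-- the word `1`, `a ^ 2`, `[a, b]`, `a ^ 2 b ^ 2` -/
def wk {G : Type} [Group G] : (κ : Kd) → (Fin κ.h → G) → G
  | .o0, _ => 1
  | .n1, e => e (0 : Fin 1) ^ 2
  | .o1, e => e (0 : Fin 2) * e (1 : Fin 2) * (e (0 : Fin 2))⁻¹ * (e (1 : Fin 2))⁻¹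
  | .n2, e => e (0 : Fin 2) ^ 2 * e (1 : Fin 2) ^ 2

/-- `σ + h - 2` -/
def th (κ : Kd) (m : List ℕ) : ℝ := sig m + κ.h - 2

/-- the tuples `(t, e)` in `G` with `t_j ^ m_j = 1` and `∏ t_j * wk κ e = 1` -/
def Tk (κ : Kd) (G : Type) [Group G] (m : List ℕ) : Type :=
  {p : (Fin m.length → G) × (Fin κ.h → G) // (∀ j, p.1 j ^ m.get j = 1) ∧
    (List.ofFn p.1).prod * wk κ p.2 = 1}

/-- the subgroup generated by a tuple -/
def rg {κ : Kd} {G : Type} [Group G] {m : List ℕ} (p : Tk κ G m) : Subgroup G :=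
  Subgroup.closure (Set.range p.1.1 ∪ Set.range p.1.2)

/-- the proportion of the tuples that generate a subgroup with the property `Q` -/
def prk (κ : Kd) (G : Type) [Group G] (m : List ℕ) (Q : Subgroup G → Prop) : ℝ :=
  (Nat.card {p : Tk κ G m // Q (rg p)} : ℝ) / Nat.card (Tk κ G m)

/-- `g_j` is monic of degree `m_j` with constant term `≠ 0` -/
def Gp {F : Type} [Field F] (m : List ℕ) (g : Fin m.length → F[X]) : Prop :=
  ∀ j, (g j).Monic ∧ (g j).natDegree = m.get j ∧ (g j).coeff 0 ≠ 0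

/-! ## Linear maps -/

/-- the sign -/
def sgk (F : Type) [Field F] : Kd → F
  | .o0 => 1
  | .n1 => -1
  | .o1 => 1
  | .n2 => -1

section

variable {F A B V : Type} [Field F] [AddCommGroup A] [Module F A] [AddCommGroup B] [Module F B]
  [AddCommGroup V] [Module F V] {d : ℕ}

/-- for invertible `e i`: `Wk κ z X e = 0` iff `X * wk κ e = z` -/
def Wk : (κ : Kd) → F → (V →ₗ[F] V) → (Fin κ.h → (V →ₗ[F] V)) → (V →ₗ[F] V)
  | .o0, z, X, _ => X - z • 1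
  | .n1, z, X, e => X * e (0 : Fin 1) ^ 2 - z • 1
  | .o1, z, X, e => X * e (0 : Fin 2) * e (1 : Fin 2) - z • (e (1 : Fin 2) * e (0 : Fin 2))
  | .n2, z, X, e => X * e (0 : Fin 2) ^ 2 * e (1 : Fin 2) ^ 2 - z • 1

/-- `g_j(x_j) = 0`, the `e i` are invertible, `∏ x_j * wk κ e = z` -/
def Tl (κ : Kd) (z : F) (g : Fin d → F[X]) (x : Fin d → (V →ₗ[F] V)) (e : Fin κ.h → (V →ₗ[F] V)) : Prop :=
  (∀ j, aeval (x j) (g j) = 0) ∧ (∀ i, IsUnit (e i)) ∧ Wk κ z (List.ofFn x).prod e = 0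

/-- `W` is invariant -/
def Ik {h : ℕ} (x : Fin d → (V →ₗ[F] V)) (e : Fin h → (V →ₗ[F] V)) (W : Submodule F V) : Prop :=
  Inv x W ∧ Inv e W

/-- only `0` and `V` are invariant, `V ≠ 0` -/
def Sk {h : ℕ} (x : Fin d → (V →ₗ[F] V)) (e : Fin h → (V →ₗ[F] V)) : Prop :=
  Nontrivial V ∧ ∀ W : Submodule F V, Ik x e W → W = ⊥ ∨ W = ⊤

/-- the linear maps that commute with the `α j`, `β j` and commute up to the sign with the `u i`, `v i` -/
def Hk (κ : Kd) (α : Fin d → (A →ₗ[F] A)) (u : Fin κ.h → (A →ₗ[F] A)) (β : Fin d → (B →ₗ[F] B))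
    (v : Fin κ.h → (B →ₗ[F] B)) : Type :=
  {f : A →ₗ[F] B // (∀ j, f ∘ₗ α j = β j ∘ₗ f) ∧ ∀ i, f ∘ₗ u i = sgk F κ • (v i ∘ₗ f)}

/-- the upper right block of `Wk` for block triangular endomorphisms of `A × B`, linear in `(c, f)` -/
def uk (κ : Kd) (z : F) (a : Fin d → (A →ₗ[F] A)) (u : Fin κ.h → (A →ₗ[F] A)) (b : Fin d → (B →ₗ[F] B))
    (v : Fin κ.h → (B →ₗ[F] B)) (c : Fin d → (B →ₗ[F] A)) (f : Fin κ.h → (B →ₗ[F] A)) : B →ₗ[F] A :=
  LinearMap.fst F A B ∘ₗ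
    Wk κ z (List.ofFn fun j => bk (a j) (c j) (b j)).prod (fun i => bk (u i) (f i) (v i)) ∘ₗ
    LinearMap.inr F A B

/-- the number of the `c` such that `bk a c b` is killed by `g` -/
def Zc (g : F[X]) (a : A →ₗ[F] A) (b : B →ₗ[F] B) : ℕ :=
  Nat.card {c : B →ₗ[F] A // aeval (bk a c b) g = 0}

/-- the number of the endomorphisms that commute with `a` -/
def Cm (a : V →ₗ[F] V) : ℕ := Nat.card {c : V →ₗ[F] V // c ∘ₗ a = a ∘ₗ c}

/-- `a` and `b` are conjugate -/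
def Cj (a b : V →ₗ[F] V) : Prop := ∃ e : V ≃ₗ[F] V, ∀ v, e (a v) = b (e v)

/-- the product of the `Zc / q ^ (dim A dim B)` -/
def om (g : Fin d → F[X]) (a : Fin d → (A →ₗ[F] A)) (b : Fin d → (B →ₗ[F] B)) : ℝ :=
  ∏ j, ((Zc (g j) (a j) (b j) : ℝ) /
    (Nat.card F : ℝ) ^ (Module.finrank F A * Module.finrank F B))

/-- the sum of `om ^ r` over the tuples of `B` -/
def Ar (κ : Kd) (z : F) (g : Fin d → F[X]) (r : ℕ) (a : Fin d → (A →ₗ[F] A)) (B : Type)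
    [AddCommGroup B] [Module F B] : ℝ :=
  ∑ᶠ p : {p : (Fin d → (B →ₗ[F] B)) × (Fin κ.h → (B →ₗ[F] B)) // Tl κ z g p.1 p.2},
    om g a p.1.1 ^ r

/-- the sum of `om ^ r` times the number of the homomorphisms -/
def Zr (κ : Kd) (z : F) (g : Fin d → F[X]) (r : ℕ) (a : Fin d → (A →ₗ[F] A))
    (u : Fin κ.h → (A →ₗ[F] A)) (B : Type) [AddCommGroup B] [Module F B] : ℝ :=
  ∑ᶠ p : {p : (Fin d → (B →ₗ[F] B)) × (Fin κ.h → (B →ₗ[F] B)) // Tl κ z g p.1 p.2},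
    om g a p.1.1 ^ r * Nat.card (Hk κ a u p.1.1 p.1.2)

end

/-- The statement for the group `Γ` with the periods `m` (`FGE.St` without the condition on `q`). -/
def StG (h : ℕ) (Γ : Type) [Group Γ] (m : List ℕ) : Prop :=
  2 < sig m + h → ∀ θ : ℝ, m.length - sig m < θ * (m.length + h - 2) →
    ∃ (c : ℝ) (r : ℕ), 0 < c ∧ ∀ n, r ≤ n → ∀ (F : Type) [Field F] [Finite F],
      |(Nat.card (Γ →* PS n F) : ℝ) * (Nat.card (PS n F) : ℝ) ^ (1 - (h : ℤ)) /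
          (m.map fun k => (Nat.card {t : PS n F // t ^ k = 1} : ℝ)).prod - 1| ≤
        (Nat.card F : ℝ) ^ (-c * (n : ℝ)) ∧
      ∀ S : Set (Subgroup (PS n F)), (S.ncard : ℝ) ≤ (Nat.card F : ℝ) ^ (c * (n : ℝ) ^ 2) →
        (∀ M ∈ S, (Nat.card F : ℝ) ^ (θ * (n : ℝ) ^ 2) ≤ M.index) →
        1 - (Nat.card F : ℝ) ^ (-c * (n : ℝ)) ≤ prob Γ (PS n F)
          (fun ρ => Irr ρ.range ∧ (∀ M ∈ S, ¬ InConj ρ.range M) ∧
            ((∃ k ∈ m, 1 / (k : ℝ) < sig m + h - 2) → ¬ Asch ρ.range))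

/-- The theorem: number and image of the homomorphisms, all four classes, all `q`. -/
def MainG : Prop :=
  ∀ m : List ℕ, (∀ k ∈ m, 2 ≤ k) →
    StG 0 (OGroup 0 m) m ∧ StG 1 (NGroup 1 m) m ∧ StG 2 (OGroup 1 m) m ∧ StG 2 (NGroup 2 m) m

end

end FLY
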