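import Mathlib
import Pool.Agent.FLY.StY
import Pool.Agent.FLN.FIB

/-!
# Tuples which induce given tuples on a subspace and on the quotient, all four classes (module FBK)
-/

set_option autoImplicit false

namespace FLY

open RSF FL0 FGE Polynomial Pool.Agent.Lib_helper13

section

variable {F V U : Type} [Field F] [AddCommGroup V] [Module F V] [AddCommGroup U] [Module F U]

lemma fbk_cj_sub (e : V ≃ₗ[F] U) (f g : Module.End F V) :
    FIBaux.cj e (f - g) = FIBaux.cj e f - FIBaux.cj e g := by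
  refine LinearMap.ext fun x => ?_
  show e (f (e.symm x) - g (e.symm x)) = e (f (e.symm x)) - e (g (e.symm x))
  exact map_sub e _ _

lemma fbk_cj_smul (e : V ≃ₗ[F] U) (z : F) (f : Module.End F V) :
    FIBaux.cj e (z • f) = z • FIBaux.cj e f := by
  refine LinearMap.ext fun x => ?_
  show e (z • f (e.symm x)) = z • e (f (e.symm x))
  exact map_smul e _ _

lemma fbk_cj_add (e : V ≃ₗ[F] U) (f g : Module.End F V) :
    FIBaux.cj e (f + g) = FIBaux.cj e f + FIBaux.cj e g := by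
  refine LinearMap.ext fun x => ?_
  show e (f (e.symm x) + g (e.symm x)) = e (f (e.symm x)) + e (g (e.symm x))
  exact map_add e _ _

/-- the relation after conjugation -/
lemma fbk_wk (e : V ≃ₗ[F] U) (κ : Kd) (z : F) (X : Module.End F V)
    (ε : Fin κ.h → Module.End F V) :
    Wk κ z (FIBaux.cj e X) (fun i => FIBaux.cj e (ε i)) =
      FIBaux.cj e (Wk κ z X ε : Module.End F V) := by
  cases κ
  · have h1 : (Wk .o0 z X ε : Module.End F V) = X - z • 1 := rfl
    have h2 : (Wk .o0 z (FIBaux.cj e X) (fun i => FIBaux.cj e (ε i)) : Module.End F U) =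
      FIBaux.cj e X - z • 1 := rfl
    rw [h1, h2, fbk_cj_sub, fbk_cj_smul, map_one]
  · have h1 : (Wk .n1 z X ε : Module.End F V) = X * ε (0 : Fin 1) ^ 2 - z • 1 := rfl
    have h2 : (Wk .n1 z (FIBaux.cj e X) (fun i => FIBaux.cj e (ε i)) : Module.End F U) =
      FIBaux.cj e X * FIBaux.cj e (ε (0 : Fin 1)) ^ 2 - z • 1 := rfl
    rw [h1, h2, fbk_cj_sub, fbk_cj_smul, map_mul, map_pow, map_one]
  · have h1 : (Wk .o1 z X ε : Module.End F V) =
      X * ε (0 : Fin 2) * ε (1 : Fin 2) - z • (ε (1 : Fin 2) * ε (0 : Fin 2)) := rfl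
    have h2 : (Wk .o1 z (FIBaux.cj e X) (fun i => FIBaux.cj e (ε i)) : Module.End F U) =
      FIBaux.cj e X * FIBaux.cj e (ε (0 : Fin 2)) * FIBaux.cj e (ε (1 : Fin 2)) -
        z • (FIBaux.cj e (ε (1 : Fin 2)) * FIBaux.cj e (ε (0 : Fin 2))) := rfl
    rw [h1, h2, fbk_cj_sub, fbk_cj_smul, map_mul, map_mul, map_mul]
  · have h1 : (Wk .n2 z X ε : Module.End F V) =
      X * ε (0 : Fin 2) ^ 2 * ε (1 : Fin 2) ^ 2 - z • 1 := rfl
    have h2 : (Wk .n2 z (FIBaux.cj e X) (fun i => FIBaux.cj e (ε i)) : Module.End F U) =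
      FIBaux.cj e X * FIBaux.cj e (ε (0 : Fin 2)) ^ 2 * FIBaux.cj e (ε (1 : Fin 2)) ^ 2 -
        z • 1 := rfl
    rw [h1, h2, fbk_cj_sub, fbk_cj_smul, map_mul, map_mul, map_pow, map_pow, map_one]

/-- polynomials after conjugation -/
lemma fbk_aeval (e : V ≃ₗ[F] U) (x : Module.End F V) (g : F[X]) :
    aeval (FIBaux.cj e x) g = FIBaux.cj e (aeval x g) := by
  induction g using Polynomial.induction_on' with
  | add p q hp hq => rw [map_add, map_add, hp, hq, fbk_cj_add]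
  | monomial n r =>
    rw [aeval_monomial, aeval_monomial, ← map_pow, ← Algebra.smul_def, ← Algebra.smul_def,
      fbk_cj_smul]

end

open FIBaux in
theorem t_FBK : M_FBK := by
  intro hZOK κ F V _ _ _ _ _ d z hz g W a u b v hau hbv
  have : Finite V := Module.finite_of_finite F
  have : Finite (V ⧸ W) := Module.finite_of_finite F
  obtain ⟨e, he1, he2⟩ := exists_split W
  have hfin1 : Finite ((V ⧸ W) →ₗ[F] W) := Finite.of_injective
      (fun f : (V ⧸ W) →ₗ[F] W => (f : (V ⧸ W) → W)) DFunLike.coe_injective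
  have hfin : Finite ((Fin d → ((V ⧸ W) →ₗ[F] W)) × (Fin κ.h → ((V ⧸ W) →ₗ[F] W))) := by
    infer_instance
  refine le_trans (Nat.mul_le_mul_right _ ?_)
    (hZOK κ F W (V ⧸ W) d z hz g a u b v hau hbv)
  -- the blocks
  let c : (V →ₗ[F] V) → ((V ⧸ W) →ₗ[F] W) := fun x =>
    LinearMap.fst F W (V ⧸ W) ∘ₗ cj e x ∘ₗ LinearMap.inr F W (V ⧸ W)
  have hc : ∀ (x : Fin d → (V →ₗ[F] V)) (y : Fin κ.h → (V →ₗ[F] V)), (∃ h : Ik x y W,
      sb x W h.1 = a ∧ sb y W h.2 = u ∧ qt x W h.1 = b ∧ qt y W h.2 = v) →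
      (∀ j, bk (a j) (c (x j)) (b j) = cj e (x j)) ∧
        ∀ i, bk (u i) (c (y i)) (v i) = cj e (y i) := by
    rintro x y ⟨h, rfl, rfl, rfl, rfl⟩
    exact ⟨fun j => FLN.fib_bk W e he1 he2 (x j) (h.1 j),
      fun i => FLN.fib_bk W e he1 he2 (y i) (h.2 i)⟩
  refine Nat.card_le_card_of_injective
    (fun x => ⟨(fun j => c (x.1.1 j), fun i => c (x.1.2 i)), fun j => ?_, ?_⟩) ?_
  · have h1 : (bk (a j) (c (x.1.1 j)) (b j) : Module.End F (W × (V ⧸ W))) =
      cj e (x.1.1 j) := (hc x.1.1 x.1.2 x.2.2).1 j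
    have h2 : aeval (x.1.1 j : Module.End F V) (g j) = 0 := x.2.1.1 j
    show aeval (bk (a j) (c (x.1.1 j)) (b j) : Module.End F (W × (V ⧸ W))) (g j) = 0
    rw [h1, fbk_aeval, h2]
    refine LinearMap.ext fun x => ?_
    exact map_zero e
  · obtain ⟨hc1, hc2⟩ := hc x.1.1 x.1.2 x.2.2
    have h1 : (fun j => bk (a j) (c (x.1.1 j)) (b j)) = fun j => cj e (x.1.1 j) :=
      funext fun j => hc1 j
    have h1' : (fun i => bk (u i) (c (x.1.2 i)) (v i)) = fun i => cj e (x.1.2 i) :=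
      funext fun i => hc2 i
    show Wk κ z (List.ofFn fun j => bk (a j) (c (x.1.1 j)) (b j)).prod
      (fun i => bk (u i) (c (x.1.2 i)) (v i)) = 0
    rw [h1, h1']
    have h2 : (List.ofFn fun j => cj e (x.1.1 j)) = (List.ofFn x.1.1).map (cj e) := by
      rw [List.map_ofFn]
      rfl
    rw [h2, ← map_list_prod]
    have h3 : (Wk κ z (List.ofFn x.1.1).prod x.1.2 : Module.End F V) = 0 :=
      x.2.1.2.2
    refine (fbk_wk e κ z (List.ofFn x.1.1).prod x.1.2).trans ?_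
    rw [h3]
    refine LinearMap.ext fun x => ?_
    exact map_zero e
  · intro x y hxy
    have h0 := congrArg Subtype.val hxy
    have h1 : (fun j => c (x.1.1 j)) = fun j => c (y.1.1 j) := congrArg Prod.fst h0
    have h2 : (fun i => c (x.1.2 i)) = fun i => c (y.1.2 i) := congrArg Prod.snd h0
    obtain ⟨hx1, hx2⟩ := hc x.1.1 x.1.2 x.2.2
    obtain ⟨hy1, hy2⟩ := hc y.1.1 y.1.2 y.2.2
    refine Subtype.ext (Prod.ext (funext fun j => ?_) (funext fun i => ?_))
    · apply cj_inj e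
      rw [← hx1 j, ← hy1 j, congrFun h1 j]
    · apply cj_inj e
      rw [← hx2 i, ← hy2 i, congrFun h2 i]

end FLY
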