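import Mathlib
import Pool.Agent.FLY.StY

/-!
# Module FIG of project FLY: homomorphisms with reducible image

Adaptation of `Pool/Agent/FLW/FII.lean`.
-/

set_option autoImplicit false

namespace FLY

open RSF FL0 FGE Polynomial

noncomputable section

open Matrix

theorem fig_wk {G H : Type} [Group G] [Group H] (f : G →* H) (κ : Kd) (e : Fin κ.h → G) :
    f (wk κ e) = wk κ (fun i => f (e i)) := by
  cases κ <;> simp [wk]

theorem fig_prod {G H : Type} [Group G] [Group H] (f : G →* H) (d : ℕ) (a : Fin d → G) :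
    f (List.ofFn a).prod = (List.ofFn fun j => f (a j)).prod := by
  rw [map_list_prod, List.map_ofFn]
  rfl

/-- the reducible tuples which are counted in `S_REK` -/
def FigT (κ : Kd) (n : ℕ) (F : Type) [Field F] (m : List ℕ) (z : F) (g : Fin m.length → F[X]) :
    Type :=
  {t : (Fin m.length → GL (Fin n) F) × (Fin κ.h → GL (Fin n) F) //
    (∀ j, aeval (t.1 j).1 (g j) = 0) ∧
    (List.ofFn t.1).prod.1 * (wk κ t.2).1 = Matrix.scalar (Fin n) z ∧
    ∃ W : Submodule F (Fin n → F), W ≠ ⊥ ∧ W ≠ ⊤ ∧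
      (∀ j, ∀ w ∈ W, (t.1 j).1.mulVec w ∈ W) ∧ ∀ i, ∀ w ∈ W, (t.2 i).1.mulVec w ∈ W}

theorem fig_scalar {n : ℕ} {F : Type} [Field F] (hn : 1 ≤ n) (A : SL n F)
    (hA : mk A = (1 : PS n F)) : ∃ z : Fˣ, A.1 = Matrix.scalar (Fin n) z.1 := by
  have h1 : A ∈ Subgroup.center (SL n F) := by
    have h2 : (QuotientGroup.mk A : PS n F) = 1 := hA
    exact (QuotientGroup.eq_one_iff A).1 h2
  obtain ⟨ν, hν, hν2⟩ := Matrix.SpecialLinearGroup.mem_center_iff.1 h1
  have hν0 : ν ≠ 0 := by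
    rintro rfl
    rw [Fintype.card_fin, zero_pow (by omega)] at hν
    exact zero_ne_one hν
  exact ⟨Units.mk0 ν hν0, hν2.symm⟩

/-- lifts of the tuples -/
theorem fig_lift {n : ℕ} {F : Type} [Field F] [Finite F] (hn : 1 ≤ n) (κ : Kd) (m : List ℕ)
    (p : {p : Tk κ (PS n F) m // ¬ Irr (rg p)}) :
    ∃ w : Σ z : Fˣ, Σ l : Fin m.length → Fˣ,
        FigT κ n F m z.1 (fun j => X ^ m.get j - Polynomial.C (l j).1),
      (∀ j, ∃ A : SL n F, mk A = p.1.1.1 j ∧ SpecialLinearGroup.toGL A = w.2.2.1.1 j) ∧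
      ∀ i, ∃ B : SL n F, mk B = p.1.1.2 i ∧ SpecialLinearGroup.toGL B = w.2.2.1.2 i := by
  obtain ⟨⟨⟨t, e⟩, h1, h2⟩, h3⟩ := p
  dsimp only at h1 h2
  have hA : ∀ j, ∃ A : SL n F, mk A = t j := fun j => QuotientGroup.mk_surjective (t j)
  have hB : ∀ i, ∃ B : SL n F, mk B = e i := fun i => QuotientGroup.mk_surjective (e i)
  choose A hA using hA
  choose B hB using hB
  let f : SL n F →* PS n F := QuotientGroup.mk' (Subgroup.center (SL n F))
  have hf : ∀ a, f a = mk a := fun a => rfl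
  have hpow : ∀ j, ∃ z : Fˣ, (A j ^ m.get j).1 = Matrix.scalar (Fin n) z.1 := by
    intro j
    apply fig_scalar hn
    rw [← hf, map_pow, hf, hA]
    exact h1 j
  choose l hl using hpow
  obtain ⟨z, hz⟩ : ∃ z : Fˣ, ((List.ofFn A).prod * wk κ B).1 = Matrix.scalar (Fin n) z.1 := by
    apply fig_scalar hn
    rw [← hf, map_mul, fig_prod, fig_wk]
    have e1 : (fun j => f (A j)) = t := funext fun j => hA j
    have e2 : (fun i => f (B i)) = e := funext fun i => hB i
    rw [e1, e2]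
    exact h2
  unfold Irr at h3
  push Not at h3
  obtain ⟨W, hW, hW1, hW2⟩ := h3
  refine ⟨⟨z, l, ⟨(fun j => SpecialLinearGroup.toGL (A j), fun i => SpecialLinearGroup.toGL (B i)),
    ?_, ?_, W, hW1, hW2, ?_, ?_⟩⟩, ?_, ?_⟩
  · intro j
    change aeval (A j).1 (X ^ m.get j - Polynomial.C (l j).1) = 0
    rw [map_sub, map_pow, aeval_X, aeval_C, sub_eq_zero]
    have h5 : (A j).1 ^ m.get j = (A j ^ m.get j).1 :=
      (Matrix.SpecialLinearGroup.coe_pow (A j) (m.get j)).symm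
    rw [h5, hl j]
    rfl
  · change (List.ofFn fun j => SpecialLinearGroup.toGL (A j)).prod.1 *
      (wk κ fun i => SpecialLinearGroup.toGL (B i)).1 = _
    rw [← fig_prod, ← fig_wk]
    exact hz
  · intro j w hw
    refine hW (t j) ?_ (A j) (hA j) w hw
    exact Subgroup.subset_closure (Or.inl ⟨j, rfl⟩)
  · intro i w hw
    refine hW (e i) ?_ (B i) (hB i) w hw
    exact Subgroup.subset_closure (Or.inr ⟨i, rfl⟩)
  · intro j
    exact ⟨A j, hA j, rfl⟩
  · intro i
    exact ⟨B i, hB i, rfl⟩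

theorem fig_count {n : ℕ} {F : Type} [Field F] [Finite F] (hn : 1 ≤ n) (κ : Kd) (m : List ℕ)
    (b : ℝ) (hb0 : 0 ≤ b)
    (hb : ∀ (z : Fˣ) (l : Fin m.length → Fˣ),
      (Nat.card (FigT κ n F m z.1 (fun j => X ^ m.get j - Polynomial.C (l j).1)) : ℝ) ≤ b) :
    (Nat.card {p : Tk κ (PS n F) m // ¬ Irr (rg p)} : ℝ) ≤
      (Nat.card F : ℝ) ^ (m.length + 1) * b := by
  classical
  choose w hw1 hw2 using fig_lift (F := F) hn κ m
  have := Fintype.ofFinite Fˣ
  have hfin : ∀ (z : Fˣ) (l : Fin m.length → Fˣ),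
      Finite (FigT κ n F m z.1 (fun j => X ^ m.get j - Polynomial.C (l j).1)) := by
    intro z l
    unfold FigT
    infer_instance
  have h1 : Nat.card {p : Tk κ (PS n F) m // ¬ Irr (rg p)} ≤
      Nat.card (Σ z : Fˣ, Σ l : Fin m.length → Fˣ,
        FigT κ n F m z.1 (fun j => X ^ m.get j - Polynomial.C (l j).1)) := by
    refine Nat.card_le_card_of_injective w ?_
    intro p p' hpp
    refine Subtype.ext (Subtype.ext (Prod.ext (funext fun j => ?_) (funext fun i => ?_)))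
    · obtain ⟨A, h2, h3⟩ := hw1 p j
      obtain ⟨A', h2', h3'⟩ := hw1 p' j
      rw [← h2, ← h2']
      congr 1
      apply SpecialLinearGroup.toGL_injective
      rw [h3, h3', hpp]
    · obtain ⟨A, h2, h3⟩ := hw2 p i
      obtain ⟨A', h2', h3'⟩ := hw2 p' i
      rw [← h2, ← h2']
      congr 1
      apply SpecialLinearGroup.toGL_injective
      rw [h3, h3', hpp]
  have hq : (Nat.card Fˣ : ℝ) ≤ Nat.card F := by
    have h4 : Nat.card Fˣ ≤ Nat.card F :=
      Nat.card_le_card_of_injective (fun z : Fˣ => z.1) Units.val_injective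
    exact_mod_cast h4
  have h2 : ∀ z : Fˣ, (Nat.card (Σ l : Fin m.length → Fˣ,
      FigT κ n F m z.1 (fun j => X ^ m.get j - Polynomial.C (l j).1)) : ℝ) ≤
      (Nat.card F : ℝ) ^ m.length * b := by
    intro z
    rw [Nat.card_sigma]
    push_cast
    have h3 : ∑ l : Fin m.length → Fˣ,
        (Nat.card (FigT κ n F m z.1 (fun j => X ^ m.get j - Polynomial.C (l j).1)) : ℝ) ≤
        ∑ _l : Fin m.length → Fˣ, b := Finset.sum_le_sum fun l _ => hb z l
    refine h3.trans ?_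
    rw [Finset.sum_const, nsmul_eq_mul, Finset.card_univ, ← Nat.card_eq_fintype_card, Nat.card_fun,
      Nat.card_fin]
    refine mul_le_mul_of_nonneg_right ?_ hb0
    push_cast
    exact pow_le_pow_left₀ (Nat.cast_nonneg _) hq _
  have h3 : (Nat.card (Σ z : Fˣ, Σ l : Fin m.length → Fˣ,
        FigT κ n F m z.1 (fun j => X ^ m.get j - Polynomial.C (l j).1)) : ℝ) ≤
      (Nat.card F : ℝ) ^ (m.length + 1) * b := by
    rw [Nat.card_sigma]
    push_cast
    have h4 : ∑ z : Fˣ, (Nat.card (Σ l : Fin m.length → Fˣ,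
        FigT κ n F m z.1 (fun j => X ^ m.get j - Polynomial.C (l j).1)) : ℝ) ≤
        ∑ _z : Fˣ, (Nat.card F : ℝ) ^ m.length * b := Finset.sum_le_sum fun z _ => h2 z
    refine h4.trans ?_
    rw [Finset.sum_const, nsmul_eq_mul, Finset.card_univ, ← Nat.card_eq_fintype_card, pow_succ']
    rw [mul_assoc]
    exact mul_le_mul_of_nonneg_right hq (by positivity)
  refine le_trans ?_ h3
  exact_mod_cast h1

theorem fig_gp {F : Type} [Field F] (m : List ℕ) (hm2 : ∀ k ∈ m, 2 ≤ k)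
    (l : Fin m.length → Fˣ) : Gp m (fun j => X ^ m.get j - Polynomial.C (l j).1) := by
  intro j
  have hk : m.get j ≠ 0 := by
    have := hm2 _ (List.get_mem m j)
    omega
  refine ⟨monic_X_pow_sub_C _ hk, natDegree_X_pow_sub_C, ?_⟩
  rw [coeff_sub, coeff_X_pow, coeff_C_zero, if_neg (Ne.symm hk), zero_sub]
  exact neg_ne_zero.2 (l j).ne_zero

theorem t_FIG : M_FIG := by
  intro hREK hLOG hPOL κ m hm2 hth
  obtain ⟨C1, hC1, hred⟩ := hREK κ m hm2 hth
  obtain ⟨C2, r2, hC2, hlow⟩ := hLOG κ m hm2 hth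
  obtain ⟨r3, hpol⟩ := hPOL (th κ m / 2) (C1 + C2 + (m.length + 1)) (by linarith) (by positivity)
  refine ⟨th κ m / 2 / 2, max r2 (max r3 1), by linarith, ?_⟩
  intro n hn F _ _
  have hn2 : r2 ≤ n := by omega
  have hn3 : r3 ≤ n := by omega
  have hn4 : 1 ≤ n := by omega
  set q : ℝ := (Nat.card F : ℝ) with hq
  have hq2 : 2 ≤ q := by
    rw [hq]
    exact_mod_cast (Finite.one_lt_card : 1 < Nat.card F)
  have hq0 : 0 < q := by linarith
  have hp := hpol n hn3 q hq2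
  set b : ℝ := ((n : ℝ) + 1) ^ C1 * q ^ ((th κ m + 1) * (n : ℝ) ^ 2 + C1 - th κ m / 2 * n)
    with hb
  have hb0 : 0 ≤ b := by positivity
  have hX : (0 : ℝ) ≤ q ^ (-(th κ m / 2 / 2) * (n : ℝ)) := Real.rpow_nonneg hq0.le _
  have hn0 : (1 : ℝ) ≤ (n : ℝ) + 1 := by
    have : (0 : ℝ) ≤ n := Nat.cast_nonneg n
    linarith
  have hl := hlow n hn2 F
  have hcount := fig_count (F := F) hn4 κ m b hb0
    (fun z l => hred n hn4 F z.1 z.ne_zero _ (fig_gp m hm2 l))
  unfold prk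
  have hpos : (0 : ℝ) < Nat.card (Tk κ (PS n F) m) :=
    lt_of_lt_of_le (Real.rpow_pos_of_pos hq0 _) hl
  rw [div_le_iff₀ hpos]
  calc (Nat.card {p : Tk κ (PS n F) m // ¬ Irr (rg p)} : ℝ) ≤ q ^ (m.length + 1) * b := hcount
    _ ≤ (((n : ℝ) + 1) ^ (C1 + C2 + (m.length + 1)) *
          q ^ (C1 + C2 + (m.length + 1) - th κ m / 2 * (n : ℝ))) *
          q ^ ((th κ m + 1) * (n : ℝ) ^ 2 - C2) := by
        rw [hb]
        have e1 : q ^ (C1 + C2 + (m.length + 1) - th κ m / 2 * (n : ℝ)) *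
            q ^ ((th κ m + 1) * (n : ℝ) ^ 2 - C2) =
            q ^ (m.length + 1) * q ^ ((th κ m + 1) * (n : ℝ) ^ 2 + C1 - th κ m / 2 * n) := by
          rw [← Real.rpow_natCast q (m.length + 1), ← Real.rpow_add hq0, ← Real.rpow_add hq0]
          congr 1
          push_cast
          ring
        rw [mul_assoc, e1]
        have e2 : ((n : ℝ) + 1) ^ C1 ≤ ((n : ℝ) + 1) ^ (C1 + C2 + (m.length + 1)) := by
          refine Real.rpow_le_rpow_of_exponent_le hn0 ?_
          have : (0 : ℝ) ≤ m.length := Nat.cast_nonneg _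
          linarith
        have e3 : 0 ≤ q ^ (m.length + 1) *
            q ^ ((th κ m + 1) * (n : ℝ) ^ 2 + C1 - th κ m / 2 * n) := by positivity
        have e4 := mul_le_mul_of_nonneg_right e2 e3
        linarith
    _ ≤ q ^ (-(th κ m / 2 / 2) * (n : ℝ)) * q ^ ((th κ m + 1) * (n : ℝ) ^ 2 - C2) :=
        mul_le_mul_of_nonneg_right hp (Real.rpow_nonneg hq0.le _)
    _ ≤ _ := mul_le_mul_of_nonneg_left hl hX

end

end FLY
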