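import Mathlib
import Pool.Agent.FLY.StY
import Pool.Agent.FGE.FN2

/-!
# FNK: the final statement for the tuples, from the count and the four proportions
-/

set_option autoImplicit false

namespace FLY

open RSF FL0 FGE Polynomial

noncomputable section

theorem fnk_finTk (κ : Kd) (n : ℕ) (F : Type) [Field F] [Finite F] (m : List ℕ) :
    Finite (Tk κ (PS n F) m) := by
  have := fn2_finPS n F
  unfold Tk
  infer_instance

theorem fnk_neTk (κ : Kd) (G : Type) [Group G] (m : List ℕ) : Nonempty (Tk κ G m) := by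
  refine ⟨⟨(fun _ => 1, fun _ => 1), fun j => one_pow _, ?_⟩⟩
  have h1 : (List.ofFn (fun _ : Fin m.length => (1 : G))).prod = 1 := by
    rw [List.ofFn_const, List.prod_replicate, one_pow]
  have h2 : wk κ (fun _ : Fin κ.h => (1 : G)) = 1 := by
    cases κ <;> simp [wk]
  show (List.ofFn (fun _ : Fin m.length => (1 : G))).prod * wk κ (fun _ : Fin κ.h => (1 : G)) = 1
  rw [h1, h2, one_mul]

/-- the union bound for four properties -/
theorem fnk_prk_ge (κ : Kd) (n : ℕ) (F : Type) [Field F] [Finite F] (m : List ℕ)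
    (R P1 P2 P3 P4 : Subgroup (PS n F) → Prop)
    (h : ∀ H, R H ∨ P1 H ∨ P2 H ∨ P3 H ∨ P4 H) :
    1 - (prk κ (PS n F) m P1 + (prk κ (PS n F) m P2 + (prk κ (PS n F) m P3 +
      prk κ (PS n F) m P4))) ≤ prk κ (PS n F) m R := by
  have hfin := fnk_finTk κ n F m
  have hne := fnk_neTk κ (PS n F) m
  have h0 : 0 < Nat.card (Tk κ (PS n F) m) := Nat.card_pos
  unfold prk
  have h0' : (0 : ℝ) < Nat.card (Tk κ (PS n F) m) := by exact_mod_cast h0
  have key : Nat.card (Tk κ (PS n F) m) ≤ Nat.card {p : Tk κ (PS n F) m // R (rg p)} +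
      (Nat.card {p : Tk κ (PS n F) m // P1 (rg p)} +
        (Nat.card {p : Tk κ (PS n F) m // P2 (rg p)} +
        (Nat.card {p : Tk κ (PS n F) m // P3 (rg p)} +
          Nat.card {p : Tk κ (PS n F) m // P4 (rg p)}))) := by
    classical
    rw [← Nat.card_sum, ← Nat.card_sum, ← Nat.card_sum, ← Nat.card_sum]
    refine Nat.card_le_card_of_surjective (fun x => Sum.elim (fun y => y.1)
      (Sum.elim (fun y => y.1) (Sum.elim (fun y => y.1) (Sum.elim (fun y => y.1)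
        (fun y => y.1)))) x) ?_
    intro p
    rcases h (rg p) with h1 | h1 | h1 | h1 | h1
    · exact ⟨Sum.inl ⟨p, h1⟩, rfl⟩
    · exact ⟨Sum.inr (Sum.inl ⟨p, h1⟩), rfl⟩
    · exact ⟨Sum.inr (Sum.inr (Sum.inl ⟨p, h1⟩)), rfl⟩
    · exact ⟨Sum.inr (Sum.inr (Sum.inr (Sum.inl ⟨p, h1⟩))), rfl⟩
    · exact ⟨Sum.inr (Sum.inr (Sum.inr (Sum.inr ⟨p, h1⟩))), rfl⟩
  rw [← add_div, ← add_div, ← add_div, le_div_iff₀ h0', sub_mul, one_mul,
    div_mul_cancel₀ _ h0'.ne']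
  have key' : (Nat.card (Tk κ (PS n F) m) : ℝ) ≤ Nat.card {p : Tk κ (PS n F) m // R (rg p)} +
      (Nat.card {p : Tk κ (PS n F) m // P1 (rg p)} +
        (Nat.card {p : Tk κ (PS n F) m // P2 (rg p)} +
        (Nat.card {p : Tk κ (PS n F) m // P3 (rg p)} +
          Nat.card {p : Tk κ (PS n F) m // P4 (rg p)}))) := by
    exact_mod_cast key
  linarith

theorem fnk_prk_false (κ : Kd) (G : Type) [Group G] (m : List ℕ) (P : Subgroup G → Prop)
    (h : ∀ H, ¬ P H) : prk κ G m P = 0 := by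
  unfold prk
  have : IsEmpty {p : Tk κ G m // P (rg p)} := ⟨fun x => h _ x.2⟩
  rw [Nat.card_of_isEmpty]
  simp

/-- the last step -/
theorem fnk_last (κ : Kd) (m : List ℕ) (n : ℕ) (F : Type) [Field F] [Finite F]
    (a c : ℝ) (hc : c ≤ a / 2)
    (h4 : 4 * (Nat.card F : ℝ) ^ (-a * (n : ℝ)) ≤ (Nat.card F : ℝ) ^ (-(a / 2) * (n : ℝ)))
    (S : Set (Subgroup (PS n F))) (E : Prop)
    (hI : prk κ (PS n F) m (fun H => ¬ Irr H) ≤ (Nat.card F : ℝ) ^ (-a * (n : ℝ)))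
    (hS : prk κ (PS n F) m (fun H => ∃ M ∈ S, InConj H M) ≤
      (Nat.card F : ℝ) ^ (-a * (n : ℝ)))
    (hG : E → prk κ (PS n F) m (fun H => Irr H ∧ Geo H) ≤
      (Nat.card F : ℝ) ^ (-a * (n : ℝ)))
    (hA : E → prk κ (PS n F) m (fun H => C6 H ∨ C7 H) ≤
      (Nat.card F : ℝ) ^ (-a * (n : ℝ))) :
    1 - (Nat.card F : ℝ) ^ (-c * (n : ℝ)) ≤ prk κ (PS n F) m
      (fun H => Irr H ∧ (∀ M ∈ S, ¬ InConj H M) ∧ (E → ¬ Asch H)) := by
  have hpos : (0 : ℝ) ≤ (Nat.card F : ℝ) ^ (-a * (n : ℝ)) :=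
    Real.rpow_nonneg (Nat.cast_nonneg _) _
  have h3 : (Nat.card F : ℝ) ^ (-(a / 2) * (n : ℝ)) ≤ (Nat.card F : ℝ) ^ (-c * (n : ℝ)) := by
    refine fn2_exp_le F (mul_le_mul_of_nonneg_right ?_ (Nat.cast_nonneg n))
    linarith
  have h1 := fnk_prk_ge κ n F m
    (fun H => Irr H ∧ (∀ M ∈ S, ¬ InConj H M) ∧ (E → ¬ Asch H))
    (fun H => ¬ Irr H) (fun H => ∃ M ∈ S, InConj H M)
    (fun H => E ∧ (Irr H ∧ Geo H)) (fun H => E ∧ (C6 H ∨ C7 H)) (by
      intro H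
      by_cases hi : Irr H
      · by_cases hs : ∃ M ∈ S, InConj H M
        · exact Or.inr (Or.inr (Or.inl hs))
        · by_cases hE : E ∧ Asch H
          · have hA := hE.2
            rcases hA with h | h | h | h | h | h | h
            · exact Or.inr (Or.inr (Or.inr (Or.inl ⟨hE.1, hi, Or.inl h⟩)))
            · exact Or.inr (Or.inr (Or.inr (Or.inl ⟨hE.1, hi, Or.inr (Or.inl h)⟩)))
            · exact Or.inr (Or.inr (Or.inr (Or.inl ⟨hE.1, hi, Or.inr (Or.inr (Or.inl h))⟩)))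
            · exact Or.inr (Or.inr (Or.inr (Or.inl
                ⟨hE.1, hi, Or.inr (Or.inr (Or.inr (Or.inl h)))⟩)))
            · exact Or.inr (Or.inr (Or.inr (Or.inr ⟨hE.1, Or.inl h⟩)))
            · exact Or.inr (Or.inr (Or.inr (Or.inr ⟨hE.1, Or.inr h⟩)))
            · exact Or.inr (Or.inr (Or.inr (Or.inl
                ⟨hE.1, hi, Or.inr (Or.inr (Or.inr (Or.inr h)))⟩)))
          · refine Or.inl ⟨hi, fun M hM hc => hs ⟨M, hM, hc⟩, fun h h' => hE ⟨h, h'⟩⟩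
      · exact Or.inr (Or.inl hi))
  have hG' : prk κ (PS n F) m (fun H => E ∧ (Irr H ∧ Geo H)) ≤
      (Nat.card F : ℝ) ^ (-a * (n : ℝ)) := by
    by_cases hE : E
    · simpa [hE] using hG hE
    · rw [fnk_prk_false κ _ m _ (fun H h => hE h.1)]
      exact hpos
  have hA' : prk κ (PS n F) m (fun H => E ∧ (C6 H ∨ C7 H)) ≤
      (Nat.card F : ℝ) ^ (-a * (n : ℝ)) := by
    by_cases hE : E
    · simpa [hE] using hA hE
    · rw [fnk_prk_false κ _ m _ (fun H h => hE h.1)]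
      exact hpos
  linarith

/-- the count in the form of the final statement -/
theorem fnk_count (x y z : ℝ) (h : ℕ) (hy : 0 < y) :
    x * y ^ (1 - (h : ℤ)) / z = x * y / (y ^ h * z) := by
  rw [zpow_sub₀ hy.ne', zpow_one, zpow_natCast, ← mul_div_assoc, div_div]

theorem t_FNK : M_FNK := by
  intro hC h2 h3 hG hA κ m hm hθ0 ϑ hϑ
  obtain ⟨c1, r1, hc1, -, H1⟩ := hC κ m hm hθ0
  obtain ⟨c2, r2, hc2, H2⟩ := h2 κ m hm hθ0
  obtain ⟨η, r3, hη, H3⟩ := h3 κ m hm hθ0 ϑ hϑ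
  obtain ⟨r5, H5⟩ : ∃ r : ℕ, ∀ n, r ≤ n → ∀ (F : Type) [Field F] [Finite F],
      (∃ k ∈ m, 1 / (k : ℝ) < sig m + κ.h - 2) →
        prk κ (PS n F) m (fun H => Irr H ∧ Geo H) ≤ (Nat.card F : ℝ) ^ (-((n : ℝ) / 2)) := by
    by_cases hE : ∃ k ∈ m, 1 / (k : ℝ) < sig m + κ.h - 2
    · obtain ⟨r, hr⟩ := hG κ m hm hθ0 hE
      exact ⟨r, fun n hn F _ _ _ => hr n hn F⟩
    · exact ⟨0, fun n hn F _ _ h => absurd h hE⟩
  obtain ⟨r6, H6⟩ : ∃ r : ℕ, ∀ n, r ≤ n → ∀ (F : Type) [Field F] [Finite F],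
      (∃ k ∈ m, 1 / (k : ℝ) < sig m + κ.h - 2) →
        prk κ (PS n F) m (fun H => C6 H ∨ C7 H) ≤ (Nat.card F : ℝ) ^ (-((n : ℝ) / 2)) := by
    by_cases hE : ∃ k ∈ m, 1 / (k : ℝ) < sig m + κ.h - 2
    · obtain ⟨r, hr⟩ := hA κ m hm hθ0 hE
      exact ⟨r, fun n hn F _ _ _ => hr n hn F⟩
    · exact ⟨0, fun n hn F _ _ h => absurd h hE⟩
  set a : ℝ := min c2 (1 / 2) with ha
  have ha0 : 0 < a := lt_min hc2 (by norm_num)
  have ha2 : a ≤ 1 / 2 := min_le_right _ _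
  obtain ⟨r4, H4⟩ := fn2_four a ha0
  set c : ℝ := min (min c1 η) (a / 2) with hc
  have hc0 : 0 < c := lt_min (lt_min hc1 hη) (by linarith)
  refine ⟨c, r1 + r2 + r3 + r4 + r5 + r6, hc0, ?_⟩
  intro n hn F _ _
  have hn0 : (0 : ℝ) ≤ n := Nat.cast_nonneg n
  refine ⟨?_, ?_⟩
  · have h5 := H1 n (by omega) F
    rw [fn2_cast_JJ] at h5
    have hfin := fn2_finPS n F
    have hpos : (0 : ℝ) < Nat.card (PS n F) := by
      exact_mod_cast (Nat.card_pos : 0 < Nat.card (PS n F))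
    rw [fnk_count _ _ _ _ hpos]
    refine h5.trans (fn2_exp_le F (mul_le_mul_of_nonneg_right ?_ hn0))
    have : c ≤ c1 := (min_le_left _ _).trans (min_le_left _ _)
    linarith
  · intro S hS hM
    refine fnk_last κ m n F a c (min_le_right _ _) (H4 n (by omega) _ (fn2_card_ge F)) S _
      ?_ ?_ ?_ ?_
    · refine (H2 n (by omega) F).trans (fn2_exp_le F (mul_le_mul_of_nonneg_right
        (neg_le_neg (min_le_left _ _)) hn0))
    · refine (H3 n (by omega) F S (hS.trans (fn2_exp_le F (mul_le_mul_of_nonneg_right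
        ((min_le_left _ _).trans (min_le_right _ _)) (by positivity)))) hM).trans (fn2_exp_le F ?_)
      nlinarith
    · intro h
      refine (H5 n (by omega) F h).trans (fn2_exp_le F ?_)
      nlinarith
    · intro h
      refine (H6 n (by omega) F h).trans (fn2_exp_le F ?_)
      nlinarith

end

end FLY
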