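import Mathlib
import Pool.Agent.FLY.StY
import Pool.Agent.FL0.UPB

/-!
# Module UPE: upper bound for the number of tuples in given classes
-/

set_option autoImplicit false

namespace FLY

open RSF FL0 FGE Polynomial Pool.Agent.Lib_helper13

noncomputable section

theorem upe_step (q : ℝ) (hq : 2 ≤ q) (k : ℕ) (c cl a b : ℝ) (hc : 1 ≤ c)
    (hcl : cl * c ≤ 4 ^ k * q ^ b) :
    cl * (c * q ^ (-a)) ^ (1 / 2 : ℝ) ≤ q ^ (2 * (k : ℝ) + b - a / 2) * c ^ (-(1 / 2) : ℝ) := by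
  have hq0 : 0 < q := by linarith
  have hc0 : 0 < c := by linarith
  have h1 : (c * q ^ (-a)) ^ (1 / 2 : ℝ) = c ^ (1 / 2 : ℝ) * q ^ (-a / 2) := by
    rw [Real.mul_rpow hc0.le (by positivity), ← Real.rpow_mul hq0.le]
    congr 2
    ring
  have h2 : c ^ (1 / 2 : ℝ) = c * c ^ (-(1 / 2) : ℝ) := by
    have h := Real.rpow_add hc0 1 (-(1 / 2))
    rw [Real.rpow_one] at h
    rw [← h]
    norm_num
  have h3 : (4 : ℝ) ^ k ≤ q ^ (2 * (k : ℝ)) := by
    have h3 : q ^ (2 * (k : ℝ)) = (q ^ 2) ^ k := by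
      rw [← pow_mul]
      exact_mod_cast Real.rpow_natCast q (2 * k)
    rw [h3]
    exact pow_le_pow_left₀ (by norm_num) (by nlinarith) _
  rw [h1, h2]
  have h4 : cl * c ≤ q ^ (2 * (k : ℝ)) * q ^ b :=
    hcl.trans (mul_le_mul_of_nonneg_right h3 (by positivity))
  have h5 : 0 ≤ c ^ (-(1 / 2) : ℝ) * q ^ (-a / 2) := by positivity
  calc cl * (c * c ^ (-(1 / 2) : ℝ) * q ^ (-a / 2))
      = (cl * c) * (c ^ (-(1 / 2) : ℝ) * q ^ (-a / 2)) := by ring
    _ ≤ (q ^ (2 * (k : ℝ)) * q ^ b) * (c ^ (-(1 / 2) : ℝ) * q ^ (-a / 2)) :=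
        mul_le_mul_of_nonneg_right h4 h5
    _ = (q ^ (2 * (k : ℝ)) * q ^ b * q ^ (-a / 2)) * c ^ (-(1 / 2) : ℝ) := by ring
    _ = _ := by
        rw [← Real.rpow_add hq0, ← Real.rpow_add hq0]
        congr 2
        ring

theorem upe_large (q : ℝ) (hq : 2 ≤ q) (d : ℕ) (k : Fin d → ℕ) (c cl : Fin d → ℝ) (n h : ℕ)
    (N G : ℝ) (hc : ∀ j, 1 ≤ c j) (hcl0 : ∀ j, 0 ≤ cl j)
    (hcl : ∀ j, cl j * c j ≤ 4 ^ (k j) * q ^ ((n : ℝ) ^ 2))
    (hG0 : q ^ ((n : ℝ) ^ 2) / 4 ≤ G) (hG : G ≤ q ^ ((n : ℝ) ^ 2)) (hN0 : 0 ≤ N)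
    (hN : N * G ≤ (∏ j, cl j) * G ^ h *
      (2 * q * ∏ j, (c j * q ^ (-((n : ℝ) ^ 2 / k j))) ^ (1 / 2 : ℝ))) :
    N ≤ q ^ (4 + 2 * ∑ j, (k j : ℝ) + ((d + ∑ j, (1 - 1 / (k j : ℝ))) / 2 - 1 + h) * (n : ℝ) ^ 2) *
      ∏ j, c j ^ (-(1 / 2) : ℝ) := by
  have hq0 : 0 < q := by linarith
  have hq1 : 1 ≤ q := by linarith
  have hGp : 0 < G := lt_of_lt_of_le (by positivity) hG0
  have h1 : (∏ j, cl j) * ∏ j, (c j * q ^ (-((n : ℝ) ^ 2 / k j))) ^ (1 / 2 : ℝ) ≤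
      q ^ (∑ j, (2 * (k j : ℝ) + (n : ℝ) ^ 2 - (n : ℝ) ^ 2 / k j / 2)) *
        ∏ j, c j ^ (-(1 / 2) : ℝ) := by
    rw [← Finset.prod_mul_distrib, Real.rpow_sum_of_pos hq0, ← Finset.prod_mul_distrib]
    refine Finset.prod_le_prod (fun j _ => ?_) (fun j _ => ?_)
    · have : 0 < c j := lt_of_lt_of_le one_pos (hc j)
      exact mul_nonneg (hcl0 j) (by positivity)
    · exact upe_step q hq (k j) (c j) (cl j) _ _ (hc j) (hcl j)
  have hP0 : 0 ≤ ∏ j, c j ^ (-(1 / 2) : ℝ) := Finset.prod_nonneg fun j _ => by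
    have : 0 < c j := lt_of_lt_of_le one_pos (hc j)
    positivity
  have h2 : G ^ h ≤ q ^ ((h : ℝ) * (n : ℝ) ^ 2) := by
    have : q ^ ((h : ℝ) * (n : ℝ) ^ 2) = (q ^ ((n : ℝ) ^ 2)) ^ h := by
      rw [mul_comm, Real.rpow_mul hq0.le]
      exact_mod_cast Real.rpow_natCast _ h
    rw [this]
    exact pow_le_pow_left₀ hGp.le hG h
  have h3 : N * (q ^ ((n : ℝ) ^ 2) / 4) ≤ (q ^ (∑ j, (2 * (k j : ℝ) + (n : ℝ) ^ 2 - (n : ℝ) ^ 2 / k j / 2)) *
        ∏ j, c j ^ (-(1 / 2) : ℝ)) * q ^ ((h : ℝ) * (n : ℝ) ^ 2) * (2 * q) := by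
    calc N * (q ^ ((n : ℝ) ^ 2) / 4) ≤ N * G := mul_le_mul_of_nonneg_left hG0 hN0
      _ ≤ _ := hN
      _ = ((∏ j, cl j) * ∏ j, (c j * q ^ (-((n : ℝ) ^ 2 / k j))) ^ (1 / 2 : ℝ)) * G ^ h * (2 * q) := by
          ring
      _ ≤ _ := by
          refine mul_le_mul_of_nonneg_right ?_ (by positivity)
          exact mul_le_mul h1 h2 (by positivity) (mul_nonneg (by positivity) hP0)
  have h8 : (8 : ℝ) ≤ q ^ (3 : ℝ) := by
    have h9 : q ^ (3 : ℝ) = q ^ 3 := by exact_mod_cast Real.rpow_natCast q 3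
    rw [h9]
    calc (8 : ℝ) = 2 ^ 3 := by norm_num
      _ ≤ q ^ 3 := pow_le_pow_left₀ (by norm_num) hq 3
  have h4 : N * q ^ ((n : ℝ) ^ 2) ≤ (q ^ (∑ j, (2 * (k j : ℝ) + (n : ℝ) ^ 2 - (n : ℝ) ^ 2 / k j / 2)) *
        ∏ j, c j ^ (-(1 / 2) : ℝ)) * q ^ ((h : ℝ) * (n : ℝ) ^ 2) * (q ^ (3 : ℝ) * q) := by
    have h5 : N * q ^ ((n : ℝ) ^ 2) ≤ (q ^ (∑ j, (2 * (k j : ℝ) + (n : ℝ) ^ 2 - (n : ℝ) ^ 2 / k j / 2)) *
        ∏ j, c j ^ (-(1 / 2) : ℝ)) * q ^ ((h : ℝ) * (n : ℝ) ^ 2) * (8 * q) := by linarith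
    refine h5.trans ?_
    refine mul_le_mul_of_nonneg_left ?_ (mul_nonneg (mul_nonneg (by positivity) hP0) (by positivity))
    exact mul_le_mul_of_nonneg_right h8 hq0.le
  have h6 : N = N * q ^ ((n : ℝ) ^ 2) * q ^ (-((n : ℝ) ^ 2)) := by
    rw [mul_assoc, ← Real.rpow_add hq0, add_neg_cancel, Real.rpow_zero, mul_one]
  rw [h6]
  refine (mul_le_mul_of_nonneg_right h4 (by positivity)).trans (le_of_eq ?_)
  have h7 : q = q ^ (1 : ℝ) := (Real.rpow_one q).symm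
  have h10 : ∑ j, (2 * (k j : ℝ) + (n : ℝ) ^ 2 - (n : ℝ) ^ 2 / k j / 2) =
      2 * ∑ j, (k j : ℝ) + d * (n : ℝ) ^ 2 - (∑ j, 1 / (k j : ℝ)) * (n : ℝ) ^ 2 / 2 := by
    rw [Finset.sum_sub_distrib, Finset.sum_add_distrib, ← Finset.mul_sum, Finset.sum_const,
      Finset.card_univ, Fintype.card_fin, nsmul_eq_mul, Finset.sum_mul, Finset.sum_div]
    congr 1
    refine Finset.sum_congr rfl fun j _ => ?_
    ring
  have h9 : ∑ j, (1 - 1 / (k j : ℝ)) = d - ∑ j, 1 / (k j : ℝ) := by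
    rw [Finset.sum_sub_distrib, Finset.sum_const, Finset.card_univ, Fintype.card_fin,
      nsmul_eq_mul, mul_one]
  rw [h10, h9]
  calc q ^ (2 * ∑ j, (k j : ℝ) + d * (n : ℝ) ^ 2 - (∑ j, 1 / (k j : ℝ)) * (n : ℝ) ^ 2 / 2) *
        (∏ j, c j ^ (-(1 / 2) : ℝ)) * q ^ ((h : ℝ) * (n : ℝ) ^ 2) * (q ^ (3 : ℝ) * q) *
        q ^ (-((n : ℝ) ^ 2))
      = (q ^ (2 * ∑ j, (k j : ℝ) + d * (n : ℝ) ^ 2 - (∑ j, 1 / (k j : ℝ)) * (n : ℝ) ^ 2 / 2) *
          q ^ ((h : ℝ) * (n : ℝ) ^ 2) * q ^ (3 : ℝ) * q ^ (1 : ℝ) * q ^ (-((n : ℝ) ^ 2))) *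
        (∏ j, c j ^ (-(1 / 2) : ℝ)) := by
        rw [← h7]
        ring
    _ = _ := by
        rw [← Real.rpow_add hq0, ← Real.rpow_add hq0, ← Real.rpow_add hq0, ← Real.rpow_add hq0]
        congr 2
        ring

theorem upe_small (q : ℝ) (hq : 2 ≤ q) (d : ℕ) (k : Fin d → ℕ) (c cl : Fin d → ℝ) (n r h : ℕ)
    (N G κ : ℝ) (hc : ∀ j, 1 ≤ c j) (hcl0 : ∀ j, 0 ≤ cl j)
    (hcl : ∀ j, cl j * c j ≤ 4 ^ (k j) * q ^ ((n : ℝ) ^ 2)) (hG0 : 0 ≤ G)
    (hG : G ≤ q ^ ((n : ℝ) ^ 2)) (hnr : n ≤ r) (hκ : 0 ≤ κ)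
    (hN : N ≤ (∏ j, cl j) * G ^ h) :
    N ≤ q ^ (4 + 2 * ∑ j, (k j : ℝ) + (d + h) * (r : ℝ) ^ 2 + κ) * ∏ j, c j ^ (-(1 / 2) : ℝ) := by
  have hq0 : 0 < q := by linarith
  have hq1 : 1 ≤ q := by linarith
  have h1 : ∏ j, cl j ≤ q ^ (∑ j, (2 * (k j : ℝ) + (n : ℝ) ^ 2)) * ∏ j, c j ^ (-(1 / 2) : ℝ) := by
    rw [Real.rpow_sum_of_pos hq0, ← Finset.prod_mul_distrib]
    refine Finset.prod_le_prod (fun j _ => hcl0 j) (fun j _ => ?_)
    have h2 := upe_step q hq (k j) (c j) (cl j) 0 _ (hc j) (hcl j)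
    have h3 : (1 : ℝ) ≤ (c j * q ^ (-(0 : ℝ))) ^ (1 / 2 : ℝ) := by
      apply Real.one_le_rpow
      · rw [neg_zero, Real.rpow_zero, mul_one]
        exact hc j
      · norm_num
    have h4 : cl j * 1 ≤ cl j * (c j * q ^ (-(0 : ℝ))) ^ (1 / 2 : ℝ) :=
      mul_le_mul_of_nonneg_left h3 (hcl0 j)
    rw [mul_one] at h4
    refine (h4.trans h2).trans (le_of_eq ?_)
    congr 2
    ring
  have hP0 : 0 ≤ ∏ j, c j ^ (-(1 / 2) : ℝ) := Finset.prod_nonneg fun j _ => by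
    have : 0 < c j := lt_of_lt_of_le one_pos (hc j)
    positivity
  have h2 : G ^ h ≤ q ^ ((h : ℝ) * (n : ℝ) ^ 2) := by
    have : q ^ ((h : ℝ) * (n : ℝ) ^ 2) = (q ^ ((n : ℝ) ^ 2)) ^ h := by
      rw [mul_comm, Real.rpow_mul hq0.le]
      exact_mod_cast Real.rpow_natCast _ h
    rw [this]
    exact pow_le_pow_left₀ hG0 hG h
  have h3 := mul_le_mul h1 h2 (by positivity) (mul_nonneg (by positivity) hP0)
  refine (hN.trans h3).trans ?_
  have h4 : q ^ (∑ j, (2 * (k j : ℝ) + (n : ℝ) ^ 2)) * (∏ j, c j ^ (-(1 / 2) : ℝ)) *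
      q ^ ((h : ℝ) * (n : ℝ) ^ 2) = q ^ (∑ j, (2 * (k j : ℝ) + (n : ℝ) ^ 2) + (h : ℝ) * (n : ℝ) ^ 2) *
      (∏ j, c j ^ (-(1 / 2) : ℝ)) := by
    rw [Real.rpow_add hq0]
    ring
  rw [h4]
  refine mul_le_mul_of_nonneg_right ?_ hP0
  apply Real.rpow_le_rpow_of_exponent_le hq1
  rw [Finset.sum_add_distrib, ← Finset.mul_sum, Finset.sum_const, Finset.card_univ,
    Fintype.card_fin, nsmul_eq_mul]
  have h5 : (n : ℝ) ^ 2 ≤ (r : ℝ) ^ 2 := by
    have : (n : ℝ) ≤ r := by exact_mod_cast hnr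
    gcongr
  have h6 : ((d : ℝ) + h) * (n : ℝ) ^ 2 ≤ (d + h) * (r : ℝ) ^ 2 := by gcongr
  nlinarith

theorem upe_unit {F V : Type} [Field F] [AddCommGroup V] [Module F V] (a : V →ₗ[F] V) (g : F[X])
    (h0 : g.coeff 0 ≠ 0) (h : aeval a g = 0) : IsUnit a := by
  have h1 : aeval a (divX g) * a = -(algebraMap F (V →ₗ[F] V) (g.coeff 0)) := by
    have h2 := congrArg (aeval a) (divX_mul_X_add g)
    rw [h, map_add, map_mul, aeval_X, aeval_C] at h2
    exact eq_neg_of_add_eq_zero_left h2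
  have h3 : a * aeval a (divX g) = -(algebraMap F (V →ₗ[F] V) (g.coeff 0)) := by
    rw [← h1]
    have := (Polynomial.commute_X (divX g)).map (aeval (R := F) a)
    rw [aeval_X] at this
    exact this.eq
  have hA : IsUnit (-(algebraMap F (V →ₗ[F] V) (g.coeff 0))) := by
    rw [IsUnit.neg_iff]
    exact (IsUnit.mk0 _ h0).map _
  obtain ⟨u, hu⟩ := hA
  refine ⟨⟨a, aeval a (divX g) * (u⁻¹ : (V →ₗ[F] V)ˣ), ?_, ?_⟩, rfl⟩
  · rw [← mul_assoc, h3, ← hu, Units.mul_inv]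
  · have hc : Commute (aeval a (divX g)) (u : V →ₗ[F] V) := by
      rw [hu]
      have h4 : Commute (aeval a (divX g)) (algebraMap F (V →ₗ[F] V) (g.coeff 0)) :=
        (Algebra.commutes (g.coeff 0) (aeval a (divX g))).symm
      exact h4.neg_right
    have hc' : Commute (aeval a (divX g)) ((u⁻¹ : (V →ₗ[F] V)ˣ) : V →ₗ[F] V) := hc.units_inv_right
    rw [hc'.eq, mul_assoc, h1, ← hu, Units.inv_mul]

theorem upe_aeval_mat {F V : Type} [Field F] [AddCommGroup V] [Module F V] {l : ℕ}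
    (b : Module.Basis (Fin l) F V) (a : V →ₗ[F] V) (g : F[X]) :
    aeval (LinearMap.toMatrixAlgEquiv b a) g = LinearMap.toMatrixAlgEquiv b (aeval a g) :=
  aeval_algHom_apply (LinearMap.toMatrixAlgEquiv b).toAlgHom a g

theorem upe_cN {F V : Type} [Field F] [AddCommGroup V] [Module F V] {l : ℕ}
    (b : Module.Basis (Fin l) F V) (a : V →ₗ[F] V) :
    SRJ.cN (LinearMap.toMatrixAlgEquiv b a) = Cm a := by
  unfold SRJ.cN Cm
  refine (Nat.card_congr (Equiv.subtypeEquiv (LinearMap.toMatrixAlgEquiv b).toEquiv ?_)).symm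
  intro c
  change c * a = a * c ↔ LinearMap.toMatrixAlgEquiv b c * LinearMap.toMatrixAlgEquiv b a =
    LinearMap.toMatrixAlgEquiv b a * LinearMap.toMatrixAlgEquiv b c
  rw [← map_mul, ← map_mul]
  exact (LinearMap.toMatrixAlgEquiv b).injective.eq_iff.symm

theorem upe_word (κ : Kd) {l : ℕ} {F V : Type} [Field F] [AddCommGroup V] [Module F V]
    (b : Module.Basis (Fin l) F V) (z : F) (X : V →ₗ[F] V) (e : Fin κ.h → (V →ₗ[F] V))
    (E : Fin κ.h → GL (Fin l) F) (hE : ∀ i, (E i).1 = LinearMap.toMatrixAlgEquiv b (e i))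
    (h : Wk κ z X e = 0) :
    LinearMap.toMatrixAlgEquiv b X * (wk κ E).1 = Matrix.scalar (Fin l) z := by
  have hz : Matrix.scalar (Fin l) z = z • (1 : Matrix (Fin l) (Fin l) F) := by
    ext i j
    simp [Matrix.scalar_apply, Matrix.diagonal_apply, Matrix.one_apply]
  rw [hz]
  have h0 := congrArg (LinearMap.toMatrixAlgEquiv b) h
  rw [map_zero] at h0
  cases κ with
  | o0 =>
    change LinearMap.toMatrixAlgEquiv b (X - z • 1) = 0 at h0
    change LinearMap.toMatrixAlgEquiv b X * 1 = _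
    rw [map_sub, map_smul, map_one] at h0
    rw [mul_one]
    exact sub_eq_zero.1 h0
  | n1 =>
    change LinearMap.toMatrixAlgEquiv b (X * e (0 : Fin 1) ^ 2 - z • 1) = 0 at h0
    change LinearMap.toMatrixAlgEquiv b X * ((E (0 : Fin 1)).1 ^ 2) = _
    rw [map_sub, map_smul, map_one, map_mul, map_pow, ← hE] at h0
    exact sub_eq_zero.1 h0
  | o1 =>
    change LinearMap.toMatrixAlgEquiv b (X * e (0 : Fin 2) * e (1 : Fin 2) -
      z • (e (1 : Fin 2) * e (0 : Fin 2))) = 0 at h0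
    change LinearMap.toMatrixAlgEquiv b X * ((E (0 : Fin 2)).1 * (E (1 : Fin 2)).1 *
      ((E (0 : Fin 2))⁻¹).1 * ((E (1 : Fin 2))⁻¹).1) = _
    rw [map_sub, map_smul, map_mul, map_mul, map_mul, ← hE, ← hE] at h0
    have h3 : (E (0 : Fin 2)).1 * ((E (0 : Fin 2))⁻¹).1 = 1 := (E (0 : Fin 2)).mul_inv
    have h4 : (E (1 : Fin 2)).1 * ((E (1 : Fin 2))⁻¹).1 = 1 := (E (1 : Fin 2)).mul_inv
    have h2 : LinearMap.toMatrixAlgEquiv b X * ((E (0 : Fin 2)).1 * (E (1 : Fin 2)).1 *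
      ((E (0 : Fin 2))⁻¹).1 * ((E (1 : Fin 2))⁻¹).1) =
      LinearMap.toMatrixAlgEquiv b X * (E (0 : Fin 2)).1 * (E (1 : Fin 2)).1 *
      ((E (0 : Fin 2))⁻¹).1 * ((E (1 : Fin 2))⁻¹).1 := by simp only [mul_assoc]
    rw [h2, sub_eq_zero.1 h0, smul_mul_assoc, smul_mul_assoc, mul_assoc (E (1 : Fin 2)).1, h3,
      mul_one, h4]
  | n2 =>
    change LinearMap.toMatrixAlgEquiv b (X * e (0 : Fin 2) ^ 2 * e (1 : Fin 2) ^ 2 - z • 1) = 0 at h0
    change LinearMap.toMatrixAlgEquiv b X * ((E (0 : Fin 2)).1 ^ 2 * (E (1 : Fin 2)).1 ^ 2) = _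
    rw [map_sub, map_smul, map_one, map_mul, map_mul, map_pow, map_pow, ← hE, ← hE] at h0
    rw [← mul_assoc]
    exact sub_eq_zero.1 h0

open FL0.UPB in
theorem upe_conj {F V : Type} [Field F] [AddCommGroup V] [Module F V] {l : ℕ}
    (b : Module.Basis (Fin l) F V) (y t : V →ₗ[F] V) (Y : GL (Fin l) F)
    (hY : Y.1 = LinearMap.toMatrixAlgEquiv b y) (h : Cj y t) :
    ∃ T : GL (Fin l) F, T.1 = LinearMap.toMatrixAlgEquiv b t ∧ IsConj Y T := by
  obtain ⟨e, he⟩ := h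
  let E : GL (Fin l) F := toGL b (e : GV F V)
  refine ⟨E * Y * E⁻¹, ?_, ?_⟩
  · have hE : E.1 = LinearMap.toMatrixAlgEquiv b ((e : GV F V) : V →ₗ[F] V) := toGL_val b e
    have h1 : E.1 * Y.1 = LinearMap.toMatrixAlgEquiv b t * E.1 := by
      rw [hE, hY, ← map_mul, ← map_mul]
      congr 1
      apply LinearMap.ext
      intro v
      exact he v
    have h2 : E.1 * (E⁻¹).1 = 1 := E.mul_inv
    change E.1 * Y.1 * (E⁻¹).1 = _
    rw [h1, mul_assoc, h2, mul_one]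
  · exact isConj_iff.2 ⟨E, rfl⟩

open FL0.UPB in
theorem upe_conj' {F V : Type} [Field F] [AddCommGroup V] [Module F V] {l : ℕ}
    (b : Module.Basis (Fin l) F V) (y : V →ₗ[F] V) (Y T : GL (Fin l) F)
    (hY : Y.1 = LinearMap.toMatrixAlgEquiv b y) (h : IsConj Y T) :
    Cj y ((LinearMap.toMatrixAlgEquiv b).symm T.1) := by
  obtain ⟨E, hE⟩ := isConj_iff.1 h
  let u : (V →ₗ[F] V)ˣ := Units.map (LinearMap.toMatrixAlgEquiv b).symm.toAlgHom.toRingHom.toMonoidHom E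
  let e : V ≃ₗ[F] V := LinearMap.GeneralLinearGroup.generalLinearEquiv F V u
  refine ⟨e, fun v => ?_⟩
  have h1 : E * Y = T * E := by
    rw [← hE]
    group
  have h2 : (LinearMap.toMatrixAlgEquiv b).symm E.1 * y =
      (LinearMap.toMatrixAlgEquiv b).symm T.1 * (LinearMap.toMatrixAlgEquiv b).symm E.1 := by
    have h3 : E.1 * Y.1 = T.1 * E.1 := congrArg Units.val h1
    have h4 := congrArg (LinearMap.toMatrixAlgEquiv b).symm h3
    rw [map_mul, map_mul, hY, AlgEquiv.symm_apply_apply] at h4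
    exact h4
  exact LinearMap.congr_fun h2 v

open FL0.UPB in
theorem t_UPE : M_UPE := by
  intro hPI hCLE hUFR κ m hm hθ
  classical
  obtain ⟨r, hUFR⟩ := hUFR κ m hm hθ
  have hK0 : (0 : ℝ) ≤ ∑ j : Fin m.length, (m.get j : ℝ) :=
    Finset.sum_nonneg fun j _ => Nat.cast_nonneg _
  refine ⟨4 + 2 * ∑ j : Fin m.length, (m.get j : ℝ) + (m.length + κ.h) * (r : ℝ) ^ 2,
    by positivity, ?_⟩
  intro F V _ _ _ _ _ z hz g hg y hy
  have hq : (2 : ℝ) ≤ (Nat.card F : ℝ) := by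
    exact_mod_cast Finite.one_lt_card (α := F)
  have hq0 : (0 : ℝ) < (Nat.card F : ℝ) := by linarith
  have hq1 : (1 : ℝ) ≤ (Nat.card F : ℝ) := by linarith
  have hk1 : ∀ j : Fin m.length, 1 ≤ m.get j := fun j =>
    (hm _ (List.get_mem m j)).trans' (by norm_num)
  set l : ℕ := Module.finrank F V with hl
  let b : Module.Basis (Fin l) F V := Module.finBasis F V
  have hyu : ∀ j, IsUnit (y j) := fun j => upe_unit (y j) (g j) (hg j).2.2 (hy j)
  have hexw : ∀ w : V →ₗ[F] V, IsUnit w →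
      ∃ g : GL (Fin l) F, g.1 = LinearMap.toMatrixAlgEquiv b w := by
    intro w hw
    obtain ⟨g, hg⟩ := hw.map (LinearMap.toMatrixAlgEquiv b)
    exact ⟨g, hg⟩
  choose Y hYval using fun j => hexw (y j) (hyu j)
  have hYg : ∀ j, aeval (Y j).1 (g j) = 0 := by
    intro j
    rw [hYval j, upe_aeval_mat, hy j, map_zero]
  have hofn : ∀ (t : Fin m.length → (V →ₗ[F] V)) (T : Fin m.length → GL (Fin l) F),
      (∀ j, (T j).1 = LinearMap.toMatrixAlgEquiv b (t j)) →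
      (List.ofFn T).prod.1 = LinearMap.toMatrixAlgEquiv b (List.ofFn t).prod := by
    intro t T hT
    have h1 : (List.ofFn T).prod.1 = ((List.ofFn T).map (Units.coeHom _)).prod := by
      rw [← map_list_prod]
      rfl
    rw [h1, map_list_prod, List.map_ofFn, List.map_ofFn]
    congr 2
    funext j
    exact hT j
  have hfinM : Finite (Matrix (Fin l) (Fin l) F) := inferInstance
  have hfin : Finite (GL (Fin l) F) :=
    Finite.of_injective (fun g : GL (Fin l) F => g.1) Units.val_injective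
  have hfinV : Finite (V →ₗ[F] V) := Finite.of_equiv _ (LinearMap.toMatrixAlgEquiv b).toEquiv.symm
  -- the injection
  have hN1 : Nat.card {t : (Fin m.length → (V →ₗ[F] V)) × (Fin κ.h → (V →ₗ[F] V)) //
          (∀ j, Cj (y j) (t.1 j)) ∧ (∀ i, IsUnit (t.2 i)) ∧
          Wk κ z (List.ofFn t.1).prod t.2 = 0} ≤
      Nat.card {t : (Fin m.length → GL (Fin l) F) × (Fin κ.h → GL (Fin l) F) //
          (∀ j, IsConj (Y j) (t.1 j)) ∧
          (List.ofFn t.1).prod.1 * (wk κ t.2).1 = Matrix.scalar (Fin l) z} := by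
    choose G hG1 hG2 using fun (t : V →ₗ[F] V) (j : Fin m.length) (h : Cj (y j) t) =>
      upe_conj b (y j) t (Y j) (hYval j) h
    choose E hE using hexw
    refine Nat.card_le_card_of_injective
      (fun t => ⟨(fun j => G (t.1.1 j) j (t.2.1 j), fun i => E (t.1.2 i) (t.2.2.1 i)),
        fun j => hG2 _ _ _, ?_⟩) ?_
    · have h3 := hofn t.1.1 (fun j => G (t.1.1 j) j (t.2.1 j)) fun j => hG1 _ _ _
      change (List.ofFn fun j => G (t.1.1 j) j (t.2.1 j)).prod.1 * _ = _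
      rw [h3]
      exact upe_word κ b z _ t.1.2 _ (fun i => hE _ _) t.2.2.2
    · intro t t' htt
      apply Subtype.ext
      apply Prod.ext
      · funext j
        have h1 := congrArg (fun u => (u.1.1 j).1) htt
        change (G (t.1.1 j) j _).1 = (G (t'.1.1 j) j _).1 at h1
        rw [hG1, hG1] at h1
        exact (LinearMap.toMatrixAlgEquiv b).injective h1
      · funext i
        have h1 := congrArg (fun u => (u.1.2 i).1) htt
        change (E (t.1.2 i) _).1 = (E (t'.1.2 i) _).1 at h1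
        rw [hE, hE] at h1
        exact (LinearMap.toMatrixAlgEquiv b).injective h1
  have hGL0 := LG.card_GL_ge (F := F) (n := l) hPI
  have hsq : (Nat.card F : ℝ) ^ (l ^ 2) = (Nat.card F : ℝ) ^ ((l : ℝ) ^ 2) := by
    rw [← Real.rpow_natCast]
    push_cast
    ring_nf
  rw [hsq] at hGL0
  have hGL : (Nat.card (GL (Fin l) F) : ℝ) ≤ (Nat.card F : ℝ) ^ ((l : ℝ) ^ 2) := by
    have h1 : Nat.card (GL (Fin l) F) ≤ Nat.card (Fin l → Fin l → F) :=
      Nat.card_le_card_of_injective (fun g : GL (Fin l) F => (g.1 : Fin l → Fin l → F))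
        fun _ _ h => Units.ext h
    rw [Nat.card_fun, Nat.card_fun, Nat.card_eq_fintype_card (α := Fin l), Fintype.card_fin,
      ← pow_mul, ← _root_.sq] at h1
    rw [← hsq]
    exact_mod_cast h1
  have hc : ∀ j, (1 : ℝ) ≤ (Cm (y j) : ℝ) := by
    intro j
    have : 0 < Cm (y j) := by
      unfold Cm
      have : Nonempty {c : V →ₗ[F] V // c ∘ₗ y j = y j ∘ₗ c} := ⟨⟨0, by simp⟩⟩
      exact Nat.card_pos
    exact_mod_cast this
  have hcl : ∀ j, (Nat.card {t : GL (Fin l) F // IsConj (Y j) t} : ℝ) * (Cm (y j) : ℝ) ≤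
      4 ^ (m.get j) * (Nat.card F : ℝ) ^ ((l : ℝ) ^ 2) := by
    intro j
    have hdeg : 1 ≤ (g j).natDegree := by rw [(hg j).2.1]; exact hk1 j
    have h1 := ((hCLE F V (g j) (hg j).1 hdeg).2 (y j) (hy j)).1
    have h2 : Nat.card {t : GL (Fin l) F // IsConj (Y j) t} ≤ Nat.card {t : V →ₗ[F] V // Cj (y j) t} := by
      refine Nat.card_le_card_of_injective
        (fun t => ⟨(LinearMap.toMatrixAlgEquiv b).symm t.1.1, upe_conj' b (y j) (Y j) t.1 (hYval j) t.2⟩) ?_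
      intro t t' h
      have h3 := congrArg Subtype.val h
      exact Subtype.ext (Units.ext ((LinearMap.toMatrixAlgEquiv b).symm.injective h3))
    rw [(hg j).2.1] at h1
    rw [← hsq]
    have h3 := (Nat.mul_le_mul_right (Cm (y j)) h2).trans h1
    exact_mod_cast h3
  have hcN : ∀ j, (SRJ.cN (Y j).1 : ℝ) = (Cm (y j) : ℝ) := by
    intro j
    rw [hYval j, upe_cN]
  have hσ : (sig m : ℝ) = ∑ j : Fin m.length, (1 - 1 / (m.get j : ℝ)) := FL0.UPB.sig_eq m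
  have hκ0 : 0 ≤ ((m.length + sig m) / 2 - 1 + κ.h : ℝ) := by
    have h1 : sig m ≤ (m.length : ℝ) := by
      rw [hσ]
      calc ∑ j : Fin m.length, (1 - 1 / (m.get j : ℝ)) ≤ ∑ j : Fin m.length, (1 : ℝ) :=
            Finset.sum_le_sum fun j _ => by
              have : (0 : ℝ) ≤ 1 / (m.get j : ℝ) := by positivity
              linarith
        _ = m.length := by simp
    unfold th at hθ
    have h2 : (0 : ℝ) ≤ κ.h := Nat.cast_nonneg _
    linarith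
  refine (Nat.cast_le.mpr hN1).trans ?_
  rcases le_or_gt r l with hrl | hrl
  · have h1 := hUFR l hrl F z hz g hg Y hYg
    simp only [hcN] at h1
    have h2 := upe_large (Nat.card F) hq m.length m.get (fun j => (Cm (y j) : ℝ))
      (fun j => (Nat.card {t : GL (Fin l) F // IsConj (Y j) t} : ℝ)) l κ.h _ _ hc
      (fun j => Nat.cast_nonneg _) hcl hGL0 hGL (Nat.cast_nonneg _) h1
    refine h2.trans (mul_le_mul_of_nonneg_right (Real.rpow_le_rpow_of_exponent_le hq1 ?_) ?_)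
    · rw [← hσ]
      have : 0 ≤ ((m.length : ℝ) + κ.h) * (r : ℝ) ^ 2 := by positivity
      linarith
    · exact Finset.prod_nonneg fun j _ => by positivity
  · have hN2 : Nat.card {t : (Fin m.length → GL (Fin l) F) × (Fin κ.h → GL (Fin l) F) //
          (∀ j, IsConj (Y j) (t.1 j)) ∧
          (List.ofFn t.1).prod.1 * (wk κ t.2).1 = Matrix.scalar (Fin l) z} ≤
        (∏ j, Nat.card {t : GL (Fin l) F // IsConj (Y j) t}) * Nat.card (GL (Fin l) F) ^ κ.h := by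
      have h1 : Nat.card (GL (Fin l) F) ^ κ.h = Nat.card (Fin κ.h → GL (Fin l) F) := by
        rw [Nat.card_fun, Nat.card_eq_fintype_card (α := Fin κ.h), Fintype.card_fin]
      rw [← Nat.card_pi, h1, ← Nat.card_prod]
      refine Nat.card_le_card_of_injective (fun t => (fun j => ⟨t.1.1 j, t.2.1 j⟩, t.1.2)) ?_
      intro t t' h
      apply Subtype.ext
      apply Prod.ext
      · have h2 := congrArg Prod.fst h
        funext j
        exact congrArg Subtype.val (congrFun h2 j)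
      · have h2 := congrArg Prod.snd h
        exact h2
    have hN3 : (Nat.card {t : (Fin m.length → GL (Fin l) F) × (Fin κ.h → GL (Fin l) F) //
          (∀ j, IsConj (Y j) (t.1 j)) ∧
          (List.ofFn t.1).prod.1 * (wk κ t.2).1 = Matrix.scalar (Fin l) z} : ℝ) ≤
        (∏ j, (Nat.card {t : GL (Fin l) F // IsConj (Y j) t} : ℝ)) *
          (Nat.card (GL (Fin l) F) : ℝ) ^ κ.h := by
      have h := (Nat.cast_le (α := ℝ)).mpr hN2
      rw [Nat.cast_mul, Nat.cast_prod, Nat.cast_pow] at h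
      exact h
    have h2 := upe_small (Nat.card F) hq m.length m.get (fun j => (Cm (y j) : ℝ))
      (fun j => (Nat.card {t : GL (Fin l) F // IsConj (Y j) t} : ℝ)) l r κ.h _ _
      (((m.length + sig m) / 2 - 1 + κ.h : ℝ) * (l : ℝ) ^ 2) hc
      (fun j => Nat.cast_nonneg _) hcl (Nat.cast_nonneg _) hGL hrl.le (by positivity)
      hN3
    exact h2

end

end FLY
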