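import Mathlib
import Pool.Agent.FLY.StY

/-!
# FLY, module SPA: sub, quotient and conjugation for the numbers `Zc` (helper48)
-/

set_option autoImplicit false

namespace FLY

open RSF FL0 FGE Polynomial

noncomputable section

section

variable {F A B V V' : Type} [Field F] [AddCommGroup A] [Module F A] [AddCommGroup B] [Module F B]
  [AddCommGroup V] [Module F V] [AddCommGroup V'] [Module F V']

lemma spa_apply (a : A →ₗ[F] A) (c : B →ₗ[F] A) (b : B →ₗ[F] B) (x : A) (y : B) :
    bk a c b (x, y) = (a x + c y, b y) := rfl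

lemma spa_mul (a a' : A →ₗ[F] A) (c c' : B →ₗ[F] A) (b b' : B →ₗ[F] B) :
    bk a c b * bk a' c' b' = bk (a * a') (a ∘ₗ c' + c ∘ₗ b') (b * b') := by
  refine LinearMap.ext fun x => ?_
  obtain ⟨x, y⟩ := x
  change (a (a' x + c' y) + c (b' y), b (b' y)) = (a (a' x) + (a (c' y) + c (b' y)), b (b' y))
  rw [map_add, add_assoc]

lemma spa_zero : bk (0 : A →ₗ[F] A) (0 : B →ₗ[F] A) (0 : B →ₗ[F] B) = 0 := by
  refine LinearMap.ext fun x => ?_
  obtain ⟨x, y⟩ := x
  simp [bk]

lemma spa_one : bk (1 : A →ₗ[F] A) (0 : B →ₗ[F] A) (1 : B →ₗ[F] B) = 1 := by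
  refine LinearMap.ext fun x => ?_
  obtain ⟨x, y⟩ := x
  simp [bk]

lemma spa_add (a a' : A →ₗ[F] A) (c c' : B →ₗ[F] A) (b b' : B →ₗ[F] B) :
    bk a c b + bk a' c' b' = bk (a + a') (c + c') (b + b') := by
  refine LinearMap.ext fun x => ?_
  obtain ⟨x, y⟩ := x
  rw [LinearMap.add_apply, spa_apply, spa_apply, spa_apply]
  ext
  · simp only [Prod.mk_add_mk, LinearMap.add_apply]
    abel
  · simp

lemma spa_smul (r : F) (a : A →ₗ[F] A) (c : B →ₗ[F] A) (b : B →ₗ[F] B) :
    r • bk a c b = bk (r • a) (r • c) (r • b) := by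
  refine LinearMap.ext fun x => ?_
  obtain ⟨x, y⟩ := x
  rw [LinearMap.smul_apply, spa_apply, spa_apply]
  ext <;> simp

lemma spa_pow (a : A →ₗ[F] A) (b : B →ₗ[F] B) (n : ℕ) :
    ∃ D : (B →ₗ[F] A) →ₗ[F] (B →ₗ[F] A), ∀ c, bk a c b ^ n = bk (a ^ n) (D c) (b ^ n) := by
  induction n with
  | zero => exact ⟨0, fun c => by simp [spa_one]⟩
  | succ n ih =>
    obtain ⟨D, hD⟩ := ih
    refine ⟨{ toFun := fun c => (a ^ n) ∘ₗ c + D c ∘ₗ b
              map_add' := fun c c' => ?_
              map_smul' := fun r c => ?_ }, fun c => ?_⟩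
    · rw [map_add, LinearMap.comp_add, LinearMap.add_comp]
      abel
    · rw [map_smul, LinearMap.comp_smul, LinearMap.smul_comp, RingHom.id_apply, smul_add]
    · rw [pow_succ, hD, spa_mul, pow_succ, pow_succ]
      rfl

/-- The upper right block of `g (bk a c b)` is linear in `c`. -/
lemma spa_lin (a : A →ₗ[F] A) (b : B →ₗ[F] B) (g : F[X]) :
    ∃ D : (B →ₗ[F] A) →ₗ[F] (B →ₗ[F] A), ∀ c,
      aeval (bk a c b) g = bk (aeval a g) (D c) (aeval b g) := by
  induction g using Polynomial.induction_on' with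
  | add p q hp hq =>
    obtain ⟨D, hD⟩ := hp
    obtain ⟨E, hE⟩ := hq
    refine ⟨D + E, fun c => ?_⟩
    rw [map_add, map_add, map_add, hD, hE, spa_add]
    rfl
  | monomial n r =>
    obtain ⟨D, hD⟩ := spa_pow a b n
    refine ⟨r • D, fun c => ?_⟩
    rw [aeval_monomial, aeval_monomial, aeval_monomial, hD, ← Algebra.smul_def, ← Algebra.smul_def,
      ← Algebra.smul_def, spa_smul]
    rfl

/-- Intertwiners. -/
lemma spa_int (X : V →ₗ[F] V) (Y : V' →ₗ[F] V') (T : V →ₗ[F] V') (h : ∀ v, T (X v) = Y (T v))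
    (g : F[X]) : ∀ v, T (aeval X g v) = aeval Y g (T v) := by
  induction g using Polynomial.induction_on' with
  | add p q hp hq =>
    intro v
    rw [map_add, map_add, LinearMap.add_apply, LinearMap.add_apply, map_add, hp, hq]
  | monomial n r =>
    intro v
    have h1 : ∀ n, ∀ v, T ((X ^ n) v) = (Y ^ n) (T v) := by
      intro n
      induction n with
      | zero => intro v; simp
      | succ n ih =>
        intro v
        rw [pow_succ, pow_succ, Module.End.mul_apply, Module.End.mul_apply, ih, h]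
    rw [aeval_monomial, aeval_monomial, ← Algebra.smul_def, ← Algebra.smul_def,
      LinearMap.smul_apply, LinearMap.smul_apply, map_smul, h1]

lemma spa_inj (X : V →ₗ[F] V) (Y : V' →ₗ[F] V') (T : V →ₗ[F] V') (h : ∀ v, T (X v) = Y (T v))
    (hT : Function.Injective T) (g : F[X]) (hY : aeval Y g = 0) : aeval X g = 0 := by
  refine LinearMap.ext fun v => hT ?_
  rw [spa_int X Y T h, hY]
  simp

lemma spa_surj (X : V →ₗ[F] V) (Y : V' →ₗ[F] V') (T : V →ₗ[F] V') (h : ∀ v, T (X v) = Y (T v))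
    (hT : Function.Surjective T) (g : F[X]) (hX : aeval X g = 0) : aeval Y g = 0 := by
  refine LinearMap.ext fun v => ?_
  obtain ⟨u, rfl⟩ := hT v
  rw [← spa_int X Y T h, hX]
  simp

/-- the linear space of the `c` which are killed -/
lemma spa_space (g : F[X]) (a : A →ₗ[F] A) (b : B →ₗ[F] B) (ha : aeval a g = 0)
    (hb : aeval b g = 0) : ∃ Z : Submodule F (B →ₗ[F] A), ∀ c, c ∈ Z ↔ aeval (bk a c b) g = 0 := by
  obtain ⟨D, hD⟩ := spa_lin a b g
  refine ⟨LinearMap.ker D, fun c => ?_⟩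
  rw [hD, ha, hb, LinearMap.mem_ker]
  constructor
  · intro h
    rw [h, spa_zero]
  · intro h
    refine LinearMap.ext fun y => ?_
    have h1 := congrArg (fun f => (f (0, y)).1) h
    simpa [spa_apply] using h1

end

section

variable {F A B : Type} [Field F] [Finite F] [AddCommGroup A] [Module F A] [FiniteDimensional F A]
  [AddCommGroup B] [Module F B] [FiniteDimensional F B]

lemma spa_fin : Finite (B →ₗ[F] A) := Module.finite_of_finite F

lemma spa_sub (g : F[X]) (a : A →ₗ[F] A) (b : B →ₗ[F] B) (ha : aeval a g = 0)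
    (hb : aeval b g = 0) (W : Submodule F B) (h : W ≤ W.comap b) :
    Zc g a b ≤ Zc g a (b.restrict h) * Zc g a (W.mapQ W b h) := by
  obtain ⟨Z, hZ⟩ := spa_space g a b ha hb
  haveI : Finite (B →ₗ[F] A) := spa_fin
  haveI : Finite (W →ₗ[F] A) := spa_fin
  haveI : Finite ((B ⧸ W) →ₗ[F] A) := spa_fin
  -- the restriction
  have h1 : ∀ c : B →ₗ[F] A, aeval (bk a c b) g = 0 →
      aeval (bk a (c ∘ₗ W.subtype) (b.restrict h)) g = 0 := by
    intro c hc
    refine spa_inj _ (bk a c b) (LinearMap.prodMap LinearMap.id W.subtype) ?_ ?_ g hc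
    · rintro ⟨x, y⟩
      rfl
    · rintro ⟨x, y⟩ ⟨x', y'⟩ hxy
      have e1 := congrArg Prod.fst hxy
      have e2 := congrArg Prod.snd hxy
      exact Prod.ext e1 (Subtype.ext e2)
  have h2 : ∀ c : B →ₗ[F] A, aeval (bk a c b) g = 0 → ∀ hW : W ≤ LinearMap.ker c,
      aeval (bk a (W.liftQ c hW) (W.mapQ W b h)) g = 0 := by
    intro c hc hW
    refine spa_surj (bk a c b) _ (LinearMap.prodMap LinearMap.id W.mkQ) ?_ ?_ g hc
    · rintro ⟨x, y⟩
      rfl
    · rintro ⟨x, y⟩
      obtain ⟨y, rfl⟩ := W.mkQ_surjective y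
      exact ⟨(x, y), rfl⟩
  let R : {c : B →ₗ[F] A // aeval (bk a c b) g = 0} →
      {c : W →ₗ[F] A // aeval (bk a c (b.restrict h)) g = 0} := fun c => ⟨_, h1 c.1 c.2⟩
  have h3 : ∀ d, Nat.card {c // R c = d} ≤ Zc g a (W.mapQ W b h) := by
    intro d
    rcases isEmpty_or_nonempty {c // R c = d} with h0 | ⟨⟨c0, hc0⟩⟩
    · rw [Nat.card_of_isEmpty]
      exact Nat.zero_le _
    · have h4 : ∀ c : {c // R c = d}, W ≤ LinearMap.ker (c.1.1 - c0.1) := by
        intro c y hy
        have h5 : R c.1 = R c0 := c.2.trans hc0.symm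
        have h6 := congrArg (fun f : {c : W →ₗ[F] A // aeval (bk a c (b.restrict h)) g = 0} =>
          f.1 ⟨y, hy⟩) h5
        have h7 : c.1.1 y = c0.1 y := h6
        rw [LinearMap.mem_ker, LinearMap.sub_apply, h7, sub_self]
      refine Nat.card_le_card_of_injective (fun c : {c // R c = d} =>
        (⟨W.liftQ (c.1.1 - c0.1) (h4 c), h2 _ ((hZ _).1 (Z.sub_mem ((hZ _).2 c.1.2)
          ((hZ _).2 c0.2))) (h4 c)⟩ : {c : (B ⧸ W) →ₗ[F] A // aeval (bk a c (W.mapQ W b h)) g = 0})) ?_
      intro c c' hcc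
      have h8 := congrArg Subtype.val hcc
      have h9 : ∀ y, (c.1.1 - c0.1) y = (c'.1.1 - c0.1) y := by
        intro y
        have := congrArg (fun f : (B ⧸ W) →ₗ[F] A => f (W.mkQ y)) h8
        simpa using this
      refine Subtype.ext (Subtype.ext (LinearMap.ext fun y => ?_))
      have := h9 y
      simpa using this
  have h4 : Nat.card {c : B →ₗ[F] A // aeval (bk a c b) g = 0} =
      ∑ᶠ d, Nat.card {c // R c = d} := by
    haveI := Fintype.ofFinite {c : W →ₗ[F] A // aeval (bk a c (b.restrict h)) g = 0}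
    rw [finsum_eq_sum_of_fintype, ← Nat.card_sigma]
    exact Nat.card_congr (Equiv.sigmaFiberEquiv R).symm
  change Nat.card {c : B →ₗ[F] A // aeval (bk a c b) g = 0} ≤ Nat.card
    {c : W →ₗ[F] A // aeval (bk a c (b.restrict h)) g = 0} * _
  haveI := Fintype.ofFinite {c : W →ₗ[F] A // aeval (bk a c (b.restrict h)) g = 0}
  rw [h4, finsum_eq_sum_of_fintype, Nat.card_eq_fintype_card, ← Finset.card_univ, ← smul_eq_mul]
  exact Finset.sum_le_card_nsmul _ _ _ fun d _ => h3 d

end

theorem t_SPA : S_SPA := by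
  intro F A B _ _ _ _ _ _ _ _ g a b ha hb
  haveI : Finite (B →ₗ[F] A) := spa_fin
  refine ⟨fun W h => spa_sub g a b ha hb W h, ?_, ?_, ?_, ?_⟩
  · intro A' _ _ a' e he
    refine (Nat.card_congr ?_).symm
    refine Equiv.subtypeEquiv ⟨fun c => e.toLinearMap ∘ₗ c, fun c => e.symm.toLinearMap ∘ₗ c,
      fun c => by ext; simp, fun c => by ext; simp⟩ ?_
    intro c
    constructor
    · intro h
      refine spa_surj (bk a c b) _ (LinearMap.prodMap e.toLinearMap LinearMap.id) ?_ ?_ g h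
      · rintro ⟨x, y⟩
        change (e (a x + c y), b y) = (a' (e x) + e (c y), b y)
        rw [map_add, he]
      · rintro ⟨x, y⟩
        exact ⟨(e.symm x, y), by simp⟩
    · intro h
      refine spa_inj (bk a c b) _ (LinearMap.prodMap e.toLinearMap LinearMap.id) ?_ ?_ g h
      · rintro ⟨x, y⟩
        change (e (a x + c y), b y) = (a' (e x) + e (c y), b y)
        rw [map_add, he]
      · rintro ⟨x, y⟩ ⟨x', y'⟩ hxy
        have e1 : e x = e x' := congrArg Prod.fst hxy
        have e2 : y = y' := congrArg Prod.snd hxy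
        rw [e.injective e1, e2]
  · intro B' _ _ b' e he
    refine (Nat.card_congr ?_).symm
    refine Equiv.subtypeEquiv ⟨fun c => c ∘ₗ e.symm.toLinearMap, fun c => c ∘ₗ e.toLinearMap,
      fun c => by ext; simp, fun c => by ext; simp⟩ ?_
    intro c
    constructor
    · intro h
      refine spa_surj (bk a c b) _ (LinearMap.prodMap LinearMap.id e.toLinearMap) ?_ ?_ g h
      · rintro ⟨x, y⟩
        change (a x + c y, e (b y)) = (a x + c (e.symm (e y)), b' (e y))
        rw [he, e.symm_apply_apply]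
      · rintro ⟨x, y⟩
        exact ⟨(x, e.symm y), by simp⟩
    · intro h
      refine spa_inj (bk a c b) _ (LinearMap.prodMap LinearMap.id e.toLinearMap) ?_ ?_ g h
      · rintro ⟨x, y⟩
        change (a x + c y, e (b y)) = (a x + c (e.symm (e y)), b' (e y))
        rw [he, e.symm_apply_apply]
      · rintro ⟨x, y⟩ ⟨x', y'⟩ hxy
        have e1 : x = x' := congrArg Prod.fst hxy
        have e2 : e y = e y' := congrArg Prod.snd hxy
        rw [e1, e.injective e2]
  · obtain ⟨Z, hZ⟩ := spa_space g a b ha hb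
    haveI : Nonempty {c : B →ₗ[F] A // aeval (bk a c b) g = 0} := ⟨⟨0, (hZ 0).1 Z.zero_mem⟩⟩
    exact Nat.card_pos
  · have h1 : Zc g a b ≤ Nat.card (B →ₗ[F] A) :=
      Nat.card_le_card_of_injective (fun c : {c : B →ₗ[F] A // aeval (bk a c b) g = 0} => c.1)
        Subtype.val_injective
    have h2 : Nat.card (B →ₗ[F] A) =
        Nat.card F ^ (Module.finrank F A * Module.finrank F B) := by
      rw [Module.natCard_eq_pow_finrank (K := F), Module.finrank_linearMap, mul_comm]
    rwa [h2] at h1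

end

end FLY
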