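import Mathlib
import Pool.Agent.FLY.StY
import Pool.Agent.FL0.ZON
import Pool.Agent.FLY.SPA

/-!
# FLY, module ZOK: the number of the upper right blocks

MP_5b5212_al, all four classes of groups (adaptation of `FLW/ZON.lean`).
-/

set_option autoImplicit false

namespace FLY

open RSF FL0 FGE Polynomial Pool.Agent.Lib_helper13

noncomputable section

section Block

variable {F A B : Type} [Field F] [AddCommGroup A] [Module F A] [AddCommGroup B] [Module F B]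

lemma zok_bk_sub (z : F) (a a' : A →ₗ[F] A) (c c' : B →ₗ[F] A) (b b' : B →ₗ[F] B) :
    bk a c b - z • bk a' c' b' = bk (a - z • a') (c - z • c') (b - z • b') := by
  apply LinearMap.ext
  rintro ⟨w, y⟩
  apply Prod.ext
  · change (a w + c y) - z • (a' w + c' y) = (a w - z • a' w) + (c y - z • c' y)
    rw [smul_add]
    abel
  · rfl

/-- the upper right block of `Wk`, explicitly -/
def zok_Y : (κ : Kd) → F → (A →ₗ[F] A) → (B →ₗ[F] B) → (B →ₗ[F] A) →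
    (Fin κ.h → (A →ₗ[F] A)) → (Fin κ.h → (B →ₗ[F] B)) → (Fin κ.h → (B →ₗ[F] A)) → (B →ₗ[F] A)
  | .o0, z, _, _, X, _, _, _ => X - z • 0
  | .n1, z, P, _, X, u, v, f =>
      P ∘ₗ (u (0 : Fin 1) ∘ₗ f (0 : Fin 1) + f (0 : Fin 1) ∘ₗ v (0 : Fin 1)) +
        X ∘ₗ (v (0 : Fin 1) * v (0 : Fin 1)) - z • 0
  | .o1, z, P, _, X, u, v, f =>
      (P * u (0 : Fin 2)) ∘ₗ f (1 : Fin 2) +
        (P ∘ₗ f (0 : Fin 2) + X ∘ₗ v (0 : Fin 2)) ∘ₗ v (1 : Fin 2) -
        z • (u (1 : Fin 2) ∘ₗ f (0 : Fin 2) + f (1 : Fin 2) ∘ₗ v (0 : Fin 2))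
  | .n2, z, P, _, X, u, v, f =>
      (P * (u (0 : Fin 2) * u (0 : Fin 2))) ∘ₗ
          (u (1 : Fin 2) ∘ₗ f (1 : Fin 2) + f (1 : Fin 2) ∘ₗ v (1 : Fin 2)) +
        (P ∘ₗ (u (0 : Fin 2) ∘ₗ f (0 : Fin 2) + f (0 : Fin 2) ∘ₗ v (0 : Fin 2)) +
          X ∘ₗ (v (0 : Fin 2) * v (0 : Fin 2))) ∘ₗ (v (1 : Fin 2) * v (1 : Fin 2)) - z • 0

lemma zok_W (κ : Kd) (z : F) (P : A →ₗ[F] A) (Q : B →ₗ[F] B) (X : B →ₗ[F] A)
    (u : Fin κ.h → (A →ₗ[F] A)) (v : Fin κ.h → (B →ₗ[F] B)) (f : Fin κ.h → (B →ₗ[F] A)) :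
    Wk κ z (bk P X Q) (fun i => bk (u i) (f i) (v i)) =
      bk (Wk κ z P u) (zok_Y κ z P Q X u v f) (Wk κ z Q v) := by
  cases κ with
  | o0 =>
    show bk P X Q - z • 1 = bk (P - z • 1) (X - z • 0) (Q - z • 1)
    rw [← FL0.ZON.bk_one, zok_bk_sub]
  | n1 =>
    show bk P X Q * bk (u (0 : Fin 1)) (f (0 : Fin 1)) (v (0 : Fin 1)) ^ 2 - z • 1 =
      bk (P * u (0 : Fin 1) ^ 2 - z • 1) (P ∘ₗ (u (0 : Fin 1) ∘ₗ f (0 : Fin 1) +
        f (0 : Fin 1) ∘ₗ v (0 : Fin 1)) + X ∘ₗ (v (0 : Fin 1) * v (0 : Fin 1)) - z • 0)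
        (Q * v (0 : Fin 1) ^ 2 - z • 1)
    rw [pow_two, pow_two, pow_two, FL0.ZON.bk_mul, FL0.ZON.bk_mul, ← FL0.ZON.bk_one, zok_bk_sub]
  | o1 =>
    show bk P X Q * bk (u (0 : Fin 2)) (f (0 : Fin 2)) (v (0 : Fin 2)) *
        bk (u (1 : Fin 2)) (f (1 : Fin 2)) (v (1 : Fin 2)) -
        z • (bk (u (1 : Fin 2)) (f (1 : Fin 2)) (v (1 : Fin 2)) *
          bk (u (0 : Fin 2)) (f (0 : Fin 2)) (v (0 : Fin 2))) = _
    rw [FL0.ZON.bk_mul, FL0.ZON.bk_mul, FL0.ZON.bk_mul, zok_bk_sub]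
    rfl
  | n2 =>
    show bk P X Q * bk (u (0 : Fin 2)) (f (0 : Fin 2)) (v (0 : Fin 2)) ^ 2 *
        bk (u (1 : Fin 2)) (f (1 : Fin 2)) (v (1 : Fin 2)) ^ 2 - z • 1 =
      bk (P * u (0 : Fin 2) ^ 2 * u (1 : Fin 2) ^ 2 - z • 1) _
        (Q * v (0 : Fin 2) ^ 2 * v (1 : Fin 2) ^ 2 - z • 1)
    rw [pow_two, pow_two, pow_two, pow_two, pow_two, pow_two, FL0.ZON.bk_mul, FL0.ZON.bk_mul,
      FL0.ZON.bk_mul, FL0.ZON.bk_mul, ← FL0.ZON.bk_one, zok_bk_sub]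
    rfl

lemma zok_Y_add (κ : Kd) (z : F) (P : A →ₗ[F] A) (Q : B →ₗ[F] B) (X X' : B →ₗ[F] A)
    (u : Fin κ.h → (A →ₗ[F] A)) (v : Fin κ.h → (B →ₗ[F] B)) (f f' : Fin κ.h → (B →ₗ[F] A)) :
    zok_Y κ z P Q (X + X') u v (f + f') = zok_Y κ z P Q X u v f + zok_Y κ z P Q X' u v f' := by
  cases κ with
  | o0 =>
    show X + X' - z • 0 = X - z • 0 + (X' - z • 0)
    simp only [smul_zero, sub_zero]
  | n1 =>
    simp only [zok_Y, Pi.add_apply, LinearMap.comp_add, LinearMap.add_comp, smul_zero, sub_zero]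
    abel
  | o1 =>
    simp only [zok_Y, Pi.add_apply, LinearMap.comp_add, LinearMap.add_comp, smul_add]
    abel
  | n2 =>
    simp only [zok_Y, Pi.add_apply, LinearMap.comp_add, LinearMap.add_comp, smul_zero, sub_zero]
    abel

lemma zok_Wc {d : ℕ} (κ : Kd) (z : F) (a : Fin d → (A →ₗ[F] A)) (u : Fin κ.h → (A →ₗ[F] A))
    (b : Fin d → (B →ₗ[F] B)) (v : Fin κ.h → (B →ₗ[F] B)) (c : Fin d → (B →ₗ[F] A))
    (f : Fin κ.h → (B →ₗ[F] A)) :
    Wk κ z (List.ofFn fun j => bk (a j) (c j) (b j)).prod (fun i => bk (u i) (f i) (v i)) =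
      bk (Wk κ z (List.ofFn a).prod u)
        (zok_Y κ z (List.ofFn a).prod (List.ofFn b).prod (ur a b c) u v f)
        (Wk κ z (List.ofFn b).prod v) := by
  rw [FL0.ZON.prod_bk, zok_W]

lemma zok_uk {d : ℕ} (κ : Kd) (z : F) (a : Fin d → (A →ₗ[F] A)) (u : Fin κ.h → (A →ₗ[F] A))
    (b : Fin d → (B →ₗ[F] B)) (v : Fin κ.h → (B →ₗ[F] B)) (c : Fin d → (B →ₗ[F] A))
    (f : Fin κ.h → (B →ₗ[F] A)) :
    uk κ z a u b v c f = zok_Y κ z (List.ofFn a).prod (List.ofFn b).prod (ur a b c) u v f := by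
  unfold uk
  rw [zok_Wc, FL0.ZON.fst_bk_inr]

lemma zok_uk_add {d : ℕ} (κ : Kd) (z : F) (a : Fin d → (A →ₗ[F] A)) (u : Fin κ.h → (A →ₗ[F] A))
    (b : Fin d → (B →ₗ[F] B)) (v : Fin κ.h → (B →ₗ[F] B)) (c c' : Fin d → (B →ₗ[F] A))
    (f f' : Fin κ.h → (B →ₗ[F] A)) :
    uk κ z a u b v (c + c') (f + f') = uk κ z a u b v c f + uk κ z a u b v c' f' := by
  rw [zok_uk, zok_uk, zok_uk, FL0.ZON.ur_add, zok_Y_add]

/-- the additive map, restricted to the product of the subspaces `Z j` -/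
def zok_U {d : ℕ} (κ : Kd) (z : F) (a : Fin d → (A →ₗ[F] A)) (u : Fin κ.h → (A →ₗ[F] A))
    (b : Fin d → (B →ₗ[F] B)) (v : Fin κ.h → (B →ₗ[F] B)) (Z : Fin d → Submodule F (B →ₗ[F] A)) :
    (((j : Fin d) → Z j) × (Fin κ.h → (B →ₗ[F] A))) →+ (B →ₗ[F] A) :=
  AddMonoidHom.mk' (fun t => uk κ z a u b v (fun j => (t.1 j : B →ₗ[F] A)) t.2)
    (fun t t' => zok_uk_add κ z a u b v (fun j => (t.1 j : B →ₗ[F] A))
      (fun j => (t'.1 j : B →ₗ[F] A)) t.2 t'.2)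

/-- the commutators are killed -/
lemma zok_comm (g : F[X]) (a : A →ₗ[F] A) (b : B →ₗ[F] B) (ha : aeval a g = 0)
    (hb : aeval b g = 0) (h : B →ₗ[F] A) : aeval (bk a (a ∘ₗ h - h ∘ₗ b) b) g = 0 := by
  obtain ⟨D, hD⟩ := spa_lin a b g
  have h0 : aeval (bk a (0 : B →ₗ[F] A) b) g = 0 := by
    rw [hD, ha, hb, map_zero, spa_zero]
  refine spa_inj (bk a (a ∘ₗ h - h ∘ₗ b) b) (bk a 0 b) (bk 1 h 1) ?_ ?_ g h0
  · rintro ⟨x, y⟩
    rw [spa_apply, spa_apply, spa_apply, spa_apply]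
    refine Prod.ext ?_ rfl
    show (a x + (a (h y) - h (b y))) + h (b y) = a (x + h y) + (0 : A)
    rw [map_add, add_zero]
    abel
  · rintro ⟨x, y⟩ ⟨x', y'⟩ he
    rw [spa_apply, spa_apply] at he
    have h2 : y = y' := (Prod.ext_iff.1 he).2
    have h1 : x + h y = x' + h y' := (Prod.ext_iff.1 he).1
    subst h2
    rw [add_right_cancel h1]

end Block

theorem t_ZOK : M_ZOK := by
  classical
  intro hZAK κ F A B _ _ _ _ _ _ _ _ d z hz g a u b v hTa hTb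
  have : Finite A := Module.finite_of_finite F
  have : Finite B := Module.finite_of_finite F
  have : Finite (B →ₗ[F] A) := Module.finite_of_finite F
  set q := Nat.card F with hq
  have hBA : Nat.card (B →ₗ[F] A) = q ^ (Module.finrank F A * Module.finrank F B) := by
    rw [Module.natCard_eq_pow_finrank (K := F), Module.finrank_linearMap, hq]
    congr 1
    ring
  choose Z hZ using fun j : Fin d => spa_space (g j) (a j) (b j) (hTa.1 j) (hTb.1 j)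
  let U := zok_U κ z a u b v Z
  have hZc : ∀ j, Nat.card (Z j) = Zc (g j) (a j) (b j) := fun j =>
    Nat.card_congr (Equiv.subtypeEquivRight fun c => hZ j c)
  have hG : Nat.card (((j : Fin d) → Z j) × (Fin κ.h → (B →ₗ[F] A))) =
      (∏ j, Zc (g j) (a j) (b j)) *
        q ^ (κ.h * (Module.finrank F A * Module.finrank F B)) := by
    rw [Nat.card_prod, Nat.card_pi, Nat.card_pi, Finset.prod_const, Finset.card_univ,
      Fintype.card_fin, hBA, ← pow_mul]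
    congr 1
    · exact Finset.prod_congr rfl fun j _ => hZc j
    · congr 1
      ring
  have hker : Nat.card U.ker * Nat.card U.range =
      Nat.card (((j : Fin d) → Z j) × (Fin κ.h → (B →ₗ[F] A))) := by
    rw [← AddSubgroup.index_ker]
    exact AddSubgroup.card_mul_index _
  have hbk : ∀ y : B →ₗ[F] A, bk (0 : A →ₗ[F] A) y (0 : B →ₗ[F] B) = 0 ↔ y = 0 := by
    intro y
    constructor
    · intro h
      have h2 := congrArg (fun T => LinearMap.fst F A B ∘ₗ T ∘ₗ LinearMap.inr F A B) h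
      simp only [FL0.ZON.fst_bk_inr] at h2
      rw [h2, LinearMap.zero_comp, LinearMap.comp_zero]
    · intro h
      rw [h, spa_zero]
  have hW0 : ∀ (c : Fin d → (B →ₗ[F] A)) (f : Fin κ.h → (B →ₗ[F] A)),
      Wk κ z (List.ofFn fun j => bk (a j) (c j) (b j)).prod (fun i => bk (u i) (f i) (v i)) = 0 ↔
        uk κ z a u b v c f = 0 := by
    intro c f
    rw [zok_Wc, zok_uk, hTa.2.2, hTb.2.2, hbk]
  have hS : Nat.card {p : (Fin d → (B →ₗ[F] A)) × (Fin κ.h → (B →ₗ[F] A)) //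
          (∀ j, aeval (bk (a j) (p.1 j) (b j)) (g j) = 0) ∧
          Wk κ z (List.ofFn fun j => bk (a j) (p.1 j) (b j)).prod
            (fun i => bk (u i) (p.2 i) (v i)) = 0} = Nat.card U.ker := by
    refine Nat.card_congr
      { toFun := fun p => ⟨(fun j => ⟨p.1.1 j, (hZ j _).2 (p.2.1 j)⟩, p.1.2),
          (AddMonoidHom.mem_ker).2 ((hW0 _ _).1 p.2.2)⟩
        invFun := fun t => ⟨(fun j => (t.1.1 j : B →ₗ[F] A), t.1.2),
          fun j => (hZ j _).1 (t.1.1 j).2, (hW0 _ _).2 ((AddMonoidHom.mem_ker).1 t.2)⟩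
        left_inv := fun p => rfl
        right_inv := fun t => rfl }
  have hR : Nat.card {y : B →ₗ[F] A // ∃ (h : Fin d → (B →ₗ[F] A)) (f : Fin κ.h → (B →ₗ[F] A)),
          uk κ z a u b v (fun j => a j ∘ₗ h j - h j ∘ₗ b j) f = y} ≤ Nat.card U.range := by
    refine Nat.card_le_card_of_injective (fun y => (⟨y.1, ?_⟩ : U.range)) ?_
    · obtain ⟨h, f, hy⟩ := y.2
      refine AddMonoidHom.mem_range.2 ⟨(fun j => ⟨a j ∘ₗ h j - h j ∘ₗ b j, (hZ j _).2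
        (zok_comm (g j) (a j) (b j) (hTa.1 j) (hTb.1 j) (h j))⟩, f), hy⟩
    · intro y y' he
      exact Subtype.ext (congrArg (fun t : U.range => (t : B →ₗ[F] A)) he)
  have hAN := hZAK κ F A B d z hz a u b v hTa.2.1 hTb.2.1 hTa.2.2 hTb.2.2
  rw [hS]
  calc Nat.card U.ker * q ^ (Module.finrank F A * Module.finrank F B)
      ≤ Nat.card U.ker * (Nat.card U.range * Nat.card (Hk κ a u b v)) :=
        Nat.mul_le_mul_left _ (hAN.trans (Nat.mul_le_mul_right _ hR))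
    _ = q ^ (κ.h * (Module.finrank F A * Module.finrank F B)) *
        (∏ j, Zc (g j) (a j) (b j)) * Nat.card (Hk κ a u b v) := by
        rw [← mul_assoc, hker, hG]
        ring

end

end FLY
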