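import Pool.Agent.FLY.FinG
import Pool.Agent.FLY.UPE
import Pool.Agent.FLY.ZOK

/-!
# Random homomorphisms of all four classes of groups to `PSL_n(q)`, all `q`: the theorem
-/

namespace FLY

/-- **the theorem** -/
theorem a_MainG : MainG := main_of t_ZOK t_UPE

end FLY
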