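import Mathlib
import Pool.Agent.FLY.StY
import Pool.Agent.FGE.GA2

/-!
# GAG: the classes `C6` and `C7`, all `q`, all four classes of groups (as `FGQ/GAQ.lean`)
-/

set_option autoImplicit false

namespace FLY

open RSF FL0 FGE Polynomial

noncomputable section

section

variable {κ : Kd} {G : Type} [Group G] {m : List ℕ} [Finite (Tk κ G m)]

theorem gag_mono (P Q : Subgroup G → Prop) (h : ∀ H, P H → Q H) :
    prk κ G m P ≤ prk κ G m Q := by
  unfold prk
  refine div_le_div_of_nonneg_right ?_ (Nat.cast_nonneg _)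
  refine Nat.cast_le.2 (Nat.card_le_card_of_injective (fun x => ⟨x.1, h _ x.2⟩) ?_)
  intro a b hab
  have h1 : a.1 = b.1 := congrArg (fun x : {p : Tk κ G m // Q (rg p)} => x.1) hab
  exact Subtype.ext h1

theorem gag_or (P Q : Subgroup G → Prop) :
    prk κ G m (fun H => P H ∨ Q H) ≤ prk κ G m P + prk κ G m Q := by
  classical
  unfold prk
  rw [← add_div]
  refine div_le_div_of_nonneg_right ?_ (Nat.cast_nonneg _)
  have h : Nat.card {p : Tk κ G m // P (rg p) ∨ Q (rg p)} ≤
      Nat.card {p : Tk κ G m // P (rg p)} + Nat.card {p : Tk κ G m // Q (rg p)} := by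
    rw [← Nat.card_sum]
    refine Nat.card_le_card_of_injective
      (fun x => if hx : P (rg x.1) then Sum.inl ⟨x.1, hx⟩
        else Sum.inr ⟨x.1, x.2.resolve_left hx⟩) ?_
    intro a b hab
    by_cases ha : P (rg a.1)
    · by_cases hb : P (rg b.1)
      · simp only [ha, hb, dite_true] at hab
        have h1 : a.1 = b.1 :=
          congrArg (fun x : {p : Tk κ G m // P (rg p)} => x.1) (Sum.inl.inj hab)
        exact Subtype.ext h1
      · simp only [ha, hb, dite_true, dite_false] at hab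
        exact absurd hab (by simp)
    · by_cases hb : P (rg b.1)
      · simp only [ha, hb, dite_true, dite_false] at hab
        exact absurd hab (by simp)
      · simp only [ha, hb, dite_false] at hab
        have h1 : a.1 = b.1 :=
          congrArg (fun x : {p : Tk κ G m // Q (rg p)} => x.1) (Sum.inr.inj hab)
        exact Subtype.ext h1
  exact_mod_cast h

omit [Finite (Tk κ G m)] in
theorem gag_false (P : Subgroup G → Prop) (h : ∀ H, ¬ P H) : prk κ G m P = 0 := by
  unfold prk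
  have : IsEmpty {p : Tk κ G m // P (rg p)} := ⟨fun x => h _ x.2⟩
  rw [Nat.card_of_isEmpty]
  simp

theorem gag_ex {ι : Type} (s : Finset ι) (P : ι → Subgroup G → Prop) (δ : ℝ)
    (hδ : ∀ i, prk κ G m (P i) ≤ δ) :
    prk κ G m (fun H => ∃ i ∈ s, P i H) ≤ s.card * δ := by
  classical
  induction s using Finset.induction_on with
  | empty =>
    rw [gag_false _ (by simp)]
    simp
  | insert a s ha ih =>
    have h1 : prk κ G m (fun H => ∃ i ∈ insert a s, P i H) ≤
        prk κ G m (fun H => P a H ∨ ∃ i ∈ s, P i H) := by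
      refine gag_mono _ _ fun H hH => ?_
      obtain ⟨i, hi, hP⟩ := hH
      rcases Finset.mem_insert.1 hi with rfl | hi
      · exact Or.inl hP
      · exact Or.inr ⟨i, hi, hP⟩
    refine (h1.trans (gag_or _ _)).trans ?_
    rw [Finset.card_insert_of_notMem ha]
    push_cast
    have h2 := hδ a
    linarith

end

/-- the conclusion of the union bound, with `μ = 0` and `C = 20` -/
def gag_HP (κ : Kd) (m : List ℕ) (n : ℕ) (F : Type) [Field F] : Prop :=
  ∀ (I : Type) [Finite I] (Q : I → Matrix (Fin n) (Fin n) F → Prop),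
    (Nat.card I : ℝ) ≤ Bd 20 n F ((n : ℝ) ^ 2) →
    (∀ T, (Nat.card {y : GL (Fin n) F // Q T y.1} : ℝ) ≤ Bd 20 n F 0) →
    prk κ (PS n F) m (fun H => ∃ T, All H (Q T)) ≤ (Nat.card F : ℝ) ^ (-(2 * (n : ℝ)))

theorem gag_c6 (κ : Kd) (m : List ℕ) (n : ℕ) (hn : 1 ≤ n) (F : Type) [Field F] [Finite F]
    [Finite (Tk κ (PS n F) m)] (hHP : gag_HP κ m n F) (hN : S_C6N) (hS : S_C6S) (p : ℕ × ℕ) :
    prk κ (PS n F) m (fun H => ∃ g : I6 F n p.1 p.2, 2 ≤ p.1 ∧ p.1 ^ p.2 = n ^ 2 ∧
      All H (P6 g.1)) ≤ (Nat.card F : ℝ) ^ (-(2 * (n : ℝ))) := by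
  by_cases h : 2 ≤ p.1 ∧ p.1 ^ p.2 = n ^ 2
  · obtain ⟨h1, h2⟩ := h
    refine (gag_mono _ (fun H => ∃ g : I6 F n p.1 p.2, All H (P6 g.1)) ?_).trans ?_
    · rintro H ⟨g, -, -, h3⟩
      exact ⟨g, h3⟩
    · have hfin : Finite (I6 F n p.1 p.2) := by
        unfold I6
        infer_instance
      refine hHP (I6 F n p.1 p.2) (fun g => P6 g.1) ?_ ?_
      · exact hN F n p.1 p.2 hn h1 h2
      · intro g
        exact hS F n p.1 p.2 hn h1 h2 g
  · rw [gag_false]
    · positivity
    · rintro H ⟨g, h1, h2, -⟩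
      exact h ⟨h1, h2⟩

theorem gag_c7 (κ : Kd) (m : List ℕ) (n : ℕ) (F : Type) [Field F] [Finite F]
    [Finite (Tk κ (PS n F) m)] (hHP : gag_HP κ m n F) (hN : S_C7N) (hS : S_C7S) (p : ℕ × ℕ) :
    prk κ (PS n F) m (fun H => ∃ T : I7 F n p.1 p.2, 2 ≤ p.1 ∧ 2 ≤ p.2 ∧
      All H (fun M => M ∈ T.1)) ≤ (Nat.card F : ℝ) ^ (-(2 * (n : ℝ))) := by
  by_cases h : 2 ≤ p.1 ∧ 2 ≤ p.2
  · obtain ⟨h1, h2⟩ := h
    refine (gag_mono _ (fun H => ∃ T : I7 F n p.1 p.2, All H (fun M => M ∈ T.1)) ?_).trans ?_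
    · rintro H ⟨g, -, -, h3⟩
      exact ⟨g, h3⟩
    · have hfin : Finite (I7 F n p.1 p.2) := by
        unfold I7
        infer_instance
      refine hHP (I7 F n p.1 p.2) (fun T M => M ∈ T.1) ?_ ?_
      · exact (hN F n p.1 p.2).trans (ge0_Bd_mono _ _ (by norm_num) _ _ _)
      · intro T
        exact (hS F n p.1 p.2 h1 h2 T).trans (ge0_Bd_mono _ _ (by norm_num) _ _ _)
  · rw [gag_false]
    · positivity
    · rintro H ⟨T, h1, h2, -⟩
      exact h ⟨h1, h2⟩

/-- the union bound -/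
theorem gag_union (hN6 : S_C6N) (hS6 : S_C6S) (hN7 : S_C7N) (hS7 : S_C7S)
    (κ : Kd) (m : List ℕ) (n : ℕ) (hn : 10 ≤ n) (F : Type) [Field F] [Finite F]
    [Finite (Tk κ (PS n F) m)] (hHP : gag_HP κ m n F) :
    prk κ (PS n F) m (fun H => C6 H ∨ C7 H) ≤ (Nat.card F : ℝ) ^ (-((n : ℝ) / 2)) := by
  classical
  set δ : ℝ := (Nat.card F : ℝ) ^ (-(2 * (n : ℝ))) with hδ
  have b6 := gag_ex (Finset.range (n ^ 2 + 1) ×ˢ Finset.range (2 * n + 1)) _ δ
    (fun p => gag_c6 κ m n (by omega) F hHP hN6 hS6 p)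
  have b7 := gag_ex (Finset.range (n + 1) ×ˢ Finset.range (n + 1)) _ δ
    (fun p => gag_c7 κ m n F hHP hN7 hS7 p)
  rw [Finset.card_product, Finset.card_range, Finset.card_range] at b6
  rw [Finset.card_product, Finset.card_range] at b7
  refine le_trans ?_ (ga2_final n hn (Nat.card F) (by
    have : 1 < Nat.card F := Finite.one_lt_card
    exact_mod_cast this))
  have key : prk κ (PS n F) m (fun H => C6 H ∨ C7 H) ≤
      prk κ (PS n F) m (fun H =>
        (∃ p ∈ Finset.range (n ^ 2 + 1) ×ˢ Finset.range (2 * n + 1),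
          ∃ g : I6 F n p.1 p.2, 2 ≤ p.1 ∧ p.1 ^ p.2 = n ^ 2 ∧ All H (P6 g.1)) ∨
        (∃ p ∈ Finset.range (n + 1) ×ˢ Finset.range (n + 1),
          ∃ T : I7 F n p.1 p.2, 2 ≤ p.1 ∧ 2 ≤ p.2 ∧ All H (fun M => M ∈ T.1))) := by
    refine gag_mono _ _ ?_
    rintro H (h6 | h7)
    · obtain ⟨r, s, g, hr, hrs, hg⟩ := h6
      refine Or.inl ⟨(r, s), ?_, g, hr, hrs, hg⟩
      have hs : s ≠ 0 := by
        rintro rfl
        rw [pow_zero] at hrs
        nlinarith
      have h1 : r ≤ n ^ 2 := by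
        rw [← hrs]
        exact Nat.le_self_pow hs r
      have h2 : s < 2 * n := by
        have h3 : 2 ^ s < 2 ^ (2 * n) := by
          calc 2 ^ s ≤ r ^ s := Nat.pow_le_pow_left hr s
            _ = n ^ 2 := hrs
            _ < (2 ^ n) ^ 2 := Nat.pow_lt_pow_left n.lt_two_pow_self (by norm_num)
            _ = 2 ^ (2 * n) := by rw [← pow_mul, mul_comm]
        exact (Nat.pow_lt_pow_iff_right (by norm_num)).1 h3
      exact Finset.mem_product.2 ⟨Finset.mem_range.2 (by omega), Finset.mem_range.2 (by omega)⟩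
    · obtain ⟨a, t, e, P, ha, ht, hP⟩ := h7
      refine Or.inr ⟨(a, t), ?_, ⟨{M | P7 e P M}, e, P, rfl⟩, ha, ht, hP⟩
      have hat : a ^ t = n := by
        have h := Fintype.card_congr e
        rw [Fintype.card_fun, Fintype.card_fin, Fintype.card_fin, Fintype.card_fin] at h
        exact h.symm
      have h1 : a ≤ n := by
        rw [← hat]
        exact Nat.le_self_pow (by omega) a
      have h2 : t < n := by
        calc t < 2 ^ t := t.lt_two_pow_self
          _ ≤ a ^ t := Nat.pow_le_pow_left ha t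
          _ = n := hat
      exact Finset.mem_product.2 ⟨Finset.mem_range.2 (by simp; omega),
        Finset.mem_range.2 (by simp; omega)⟩
  refine key.trans ((gag_or _ _).trans ((add_le_add b6 b7).trans (le_of_eq ?_)))
  push_cast
  ring

theorem t_GAG : M_GAG := by
  intro hPR hN6 hS6 hN7 hS7 κ m hm hθ hk
  obtain ⟨r, hr⟩ := hPR κ m hm hθ hk 20 (by norm_num)
  refine ⟨max r 10, fun n hn F _ _ => ?_⟩
  have hn1 : r ≤ n := le_trans (le_max_left _ _) hn
  have hn2 : 10 ≤ n := le_trans (le_max_right _ _) hn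
  have hfin : Finite (Tk κ (PS n F) m) := by
    have hPS : Finite (PS n F) := by
      unfold PS
      infer_instance
    unfold Tk
    infer_instance
  refine gag_union hN6 hS6 hN7 hS7 κ m n hn2 F ?_
  intro I _ Q h2 h3
  refine hr n hn1 F I Q 0 le_rfl (by norm_num) ?_ ?_ ?_
  · rw [sub_zero, one_mul]
    exact h2
  · intro T k _ β
    rw [zero_mul, zero_mul]
    refine le_trans ?_ (h3 T)
    refine Nat.cast_le.2 (Nat.card_le_card_of_injective (fun x => ⟨x.1, x.2.2⟩) ?_)
    intro x y hxy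
    exact Subtype.ext (congrArg (fun z : {y : GL (Fin n) F // Q T y.1} => z.1) hxy)
  · intro T
    rw [zero_mul]
    exact h3 T

end

end FLY
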