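import Mathlib
import Pool.Agent.FLY.StY
import Pool.Agent.FGQ.GEQ

/-!
# GEG: the geometric subgroups for all `q` and all four classes
-/

set_option autoImplicit false

namespace FLY

open RSF FL0 FGE FGQ Polynomial

noncomputable section

/-! ## Proportions -/

theorem geg_mono {κ : Kd} {G : Type} [Group G] {m : List ℕ} [Finite (Tk κ G m)]
    (P Q : Subgroup G → Prop) (h : ∀ H, P H → Q H) : prk κ G m P ≤ prk κ G m Q := by
  unfold prk
  refine div_le_div_of_nonneg_right ?_ (Nat.cast_nonneg _)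
  refine Nat.cast_le.2 (Nat.card_le_card_of_injective (fun x => ⟨x.1, h _ x.2⟩) ?_)
  intro a b hab
  have h1 : a.1 = b.1 := congrArg (fun x : {p : Tk κ G m // Q (rg p)} => x.1) hab
  exact Subtype.ext h1

theorem geg_or {κ : Kd} {G : Type} [Group G] {m : List ℕ} [Finite (Tk κ G m)]
    (P Q : Subgroup G → Prop) :
    prk κ G m (fun H => P H ∨ Q H) ≤ prk κ G m P + prk κ G m Q := by
  classical
  unfold prk
  rw [← add_div]
  refine div_le_div_of_nonneg_right ?_ (Nat.cast_nonneg _)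
  have h : Nat.card {p : Tk κ G m // P (rg p) ∨ Q (rg p)} ≤
      Nat.card {p : Tk κ G m // P (rg p)} + Nat.card {p : Tk κ G m // Q (rg p)} := by
    rw [← Nat.card_sum]
    refine Nat.card_le_card_of_injective
      (fun x => if hx : P (rg x.1) then Sum.inl ⟨x.1, hx⟩
        else Sum.inr ⟨x.1, x.2.resolve_left hx⟩) ?_
    intro a b hab
    by_cases ha : P (rg a.1)
    · by_cases hb : P (rg b.1)
      · simp only [ha, hb, dite_true] at hab
        have h1 : a.1 = b.1 :=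
          congrArg (fun x : {p : Tk κ G m // P (rg p)} => x.1) (Sum.inl.inj hab)
        exact Subtype.ext h1
      · simp only [ha, hb, dite_true, dite_false] at hab
        exact absurd hab (by simp)
    · by_cases hb : P (rg b.1)
      · simp only [ha, hb, dite_true, dite_false] at hab
        exact absurd hab (by simp)
      · simp only [ha, hb, dite_false] at hab
        have h1 : a.1 = b.1 :=
          congrArg (fun x : {p : Tk κ G m // Q (rg p)} => x.1) (Sum.inr.inj hab)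
        exact Subtype.ext h1
  exact_mod_cast h

theorem geg_false {κ : Kd} {G : Type} [Group G] {m : List ℕ} (P : Subgroup G → Prop)
    (h : ∀ H, ¬ P H) : prk κ G m P = 0 := by
  unfold prk
  have : IsEmpty {p : Tk κ G m // P (rg p)} := ⟨fun x => h _ x.2⟩
  rw [Nat.card_of_isEmpty]
  simp

theorem geg_ex {κ : Kd} {G : Type} [Group G] {m : List ℕ} [Finite (Tk κ G m)] {ι : Type}
    (s : Finset ι) (P : ι → Subgroup G → Prop) (δ : ℝ) (hδ : ∀ i, prk κ G m (P i) ≤ δ) :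
    prk κ G m (fun H => ∃ i ∈ s, P i H) ≤ s.card * δ := by
  classical
  induction s using Finset.induction_on with
  | empty =>
    rw [geg_false _ (by simp)]
    simp
  | insert a s ha ih =>
    have h1 : prk κ G m (fun H => ∃ i ∈ insert a s, P i H) ≤
        prk κ G m (fun H => P a H ∨ ∃ i ∈ s, P i H) := by
      refine geg_mono _ _ fun H hH => ?_
      obtain ⟨i, hi, hP⟩ := hH
      rcases Finset.mem_insert.1 hi with rfl | hi
      · exact Or.inl hP
      · exact Or.inr ⟨i, hi, hP⟩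
    refine (h1.trans (geg_or _ _)).trans ?_
    rw [Finset.card_insert_of_notMem ha]
    push_cast
    have h2 := hδ a
    linarith

theorem geg_finite (κ : Kd) (G : Type) [Group G] [Finite G] (m : List ℕ) :
    Finite (Tk κ G m) := by
  unfold Tk
  infer_instance

/-- the conclusion of `S_PRG` -/
def geg_HP (κ : Kd) (m : List ℕ) (C : ℝ) (n : ℕ) (F : Type) [Field F] : Prop :=
  ∀ (I : Type) [Finite I] (Q : I → Matrix (Fin n) (Fin n) F → Prop) (μ : ℝ), 0 ≤ μ → μ ≤ 1 / 2 →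
    (Nat.card I : ℝ) ≤ Bd C n F ((1 - μ) * (n : ℝ) ^ 2) →
    (∀ T, ∀ k ∈ m, ∀ β : F, (Nat.card {y : GL (Fin n) F //
        y.1 ^ k = β • (1 : Matrix (Fin n) (Fin n) F) ∧ Q T y.1} : ℝ) ≤
      Bd C n F (μ * (1 - 1 / (k : ℝ)) * (n : ℝ) ^ 2)) →
    (∀ T, (Nat.card {y : GL (Fin n) F // Q T y.1} : ℝ) ≤ Bd C n F (μ * (n : ℝ) ^ 2)) →
    prk κ (PS n F) m (fun H => ∃ T, All H (Q T)) ≤ (Nat.card F : ℝ) ^ (-(2 * (n : ℝ)))

theorem geg_c2 (κ : Kd) (m : List ℕ) (C : ℝ) (hC : 5 ≤ C) (n : ℕ) (F : Type) [Field F]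
    [Finite F] [Finite (Tk κ (PS n F) m)] (hHP : geg_HP κ m C n F)
    (hN : S_C2N) (hY : ∀ k ∈ m, geq_Y2 k C) (hS : S_C2S) (t : ℕ) :
    prk κ (PS n F) m (fun H => ∃ (a : ℕ) (V : I2 F n t a), 2 ≤ t ∧ 1 ≤ a ∧ t * a = n ∧
      All H (P2 V.1)) ≤ (Nat.card F : ℝ) ^ (-(2 * (n : ℝ))) := by
  by_cases h : ∃ a, 2 ≤ t ∧ 1 ≤ a ∧ t * a = n
  · obtain ⟨a, ht, ha, hta⟩ := h
    refine (geg_mono _ (fun H => ∃ V : I2 F n t a, All H (P2 V.1)) ?_).trans ?_
    · rintro H ⟨a', V, -, -, h3, h4⟩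
      have h5 : a' = a := Nat.eq_of_mul_eq_mul_left (by omega) (h3.trans hta.symm)
      subst h5
      exact ⟨V, h4⟩
    · have hfin : Finite (I2 F n t a) := by
        unfold I2
        infer_instance
      have ht0 : (2 : ℝ) ≤ t := by exact_mod_cast ht
      refine hHP (I2 F n t a) (fun V => P2 V.1) (1 / t) (by positivity) ?_ ?_ ?_ ?_
      · exact one_div_le_one_div_of_le (by norm_num) ht0
      · exact (hN F n t a ha (by omega) hta).trans (ge0_Bd_mono _ _ (by linarith) _ _ _)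
      · intro V k hk β
        exact hY k hk F n t a ha (by omega) hta V β
      · intro V
        exact (hS F n t a ha (by omega) hta V).trans (ge0_Bd_mono _ _ (by linarith) _ _ _)
  · rw [geg_false]
    · positivity
    · rintro H ⟨a, V, h1, h2, h3, -⟩
      exact h ⟨a, h1, h2, h3⟩

theorem geg_c3 (κ : Kd) (m : List ℕ) (C : ℝ) (hC : 5 ≤ C) (n : ℕ) (hn : 1 ≤ n) (F : Type)
    [Field F] [Finite F]
    [Finite (Tk κ (PS n F) m)] (hHP : geg_HP κ m C n F)
    (hN : S_C3N) (hY : ∀ k ∈ m, geq_Y3 k C) (hS : S_C3S) (b : ℕ) :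
    prk κ (PS n F) m (fun H => ∃ K : I3 F n b, b.Prime ∧ b ∣ n ∧ All H (P3 K.1)) ≤
      (Nat.card F : ℝ) ^ (-(2 * (n : ℝ))) := by
  by_cases h : b.Prime ∧ b ∣ n
  · obtain ⟨hb, hbn⟩ := h
    refine (geg_mono _ (fun H => ∃ K : I3 F n b, All H (P3 K.1)) ?_).trans ?_
    · rintro H ⟨K, -, -, h4⟩
      exact ⟨K, h4⟩
    · have hfin0 : Finite (Subalgebra F (Matrix (Fin n) (Fin n) F)) :=
        Finite.of_injective (fun K => (K : Set (Matrix (Fin n) (Fin n) F))) SetLike.coe_injective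
      have hfin : Finite (I3 F n b) := by
        unfold I3
        infer_instance
      have ht0 : (2 : ℝ) ≤ b := by exact_mod_cast hb.two_le
      refine hHP (I3 F n b) (fun K => P3 K.1) (1 / b) (by positivity) ?_ ?_ ?_ ?_
      · exact one_div_le_one_div_of_le (by norm_num) ht0
      · exact (hN F n b hb.one_le).trans (ge0_pow_le_Bd _ (by linarith) _ _ _)
      · intro K k hk β
        exact hY k hk F n b hn hbn hb K β
      · intro K
        exact (hS F n b hn hb.one_le hbn K).trans (ge0_Bd_mono _ _ (by linarith) _ _ _)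
  · rw [geg_false]
    · positivity
    · rintro H ⟨K, h1, h2, -⟩
      exact h ⟨h1, h2⟩

theorem geg_c4 (κ : Kd) (m : List ℕ) (C : ℝ) (hC : 5 ≤ C) (n : ℕ) (hn : 1 ≤ n) (F : Type)
    [Field F] [Finite F] [Finite (Tk κ (PS n F) m)] (hHP : geg_HP κ m C n F)
    (hN : S_C4N) (hY : ∀ k ∈ m, geq_Y4 k C) (hS : S_C4S) (a : ℕ) :
    prk κ (PS n F) m (fun H => ∃ (b : ℕ) (T : I4 F n a b), 2 ≤ a ∧ 2 ≤ b ∧ a * b = n ∧
      All H (fun M => M ∈ T.1)) ≤ (Nat.card F : ℝ) ^ (-(2 * (n : ℝ))) := by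
  by_cases h : ∃ b, 2 ≤ a ∧ 2 ≤ b ∧ a * b = n
  · obtain ⟨b, ha, hb, hab⟩ := h
    refine (geg_mono _ (fun H => ∃ T : I4 F n a b, All H (fun M => M ∈ T.1))
      ?_).trans ?_
    · rintro H ⟨b', T, -, -, h3, h4⟩
      have h5 : b' = b := Nat.eq_of_mul_eq_mul_left (by omega) (h3.trans hab.symm)
      subst h5
      exact ⟨T, h4⟩
    · have hfin : Finite (I4 F n a b) := by
        unfold I4
        infer_instance
      have ha0 : (2 : ℝ) ≤ a := by exact_mod_cast ha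
      have hb0 : (2 : ℝ) ≤ b := by exact_mod_cast hb
      have hn0 : (0 : ℝ) < (n : ℝ) ^ 2 := by
        have : (1 : ℝ) ≤ n := by exact_mod_cast hn
        positivity
      have hnab : (n : ℝ) = a * b := by
        rw [← hab]
        push_cast
        rfl
      have hμ : ((a : ℝ) ^ 2 + (b : ℝ) ^ 2) / (n : ℝ) ^ 2 * (n : ℝ) ^ 2 =
          (a : ℝ) ^ 2 + (b : ℝ) ^ 2 := div_mul_cancel₀ _ hn0.ne'
      refine hHP (I4 F n a b) (fun T M => M ∈ T.1) (((a : ℝ) ^ 2 + (b : ℝ) ^ 2) / (n : ℝ) ^ 2)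
        (by positivity) ?_ ?_ ?_ ?_
      · rw [div_le_iff₀ hn0, hnab]
        nlinarith [mul_nonneg (sub_nonneg.2 (show (4 : ℝ) ≤ (a : ℝ) ^ 2 by nlinarith))
          (sub_nonneg.2 (show (4 : ℝ) ≤ (b : ℝ) ^ 2 by nlinarith)),
          show (4 : ℝ) ≤ (a : ℝ) ^ 2 by nlinarith, show (4 : ℝ) ≤ (b : ℝ) ^ 2 by nlinarith]
      · have h1 := hN F n a b (by omega) (by omega) hab
        refine h1.trans ((ge0_Bd_mono _ _ hC _ _ _).trans (le_of_eq ?_))
        congr 1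
        rw [sub_mul, one_mul, hμ]
      · intro T k hk β
        have h1 := hY k hk F n a b (by omega) (by omega) hab T β
        refine h1.trans (le_of_eq ?_)
        congr 1
        rw [mul_assoc, mul_comm (1 - 1 / (k : ℝ)) ((n : ℝ) ^ 2), ← mul_assoc, hμ, mul_comm]
      · intro T
        have h1 := hS F n a b (by omega) (by omega) hab T
        rw [hμ]
        exact h1.trans (ge0_Bd_mono _ _ (by linarith) _ _ _)
  · rw [geg_false]
    · positivity
    · rintro H ⟨b, T, h1, h2, h3, -⟩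
      exact h ⟨b, h1, h2, h3⟩

theorem geg_c5 (κ : Kd) (m : List ℕ) (C : ℝ) (hC : 5 ≤ C) (n : ℕ) (hn : 1 ≤ n) (F : Type)
    [Field F] [Finite F] [Finite (Tk κ (PS n F) m)] (hHP : geg_HP κ m C n F)
    (hN : S_C5N) (hY : ∀ k ∈ m, geq_Y5 k C) (hS : S_C5S) (K : Subfield F) :
    prk κ (PS n F) m (fun H => K ≠ ⊤ ∧ ∃ T : I5 F n K, All H (fun M => M ∈ T.1)) ≤
      (Nat.card F : ℝ) ^ (-(2 * (n : ℝ))) := by
  by_cases hK : K = ⊤
  · rw [geg_false]
    · positivity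
    · rintro H ⟨h1, -⟩
      exact h1 hK
  · obtain ⟨r, hr, hKr⟩ := ge0_sub F K hK
    refine (geg_mono _ (fun H => ∃ T : I5 F n K, All H (fun M => M ∈ T.1))
      (fun H h => h.2)).trans ?_
    have hfin : Finite (I5 F n K) := by
      unfold I5
      infer_instance
    have hr0 : (2 : ℝ) ≤ r := by exact_mod_cast hr
    refine hHP (I5 F n K) (fun T M => M ∈ T.1) (1 / r) (by positivity) ?_ ?_ ?_ ?_
    · exact one_div_le_one_div_of_le (by norm_num) hr0
    · exact (hN F n r K hn (by omega) hKr).trans (ge0_Bd_mono _ _ (by linarith) _ _ _)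
    · intro T k hk β
      exact hY k hk F n r K hn (by omega) hKr T β
    · intro T
      exact (hS F n r K hn (by omega) hKr T).trans (ge0_Bd_mono _ _ (by linarith) _ _ _)

theorem geg_c8 (κ : Kd) (m : List ℕ) (C : ℝ) (hC : 5 ≤ C) (n : ℕ) (hn : 1 ≤ n) (F : Type)
    [Field F] [Finite F]
    [Finite (Tk κ (PS n F) m)] (hHP : geg_HP κ m C n F)
    (hN : S_C8N) (hY : ∀ k ∈ m, geq_Y8 k C) (hS : S_C8S) :
    prk κ (PS n F) m (fun H => ∃ z : I8 F n, All H (P8 z.1.1 z.1.2.2)) ≤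
      (Nat.card F : ℝ) ^ (-(2 * (n : ℝ))) := by
  have hfin : Finite (I8 F n) := (hN F n hn).1
  refine hHP (I8 F n) (fun z => P8 z.1.1 z.1.2.2) (1 / 2) (by norm_num) le_rfl ?_ ?_ ?_
  · refine ((hN F n hn).2.trans (ge0_Bd_mono _ _ (by linarith) _ _ _)).trans (le_of_eq ?_)
    congr 1
    ring
  · intro z k hk β
    exact hY k hk F n hn z β
  · intro z
    exact (hS F n hn z).trans (ge0_Bd_mono _ _ (by linarith) _ _ _)

/-- the union bound for one group -/
theorem geg_union (κ : Kd) (m : List ℕ) (C : ℝ) (hC : 5 ≤ C)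
    (hR2 : S_C2R) (hN2 : S_C2N) (hY2 : ∀ k ∈ m, geq_Y2 k C) (hS2 : S_C2S)
    (hR3 : S_C3R) (hN3 : S_C3N) (hY3 : ∀ k ∈ m, geq_Y3 k C) (hS3 : S_C3S)
    (hN4 : S_C4N) (hY4 : ∀ k ∈ m, geq_Y4 k C) (hS4 : S_C4S)
    (hN5 : S_C5N) (hY5 : ∀ k ∈ m, geq_Y5 k C) (hS5 : S_C5S)
    (hR8 : S_C8R) (hN8 : S_C8N) (hY8 : ∀ k ∈ m, geq_Y8 k C) (hS8 : S_C8S)
    (n : ℕ) (hn : 4 ≤ n) (F : Type) [Field F] [Finite F]
    [Finite (Tk κ (PS n F) m)] (hHP : geg_HP κ m C n F) :
    prk κ (PS n F) m (fun H => Irr H ∧ Geo H) ≤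
      (Nat.card F : ℝ) ^ (-((n : ℝ) / 2)) := by
  classical
  have hfin0 : Finite (Subfield F) :=
    Finite.of_injective (fun K => (K : Set F)) SetLike.coe_injective
  have hft : Fintype (Subfield F) := Fintype.ofFinite _
  have hn1 : 1 ≤ n := by omega
  set δ : ℝ := (Nat.card F : ℝ) ^ (-(2 * (n : ℝ))) with hδ
  have b2 := geg_ex (Finset.range (n + 1)) _ δ
    (fun t => geg_c2 κ m C hC n F hHP hN2 hY2 hS2 t)
  have b3 := geg_ex (Finset.range (n + 1)) _ δ
    (fun b => geg_c3 κ m C hC n hn1 F hHP hN3 hY3 hS3 b)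
  have b4 := geg_ex (Finset.range (n + 1)) _ δ
    (fun a => geg_c4 κ m C hC n hn1 F hHP hN4 hY4 hS4 a)
  have b5 := geg_ex (Finset.univ : Finset (Subfield F)) _ δ
    (fun K => geg_c5 κ m C hC n hn1 F hHP hN5 hY5 hS5 K)
  have b8 := geg_c8 κ m C hC n hn1 F hHP hN8 hY8 hS8
  have hδ0 : 0 ≤ δ := Real.rpow_nonneg (Nat.cast_nonneg _) _
  have hsub : ((Finset.univ : Finset (Subfield F)).card : ℝ) ≤ Nat.card F := by
    have := ge0_card_sub F
    rw [Nat.card_eq_fintype_card (α := Subfield F)] at this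
    rw [Finset.card_univ]
    exact_mod_cast this
  rw [Finset.card_range] at b2 b3 b4
  refine le_trans ?_ (ge0_final n hn (Nat.card F) (by
    have : 1 < Nat.card F := Finite.one_lt_card
    exact_mod_cast this))
  have key : prk κ (PS n F) m (fun H => Irr H ∧ Geo H) ≤
      prk κ (PS n F) m (fun H => (∃ t ∈ Finset.range (n + 1),
        ∃ (a : ℕ) (V : I2 F n t a), 2 ≤ t ∧ 1 ≤ a ∧ t * a = n ∧ All H (P2 V.1)) ∨
      (∃ b ∈ Finset.range (n + 1), ∃ K : I3 F n b, b.Prime ∧ b ∣ n ∧ All H (P3 K.1)) ∨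
      (∃ a ∈ Finset.range (n + 1), ∃ (b : ℕ) (T : I4 F n a b), 2 ≤ a ∧ 2 ≤ b ∧ a * b = n ∧
        All H (fun M => M ∈ T.1)) ∨
      (∃ K ∈ (Finset.univ : Finset (Subfield F)), K ≠ ⊤ ∧
        ∃ T : I5 F n K, All H (fun M => M ∈ T.1)) ∨
      (∃ z : I8 F n, All H (P8 z.1.1 z.1.2.2))) := by
    refine geg_mono _ _ ?_
    rintro H ⟨hirr, h2 | h3 | h4 | h5 | h8⟩
    · obtain ⟨t, a, V, ht, ha, hta, hV⟩ := hR2 F n H hn1 hirr h2
      refine Or.inl ⟨t, Finset.mem_range.2 ?_, a, V, ht, ha, hta, hV⟩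
      have : t ≤ n := by
        rw [← hta]
        exact Nat.le_mul_of_pos_right t (by omega)
      omega
    · obtain ⟨b, K, hb, hbn, hK⟩ := hR3 F n H hn1 h3
      refine Or.inr (Or.inl ⟨b, Finset.mem_range.2 ?_, K, hb, hbn, hK⟩)
      have := Nat.le_of_dvd (by omega) hbn
      omega
    · obtain ⟨a, b, e, P, ha, hb, hP⟩ := h4
      have hab : a * b = n := by
        have h := Fintype.card_congr e
        rw [Fintype.card_prod, Fintype.card_fin, Fintype.card_fin, Fintype.card_fin] at h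
        exact h.symm
      refine Or.inr (Or.inr (Or.inl ⟨a, Finset.mem_range.2 ?_, b, ⟨{M | P4 e P M}, e, P, rfl⟩,
        ha, hb, hab, hP⟩))
      have : a ≤ n := by
        rw [← hab]
        exact Nat.le_mul_of_pos_right a (by omega)
      omega
    · obtain ⟨K, P, hK, hP⟩ := h5
      exact Or.inr (Or.inr (Or.inr (Or.inl ⟨K, Finset.mem_univ _, hK,
        ⟨{M | P5 K P M}, P, rfl⟩, hP⟩)))
    · obtain ⟨z, hz⟩ := hR8 F n H hn1 hirr h8
      exact Or.inr (Or.inr (Or.inr (Or.inr ⟨z, hz⟩)))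
  refine key.trans ?_
  refine (geg_or _ _).trans ?_
  refine (add_le_add b2 ((geg_or _ _).trans (add_le_add b3 ((geg_or _ _).trans
    (add_le_add b4 ((geg_or _ _).trans (add_le_add b5 b8))))))).trans ?_
  have h9 : ((Finset.univ : Finset (Subfield F)).card : ℝ) * δ ≤ Nat.card F * δ :=
    mul_le_mul_of_nonneg_right hsub hδ0
  push_cast
  linarith

theorem t_GEG : M_GEG := by
  intro hPR hR2 hN2 hY2 hS2 hR3 hN3 hY3 hS3 hN4 hY4 hS4 hN5 hY5 hS5 hR8 hN8 hY8 hS8 κ m hm hth hk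
  obtain ⟨C, hC, h2, h3, h4, h5, h8⟩ := geq_const hY2 hY3 hY4 hY5 hY8 m hm
  obtain ⟨r, hr⟩ := hPR κ m hm hth hk C (by linarith)
  refine ⟨max r 4, fun n hn F _ _ => ?_⟩
  have hfin : Finite (Tk κ (PS n F) m) := geg_finite κ (PS n F) m
  refine geg_union κ m C hC hR2 hN2 h2 hS2 hR3 hN3 h3 hS3 hN4 h4 hS4 hN5 h5 hS5 hR8 hN8 h8 hS8
    n (le_trans (le_max_right _ _) hn) F ?_
  intro I _ Q μ h0 h1 h3 h4 h5
  exact hr n (le_trans (le_max_left _ _) hn) F I Q μ h0 h1 h3 h4 h5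

end

end FLY
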