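import Mathlib
import Pool.Agent.FLY.StY

/-!
# The four classes of groups: homomorphisms and tuples (module GRP)
-/

set_option autoImplicit false

namespace FLY

open RSF

/-- the range of a homomorphism is generated by the images of the generators -/
theorem grp_range {α G : Type} [Group G] {rels : Set (FreeGroup α)}
    (ρ : PresentedGroup rels →* G) :
    ρ.range = Subgroup.closure (Set.range fun x => ρ (PresentedGroup.of x)) := by
  rw [MonoidHom.range_eq_map, ← PresentedGroup.closure_range_of rels, MonoidHom.map_closure,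
    ← Set.range_comp]
  rfl

/-- the tuples with a property -/
theorem grp_card (κ : Kd) (G : Type) [Group G] (m : List ℕ) (Q : Subgroup G → Prop) :
    Nat.card {p : Tk κ G m // Q (rg p)} =
      Nat.card {p : (Fin m.length → G) × (Fin κ.h → G) // (∀ j, p.1 j ^ m.get j = 1) ∧
        Q (Subgroup.closure (Set.range p.1 ∪ Set.range p.2)) ∧
        (List.ofFn p.1).prod * wk κ p.2 = 1} := by
  refine Nat.card_congr ⟨fun p => ⟨p.1.1, p.1.2.1, p.2, p.1.2.2⟩,
    fun p => ⟨⟨p.1, p.2.1, p.2.2.2⟩, p.2.2.1⟩, fun _ => rfl, fun _ => rfl⟩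

theorem grp_fin {κ : Kd} {G Γ : Type} [Group G] [Group Γ] {m : List ℕ}
    (h : ∀ Q : Subgroup G → Prop, Nat.card {ρ : Γ →* G // Q ρ.range} =
      Nat.card {p : Tk κ G m // Q (rg p)}) (Q : Subgroup G → Prop) :
    Nat.card (Γ →* G) = Nat.card (Tk κ G m) ∧
      prob Γ G (fun ρ => Q ρ.range) = prk κ G m Q := by
  have h1 : Nat.card (Γ →* G) = Nat.card (Tk κ G m) := by
    have h2 := h fun _ => True
    rw [Nat.card_congr (Equiv.subtypeUnivEquiv fun _ => trivial),
      Nat.card_congr (Equiv.subtypeUnivEquiv fun _ => trivial)] at h2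
    exact h2
  refine ⟨h1, ?_⟩
  unfold prob prk
  rw [h Q, h1]

theorem t_GRP : M_GRP := by
  intro h0 hN hW G _ m Q
  refine ⟨grp_fin (fun Q => ?_) Q, grp_fin (fun Q => ?_) Q, grp_fin (fun Q => ?_) Q,
    grp_fin (fun Q => ?_) Q⟩
  · have h1 := h0 G m fun t => Q (Subgroup.closure (Set.range t))
    rw [grp_card]
    have e1 : ∀ ρ : OGroup 0 m →* G,
        ρ.range = Subgroup.closure (Set.range fun j => ρ (ox 0 m j)) := by
      intro ρ
      rw [grp_range]
      congr 1
      ext y
      constructor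
      · rintro ⟨x, rfl⟩
        rcases x with i | i | j
        · exact i.elim0
        · exact i.elim0
        · exact ⟨j, rfl⟩
      · rintro ⟨j, rfl⟩
        exact ⟨OGen.x j, rfl⟩
    simp_rw [e1]
    rw [h1]
    symm
    refine Nat.card_congr (Equiv.subtypeEquiv
      (Equiv.prodUnique (Fin m.length → G) (Fin 0 → G)) ?_)
    rintro ⟨t, e⟩
    have e2 : Set.range e = ∅ := by
      ext y
      constructor
      · rintro ⟨i, -⟩
        exact (show Fin 0 from i).elim0
      · exact fun h => h.elim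
    change ((∀ j, t j ^ m.get j = 1) ∧ Q (Subgroup.closure (Set.range t ∪ Set.range e)) ∧
      (List.ofFn t).prod * 1 = 1) ↔ ((∀ j, t j ^ m.get j = 1) ∧
        Q (Subgroup.closure (Set.range t)) ∧ (List.ofFn t).prod = 1)
    rw [e2, Set.union_empty, mul_one]
  · have h1 := hN G m fun t a => Q (Subgroup.closure (Set.range t ∪ {a}))
    rw [grp_card]
    have e1 : ∀ ρ : NGroup 1 m →* G, ρ.range =
        Subgroup.closure ((Set.range fun j => ρ (nx 1 m j)) ∪ {ρ (FLN.n1 m)}) := by
      intro ρ
      rw [grp_range]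
      congr 1
      ext y
      constructor
      · rintro ⟨x, rfl⟩
        rcases x with i | j
        · have hi : i = 0 := Subsingleton.elim _ _
          subst hi
          exact Or.inr rfl
        · exact Or.inl ⟨j, rfl⟩
      · rintro (⟨j, rfl⟩ | rfl)
        · exact ⟨NGen.x j, rfl⟩
        · exact ⟨NGen.a 0, rfl⟩
    simp_rw [e1]
    rw [h1]
    symm
    refine Nat.card_congr (Equiv.subtypeEquiv
      (Equiv.prodCongr (Equiv.refl _) (Equiv.funUnique (Fin 1) G)) ?_)
    rintro ⟨t, e⟩
    have e2 : Set.range e = {e (0 : Fin 1)} := by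
      ext y
      constructor
      · rintro ⟨i, rfl⟩
        have hi : i = (0 : Fin 1) := Subsingleton.elim (α := Fin 1) _ _
        rw [hi]
        rfl
      · rintro rfl
        exact ⟨_, rfl⟩
    change ((∀ j, t j ^ m.get j = 1) ∧ Q (Subgroup.closure (Set.range t ∪ Set.range e)) ∧
      (List.ofFn t).prod * e (0 : Fin 1) ^ 2 = 1) ↔ ((∀ j, t j ^ m.get j = 1) ∧
        Q (Subgroup.closure (Set.range t ∪ {e (0 : Fin 1)})) ∧
        (List.ofFn t).prod * e (0 : Fin 1) ^ 2 = 1)
    rw [e2]
  · have h1 := (hW G m fun t a b => Q (Subgroup.closure (Set.range t ∪ {a, b}))).1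
    rw [grp_card]
    have e1 : ∀ ρ : OGroup 1 m →* G, ρ.range =
        Subgroup.closure ((Set.range fun j => ρ (ox 1 m j)) ∪ {ρ (oa m), ρ (ob m)}) := by
      intro ρ
      rw [grp_range]
      congr 1
      ext y
      constructor
      · rintro ⟨x, rfl⟩
        rcases x with i | i | j
        · have hi : i = 0 := Subsingleton.elim _ _
          subst hi
          exact Or.inr (Or.inl rfl)
        · have hi : i = 0 := Subsingleton.elim _ _
          subst hi
          exact Or.inr (Or.inr rfl)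
        · exact Or.inl ⟨j, rfl⟩
      · rintro (⟨j, rfl⟩ | rfl | rfl)
        · exact ⟨OGen.x j, rfl⟩
        · exact ⟨OGen.a 0, rfl⟩
        · exact ⟨OGen.b 0, rfl⟩
    simp_rw [e1]
    rw [h1]
    symm
    unfold FLW.TN
    refine Nat.card_congr (Equiv.subtypeEquiv
      (Equiv.prodCongr (Equiv.refl _) (finTwoArrowEquiv G)) ?_)
    rintro ⟨t, e⟩
    have e2 : Set.range e = {e (0 : Fin 2), e (1 : Fin 2)} := by
      ext y
      constructor
      · rintro ⟨i, rfl⟩
        change Fin 2 at i
        fin_cases i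
        · exact Or.inl rfl
        · exact Or.inr rfl
      · rintro (rfl | rfl)
        · exact ⟨_, rfl⟩
        · exact ⟨_, rfl⟩
    change ((∀ j, t j ^ m.get j = 1) ∧ Q (Subgroup.closure (Set.range t ∪ Set.range e)) ∧
      (List.ofFn t).prod * (e (0 : Fin 2) * e (1 : Fin 2) * (e (0 : Fin 2))⁻¹ *
        (e (1 : Fin 2))⁻¹) = 1) ↔ ((∀ j, t j ^ m.get j = 1) ∧
        Q (Subgroup.closure (Set.range t ∪ {e (0 : Fin 2), e (1 : Fin 2)})) ∧
        (List.ofFn t).prod * FLW.wd true (e (0 : Fin 2)) (e (1 : Fin 2)) = 1)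
    rw [e2, FLW.wd, if_pos rfl]
  · have h1 := (hW G m fun t a b => Q (Subgroup.closure (Set.range t ∪ {a, b}))).2
    rw [grp_card]
    have e1 : ∀ ρ : NGroup 2 m →* G, ρ.range =
        Subgroup.closure ((Set.range fun j => ρ (nx 2 m j)) ∪ {ρ (na m 0), ρ (na m 1)}) := by
      intro ρ
      rw [grp_range]
      congr 1
      ext y
      constructor
      · rintro ⟨x, rfl⟩
        rcases x with i | j
        · fin_cases i
          · exact Or.inr (Or.inl rfl)
          · exact Or.inr (Or.inr rfl)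
        · exact Or.inl ⟨j, rfl⟩
      · rintro (⟨j, rfl⟩ | rfl | rfl)
        · exact ⟨NGen.x j, rfl⟩
        · exact ⟨NGen.a 0, rfl⟩
        · exact ⟨NGen.a 1, rfl⟩
    simp_rw [e1]
    rw [h1]
    symm
    unfold FLW.TN
    refine Nat.card_congr (Equiv.subtypeEquiv
      (Equiv.prodCongr (Equiv.refl _) (finTwoArrowEquiv G)) ?_)
    rintro ⟨t, e⟩
    have e2 : Set.range e = {e (0 : Fin 2), e (1 : Fin 2)} := by
      ext y
      constructor
      · rintro ⟨i, rfl⟩
        change Fin 2 at i
        fin_cases i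
        · exact Or.inl rfl
        · exact Or.inr rfl
      · rintro (rfl | rfl)
        · exact ⟨_, rfl⟩
        · exact ⟨_, rfl⟩
    change ((∀ j, t j ^ m.get j = 1) ∧ Q (Subgroup.closure (Set.range t ∪ Set.range e)) ∧
      (List.ofFn t).prod * (e (0 : Fin 2) ^ 2 * e (1 : Fin 2) ^ 2) = 1) ↔
      ((∀ j, t j ^ m.get j = 1) ∧
        Q (Subgroup.closure (Set.range t ∪ {e (0 : Fin 2), e (1 : Fin 2)})) ∧
        (List.ofFn t).prod * FLW.wd false (e (0 : Fin 2)) (e (1 : Fin 2)) = 1)
    rw [e2, FLW.wd, if_neg (by decide)]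

end FLY
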