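import Mathlib
import Pool.Agent.FLY.StY
import Pool.Agent.SRJ.HMF

/-!
# FLY, module HMZ: `SRJ.HMF` with the number of the block triangular matrices killed by `g`

The Hom form is copied from `Pool/Agent/SRJ/HMF.lean`. The new claim: the upper right blocks `c` with
`g [A c; 0 B] = 0` are determined by the blocks between the cyclic summands, which have the same property.
-/

set_option autoImplicit false

namespace FLY

open RSF FL0 FGE SRJ Polynomial Module RSF.KA

noncomputable section

/-! ## 1. Intertwining maps -/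

/-- intertwining maps and polynomials -/
theorem hmz_int {F M N : Type} [Field F] [AddCommGroup M] [Module F M] [AddCommGroup N]
    [Module F N] (T : M →ₗ[F] N) (x : M →ₗ[F] M) (y : N →ₗ[F] N) (h : ∀ v, T (x v) = y (T v))
    (g : F[X]) : ∀ v, T ((aeval x g : M →ₗ[F] M) v) = (aeval y g : N →ₗ[F] N) (T v) := by
  have hpow : ∀ (n : ℕ) (v : M), T ((x ^ n) v) = (y ^ n) (T v) := by
    intro n
    induction n with
    | zero => intro v; simp
    | succ n ih =>
      intro v
      rw [pow_succ, pow_succ, Module.End.mul_apply, Module.End.mul_apply, ih, h]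
  induction g using Polynomial.induction_on' with
  | add p q hp hq =>
    intro v
    rw [map_add, map_add, LinearMap.add_apply, LinearMap.add_apply, map_add, hp, hq]
  | monomial n c =>
    intro v
    rw [aeval_monomial, aeval_monomial, Module.End.mul_apply, Module.End.mul_apply,
      Module.algebraMap_end_apply, Module.algebraMap_end_apply, map_smul, hpow]

theorem hmz_inj {F M N : Type} [Field F] [AddCommGroup M] [Module F M] [AddCommGroup N]
    [Module F N] (T : M →ₗ[F] N) (x : M →ₗ[F] M) (y : N →ₗ[F] N) (h : ∀ v, T (x v) = y (T v))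
    (hT : Function.Injective T) (g : F[X]) (hy : aeval y g = 0) : aeval x g = 0 := by
  apply LinearMap.ext
  intro v
  apply hT
  rw [hmz_int T x y h g v, hy, LinearMap.zero_apply, LinearMap.zero_apply, map_zero]

theorem hmz_surj {F M N : Type} [Field F] [AddCommGroup M] [Module F M] [AddCommGroup N]
    [Module F N] (T : M →ₗ[F] N) (x : M →ₗ[F] M) (y : N →ₗ[F] N) (h : ∀ v, T (x v) = y (T v))
    (hT : Function.Surjective T) (g : F[X]) (hx : aeval x g = 0) : aeval y g = 0 := by
  apply LinearMap.ext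
  intro v
  obtain ⟨u, rfl⟩ := hT v
  rw [← hmz_int T x y h g u, hx, LinearMap.zero_apply, LinearMap.zero_apply, map_zero]

theorem hmz_bk {F A B : Type} [Field F] [AddCommGroup A] [Module F A] [AddCommGroup B] [Module F B]
    (a : A →ₗ[F] A) (c : B →ₗ[F] A) (b : B →ₗ[F] B) (v : A × B) :
    bk a c b v = (a v.1 + c v.2, b v.2) := rfl

/-- restriction and projection of block triangular maps -/
theorem hmz_res {F A B A' B' : Type} [Field F] [AddCommGroup A] [Module F A] [AddCommGroup B]
    [Module F B] [AddCommGroup A'] [Module F A'] [AddCommGroup B'] [Module F B']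
    (a : A →ₗ[F] A) (c : B →ₗ[F] A) (b : B →ₗ[F] B) (a' : A' →ₗ[F] A') (b' : B' →ₗ[F] B')
    (P : A →ₗ[F] A') (J : B' →ₗ[F] B) (hP : ∀ v, P (a v) = a' (P v)) (hJ : ∀ v, J (b' v) = b (J v))
    (hPs : Function.Surjective P) (hJi : Function.Injective J) (g : F[X])
    (h : aeval (bk a c b) g = 0) : aeval (bk a' (P ∘ₗ c ∘ₗ J) b') g = 0 := by
  have h1 : aeval (bk a (c ∘ₗ J) b') g = 0 := by
    apply hmz_inj (LinearMap.prodMap LinearMap.id J) (bk a (c ∘ₗ J) b') (bk a c b) ?_ ?_ g h
    · rintro ⟨v, w⟩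
      rw [hmz_bk, hmz_bk]
      simp only [LinearMap.prodMap_apply, LinearMap.id_apply, LinearMap.comp_apply, hJ]
    · rintro ⟨v, w⟩ ⟨v', w'⟩ hvw
      simp only [LinearMap.prodMap_apply, LinearMap.id_apply, Prod.mk.injEq] at hvw
      exact Prod.ext hvw.1 (hJi hvw.2)
  apply hmz_surj (LinearMap.prodMap P LinearMap.id) (bk a (c ∘ₗ J) b') (bk a' (P ∘ₗ c ∘ₗ J) b')
    ?_ ?_ g h1
  · rintro ⟨v, w⟩
    rw [hmz_bk, hmz_bk]
    simp only [LinearMap.prodMap_apply, LinearMap.id_apply, LinearMap.comp_apply, map_add, hP]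
  · rintro ⟨v, w⟩
    obtain ⟨u, rfl⟩ := hPs v
    exact ⟨(u, w), rfl⟩

/-! ## 2. The cyclic modules -/

/-- the multiplication by `X` -/
def hmz_X {F : Type} [Field F] (x : F[X] × ℕ) : Q x →ₗ[F] Q x :=
  (LinearMap.lsmul F[X] (Q x) X).restrictScalars F

theorem hmz_fin {F : Type} [Field F] (x : F[X] × ℕ) (hx : x.1.Monic ∧ Irreducible x.1 ∧ 1 ≤ x.2) :
    Module.Finite F (Q x) ∧ Module.finrank F (Q x) = x.1.natDegree * x.2 := by
  have h1 : Module.finrank F (Q x) = (x.1 ^ x.2).natDegree := finrank_quotient_span_eq_natDegree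
  rw [Polynomial.natDegree_pow, mul_comm] at h1
  refine ⟨?_, h1⟩
  apply Module.finite_of_finrank_pos
  rw [h1]
  have := hx.2.1.natDegree_pos
  have := hx.2.2
  positivity

/-- the number of all linear maps -/
theorem hmz_all {F M N : Type} [Field F] [Finite F] [AddCommGroup M] [Module F M] [AddCommGroup N]
    [Module F N] [Module.Finite F M] [Module.Finite F N] :
    Finite (M →ₗ[F] N) ∧
    Nat.card (M →ₗ[F] N) = Nat.card F ^ (Module.finrank F M * Module.finrank F N) := by
  refine ⟨?_, ?_⟩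
  · exact Module.finite_of_finite F
  · rw [Module.natCard_eq_pow_finrank (K := F), Module.finrank_linearMap]

theorem hmz_pair {F : Type} [Field F] [Finite F] (hC : S_CYZ) (g : F[X]) (hg : g.Monic)
    (μ : F[X] → ℕ) (x y : F[X] × ℕ)
    (hx : x.1.Monic ∧ Irreducible x.1 ∧ 1 ≤ x.2) (hy : y.1.Monic ∧ Irreducible y.1 ∧ 1 ≤ y.2)
    (hμ : x.1 ^ μ x.1 ∣ g ∧ ¬ x.1 ^ (μ x.1 + 1) ∣ g) (hxμ : x.2 ≤ μ x.1) (hyμ : y.2 ≤ μ y.1) :
    Zc g (hmz_X x) (hmz_X y) *
      Nat.card F ^ (x.1.natDegree * (hmf_c (x.1 = y.1) * (x.2 + y.2 - μ x.1))) ≤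
      Nat.card F ^ ((x.1.natDegree * x.2) * (y.1.natDegree * y.2)) := by
  obtain ⟨hf1, hf2⟩ := hmz_fin x hx
  obtain ⟨hf3, hf4⟩ := hmz_fin y hy
  by_cases h : x.1 = y.1
  · rw [hmf_c_pos h, one_mul]
    obtain ⟨p, s⟩ := x
    obtain ⟨p', t⟩ := y
    simp only at h
    subst h
    exact hC F g p (μ p) s t hg hx.1 hx.2.1 hμ.1 hμ.2 hxμ hyμ (Q (p, s)) (Q (p, t))
      (hmz_X (p, s)) (hmz_X (p, t)) (LinearEquiv.refl F _) (LinearEquiv.refl F _)
      (by
        intro v
        obtain ⟨r, rfl⟩ := Submodule.Quotient.mk_surjective _ v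
        rfl)
      (by
        intro v
        obtain ⟨r, rfl⟩ := Submodule.Quotient.mk_surjective _ v
        rfl)
  · rw [hmf_c_neg h, zero_mul, mul_zero, pow_zero, mul_one]
    obtain ⟨h5, h6⟩ := hmz_all (F := F) (M := Q y) (N := Q x)
    calc Zc g (hmz_X x) (hmz_X y) ≤ Nat.card (Q y →ₗ[F] Q x) :=
          Nat.card_le_card_of_injective _ Subtype.val_injective
      _ = Nat.card F ^ ((x.1.natDegree * x.2) * (y.1.natDegree * y.2)) := by
          rw [h6, hf2, hf4, mul_comm]

/-! ## 3. Decompositions -/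

theorem hmz_dec {F : Type} [Field F] [Finite F] (g : F[X]) (V W : Type) [AddCommGroup V]
    [Module F V] [AddCommGroup W] [Module F W] {ι κ : Type} [Fintype ι] [Fintype κ]
    (f : ι → F[X] × ℕ) (f' : κ → F[X] × ℕ)
    (hf : ∀ i, (f i).1.Monic ∧ Irreducible (f i).1 ∧ 1 ≤ (f i).2)
    (hf' : ∀ i, (f' i).1.Monic ∧ Irreducible (f' i).1 ∧ 1 ≤ (f' i).2)
    (a : V →ₗ[F] V) (b : W →ₗ[F] W)
    (E : V ≃ₗ[F] ∀ i, Q (f i)) (E' : W ≃ₗ[F] ∀ i, Q (f' i))
    (hE : ∀ v i, E (a v) i = hmz_X (f i) (E v i)) (hE' : ∀ v i, E' (b v) i = hmz_X (f' i) (E' v i)) :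
    Zc g a b ≤ ∏ i, ∏ k, Zc g (hmz_X (f i)) (hmz_X (f' k)) := by
  classical
  have hfin : ∀ i k, Finite {c : Q (f' k) →ₗ[F] Q (f i) //
      aeval (bk (hmz_X (f i)) c (hmz_X (f' k))) g = 0} := by
    intro i k
    have h1 := (hmz_fin (f i) (hf i)).1
    have h2 := (hmz_fin (f' k) (hf' k)).1
    have h3 := (hmz_all (F := F) (M := Q (f' k)) (N := Q (f i))).1
    infer_instance
  have hcard : Nat.card (∀ i k, {c : Q (f' k) →ₗ[F] Q (f i) //
      aeval (bk (hmz_X (f i)) c (hmz_X (f' k))) g = 0}) =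
      ∏ i, ∏ k, Zc g (hmz_X (f i)) (hmz_X (f' k)) := by
    rw [Nat.card_pi]
    refine Finset.prod_congr rfl fun i _ => ?_
    rw [Nat.card_pi]
    rfl
  rw [← hcard]
  let P : ∀ i, V →ₗ[F] Q (f i) := fun i => LinearMap.proj i ∘ₗ E.toLinearMap
  let J : ∀ k, Q (f' k) →ₗ[F] W := fun k => E'.symm.toLinearMap ∘ₗ LinearMap.single F (fun k => Q (f' k)) k
  have hP : ∀ i v, P i (a v) = hmz_X (f i) (P i v) := fun i v => hE v i
  have hPs : ∀ i, Function.Surjective (P i) := by
    intro i y
    refine ⟨E.symm (Pi.single i y), ?_⟩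
    show E (E.symm (Pi.single i y)) i = y
    rw [LinearEquiv.apply_symm_apply, Pi.single_eq_same]
  have hJi : ∀ k, Function.Injective (J k) := by
    intro k y y' h
    have h1 : (Pi.single k y : ∀ k, Q (f' k)) = Pi.single k y' := E'.symm.injective h
    have h2 := congrFun h1 k
    rwa [Pi.single_eq_same, Pi.single_eq_same] at h2
  have hJ : ∀ k v, J k (hmz_X (f' k) v) = b (J k v) := by
    intro k v
    apply E'.injective
    funext l
    show E' (E'.symm (Pi.single k (hmz_X (f' k) v))) l = E' (b (E'.symm (Pi.single k v))) l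
    rw [hE', LinearEquiv.apply_symm_apply, LinearEquiv.apply_symm_apply]
    by_cases h : l = k
    · subst h
      rw [Pi.single_eq_same, Pi.single_eq_same]
    · rw [Pi.single_eq_of_ne h, Pi.single_eq_of_ne h, map_zero]
  refine Nat.card_le_card_of_injective
    (fun c i k => ⟨P i ∘ₗ c.1 ∘ₗ J k, hmz_res a c.1 b (hmz_X (f i)) (hmz_X (f' k)) (P i) (J k)
      (hP i) (hJ k) (hPs i) (hJi k) g c.2⟩) ?_
  intro c c' h
  apply Subtype.ext
  apply LinearMap.ext
  intro w
  have h1 : ∀ (k : κ) (y : Q (f' k)), c.1 (J k y) = c'.1 (J k y) := by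
    intro k y
    apply E.injective
    funext i
    have h2 := congrArg Subtype.val (congrFun (congrFun h i) k)
    exact congrArg (fun L : Q (f' k) →ₗ[F] Q (f i) => L y) h2
  have h3 : w = ∑ k, J k (E' w k) := by
    apply E'.injective
    rw [map_sum]
    funext l
    rw [Finset.sum_apply]
    have h4 : ∀ k, E' (J k (E' w k)) l = (Pi.single k (E' w k) : ∀ k, Q (f' k)) l := by
      intro k
      show E' (E'.symm (Pi.single k (E' w k))) l = _
      rw [LinearEquiv.apply_symm_apply]
    rw [Finset.sum_congr rfl fun k _ => h4 k]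
    rw [Finset.sum_eq_single l]
    · rw [Pi.single_eq_same]
    · intro k _ hk
      rw [Pi.single_eq_of_ne hk.symm]
    · intro hl
      exact absurd (Finset.mem_univ _) hl
  rw [h3, map_sum, map_sum]
  exact Finset.sum_congr rfl fun k _ => h1 k _

/-- matrices and linear maps -/
theorem hmz_mat {F : Type} [Field F] [Finite F] {a b : ℕ} (A : Matrix (Fin a) (Fin a) F)
    (B : Matrix (Fin b) (Fin b) F) (g : F[X]) :
    Nat.card {c : Matrix (Fin a) (Fin b) F // aeval (Matrix.fromBlocks A c 0 B) g = 0} ≤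
      Zc g (Matrix.toLin' A) (Matrix.toLin' B) := by
  have hfin : Finite ((Fin b → F) →ₗ[F] (Fin a → F)) :=
    (hmz_all (F := F) (M := Fin b → F) (N := Fin a → F)).1
  refine Nat.card_le_card_of_injective (fun c => ⟨Matrix.toLin' c.1, ?_⟩) ?_
  · have h0 : aeval (Matrix.toLin' (Matrix.fromBlocks A c.1 0 B)) g = 0 := by
      have h1 : aeval (Matrix.toLin' (Matrix.fromBlocks A c.1 0 B)) g =
          Matrix.toLin' (aeval (Matrix.fromBlocks A c.1 0 B) g) :=
        Polynomial.aeval_algHom_apply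
          (Matrix.toLinAlgEquiv' : Matrix (Fin a ⊕ Fin b) (Fin a ⊕ Fin b) F ≃ₐ[F] _).toAlgHom _ g
      rw [h1, c.2, map_zero]
    let T : ((Fin a → F) × (Fin b → F)) ≃ₗ[F] (Fin a ⊕ Fin b → F) :=
      (LinearEquiv.sumArrowLequivProdArrow (Fin a) (Fin b) F F).symm
    apply hmz_inj T.toLinearMap _ (Matrix.toLin' (Matrix.fromBlocks A c.1 0 B)) ?_ T.injective g h0
    rintro ⟨v, w⟩
    rw [hmz_bk]
    refine _root_.funext ?_
    rintro (i | i)
    · show (Matrix.toLin' A v + Matrix.toLin' c.1 w) i = _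
      simp [T, Matrix.toLin'_apply, Matrix.mulVec, dotProduct, Fintype.sum_sum_type,
        LinearEquiv.sumArrowLequivProdArrow]
    · show (Matrix.toLin' B w) i = _
      simp [T, Matrix.toLin'_apply, Matrix.mulVec, dotProduct, Fintype.sum_sum_type,
        LinearEquiv.sumArrowLequivProdArrow]
  · intro c c' h
    exact Subtype.ext (Matrix.toLin'.injective (congrArg Subtype.val h))

/-! ## 4. Counting -/

theorem hmz_cnt (m e e' : ℕ) (he : e ≤ m) (he' : e' ≤ m) :
    ∑ j : Fin m, hmf_c (j.1 + 1 ≤ e ∧ (Fin.rev j).1 + 1 ≤ e') = e + e' - m := by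
  have h1 := hmf_cnt e m
  have h2 := hmf_cnt (min e (m - e')) m
  have h3 : ∀ j : Fin m, hmf_c (j.1 + 1 ≤ e ∧ (Fin.rev j).1 + 1 ≤ e') +
      (if j.1 + 1 ≤ min e (m - e') then 1 else 0) = if j.1 + 1 ≤ e then 1 else 0 := by
    intro j
    have hj := j.2
    have hr : (Fin.rev j).1 = m - (j.1 + 1) := Fin.val_rev j
    rw [hr]
    by_cases c1 : j.1 + 1 ≤ e
    · rw [if_pos c1]
      by_cases c2 : j.1 + 1 ≤ min e (m - e')
      · rw [if_pos c2, hmf_c_neg]
        rintro ⟨_, h⟩
        have := le_trans c2 (min_le_right _ _)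
        omega
      · rw [if_neg c2, hmf_c_pos]
        refine ⟨c1, ?_⟩
        by_contra h
        apply c2
        apply le_min c1
        omega
    · rw [if_neg c1, if_neg, hmf_c_neg]
      · exact fun h => c1 h.1
      · intro h
        exact c1 (le_trans h (min_le_left _ _))
  have h4 := Finset.sum_congr (rfl : (Finset.univ : Finset (Fin m)) = Finset.univ) fun j _ => h3 j
  rw [Finset.sum_add_distrib, h1, h2, min_eq_left he] at h4
  have h5 : min (min e (m - e')) m = min e (m - e') := min_eq_left (le_trans (min_le_left _ _) he)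
  rw [h5] at h4
  rcases le_total e (m - e') with h | h
  · rw [min_eq_left h] at h4
    omega
  · rw [min_eq_right h] at h4
    omega

/-- the involution of the index set -/
def hmz_r {F : Type} {S : Finset F} {μ : F → ℕ} (z : hmf_J S μ) : hmf_J S μ := ⟨z.1, Fin.rev z.2⟩

theorem hmz_rr {F : Type} {S : Finset F} {μ : F → ℕ} (z : hmf_J S μ) : hmz_r (hmz_r z) = z := by
  obtain ⟨p, j⟩ := z
  unfold hmz_r
  simp only [Fin.rev_rev]

theorem hmz_sumJ {F : Type} (S : Finset F) (μ : F → ℕ) (d : F → ℕ) (p : F) (hp : p ∈ S)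
    (e e' : ℕ) (he : e ≤ μ p) (he' : e' ≤ μ p) :
    ∑ z : hmf_J S μ, d z.1.1 * hmf_c (p = z.1.1 ∧ z.2.1 + 1 ≤ e ∧ (hmz_r z).2.1 + 1 ≤ e') =
      d p * (e + e' - μ p) := by
  rw [Fintype.sum_sigma]
  rw [Finset.sum_eq_single (⟨p, hp⟩ : {p // p ∈ S})]
  · have h1 := hmz_cnt (μ p) e e' he he'
    have h2 : ∀ j : Fin (μ p), d p * hmf_c (p = p ∧ j.1 + 1 ≤ e ∧ (Fin.rev j).1 + 1 ≤ e') =
        d p * hmf_c (j.1 + 1 ≤ e ∧ (Fin.rev j).1 + 1 ≤ e') := by
      intro j
      congr 1
      by_cases h : j.1 + 1 ≤ e ∧ (Fin.rev j).1 + 1 ≤ e'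
      · rw [hmf_c_pos ⟨rfl, h⟩, hmf_c_pos h]
      · rw [hmf_c_neg fun h' => h h'.2, hmf_c_neg h]
    show ∑ j : Fin (μ p), d p * hmf_c (p = p ∧ j.1 + 1 ≤ e ∧ (Fin.rev j).1 + 1 ≤ e') = _
    rw [Finset.sum_congr rfl fun j _ => h2 j, ← Finset.mul_sum, h1]
  · intro q _ hq
    apply Finset.sum_eq_zero
    intro j _
    have : ∀ R : Prop, ¬ (p = q.1 ∧ R) := by
      rintro R ⟨h, _⟩
      exact hq (Subtype.ext h.symm)
    rw [hmf_c_neg (this _), mul_zero]
  · intro h
    exact absurd (Finset.mem_univ _) h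

/-! ## 5. The theorem -/

theorem t_HMZ : M_HMZ := by
  classical
  intro hCYZ F _ _ g hg
  have hg0 : g ≠ 0 := hg.ne_zero
  obtain ⟨nf, hnf⟩ : ∃ nf, nf = UniqueFactorizationMonoid.normalizedFactors g := ⟨_, rfl⟩
  have hirr : ∀ p ∈ nf, Irreducible p := by
    intro p hp
    rw [hnf] at hp
    exact UniqueFactorizationMonoid.irreducible_of_normalized_factor p hp
  have hdeg : ∀ p ∈ nf, 1 ≤ p.natDegree := fun p hp => (hirr p hp).natDegree_pos
  have hsum : ∑ p : {p // p ∈ nf.toFinset}, nf.count p.1 * p.1.natDegree = g.natDegree := by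
    have h1 : Associated nf.prod g := by
      rw [hnf]
      exact UniqueFactorizationMonoid.prod_normalizedFactors hg0
    have h2 : nf.prod.natDegree = g.natDegree := by
      have := Polynomial.degree_eq_degree_of_associated h1
      exact Polynomial.natDegree_eq_natDegree this
    have h3 : nf.prod.natDegree = (nf.map natDegree).sum :=
      Polynomial.natDegree_multiset_prod _ fun h => (hirr 0 h).ne_zero rfl
    rw [← h2, h3, Finset.sum_multiset_map_count]
    exact Finset.sum_coe_sort nf.toFinset (fun p => nf.count p * p.natDegree)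
  have hmult : ∀ (p : F[X]) (e : ℕ), p.Monic → Irreducible p → 1 ≤ e → p ^ e ∣ g →
      p ∈ nf.toFinset ∧ e ≤ nf.count p := by
    intro p e hp1 hp2 he hdvd
    have h1 : e ≤ nf.count p := by
      have h2 := UniqueFactorizationMonoid.emultiplicity_eq_count_normalizedFactors hp2 hg0
      rw [hp1.normalize_eq_self, ← hnf] at h2
      have h3 := pow_dvd_iff_le_emultiplicity.1 hdvd
      rw [h2] at h3
      exact_mod_cast h3
    refine ⟨?_, h1⟩
    rw [Multiset.mem_toFinset]
    exact Multiset.count_pos.1 (by omega)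
  have hmul : ∀ p ∈ nf.toFinset, p.Monic → Irreducible p →
      p ^ nf.count p ∣ g ∧ ¬ p ^ (nf.count p + 1) ∣ g := by
    intro p _ hp1 hp2
    have h2 := UniqueFactorizationMonoid.emultiplicity_eq_count_normalizedFactors hp2 hg0
    rw [hp1.normalize_eq_self, ← hnf] at h2
    constructor
    · rw [pow_dvd_iff_le_emultiplicity, h2]
    · rw [pow_dvd_iff_le_emultiplicity, h2]
      intro h
      have h3 : nf.count p + 1 ≤ nf.count p := by exact_mod_cast h
      omega
  let J := hmf_J nf.toFinset (fun p => nf.count p)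
  have hcard : Fintype.card J ≤ Fintype.card (Fin g.natDegree) := by
    rw [Fintype.card_fin, Fintype.card_sigma, ← hsum]
    refine Finset.sum_le_sum fun p _ => ?_
    rw [Fintype.card_fin]
    exact Nat.le_mul_of_pos_right _ (hdeg p.1 (Multiset.mem_toFinset.1 p.2))
  obtain ⟨φ⟩ := Function.Embedding.nonempty_of_card_le hcard
  have hφ := φ.injective
  have key : ∀ (n : ℕ) (A : Matrix (Fin n) (Fin n) F), ∃ s : Multiset (F[X] × ℕ),
      (∀ p ∈ s, p.1.Monic ∧ Irreducible p.1 ∧ 1 ≤ p.2) ∧
        Dec (AEval' (Matrix.toLin' A)) s := fun n A => exists_dec _ (torsion _)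
  choose Φ h1 h2 using key
  have hin : ∀ (n : ℕ) (A : Matrix (Fin n) (Fin n) F), aeval A g = 0 → ∀ x ∈ Φ n A,
      x.1 ∈ nf.toFinset ∧ x.2 ≤ nf.count x.1 := by
    intro n A hA x hx
    obtain ⟨ι, _, f, hf, ⟨E⟩⟩ := h2 n A
    have hx2 := h1 n A x hx
    rw [hf] at hx
    obtain ⟨i, _, rfl⟩ := Multiset.mem_map.1 hx
    exact hmult _ _ hx2.1 hx2.2.1 hx2.2.2 (hmf_dvd _ g (hmf_kill A g hA) f E i)
  let w0 : J → ℕ := fun z => z.1.1.natDegree
  let ν0 : (n : ℕ) → Matrix (Fin n) (Fin n) F → J → ℕ := fun n A z =>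
    hmf_N (Φ n A) z.1.1 z.2.1
  let w : Fin g.natDegree → ℕ := Function.extend φ w0 0
  let ν : (n : ℕ) → Matrix (Fin n) (Fin n) F → Fin g.natDegree → ℕ := fun n A =>
    Function.extend φ (ν0 n A) 0
  have hw : ∀ z, w (φ z) = w0 z := fun z => hφ.extend_apply _ _ _
  have hw' : ∀ k, k ∉ Set.range φ → w k = 0 := fun k hk => Function.extend_apply' _ _ _ hk
  have hν : ∀ n A z, ν n A (φ z) = ν0 n A z := fun n A z => hφ.extend_apply _ _ _
  have hν' : ∀ n A k, k ∉ Set.range φ → ν n A k = 0 := fun n A k hk =>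
    Function.extend_apply' _ _ _ hk
  let s : Fin g.natDegree → Fin g.natDegree := Function.extend φ (fun z => φ (hmz_r z)) id
  have hs : ∀ z, s (φ z) = φ (hmz_r z) := fun z => hφ.extend_apply _ _ _
  have hs' : ∀ k, k ∉ Set.range φ → s k = k := fun k hk => Function.extend_apply' _ _ _ hk
  refine ⟨w, s, ν, ?_, ?_, ?_⟩
  · rw [← Fintype.sum_of_injective φ hφ w0 w hw' fun z => (hw z).symm]
    rw [← hsum, Fintype.sum_sigma]
    refine Finset.sum_congr rfl fun p _ => ?_
    show ∑ _j : Fin (nf.count p.1), p.1.natDegree = _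
    rw [Finset.sum_const, Finset.card_univ, Fintype.card_fin, smul_eq_mul]
  · intro k
    by_cases hr : k ∈ Set.range φ
    · obtain ⟨z, rfl⟩ := hr
      rw [hs, hs, hmz_rr, hw, hw]
      exact ⟨rfl, rfl⟩
    · rw [hs' k hr, hs' k hr]
      exact ⟨rfl, rfl⟩
  · intro a b A B hA hB
    obtain ⟨ι, _, f, hf, ⟨E⟩⟩ := h2 a A
    obtain ⟨κ, _, f', hf', ⟨E'⟩⟩ := h2 b B
    have hfm : ∀ i, f i ∈ Φ a A := by
      intro i
      rw [hf]
      exact Multiset.mem_map.2 ⟨i, Finset.mem_univ _, rfl⟩
    have hfm' : ∀ i, f' i ∈ Φ b B := by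
      intro i
      rw [hf']
      exact Multiset.mem_map.2 ⟨i, Finset.mem_univ _, rfl⟩
    have hNA : ∀ p j, hmf_N (Φ a A) p j =
        ∑ i, hmf_c ((f i).1 = p ∧ j + 1 ≤ (f i).2) := by
      intro p j
      rw [hf, hmf_N, Multiset.map_map]
      rfl
    have hNB : ∀ p j, hmf_N (Φ b B) p j =
        ∑ i, hmf_c ((f' i).1 = p ∧ j + 1 ≤ (f' i).2) := by
      intro p j
      rw [hf', hmf_N, Multiset.map_map]
      rfl
    refine ⟨?_, ?_, ?_, ?_, ?_⟩
    · rw [← Fintype.sum_of_injective φ hφ (fun z => w0 z * ν0 a A z) (fun k => w k * ν a A k)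
        (fun k hk => by rw [hw' k hk, zero_mul]) (fun z => by rw [hw, hν])]
      have e1 : ∑ z : J, w0 z * ν0 a A z =
          ∑ z : J, ∑ i, w0 z * hmf_c ((f i).1 = z.1.1 ∧ z.2.1 + 1 ≤ (f i).2) := by
        refine Finset.sum_congr rfl fun z _ => ?_
        show w0 z * hmf_N (Φ a A) z.1.1 z.2.1 = _
        rw [hNA, Finset.mul_sum]
      rw [e1, Finset.sum_comm]
      have e2 : ∀ i, ∑ z : J, w0 z * hmf_c ((f i).1 = z.1.1 ∧ z.2.1 + 1 ≤ (f i).2) =
          (f i).1.natDegree * (f i).2 := fun i =>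
        hmf_sumJ nf.toFinset (fun p => nf.count p) natDegree (f i).1 (hin a A hA _ (hfm i)).1
          (f i).2 (hin a A hA _ (hfm i)).2
      rw [Finset.sum_congr rfl fun i _ => e2 i]
      have h3 := sum_eq (F := F) (AEval' (Matrix.toLin' A)) (h1 a A) (h2 a A)
      have h4 : Module.finrank F (AEval' (Matrix.toLin' A)) = a := by
        rw [← (AEval'.of (Matrix.toLin' A)).finrank_eq, Module.finrank_fin_fun]
      rw [h4, hf, Multiset.map_map] at h3
      rw [← h3]
      show _ = ∑ i, (f i).2 * (f i).1.natDegree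
      exact Finset.sum_congr rfl fun i _ => mul_comm _ _
    · intro k hk
      by_cases hr : k ∈ Set.range φ
      · obtain ⟨z, rfl⟩ := hr
        rw [hw] at hk
        have h3 := hdeg z.1.1 (Multiset.mem_toFinset.1 z.1.2)
        have h4 : z.1.1.natDegree = 0 := hk
        omega
      · exact hν' a A k hr
    · rw [hmf_mat, hmf_dec _ _ f f' (fun i => h1 a A _ (hfm i)) (fun i => h1 b B _ (hfm' i)) E E']
      congr 1
      rw [← Fintype.sum_of_injective φ hφ (fun z => w0 z * (ν0 a A z * ν0 b B z))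
        (fun k => w k * (ν a A k * ν b B k))
        (fun k hk => by rw [hw' k hk, zero_mul]) (fun z => by rw [hw, hν, hν])]
      have e1 : ∑ z : J, w0 z * (ν0 a A z * ν0 b B z) =
          ∑ z : J, ∑ j, ∑ i, w0 z *
            hmf_c ((f i).1 = (f' j).1 ∧ (f i).1 = z.1.1 ∧ z.2.1 + 1 ≤ min (f i).2 (f' j).2) := by
        refine Finset.sum_congr rfl fun z _ => ?_
        show w0 z * (hmf_N (Φ a A) z.1.1 z.2.1 * hmf_N (Φ b B) z.1.1 z.2.1) = _
        rw [hNA, hNB, Finset.sum_mul_sum, Finset.sum_comm, Finset.mul_sum]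
        refine Finset.sum_congr rfl fun j _ => ?_
        rw [Finset.mul_sum]
        refine Finset.sum_congr rfl fun i _ => ?_
        congr 1
        by_cases c1 : (f i).1 = z.1.1 ∧ z.2.1 + 1 ≤ (f i).2
        · by_cases c2 : (f' j).1 = z.1.1 ∧ z.2.1 + 1 ≤ (f' j).2
          · rw [hmf_c_pos c1, hmf_c_pos c2,
              hmf_c_pos ⟨c1.1.trans c2.1.symm, c1.1, le_min c1.2 c2.2⟩, mul_one]
          · have c3 : ¬ ((f i).1 = (f' j).1 ∧ (f i).1 = z.1.1 ∧
                z.2.1 + 1 ≤ min (f i).2 (f' j).2) := by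
              rintro ⟨d1, d2, d3⟩
              exact c2 ⟨d1.symm.trans d2, le_trans d3 (min_le_right _ _)⟩
            rw [hmf_c_pos c1, hmf_c_neg c2, hmf_c_neg c3, mul_zero]
        · have c3 : ¬ ((f i).1 = (f' j).1 ∧ (f i).1 = z.1.1 ∧
              z.2.1 + 1 ≤ min (f i).2 (f' j).2) := by
            rintro ⟨d1, d2, d3⟩
            exact c1 ⟨d2, le_trans d3 (min_le_left _ _)⟩
          rw [hmf_c_neg c1, zero_mul, hmf_c_neg c3]
      symm
      rw [e1, Finset.sum_comm]
      refine Finset.sum_congr rfl fun j _ => ?_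
      rw [Finset.sum_comm]
      refine Finset.sum_congr rfl fun i _ => ?_
      symm
      unfold hmf_d
      by_cases hij : (f i).1 = (f' j).1
      · rw [if_pos hij]
        rw [← hmf_sumJ nf.toFinset (fun p => nf.count p) natDegree (f i).1
          (hin a A hA _ (hfm i)).1 (min (f i).2 (f' j).2)
          (le_trans (min_le_left _ _) (hin a A hA _ (hfm i)).2)]
        refine Finset.sum_congr rfl fun z _ => ?_
        congr 1
        by_cases c1 : (f i).1 = z.1.1 ∧ z.2.1 + 1 ≤ min (f i).2 (f' j).2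
        · rw [hmf_c_pos c1, hmf_c_pos ⟨hij, c1.1, c1.2⟩]
        · rw [hmf_c_neg c1, hmf_c_neg fun h => c1 h.2]
      · rw [if_neg hij]
        symm
        apply Finset.sum_eq_zero
        intro z _
        rw [hmf_c_neg fun h => hij h.1, mul_zero]
    · intro _ hνν
      have hs : Φ a A = Φ b B := by
        apply hmf_ext
        · exact fun x hx => (h1 a A x hx).2.2
        · exact fun x hx => (h1 b B x hx).2.2
        · intro p j
          by_cases hp : p ∈ nf.toFinset ∧ j < nf.count p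
          · have h3 := congrFun hνν (φ ⟨⟨p, hp.1⟩, ⟨j, hp.2⟩⟩)
            rw [hν, hν] at h3
            exact h3
          · have hz : ∀ (n : ℕ) (A : Matrix (Fin n) (Fin n) F), aeval A g = 0 →
                hmf_N (Φ n A) p j = 0 := by
              intro n A hA
              unfold hmf_N
              apply Multiset.sum_eq_zero
              intro y hy
              obtain ⟨x, hx, rfl⟩ := Multiset.mem_map.1 hy
              apply hmf_c_neg
              rintro ⟨rfl, c⟩
              have h5 := hin n A hA x hx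
              exact hp ⟨h5.1, by omega⟩
            rw [hz a A hA, hz b B hB]
      have h3 := h2 a A
      rw [hs] at h3
      exact hmf_iso A B (h3.equiv (h2 b B))
    · -- the new claim
      have hdim : ∀ (n : ℕ) (A : Matrix (Fin n) (Fin n) F) (ι : Type) [Fintype ι]
          (f : ι → F[X] × ℕ), Φ n A = Finset.univ.val.map f →
          ∑ i, (f i).1.natDegree * (f i).2 = n := by
        intro n A ι _ f hf
        have h3 := sum_eq (F := F) (AEval' (Matrix.toLin' A)) (h1 n A) (h2 n A)
        have h4 : Module.finrank F (AEval' (Matrix.toLin' A)) = n := by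
          rw [← (AEval'.of (Matrix.toLin' A)).finrank_eq, Module.finrank_fin_fun]
        rw [h4, hf, Multiset.map_map] at h3
        rw [← h3]
        show _ = ∑ i, (f i).2 * (f i).1.natDegree
        exact Finset.sum_congr rfl fun i _ => mul_comm _ _
      have hdA := hdim a A ι f hf
      have hdB := hdim b B κ f' hf'
      have hZ : Nat.card {c : Matrix (Fin a) (Fin b) F //
          aeval (Matrix.fromBlocks A c 0 B) g = 0} ≤
          ∏ i, ∏ k, Zc g (hmz_X (f i)) (hmz_X (f' k)) := by
        refine (hmz_mat A B g).trans ?_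
        refine hmz_dec g (Fin a → F) (Fin b → F) f f' (fun i => h1 a A _ (hfm i))
          (fun i => h1 b B _ (hfm' i)) (Matrix.toLin' A) (Matrix.toLin' B)
          ((AEval'.of (Matrix.toLin' A)).trans (E.restrictScalars F))
          ((AEval'.of (Matrix.toLin' B)).trans (E'.restrictScalars F)) ?_ ?_
        · intro v i
          show E (AEval'.of (Matrix.toLin' A) (Matrix.toLin' A v)) i =
            (X : F[X]) • (E (AEval'.of (Matrix.toLin' A) v) i)
          rw [← AEval'.X_smul_of, map_smul]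
          rfl
        · intro v i
          show E' (AEval'.of (Matrix.toLin' B) (Matrix.toLin' B v)) i =
            (X : F[X]) • (E' (AEval'.of (Matrix.toLin' B) v) i)
          rw [← AEval'.X_smul_of, map_smul]
          rfl
      have hS : ∑ j, w j * (ν a A j * ν b B (s j)) =
          ∑ i, ∑ k, (f i).1.natDegree *
            (hmf_c ((f i).1 = (f' k).1) * ((f i).2 + (f' k).2 - nf.count (f i).1)) := by
        rw [← Fintype.sum_of_injective φ hφ (fun z => w0 z * (ν0 a A z * ν0 b B (hmz_r z)))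
          (fun k => w k * (ν a A k * ν b B (s k)))
          (fun k hk => by rw [hw' k hk, zero_mul]) (fun z => by rw [hw, hν, hs, hν])]
        have e1 : ∑ z : J, w0 z * (ν0 a A z * ν0 b B (hmz_r z)) =
            ∑ z : J, ∑ i, ∑ k, w0 z * (hmf_c ((f i).1 = (f' k).1) *
              hmf_c ((f i).1 = z.1.1 ∧ z.2.1 + 1 ≤ (f i).2 ∧ (hmz_r z).2.1 + 1 ≤ (f' k).2)) := by
          refine Finset.sum_congr rfl fun z _ => ?_
          show w0 z * (hmf_N (Φ a A) z.1.1 z.2.1 * hmf_N (Φ b B) z.1.1 (hmz_r z).2.1) = _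
          rw [hNA, hNB, Finset.sum_mul_sum, Finset.mul_sum]
          refine Finset.sum_congr rfl fun i _ => ?_
          rw [Finset.mul_sum]
          refine Finset.sum_congr rfl fun k _ => ?_
          congr 1
          by_cases c1 : (f i).1 = z.1.1 ∧ z.2.1 + 1 ≤ (f i).2
          · by_cases c2 : (f' k).1 = z.1.1 ∧ (hmz_r z).2.1 + 1 ≤ (f' k).2
            · rw [hmf_c_pos c1, hmf_c_pos c2, hmf_c_pos (c1.1.trans c2.1.symm),
                hmf_c_pos ⟨c1.1, c1.2, c2.2⟩]
            · rw [hmf_c_pos c1, hmf_c_neg c2, mul_zero]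
              symm
              rw [mul_eq_zero]
              by_cases c3 : (f i).1 = (f' k).1
              · right
                apply hmf_c_neg
                rintro ⟨d1, d2, d3⟩
                exact c2 ⟨c3.symm.trans d1, d3⟩
              · left
                exact hmf_c_neg c3
          · rw [hmf_c_neg c1, zero_mul]
            symm
            rw [mul_eq_zero]
            right
            apply hmf_c_neg
            rintro ⟨d1, d2, d3⟩
            exact c1 ⟨d1, d2⟩
        rw [e1, Finset.sum_comm]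
        refine Finset.sum_congr rfl fun i _ => ?_
        rw [Finset.sum_comm]
        refine Finset.sum_congr rfl fun k _ => ?_
        by_cases c : (f i).1 = (f' k).1
        · rw [hmf_c_pos c, one_mul]
          have h5 := hmz_sumJ nf.toFinset (fun p => nf.count p) natDegree (f i).1
            (hin a A hA _ (hfm i)).1 (f i).2 (f' k).2 (hin a A hA _ (hfm i)).2
            (by rw [c]; exact (hin b B hB _ (hfm' k)).2)
          rw [← h5]
          refine Finset.sum_congr rfl fun z _ => ?_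
          rw [one_mul]
        · rw [hmf_c_neg c, zero_mul, mul_zero]
          apply Finset.sum_eq_zero
          intro z _
          rw [zero_mul, mul_zero]
      rw [hS]
      calc Nat.card {c : Matrix (Fin a) (Fin b) F // aeval (Matrix.fromBlocks A c 0 B) g = 0} *
            Nat.card F ^ (∑ i, ∑ k, (f i).1.natDegree *
              (hmf_c ((f i).1 = (f' k).1) * ((f i).2 + (f' k).2 - nf.count (f i).1)))
          ≤ (∏ i, ∏ k, Zc g (hmz_X (f i)) (hmz_X (f' k))) *
            ∏ i, ∏ k, Nat.card F ^ ((f i).1.natDegree *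
              (hmf_c ((f i).1 = (f' k).1) * ((f i).2 + (f' k).2 - nf.count (f i).1))) := by
            apply Nat.mul_le_mul hZ
            rw [← Finset.prod_pow_eq_pow_sum]
            apply le_of_eq
            refine Finset.prod_congr rfl fun i _ => ?_
            rw [← Finset.prod_pow_eq_pow_sum]
        _ = ∏ i, ∏ k, (Zc g (hmz_X (f i)) (hmz_X (f' k)) * Nat.card F ^ ((f i).1.natDegree *
              (hmf_c ((f i).1 = (f' k).1) * ((f i).2 + (f' k).2 - nf.count (f i).1)))) := by
            rw [← Finset.prod_mul_distrib]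
            refine Finset.prod_congr rfl fun i _ => ?_
            rw [← Finset.prod_mul_distrib]
        _ ≤ ∏ i, ∏ k, Nat.card F ^ (((f i).1.natDegree * (f i).2) *
              ((f' k).1.natDegree * (f' k).2)) := by
            refine Finset.prod_le_prod' fun i _ => Finset.prod_le_prod' fun k _ => ?_
            exact hmz_pair hCYZ g hg (fun p => nf.count p) (f i) (f' k) (h1 a A _ (hfm i))
              (h1 b B _ (hfm' k))
              (hmul _ (hin a A hA _ (hfm i)).1 (h1 a A _ (hfm i)).1 (h1 a A _ (hfm i)).2.1)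
              (hin a A hA _ (hfm i)).2 (hin b B hB _ (hfm' k)).2
        _ = Nat.card F ^ (a * b) := by
            have h6 : ∀ i, ∏ k, Nat.card F ^ (((f i).1.natDegree * (f i).2) *
                ((f' k).1.natDegree * (f' k).2)) =
                Nat.card F ^ (((f i).1.natDegree * (f i).2) * b) := by
              intro i
              rw [Finset.prod_pow_eq_pow_sum, ← Finset.mul_sum, hdB]
            rw [Finset.prod_congr rfl fun i _ => h6 i, Finset.prod_pow_eq_pow_sum,
              ← Finset.sum_mul, hdA]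


end

end FLY
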