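import Mathlib
import Pool.Agent.FLY.StY

/-!
# FLY, module KWS: word sums, the four cases
-/

set_option autoImplicit false

namespace FLY

open RSF FL0 FGE Polynomial Pool.Agent.Lib_helper13

lemma kws_o0 (G : Type) [Group G] [Fintype G] (X : G → ℂ) (H : Subgroup G) :
    ‖∑ᶠ b : Fin (Kd.h .o0) → H, X (wk .o0 fun i => (b i : G))‖ * ‖X 1‖ ^ (Kd.h .o0) ≤
      (Nat.card G : ℝ) ^ (Kd.h .o0) * ‖X 1‖ := by
  have : Unique (Fin (Kd.h .o0) → H) := inferInstanceAs (Unique (Fin 0 → H))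
  have h1 : ∑ᶠ b : Fin (Kd.h .o0) → H, X (wk .o0 fun i => (b i : G)) = X 1 := by
    rw [finsum_unique]
    rfl
  rw [h1]
  show ‖X 1‖ * ‖X 1‖ ^ 0 ≤ (Nat.card G : ℝ) ^ 0 * ‖X 1‖
  rw [pow_zero, pow_zero, mul_one, one_mul]

lemma kws_n1 (hFSI : FLN.S_FSI) (G : Type) [Group G] [Fintype G] (X : G → ℂ) (H : Subgroup G)
    (hX : IsIrr X) :
    ‖∑ᶠ b : Fin (Kd.h .n1) → H, X (wk .n1 fun i => (b i : G))‖ * ‖X 1‖ ^ (Kd.h .n1) ≤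
      (Nat.card G : ℝ) ^ (Kd.h .n1) * ‖X 1‖ := by
  have h1 : ∑ᶠ b : Fin 1 → H, X ((b 0 : G) ^ 2) = ∑ᶠ b : H, X ((b : G) ^ 2) :=
    finsum_eq_of_bijective (fun b : Fin 1 → H => b 0) (Equiv.funUnique (Fin 1) H).bijective
      (fun b => rfl)
  have h2 : ∑ᶠ b : Fin (Kd.h .n1) → H, X (wk .n1 fun i => (b i : G)) =
      ∑ᶠ b : Fin 1 → H, X ((b 0 : G) ^ 2) := rfl
  rw [h2, h1]
  show _ * ‖X 1‖ ^ 1 ≤ (Nat.card G : ℝ) ^ 1 * ‖X 1‖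
  rw [pow_one, pow_one]
  exact mul_le_mul_of_nonneg_right ((hFSI G X H hX.isChr).2 hX) (norm_nonneg _)

lemma kws_two (G : Type) [Group G] [Fintype G] (X : G → ℂ) (H : Subgroup G) (w : G → G → G)
    (h : ‖∑ᶠ p : H × H, X (w (p.1 : G) p.2)‖ * ‖X 1‖ ≤ (Nat.card G : ℝ) ^ 2) :
    ‖∑ᶠ b : Fin 2 → H, X (w (b 0 : G) (b 1 : G))‖ * ‖X 1‖ ^ 2 ≤ (Nat.card G : ℝ) ^ 2 * ‖X 1‖ := by
  have h1 : ∑ᶠ b : Fin 2 → H, X (w (b 0 : G) (b 1 : G)) =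
      ∑ᶠ p : H × H, X (w (p.1 : G) p.2) :=
    finsum_eq_of_bijective (fun b : Fin 2 → H => (b 0, b 1)) (finTwoArrowEquiv H).bijective
      (fun b => rfl)
  rw [h1, pow_two (‖X 1‖), ← mul_assoc]
  exact mul_le_mul_of_nonneg_right h (norm_nonneg _)

/-- MODULE KWS -/
theorem t_KWS : M_KWS := by
  intro hFSI hCOM hCON κ G _ _ X H hH hX
  cases κ with
  | o0 => exact kws_o0 G X H
  | n1 => exact kws_n1 hFSI G X H hX
  | o1 => exact kws_two G X H (fun a b => FLW.wd true a b) (hCOM G X H hH hX)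
  | n2 => exact kws_two G X H (fun a b => FLW.wd false a b) (hCON G X H hH hX)

end FLY
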