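import Mathlib
import Pool.Agent.FLY.StY
import Pool.Agent.FL0.LOW

/-!
# FLY_LOG: lower bound for the number of the tuples (adaptation of FLW_LOW)
-/

set_option autoImplicit false

namespace FLY

open RSF FL0 FGE Polynomial Pool.Agent.Lib_helper13

noncomputable section

open FL0.LOW_aux in
theorem t_LOG : M_LOG := by
  intro hPI hPJ hCTG κ m hm hth
  obtain ⟨c, r, hc, hr, hmain⟩ := hCTG κ m hm hth
  obtain ⟨T, hT⟩ : ∃ T : ℝ, T = (m.map fun k : ℕ => (k : ℝ) ^ 2).sum := ⟨_, rfl⟩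
  have hT0 : 0 ≤ T := by
    rw [hT]
    refine List.sum_nonneg fun x hx => ?_
    obtain ⟨k, -, rfl⟩ := List.mem_map.1 hx
    positivity
  obtain ⟨e, he⟩ : ∃ e, m.length = e := ⟨_, rfl⟩
  obtain ⟨h, hh⟩ : ∃ h, κ.h = h := ⟨_, rfl⟩
  have hN : ∃ N : ℕ, e + h = N + 1 := by
    rcases Nat.eq_zero_or_pos (e + h) with h0 | h0
    · exfalso
      have e0 : m = [] := List.eq_nil_of_length_eq_zero (by omega)
      have h00 : h = 0 := by omega
      unfold th at hth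
      rw [hh, h00, e0] at hth
      simp [sig] at hth
      linarith
    · exact ⟨e + h - 1, by omega⟩
  obtain ⟨N, hN⟩ := hN
  refine ⟨1 + 4 * N + 4 * T, max r ⌈1 / c⌉₊, by positivity, fun n hn F _ _ => ?_⟩
  have hq : (2 : ℝ) ≤ (Nat.card F : ℝ) := by
    exact_mod_cast Finite.one_lt_card (α := F)
  have hq0 : (0 : ℝ) < (Nat.card F : ℝ) := by linarith
  have h1 := hmain n ((le_max_left _ _).trans hn) F
  have hcn : 1 ≤ c * (n : ℝ) := by
    have e1 : 1 / c ≤ (n : ℝ) :=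
      (Nat.le_ceil _).trans (by exact_mod_cast (le_max_right _ _).trans hn)
    rw [div_le_iff₀ hc] at e1
    linarith
  have hhalf : (Nat.card F : ℝ) ^ (-c * (n : ℝ)) ≤ 1 / 2 := by
    calc (Nat.card F : ℝ) ^ (-c * (n : ℝ)) ≤ (Nat.card F : ℝ) ^ (-1 : ℝ) :=
          Real.rpow_le_rpow_of_exponent_le (by linarith) (by linarith)
      _ = (Nat.card F : ℝ)⁻¹ := Real.rpow_neg_one _
      _ ≤ 2⁻¹ := inv_anti₀ (by norm_num) hq
      _ = 1 / 2 := by norm_num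
  have hJ := JJ_ge hPJ n F m fun k hk => le_trans (by norm_num) (hm k hk)
  rw [← hT, he] at hJ
  have hPS : Finite (PS n F) := LG.finPS
  have hPpos : (0 : ℝ) < (Nat.card (PS n F) : ℝ) := by
    exact_mod_cast Nat.card_pos
  have hJpos : (0 : ℝ) < (JJ (PS n F) m : ℝ) := lt_of_lt_of_le (by positivity) hJ
  have hPJpos : (0 : ℝ) < (Nat.card (PS n F) : ℝ) ^ κ.h * (JJ (PS n F) m : ℝ) :=
    mul_pos (pow_pos hPpos _) hJpos
  have h2 : (Nat.card (PS n F) : ℝ) ^ κ.h * (JJ (PS n F) m : ℝ) / 2 ≤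
      (Nat.card (Tk κ (PS n F) m) : ℝ) * Nat.card (PS n F) := by
    have e1 := (abs_le.1 (h1.trans hhalf)).1
    have e2 : 1 / 2 ≤ (Nat.card (Tk κ (PS n F) m) : ℝ) * Nat.card (PS n F) /
        ((Nat.card (PS n F) : ℝ) ^ κ.h * JJ (PS n F) m) := by linarith
    rw [le_div_iff₀ hPJpos] at e2
    linarith
  obtain ⟨A, hA⟩ : ∃ A : ℝ, A = -(((e : ℝ) - sig m) * (n : ℝ) ^ 2) - 4 * T := ⟨_, rfl⟩
  rw [← hA] at hJ
  rw [hh] at h2
  -- cancel one factor
  have h3 : (Nat.card (PS n F) : ℝ) ^ N * (Nat.card F : ℝ) ^ A / 2 ≤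
      (Nat.card (Tk κ (PS n F) m) : ℝ) := by
    have e3 : (Nat.card (PS n F) : ℝ) ^ N * (Nat.card F : ℝ) ^ A / 2 * Nat.card (PS n F) ≤
        (Nat.card (Tk κ (PS n F) m) : ℝ) * Nat.card (PS n F) := by
      refine le_trans ?_ h2
      calc (Nat.card (PS n F) : ℝ) ^ N * (Nat.card F : ℝ) ^ A / 2 * Nat.card (PS n F) =
            (Nat.card (PS n F) : ℝ) ^ (N + 1) * (Nat.card F : ℝ) ^ A / 2 := by
              rw [pow_succ]
              ring
        _ = (Nat.card (PS n F) : ℝ) ^ h *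
              ((Nat.card (PS n F) : ℝ) ^ e * (Nat.card F : ℝ) ^ A) / 2 := by
              rw [← hN, pow_add]
              ring
        _ ≤ (Nat.card (PS n F) : ℝ) ^ h * (JJ (PS n F) m : ℝ) / 2 := by
              have := mul_le_mul_of_nonneg_left hJ (pow_nonneg hPpos.le h)
              linarith
    exact le_of_mul_le_mul_right e3 hPpos
  refine le_trans ?_ h3
  have h4 : (Nat.card F : ℝ) ^ (((n : ℝ) ^ 2 - 4) * (N : ℝ)) ≤ (Nat.card (PS n F) : ℝ) ^ N := by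
    rw [Real.rpow_mul hq0.le, Real.rpow_natCast]
    exact pow_le_pow_left₀ (by positivity) (PS_ge hPI n F) N
  have h5 : (Nat.card F : ℝ) ^ (-1 : ℝ) ≤ 1 / 2 := by
    rw [Real.rpow_neg_one]
    calc (Nat.card F : ℝ)⁻¹ ≤ 2⁻¹ := inv_anti₀ (by norm_num) hq
      _ = 1 / 2 := by norm_num
  have hNr : (N : ℝ) = e + h - 1 := by
    have : ((e + h : ℕ) : ℝ) = ((N + 1 : ℕ) : ℝ) := by rw [hN]
    push_cast at this
    linarith
  have h6 : (th κ m + 1) * (n : ℝ) ^ 2 - (1 + 4 * N + 4 * T) =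
      -1 + (((n : ℝ) ^ 2 - 4) * (N : ℝ) + A) := by
    rw [hA, hNr]
    unfold th
    rw [hh]
    ring
  rw [h6, Real.rpow_add hq0, Real.rpow_add hq0]
  calc (Nat.card F : ℝ) ^ (-1 : ℝ) *
        ((Nat.card F : ℝ) ^ (((n : ℝ) ^ 2 - 4) * (N : ℝ)) * (Nat.card F : ℝ) ^ A) ≤
        1 / 2 * ((Nat.card (PS n F) : ℝ) ^ N * (Nat.card F : ℝ) ^ A) :=
          mul_le_mul h5 (mul_le_mul_of_nonneg_right h4 (by positivity)) (by positivity)
            (by norm_num)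
    _ = (Nat.card (PS n F) : ℝ) ^ N * (Nat.card F : ℝ) ^ A / 2 := by ring

end

end FLY
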