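import Mathlib
import Pool.Agent.FLY.StY

set_option autoImplicit false

namespace FLY

open RSF FL0 FGE

/-- one class -/
theorem mag_one (hF : S_FNK) (κ : Kd) (Γ : Type) [Group Γ] (m : List ℕ) (hm : ∀ k ∈ m, 2 ≤ k)
    (hc : ∀ (n : ℕ) (F : Type) [Field F] [Finite F],
      Nat.card (Γ →* PS n F) = Nat.card (Tk κ (PS n F) m))
    (hp : ∀ (n : ℕ) (F : Type) [Field F] [Finite F] (Q : Subgroup (PS n F) → Prop),
      prob Γ (PS n F) (fun ρ => Q ρ.range) = prk κ (PS n F) m Q) :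
    StG κ.h Γ m := by
  intro h2 θ hθ
  have hth : 0 < th κ m := by
    unfold th
    linarith
  obtain ⟨c, r, hc0, H⟩ := hF κ m hm hth θ hθ
  refine ⟨c, r, hc0, ?_⟩
  intro n hn F _ _
  obtain ⟨H1, H2⟩ := H n hn F
  refine ⟨?_, ?_⟩
  · rw [hc n F]
    exact H1
  · intro S hS hM
    have h3 := H2 S hS hM
    have h4 := hp n F (fun K => Irr K ∧ (∀ M ∈ S, ¬ InConj K M) ∧
      ((∃ k ∈ m, 1 / (k : ℝ) < sig m + κ.h - 2) → ¬ Asch K))
    exact h3.trans (le_of_eq h4.symm)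

/-- **MAG** -/
theorem t_MAG : M_MAG := by
  intro hG hF m hm
  refine ⟨?_, ?_, ?_, ?_⟩
  · exact mag_one hF .o0 (OGroup 0 m) m hm (fun n F _ _ => (hG (PS n F) m (fun _ => True)).1.1)
      (fun n F _ _ Q => (hG (PS n F) m Q).1.2)
  · exact mag_one hF .n1 (NGroup 1 m) m hm (fun n F _ _ => (hG (PS n F) m (fun _ => True)).2.1.1)
      (fun n F _ _ Q => (hG (PS n F) m Q).2.1.2)
  · exact mag_one hF .o1 (OGroup 1 m) m hm
      (fun n F _ _ => (hG (PS n F) m (fun _ => True)).2.2.1.1)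
      (fun n F _ _ Q => (hG (PS n F) m Q).2.2.1.2)
  · exact mag_one hF .n2 (NGroup 2 m) m hm
      (fun n F _ _ => (hG (PS n F) m (fun _ => True)).2.2.2.1)
      (fun n F _ _ Q => (hG (PS n F) m Q).2.2.2.2)

end FLY
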