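import Mathlib
import Pool.Agent.FLY.StY
import Pool.Agent.SRJ.LTS
import Pool.Agent.SRJ.PVL

/-!
# FLY, NSG: the number of the tuples in `SL_n` with a given central product
-/

set_option autoImplicit false

namespace FLY

open RSF FL0 FGE Polynomial Pool.Agent.Lib_helper13 SRJ

noncomputable section

theorem nsg_map {G H : Type} [Group G] [Group H] (φ : G →* H) (κ : Kd) (b : Fin κ.h → G) :
    wk κ (fun i => φ (b i)) = φ (wk κ b) := by
  cases κ <;> simp [wk]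

theorem nsg_sum (m : List ℕ) (ε : ℝ) :
    (m.map fun k : ℕ => 1 - (1 / (k : ℝ) + ε)).sum = sig m - m.length * ε := by
  unfold sig
  induction m with
  | nil => simp
  | cons a l ih =>
    rw [List.map_cons, List.sum_cons, ih, List.map_cons, List.sum_cons, List.length_cons]
    push_cast
    ring

theorem nsg_max (m : List ℕ) (P : ℕ → ℕ → Prop) (hP : ∀ k ∈ m, ∃ r, ∀ n, r ≤ n → P k n) :
    ∃ r, ∀ n, r ≤ n → ∀ k ∈ m, P k n := by
  induction m with
  | nil => exact ⟨0, fun n _ k hk => absurd hk (by simp)⟩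
  | cons a l ih =>
    obtain ⟨r1, h1⟩ := ih fun k hk => hP k (List.mem_cons_of_mem _ hk)
    obtain ⟨r2, h2⟩ := hP a (List.mem_cons_self)
    refine ⟨max r1 r2, fun n hn k hk => ?_⟩
    rcases List.mem_cons.1 hk with h | h
    · rw [h]
      exact h2 n ((le_max_right _ _).trans hn)
    · exact h1 n ((le_max_left _ _).trans hn) k h

/-- a central element acts by a scalar of absolute value one -/
theorem nsg_central {G : Type} [Group G] [Fintype G] (hMN : FLC.S_MN) {X : G → ℂ} (hX : IsIrr X)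
    (z : G) (hz : ∀ g, z * g = g * z) {ι : Type} (s : Finset ι) (y : ι → G) :
    ‖∑ i ∈ s, X (y i * z)‖ = ‖∑ i ∈ s, X (y i)‖ := by
  classical
  have hk := hX.exists_degree
  obtain ⟨k, hk0, hk⟩ := hk
  have h1 : ∀ g, X (g * z) * X 1 = X z * X g := by
    intro g
    have h2 := pvl_scalar hX {z} (fun t ht g => by
      rw [Finset.mem_singleton] at ht ⊢
      rw [ht, ← hz g, mul_inv_cancel_right]) g
    rw [Finset.sum_singleton, Finset.sum_singleton] at h2
    rw [← hz g]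
    exact h2
  have h3 : (∑ i ∈ s, X (y i * z)) * X 1 = X z * ∑ i ∈ s, X (y i) := by
    rw [Finset.sum_mul, Finset.mul_sum]
    exact Finset.sum_congr rfl fun i _ => h1 (y i)
  have h4 := congrArg norm h3
  rw [norm_mul, norm_mul, (hMN G X hX.isChr).2.2.2 hX z hz, mul_comm] at h4
  have h5 : (0 : ℝ) < ‖X 1‖ := by
    rw [hk, Complex.norm_natCast]
    exact_mod_cast hk0
  exact mul_left_cancel₀ h5.ne' h4

section

variable {n : ℕ} {F : Type} [Field F] [Fintype F] [DecidableEq F]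

theorem nsg_exp (m : List ℕ) [Fintype (∀ j : Fin m.length, CA n F (m.get j))]
    (x : GL (Fin n) F) :
    (ltsf m x⁻¹ : ℂ) * Nat.card (GL (Fin n) F) =
      ∑ X ∈ irrF (GL (Fin n) F),
        (∑ A : ∀ j : Fin m.length, CA n F (m.get j), X (ltsP m A)) * X x := by
  have hcl : ∀ g x : GL (Fin n) F, (ltsf m (g * x * g⁻¹)⁻¹ : ℂ) = ltsf m x⁻¹ := by
    intro g x
    have h1 : (g * x * g⁻¹)⁻¹ = g * x⁻¹ * g⁻¹ := by group
    rw [h1, ltsf_class]
  have h := congrFun (class_fn_expand (fun x : GL (Fin n) F => (ltsf m x⁻¹ : ℂ)) hcl) x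
  have h0 : (Nat.card (GL (Fin n) F) : ℂ) ≠ 0 := natCard_ne_zero
  rw [h, Finset.sum_mul]
  refine Finset.sum_congr rfl fun X _ => ?_
  have h2 : ip (fun x : GL (Fin n) F => (ltsf m x⁻¹ : ℂ)) X * Nat.card (GL (Fin n) F) =
      ∑ A : ∀ j : Fin m.length, CA n F (m.get j), X (ltsP m A) := by
    rw [ip, div_mul_cancel₀ _ h0, ← lts_sumf m X]
    exact Fintype.sum_equiv (Equiv.inv _) _ _ fun g => by simp
  rw [← h2]
  ring

theorem nsg_cnt (κ : Kd) (m : List ℕ) [Fintype (SL n F)] (s : SL n F) :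
    Nat.card {A : (Fin m.length → SL n F) × (Fin κ.h → SL n F) //
          (∀ j, A.1 j ^ m.get j ∈ Subgroup.center (SL n F)) ∧
          (List.ofFn A.1).prod * wk κ A.2 = s} =
      ∑ b : Fin κ.h → SL n F, ltsf m (Matrix.SpecialLinearGroup.toGL (s * (wk κ b)⁻¹)) := by
  rw [Finset.sum_congr rfl fun b _ => (lts_cnt m (s * (wk κ b)⁻¹)).symm, ← Nat.card_sigma]
  refine Nat.card_congr ⟨fun A => ⟨A.1.2, ⟨A.1.1, A.2.1, ?_⟩⟩,
    fun A => ⟨(A.2.1, A.1), A.2.2.1, ?_⟩, fun A => rfl, fun A => rfl⟩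
  · exact eq_mul_inv_of_mul_eq A.2.2
  · exact mul_eq_of_eq_mul_inv A.2.2.2

/-- the formula -/
theorem nsg_formula (κ : Kd) (m : List ℕ) [Fintype (SL n F)]
    [Fintype (∀ j : Fin m.length, CA n F (m.get j))] (s : SL n F) :
    (Nat.card {A : (Fin m.length → SL n F) × (Fin κ.h → SL n F) //
          (∀ j, A.1 j ^ m.get j ∈ Subgroup.center (SL n F)) ∧
          (List.ofFn A.1).prod * wk κ A.2 = s} : ℂ) * Nat.card (GL (Fin n) F) =
      ∑ X ∈ irrF (GL (Fin n) F),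
        (∑ A : ∀ j : Fin m.length, CA n F (m.get j), X (ltsP m A)) *
          ∑ b : Fin κ.h → SL n F,
            X (Matrix.SpecialLinearGroup.toGL (wk κ b) * (Matrix.SpecialLinearGroup.toGL s)⁻¹) := by
  rw [nsg_cnt]
  push_cast
  rw [Finset.sum_mul]
  have h1 : ∀ b : Fin κ.h → SL n F,
      (ltsf m (Matrix.SpecialLinearGroup.toGL (s * (wk κ b)⁻¹)) : ℂ) *
        Nat.card (GL (Fin n) F) = ∑ X ∈ irrF (GL (Fin n) F),
        (∑ A : ∀ j : Fin m.length, CA n F (m.get j), X (ltsP m A)) *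
          X (Matrix.SpecialLinearGroup.toGL (wk κ b) * (Matrix.SpecialLinearGroup.toGL s)⁻¹) := by
    intro b
    rw [← nsg_exp]
    congr 3
    rw [map_mul, map_inv, mul_inv_rev, inv_inv]
  rw [Finset.sum_congr rfl fun b _ => h1 b, Finset.sum_comm]
  refine Finset.sum_congr rfl fun X _ => ?_
  rw [Finset.mul_sum]

/-- the sum over the words -/
theorem nsg_words (hKWS : S_KWS) (hMN : FLC.S_MN) (κ : Kd) [Fintype (SL n F)] (s : SL n F)
    (hs : s ∈ Subgroup.center (SL n F)) (X : GL (Fin n) F → ℂ) (hX : IsIrr X) :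
    ‖∑ b : Fin κ.h → SL n F,
        X (Matrix.SpecialLinearGroup.toGL (wk κ b) * (Matrix.SpecialLinearGroup.toGL s)⁻¹)‖ *
        ‖X 1‖ ^ κ.h ≤ (Nat.card (GL (Fin n) F) : ℝ) ^ κ.h * ‖X 1‖ := by
  have hc : ∀ g : GL (Fin n) F, (Matrix.SpecialLinearGroup.toGL s)⁻¹ * g =
      g * (Matrix.SpecialLinearGroup.toGL s)⁻¹ := by
    intro g
    have h1 := (Matrix.SpecialLinearGroup.toGL_mem_center_iff (g := s)).2 hs
    have h2 := Subgroup.inv_mem _ h1
    exact ((Subgroup.mem_center_iff.1 h2) g).symm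
  rw [nsg_central hMN hX _ hc]
  let φ : SL n F →* GL (Fin n) F := Matrix.SpecialLinearGroup.toGL
  have hφ : Function.Injective φ := Matrix.SpecialLinearGroup.toGL_injective
  have hN : φ.range.Normal := by
    have h1 : φ.range = (Matrix.GeneralLinearGroup.det (n := Fin n) (R := F)).ker := by
      ext g
      constructor
      · rintro ⟨A, rfl⟩
        rw [MonoidHom.mem_ker]
        apply Units.ext
        rw [Matrix.GeneralLinearGroup.val_det_apply]
        exact A.2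
      · intro h
        rw [MonoidHom.mem_ker] at h
        have h3 := congrArg (fun u : Fˣ => (u : F)) h
        simp only [Matrix.GeneralLinearGroup.val_det_apply] at h3
        exact ⟨⟨g.val, h3⟩, Units.ext rfl⟩
    rw [h1]
    infer_instance
  have h := hKWS κ (GL (Fin n) F) X φ.range hN hX
  have h1 : ∑ᶠ b : Fin κ.h → φ.range, X (wk κ fun i => (b i : GL (Fin n) F)) =
      ∑ b : Fin κ.h → SL n F, X (Matrix.SpecialLinearGroup.toGL (wk κ b)) := by
    rw [← finsum_eq_sum_of_fintype]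
    symm
    let e := MonoidHom.ofInjective hφ
    refine finsum_eq_of_bijective (fun b i => e (b i)) ?_ ?_
    · exact ((Equiv.piCongrRight fun _ => e.toEquiv) :
        (Fin κ.h → SL n F) ≃ (Fin κ.h → φ.range)).bijective
    · intro b
      have h2 : (fun i => ((e (b i) : φ.range) : GL (Fin n) F)) = fun i => φ (b i) := rfl
      rw [h2, nsg_map]
  rw [← h1]
  exact h

/-- one nonlinear term -/
theorem nsg_term (hPVL : S_PVL) (hKWS : S_KWS) (hMN : FLC.S_MN) (κ : Kd) (m : List ℕ) (θ : ℝ)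
    [Fintype (SL n F)] [Fintype (∀ j : Fin m.length, CA n F (m.get j))] (e : ℕ → ℝ)
    (hSB : ∀ k ∈ m, SB k (e k) n F)
    (hsum : 1 + (θ / 2 - κ.h + 1) ≤ (m.map fun k => 1 - e k).sum) (s : SL n F)
    (hs : s ∈ Subgroup.center (SL n F)) (X : GL (Fin n) F → ℂ) (hX : IsIrr X) (hX1 : X 1 ≠ 1) :
    ‖(∑ A : ∀ j : Fin m.length, CA n F (m.get j), X (ltsP m A)) *
      ∑ b : Fin κ.h → SL n F,
        X (Matrix.SpecialLinearGroup.toGL (wk κ b) * (Matrix.SpecialLinearGroup.toGL s)⁻¹)‖ ≤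
    (∏ j, (Nat.card (CA n F (m.get j)) : ℝ)) * (Nat.card (GL (Fin n) F) : ℝ) ^ κ.h *
      (X 1).re ^ (-(θ / 2)) := by
  obtain ⟨k, hk0, hk⟩ := hX.exists_degree
  have hre : (X 1).re = k := by rw [hk, Complex.natCast_re]
  have hD0 : (0 : ℝ) < k := by exact_mod_cast hk0
  have h1 := lts_term hPVL m (θ / 2 - κ.h + 1) e hSB hsum X hX hX1
  have h2 := nsg_words hKWS hMN κ s hs X hX
  rw [hk, Complex.norm_natCast] at h2
  rw [norm_mul]
  obtain ⟨U, hU⟩ : ∃ U : ℝ, U = ‖∑ A : ∀ j : Fin m.length, CA n F (m.get j), X (ltsP m A)‖ :=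
    ⟨_, rfl⟩
  obtain ⟨V, hV⟩ : ∃ V : ℝ, V = ‖∑ b : Fin κ.h → SL n F,
        X (Matrix.SpecialLinearGroup.toGL (wk κ b) * (Matrix.SpecialLinearGroup.toGL s)⁻¹)‖ :=
    ⟨_, rfl⟩
  obtain ⟨N, hN⟩ : ∃ N : ℝ, N = ∏ j, (Nat.card (CA n F (m.get j)) : ℝ) := ⟨_, rfl⟩
  rw [← hU, ← hN, hre] at h1
  rw [← hV] at h2
  rw [← hU, ← hV, ← hN, hre]
  have hN0 : 0 ≤ N := by
    rw [hN]
    exact Finset.prod_nonneg fun j _ => Nat.cast_nonneg _
  have hU0 : 0 ≤ U := by rw [hU]; exact norm_nonneg _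
  have hV0 : 0 ≤ V := by rw [hV]; exact norm_nonneg _
  have h3 : U ≤ N * (k : ℝ) ^ (-(θ / 2 - κ.h + 1)) := by
    have h4 : N ^ 2 * (k : ℝ) ^ (-(2 * (θ / 2 - κ.h + 1))) =
        (N * (k : ℝ) ^ (-(θ / 2 - κ.h + 1))) ^ 2 := by
      rw [mul_pow, ← Real.rpow_natCast ((k : ℝ) ^ (-(θ / 2 - κ.h + 1))) 2,
        ← Real.rpow_mul hD0.le]
      congr 2
      push_cast
      ring
    rw [h4] at h1
    exact le_of_sq_le_sq h1 (mul_nonneg hN0 (Real.rpow_nonneg hD0.le _))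
  have h5 : V ≤ (Nat.card (GL (Fin n) F) : ℝ) ^ κ.h * (k : ℝ) ^ (1 - (κ.h : ℝ)) := by
    have h6 : (k : ℝ) ^ (1 - (κ.h : ℝ)) * (k : ℝ) ^ κ.h = k := by
      rw [← Real.rpow_natCast, ← Real.rpow_add hD0, sub_add_cancel, Real.rpow_one]
    have h7 : V * (k : ℝ) ^ κ.h ≤
        ((Nat.card (GL (Fin n) F) : ℝ) ^ κ.h * (k : ℝ) ^ (1 - (κ.h : ℝ))) * (k : ℝ) ^ κ.h := by
      rw [mul_assoc, h6]
      exact h2
    exact le_of_mul_le_mul_right h7 (pow_pos hD0 _)
  calc U * V ≤ (N * (k : ℝ) ^ (-(θ / 2 - κ.h + 1))) *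
        ((Nat.card (GL (Fin n) F) : ℝ) ^ κ.h * (k : ℝ) ^ (1 - (κ.h : ℝ))) :=
        mul_le_mul h3 h5 hV0 (mul_nonneg hN0 (Real.rpow_nonneg hD0.le _))
    _ = N * (Nat.card (GL (Fin n) F) : ℝ) ^ κ.h *
        ((k : ℝ) ^ (-(θ / 2 - κ.h + 1)) * (k : ℝ) ^ (1 - (κ.h : ℝ))) := by ring
    _ = N * (Nat.card (GL (Fin n) F) : ℝ) ^ κ.h * (k : ℝ) ^ (-(θ / 2)) := by
        rw [← Real.rpow_add hD0]
        congr 2
        ring

end

theorem t_NSG : M_NSG := by
  classical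
  intro hMN _ hPVL hSBX hZET hLIN hKWS κ m hm hθ
  obtain ⟨θ, hθe⟩ : ∃ θ : ℝ, θ = th κ m := ⟨_, rfl⟩
  rw [← hθe] at hθ
  have hθd : θ = sig m + κ.h - 2 := by rw [hθe, th]
  have hd : 0 < m.length := by
    rcases Nat.eq_zero_or_pos m.length with h | h
    · exfalso
      have h1 : m = [] := List.length_eq_zero_iff.1 h
      have h2 : sig m = 0 := by rw [h1]; simp [sig]
      have h3 : (κ.h : ℝ) ≤ 2 := by
        cases κ <;> simp [Kd.h]
      linarith
    · exact h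
  have hdR : (0 : ℝ) < m.length := by exact_mod_cast hd
  obtain ⟨ε, hε⟩ : ∃ ε : ℝ, ε = θ / (2 * m.length) := ⟨_, rfl⟩
  have hε0 : 0 < ε := by rw [hε]; positivity
  obtain ⟨r1, hr1⟩ := nsg_max m
    (fun k n => ∀ (F : Type) [Field F] [Finite F], SB k (1 / (k : ℝ) + ε) n F)
    fun k hk => hSBX k (hm k hk) ε hε0
  obtain ⟨c, r2, hc, hr2⟩ := hZET (θ / 2) (by linarith)
  obtain ⟨r3, hr3⟩ := exists_nat_ge (2 * (κ.h : ℝ) / c)
  refine ⟨c / 2, r1 + r2 + r3 + 5, by positivity, by omega, ?_⟩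
  intro n hn F _ _ s hs
  have : Fintype F := Fintype.ofFinite F
  have : Fintype (∀ j : Fin m.length, CA n F (m.get j)) := Fintype.ofFinite _
  have : Fintype (SL n F) := Fintype.ofFinite _
  obtain ⟨N, hN⟩ : ∃ N : ℝ, N = ∏ j, (Nat.card (CA n F (m.get j)) : ℝ) := ⟨_, rfl⟩
  have hNT : (Nat.card (∀ j : Fin m.length, CA n F (m.get j)) : ℝ) = N := by
    rw [Nat.card_pi, hN]
    push_cast
    rfl
  have hN0 : 0 ≤ N := by
    rw [hN]
    exact Finset.prod_nonneg fun j _ => Nat.cast_nonneg _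
  obtain ⟨L, hL⟩ : ∃ L : ℝ, L = (Nat.card (SL n F) : ℝ) := ⟨_, rfl⟩
  have hL0 : 0 < L := by
    rw [hL]
    exact_mod_cast Nat.card_pos
  have hq1 : 1 < Nat.card F := Finite.one_lt_card
  have hqR : (0 : ℝ) < (Nat.card F : ℝ) - 1 := by
    have : (1 : ℝ) < Nat.card F := by exact_mod_cast hq1
    linarith
  have hG : (Nat.card (GL (Fin n) F) : ℝ) = ((Nat.card F : ℝ) - 1) * L := by
    rw [FLC.fro_card n (by omega), hL]
    push_cast [Nat.cast_sub hq1.le]
    rfl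
  obtain ⟨M, hM⟩ : ∃ M : ℕ, M = Nat.card {A : (Fin m.length → SL n F) × (Fin κ.h → SL n F) //
          (∀ j, A.1 j ^ m.get j ∈ Subgroup.center (SL n F)) ∧
          (List.ofFn A.1).prod * wk κ A.2 = s} := ⟨_, rfl⟩
  have hform := nsg_formula (F := F) (n := n) κ m s
  rw [← hM] at hform ⊢
  rw [← hN, ← hL]
  obtain ⟨W, hW⟩ : ∃ W : (GL (Fin n) F → ℂ) → ℂ, W = fun X =>
      (∑ A : ∀ j : Fin m.length, CA n F (m.get j), X (ltsP m A)) *
          ∑ b : Fin κ.h → SL n F,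
            X (Matrix.SpecialLinearGroup.toGL (wk κ b) * (Matrix.SpecialLinearGroup.toGL s)⁻¹) :=
    ⟨_, rfl⟩
  have hWX : ∀ X, W X = (∑ A : ∀ j : Fin m.length, CA n F (m.get j), X (ltsP m A)) *
          ∑ b : Fin κ.h → SL n F,
            X (Matrix.SpecialLinearGroup.toGL (wk κ b) *
              (Matrix.SpecialLinearGroup.toGL s)⁻¹) := fun X => by rw [hW]
  rw [Finset.sum_congr rfl fun X _ => (hWX X).symm] at hform
  have hA : ∑ X ∈ (irrF (GL (Fin n) F)).filter (fun X => X 1 = 1), W X =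
      (((Nat.card F : ℝ) - 1) * (N * L ^ κ.h) : ℝ) := by
    have h1 := hLIN n (by omega) F W ((N * L ^ κ.h : ℝ) : ℂ) fun l => by
      rw [hWX]
      have h2 : ∀ b : Fin κ.h → SL n F, FLC.ld l (Matrix.SpecialLinearGroup.toGL (wk κ b) *
              (Matrix.SpecialLinearGroup.toGL s)⁻¹) = 1 := by
        intro b
        have h3 : ∀ A : SL n F, Matrix.GeneralLinearGroup.det
            (Matrix.SpecialLinearGroup.toGL A) = 1 := by
          intro A
          apply Units.ext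
          rw [Matrix.GeneralLinearGroup.val_det_apply]
          exact A.2
        rw [FLC.ld, map_mul, map_inv, h3, h3, inv_one, one_mul, map_one, Units.val_one]
      simp only [lts_lin, h2, Finset.sum_const, Finset.card_univ, nsmul_eq_mul, mul_one]
      rw [← hNT, hL, Nat.card_eq_fintype_card, Nat.card_eq_fintype_card, Fintype.card_fun,
        Fintype.card_fin]
      push_cast
      rfl
    rw [h1]
    push_cast
    ring
  have hB : ‖∑ X ∈ (irrF (GL (Fin n) F)).filter (fun X => ¬ X 1 = 1), W X‖ ≤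
      N * (((Nat.card F : ℝ) - 1) * L) ^ κ.h *
        (((Nat.card F : ℝ) - 1) * (Nat.card F : ℝ) ^ (-(c * n))) := by
    calc ‖∑ X ∈ (irrF (GL (Fin n) F)).filter (fun X => ¬ X 1 = 1), W X‖
        ≤ ∑ X ∈ (irrF (GL (Fin n) F)).filter (fun X => ¬ X 1 = 1), ‖W X‖ := norm_sum_le _ _
      _ ≤ ∑ X ∈ (irrF (GL (Fin n) F)).filter (fun X => ¬ X 1 = 1),
            N * (((Nat.card F : ℝ) - 1) * L) ^ κ.h * (X 1).re ^ (-(θ / 2)) := by
          refine Finset.sum_le_sum fun X hX => ?_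
          rw [Finset.mem_filter] at hX
          rw [hWX, hN, ← hG]
          refine nsg_term hPVL hKWS hMN κ m θ (fun k => 1 / (k : ℝ) + ε)
            (fun k hk => hr1 n (by omega) k hk F) ?_ s hs X (mem_irrF.1 hX.1) hX.2
          rw [nsg_sum, hε]
          have h2 : (m.length : ℝ) * (θ / (2 * m.length)) = θ / 2 := by
            field_simp
          rw [h2]
          linarith
      _ ≤ _ := by
          rw [← Finset.mul_sum]
          exact mul_le_mul_of_nonneg_left (hr2 n (by omega) F) (by positivity)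
  have hAB := Finset.sum_filter_add_sum_filter_not (irrF (GL (Fin n) F)) (fun X => X 1 = 1) W
  have hmain : (M : ℝ) * L * ((Nat.card F : ℝ) - 1) - N * L ^ κ.h * ((Nat.card F : ℝ) - 1) =
      ((∑ X ∈ (irrF (GL (Fin n) F)).filter (fun X => ¬ X 1 = 1), W X)).re := by
    have h1 : (∑ X ∈ (irrF (GL (Fin n) F)).filter (fun X => ¬ X 1 = 1), W X) =
        (((M : ℝ) * L * ((Nat.card F : ℝ) - 1) -
          N * L ^ κ.h * ((Nat.card F : ℝ) - 1) : ℝ) : ℂ) := by
      have h2 : (∑ X ∈ (irrF (GL (Fin n) F)).filter (fun X => ¬ X 1 = 1), W X) =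
          (M : ℂ) * Nat.card (GL (Fin n) F) -
            (((Nat.card F : ℝ) - 1) * (N * L ^ κ.h) : ℝ) := by
        rw [hform, ← hAB, hA]
        ring
      have h3 : (Nat.card (GL (Fin n) F) : ℂ) = ((((Nat.card F : ℝ) - 1) * L : ℝ) : ℂ) := by
        rw [← hG]
        push_cast
        rfl
      rw [h2, h3]
      push_cast
      ring
    rw [h1, Complex.ofReal_re]
  have habs : |(M : ℝ) * L - N * L ^ κ.h| * ((Nat.card F : ℝ) - 1) ≤
      (N * (((Nat.card F : ℝ) - 1) * L) ^ κ.h * (Nat.card F : ℝ) ^ (-(c * n))) *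
        ((Nat.card F : ℝ) - 1) := by
    have h1 : |(M : ℝ) * L - N * L ^ κ.h| * ((Nat.card F : ℝ) - 1) =
        |(M : ℝ) * L * ((Nat.card F : ℝ) - 1) - N * L ^ κ.h * ((Nat.card F : ℝ) - 1)| := by
      rw [← sub_mul, abs_mul, abs_of_pos hqR]
    rw [h1, hmain]
    refine (Complex.abs_re_le_norm _).trans (hB.trans (le_of_eq ?_))
    ring
  have hfin := le_of_mul_le_mul_right habs hqR
  have hq0 : (0 : ℝ) < (Nat.card F : ℝ) := by linarith
  have hq1' : (1 : ℝ) ≤ (Nat.card F : ℝ) := by linarith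
  refine hfin.trans ?_
  have hpow : ((Nat.card F : ℝ) - 1) ^ κ.h * (Nat.card F : ℝ) ^ (-(c * n)) ≤
      (Nat.card F : ℝ) ^ (-(c / 2) * (n : ℝ)) := by
    have h1 : ((Nat.card F : ℝ) - 1) ^ κ.h ≤ (Nat.card F : ℝ) ^ (κ.h : ℝ) := by
      rw [Real.rpow_natCast]
      exact pow_le_pow_left₀ hqR.le (by linarith) _
    have h2 : (κ.h : ℝ) ≤ c / 2 * n := by
      have h3 : (r3 : ℝ) ≤ n := by
        exact_mod_cast (by omega : r3 ≤ n)
      have h4 := hr3.trans h3
      rw [div_le_iff₀ hc] at h4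
      linarith
    calc ((Nat.card F : ℝ) - 1) ^ κ.h * (Nat.card F : ℝ) ^ (-(c * n))
        ≤ (Nat.card F : ℝ) ^ (κ.h : ℝ) * (Nat.card F : ℝ) ^ (-(c * n)) :=
          mul_le_mul_of_nonneg_right h1 (Real.rpow_nonneg hq0.le _)
      _ = (Nat.card F : ℝ) ^ ((κ.h : ℝ) + -(c * n)) := (Real.rpow_add hq0 _ _).symm
      _ ≤ _ := Real.rpow_le_rpow_of_exponent_le hq1' (by linarith)
  calc N * (((Nat.card F : ℝ) - 1) * L) ^ κ.h * (Nat.card F : ℝ) ^ (-(c * n))
      = (N * L ^ κ.h) * (((Nat.card F : ℝ) - 1) ^ κ.h * (Nat.card F : ℝ) ^ (-(c * n))) := by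
        rw [mul_pow]
        ring
    _ ≤ (N * L ^ κ.h) * (Nat.card F : ℝ) ^ (-(c / 2) * (n : ℝ)) :=
        mul_le_mul_of_nonneg_left hpow (by positivity)
    _ = _ := by ring

end

end FLY
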