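import Mathlib
import Pool.Agent.FLY.StY
import Pool.Agent.FL0.PAR

/-!
# PAK: the count for one invariant subspace, all four classes (MP_5b5212_al)
-/

set_option autoImplicit false

namespace FLY

open RSF FL0 FGE Polynomial Pool.Agent.Lib_helper13

noncomputable section

section

variable {F V : Type} [Field F] [AddCommGroup V] [Module F V]

/-- the number of the endomorphisms that commute with `a` depends only on the class of `a` -/
theorem pak_cm_conj {a b : V →ₗ[F] V} (h : Cj a b) : Cm a = Cm b := by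
  obtain ⟨e, he⟩ := h
  have he' : ∀ v, e.symm (b v) = a (e.symm v) := by
    intro v
    rw [LinearEquiv.symm_apply_eq, he, LinearEquiv.apply_symm_apply]
  refine Nat.card_congr ?_
  refine
    { toFun := fun c => ⟨e.toLinearMap ∘ₗ c.1 ∘ₗ e.symm.toLinearMap, ?_⟩
      invFun := fun c => ⟨e.symm.toLinearMap ∘ₗ c.1 ∘ₗ e.toLinearMap, ?_⟩
      left_inv := ?_
      right_inv := ?_ }
  · apply LinearMap.ext
    intro v
    have h1 := LinearMap.congr_fun c.2 (e.symm v)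
    change e (c.1 (e.symm (b v))) = b (e (c.1 (e.symm v)))
    rw [he', ← he]
    exact congrArg e h1
  · apply LinearMap.ext
    intro v
    have h1 := LinearMap.congr_fun c.2 (e v)
    change e.symm (c.1 (e (a v))) = a (e.symm (c.1 (e v)))
    rw [he, ← he']
    exact congrArg e.symm h1
  · intro c
    apply Subtype.ext
    apply LinearMap.ext
    intro v
    change e.symm (e (c.1 (e.symm (e v)))) = c.1 v
    rw [e.symm_apply_apply, e.symm_apply_apply]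
  · intro c
    apply Subtype.ext
    apply LinearMap.ext
    intro v
    change e (e.symm (c.1 (e (e.symm v)))) = c.1 v
    rw [e.apply_symm_apply, e.apply_symm_apply]

theorem pak_cm_pos [Finite F] [FiniteDimensional F V] (a : V →ₗ[F] V) : 0 < Cm a := by
  haveI := PAR_aux.fin_end (F := F) (V := V)
  haveI : Nonempty {c : V →ₗ[F] V // c ∘ₗ a = a ∘ₗ c} := ⟨⟨0, by simp⟩⟩
  exact Nat.card_pos

end

/-- The sum of the weights. -/
theorem pak_weight (hCLE : S_CLE) (κ : Kd) (m : List ℕ) (hm : ∀ k ∈ m, 2 ≤ k) (E : ℝ)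
    (F V : Type) [Field F] [Finite F] [AddCommGroup V] [Module F V] [FiniteDimensional F V]
    (z : F) (g : Fin m.length → F[X]) (hg : Gp m g)
    (hU : ∀ y : Fin m.length → (V →ₗ[F] V), (∀ j, aeval (y j) (g j) = 0) →
      (Nat.card {t : (Fin m.length → (V →ₗ[F] V)) × (Fin κ.h → (V →ₗ[F] V)) //
          (∀ j, Cj (y j) (t.1 j)) ∧ (∀ i, IsUnit (t.2 i)) ∧
          Wk κ z (List.ofFn t.1).prod t.2 = 0} : ℝ) ≤
      (Nat.card F : ℝ) ^ E * ∏ j, (Cm (y j) : ℝ) ^ (-(1 / 2) : ℝ))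
    (S : Finset ((Fin m.length → (V →ₗ[F] V)) × (Fin κ.h → (V →ₗ[F] V))))
    (hS : ∀ t, t ∈ S ↔ Tl κ z g t.1 t.2) :
    ∑ t ∈ S, ∏ j, (Cm (t.1 j) : ℝ) ^ (1 / 2 : ℝ) ≤
      ((Module.finrank F V : ℝ) + 1) ^ m.sum * (Nat.card F : ℝ) ^ E := by
  classical
  haveI : Fintype F := Fintype.ofFinite F
  haveI := PAR_aux.fin_end (F := F) (V := V)
  have hq0 : (0 : ℝ) < Nat.card F := by exact_mod_cast Nat.card_pos
  have hR : ∀ j, ∃ R : Finset (V →ₗ[F] V), R.card ≤ (Module.finrank F V + 1) ^ m.get j ∧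
      (∀ r ∈ R, aeval r (g j) = 0) ∧ ∀ a : V →ₗ[F] V, aeval a (g j) = 0 → ∃ r ∈ R, Cj r a := by
    intro j
    obtain ⟨h1, h2, h3⟩ := hg j
    have h4 : 2 ≤ m.get j := hm _ (List.get_mem m j)
    have h5 := (hCLE F V (g j) h1 (by omega)).1
    rw [h2] at h5
    exact h5
  choose R hRc hR0 hRr using hR
  let rep : Fin m.length → (V →ₗ[F] V) → (V →ₗ[F] V) := fun j a =>
    if h : aeval a (g j) = 0 then (hRr j a h).choose else 0
  have hrep : ∀ j a, aeval a (g j) = 0 → rep j a ∈ R j ∧ Cj (rep j a) a := by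
    intro j a h
    have h1 : rep j a = (hRr j a h).choose := dif_pos h
    rw [h1]
    exact (hRr j a h).choose_spec
  let G : (Fin m.length → (V →ₗ[F] V)) × (Fin κ.h → (V →ₗ[F] V)) →
      (Fin m.length → (V →ₗ[F] V)) := fun t j => rep j (t.1 j)
  have h1 : ∑ t ∈ S, ∏ j, (Cm (t.1 j) : ℝ) ^ (1 / 2 : ℝ) =
      ∑ y ∈ S.image G, ∑ t ∈ S.filter (fun t => G t = y),
        ∏ j, (Cm (t.1 j) : ℝ) ^ (1 / 2 : ℝ) :=
    (Finset.sum_fiberwise_of_maps_to (fun t ht => Finset.mem_image_of_mem G ht) _).symm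
  have h2 : ∀ y ∈ S.image G, ∑ t ∈ S.filter (fun t => G t = y),
      ∏ j, (Cm (t.1 j) : ℝ) ^ (1 / 2 : ℝ) ≤ (Nat.card F : ℝ) ^ E := by
    intro y hy
    have hy0 : ∀ j, aeval (y j) (g j) = 0 := by
      obtain ⟨t, ht, rfl⟩ := Finset.mem_image.1 hy
      intro j
      exact hR0 j _ (hrep j (t.1 j) (((hS t).1 ht).1 j)).1
    have h3 : ∑ t ∈ S.filter (fun t => G t = y), ∏ j, (Cm (t.1 j) : ℝ) ^ (1 / 2 : ℝ) =
        ((S.filter (fun t => G t = y)).card : ℝ) * ∏ j, (Cm (y j) : ℝ) ^ (1 / 2 : ℝ) := by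
      rw [← nsmul_eq_mul, ← Finset.sum_const]
      refine Finset.sum_congr rfl fun t ht => ?_
      obtain ⟨ht1, ht2⟩ := Finset.mem_filter.1 ht
      refine Finset.prod_congr rfl fun j _ => ?_
      have h4 : Cj (y j) (t.1 j) := by
        rw [← ht2]
        exact (hrep j (t.1 j) (((hS t).1 ht1).1 j)).2
      rw [pak_cm_conj h4]
    have h4 : ((S.filter (fun t => G t = y)).card : ℝ) ≤
        (Nat.card {t : (Fin m.length → (V →ₗ[F] V)) × (Fin κ.h → (V →ₗ[F] V)) //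
          (∀ j, Cj (y j) (t.1 j)) ∧ (∀ i, IsUnit (t.2 i)) ∧
          Wk κ z (List.ofFn t.1).prod t.2 = 0} : ℝ) := by
      rw [← Nat.card_eq_finsetCard]
      have : Nat.card (S.filter (fun t => G t = y)) ≤
        Nat.card {t : (Fin m.length → (V →ₗ[F] V)) × (Fin κ.h → (V →ₗ[F] V)) //
          (∀ j, Cj (y j) (t.1 j)) ∧ (∀ i, IsUnit (t.2 i)) ∧
          Wk κ z (List.ofFn t.1).prod t.2 = 0} := by
        refine Nat.card_le_card_of_injective (fun t => ⟨t.1, ?_⟩) ?_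
        · obtain ⟨h5, h6⟩ := Finset.mem_filter.1 t.2
          obtain ⟨h7, h8, h9⟩ := (hS t.1).1 h5
          refine ⟨?_, h8, h9⟩
          intro j
          have h10 := (hrep j (t.1.1 j) (h7 j)).2
          have h11 : rep j (t.1.1 j) = y j := congrFun h6 j
          rw [h11] at h10
          exact h10
        · intro t t' htt
          apply Subtype.ext
          exact congrArg (fun s => s.1) htt
      exact_mod_cast this
    rw [h3]
    have h5 := h4.trans (hU y hy0)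
    have hpos : ∀ j, (0 : ℝ) < Cm (y j) := fun j => by exact_mod_cast pak_cm_pos (y j)
    have h6 := mul_le_mul_of_nonneg_right h5
      (Finset.prod_nonneg (fun j _ => Real.rpow_nonneg (hpos j).le (1 / 2 : ℝ)) :
        (0 : ℝ) ≤ ∏ j, (Cm (y j) : ℝ) ^ (1 / 2 : ℝ))
    refine h6.trans (le_of_eq ?_)
    rw [mul_assoc, ← Finset.prod_mul_distrib]
    have h7 : ∀ j, (Cm (y j) : ℝ) ^ (-(1 / 2) : ℝ) * (Cm (y j) : ℝ) ^ (1 / 2 : ℝ) = 1 := by
      intro j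
      rw [← Real.rpow_add (hpos j), neg_add_cancel, Real.rpow_zero]
    rw [Finset.prod_congr rfl (fun j _ => h7 j), Finset.prod_const_one, mul_one]
  have hcard : ((S.image G).card : ℝ) ≤ ((Module.finrank F V : ℝ) + 1) ^ m.sum := by
    have hsub : S.image G ⊆ Fintype.piFinset (fun j => R j) := by
      intro y hy
      obtain ⟨t, ht, rfl⟩ := Finset.mem_image.1 hy
      rw [Fintype.mem_piFinset]
      intro j
      exact (hrep j (t.1 j) (((hS t).1 ht).1 j)).1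
    have h3 : (S.image G).card ≤ (Module.finrank F V + 1) ^ m.sum := by
      calc (S.image G).card ≤ (Fintype.piFinset (fun j => R j)).card :=
            Finset.card_le_card hsub
        _ = ∏ j, (R j).card := Fintype.card_piFinset _
        _ ≤ ∏ j : Fin m.length, (Module.finrank F V + 1) ^ m.get j :=
            Finset.prod_le_prod' fun j _ => hRc j
        _ = (Module.finrank F V + 1) ^ m.sum := by
            rw [Finset.prod_pow_eq_pow_sum, PAR_aux.sum_get]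
    exact_mod_cast h3
  rw [h1]
  calc ∑ y ∈ S.image G, ∑ t ∈ S.filter (fun t => G t = y),
        ∏ j, (Cm (t.1 j) : ℝ) ^ (1 / 2 : ℝ)
      ≤ ∑ y ∈ S.image G, (Nat.card F : ℝ) ^ E := Finset.sum_le_sum h2
    _ = ((S.image G).card : ℝ) * (Nat.card F : ℝ) ^ E := by
        rw [Finset.sum_const, nsmul_eq_mul]
    _ ≤ _ := mul_le_mul_of_nonneg_right hcard (Real.rpow_nonneg hq0.le _)

/-- The product of the `Zc`. -/
theorem pak_zc (hCSE : S_CSE) (m : List ℕ) (hm : ∀ k ∈ m, 2 ≤ k)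
    (F A B : Type) [Field F] [Finite F] [AddCommGroup A] [Module F A] [FiniteDimensional F A]
    [AddCommGroup B] [Module F B] [FiniteDimensional F B]
    (g : Fin m.length → F[X]) (hg : Gp m g) (a : Fin m.length → (A →ₗ[F] A))
    (b : Fin m.length → (B →ₗ[F] B)) (ha : ∀ j, aeval (a j) (g j) = 0)
    (hb : ∀ j, aeval (b j) (g j) = 0) :
    (∏ j, (Zc (g j) (a j) (b j) : ℝ)) ≤
      (∏ j, (Cm (a j) : ℝ) ^ (1 / 2 : ℝ)) * (∏ j, (Cm (b j) : ℝ) ^ (1 / 2 : ℝ)) *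
        (Nat.card F : ℝ) ^ ((m.length : ℝ) * (Module.finrank F A * Module.finrank F B) -
          ((m.length : ℝ) - sig m) * ((Module.finrank F A : ℝ) + Module.finrank F B) ^ 2 / 2) := by
  have hq0 : (0 : ℝ) < Nat.card F := by exact_mod_cast Nat.card_pos
  set q : ℝ := (Nat.card F : ℝ) with hq
  set α : ℝ := (Module.finrank F A : ℝ) with hα
  set β : ℝ := (Module.finrank F B : ℝ) with hβ
  have h1 : ∀ j, (Zc (g j) (a j) (b j) : ℝ) ≤
      (Cm (a j) : ℝ) ^ (1 / 2 : ℝ) * (Cm (b j) : ℝ) ^ (1 / 2 : ℝ) *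
        q ^ (α * β - 1 / (m.get j : ℝ) * (α + β) ^ 2 / 2) := by
    intro j
    obtain ⟨h2, h3, h4⟩ := hg j
    have h5 : 2 ≤ m.get j := hm _ (List.get_mem m j)
    have h6 := hCSE F A B (g j) h2 (by omega) (a j) (b j) (ha j) (hb j) 1
    rw [h3, ← hq, ← hα, ← hβ] at h6
    have hCa : (0 : ℝ) ≤ Cm (a j) := Nat.cast_nonneg _
    have hCb : (0 : ℝ) ≤ Cm (b j) := Nat.cast_nonneg _
    have hZ : (0 : ℝ) ≤ Zc (g j) (a j) (b j) := Nat.cast_nonneg _
    have h7 := Real.rpow_le_rpow (by positivity) h6 (by norm_num : (0 : ℝ) ≤ 1 / 2)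
    have h8 : ((Zc (g j) (a j) (b j) : ℝ) ^ (2 * 1)) ^ (1 / 2 : ℝ) = Zc (g j) (a j) (b j) := by
      rw [mul_one, ← Real.sqrt_eq_rpow, Real.sqrt_sq hZ]
    rw [h8] at h7
    refine h7.trans (le_of_eq ?_)
    rw [Real.mul_rpow (by positivity) (by positivity), Real.mul_rpow (by positivity) hCb]
    congr 1
    · congr 2
      rw [one_pow, pow_one]
    · rw [← Real.rpow_mul hq0.le]
      congr 1
      push_cast
      ring
  have h2 : (∏ j, (Zc (g j) (a j) (b j) : ℝ)) ≤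
      ∏ j, ((Cm (a j) : ℝ) ^ (1 / 2 : ℝ) * (Cm (b j) : ℝ) ^ (1 / 2 : ℝ) *
        q ^ (α * β - 1 / (m.get j : ℝ) * (α + β) ^ 2 / 2)) :=
    Finset.prod_le_prod (fun j _ => Nat.cast_nonneg _) (fun j _ => h1 j)
  refine h2.trans (le_of_eq ?_)
  rw [Finset.prod_mul_distrib, Finset.prod_mul_distrib]
  congr 1
  rw [← Real.rpow_sum_of_pos hq0]
  congr 1
  have h3 : (∑ j : Fin m.length, 1 / ((m.get j : ℕ) : ℝ) * (α + β) ^ 2 / 2) =
      ((m.length : ℝ) - sig m) * (α + β) ^ 2 / 2 := by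
    rw [← PAR_aux.sig_eq, Finset.sum_mul, Finset.sum_div]
  rw [Finset.sum_sub_distrib, h3]
  simp

theorem t_PAK : M_PAK := by
  classical
  intro hCLE hCSE _ hUPE hTLR hFBK κ m hm hth
  obtain ⟨C₀, hC₀, hUPE⟩ := hUPE κ m hm hth
  refine ⟨2 * C₀, by positivity, ?_⟩
  intro F V _ _ _ _ _ z hz g hg W H hH
  haveI : Fintype F := Fintype.ofFinite F
  haveI := PAR_aux.fin_end (F := F) (V := V)
  haveI := PAR_aux.fin_end (F := F) (V := W)
  haveI := PAR_aux.fin_end (F := F) (V := V ⧸ W)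
  haveI : Fintype ((Fin m.length → (V →ₗ[F] V)) × (Fin κ.h → (V →ₗ[F] V))) := Fintype.ofFinite _
  haveI : Fintype ((Fin m.length → (W →ₗ[F] W)) × (Fin κ.h → (W →ₗ[F] W))) := Fintype.ofFinite _
  haveI : Fintype ((Fin m.length → ((V ⧸ W) →ₗ[F] (V ⧸ W))) × (Fin κ.h → ((V ⧸ W) →ₗ[F] (V ⧸ W)))) :=
    Fintype.ofFinite _
  have hq0 : (0 : ℝ) < Nat.card F := by exact_mod_cast Nat.card_pos
  have hq1 : (1 : ℝ) ≤ Nat.card F := by
    have : 0 < Nat.card F := Nat.card_pos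
    exact_mod_cast this
  set q : ℝ := (Nat.card F : ℝ) with hq
  set kk : ℕ := Module.finrank F W with hkk
  set ll : ℕ := Module.finrank F (V ⧸ W) with hll
  have hn : Module.finrank F V = kk + ll := by
    rw [add_comm]
    exact (Submodule.finrank_quotient_add_finrank W).symm
  set κ₀ : ℝ := (m.length + sig m) / 2 - 1 + κ.h with hκ
  let SA : Finset ((Fin m.length → (W →ₗ[F] W)) × (Fin κ.h → (W →ₗ[F] W))) :=
    Finset.univ.filter fun a => Tl κ z g a.1 a.2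
  let SB : Finset ((Fin m.length → ((V ⧸ W) →ₗ[F] (V ⧸ W))) ×
      (Fin κ.h → ((V ⧸ W) →ₗ[F] (V ⧸ W)))) :=
    Finset.univ.filter fun a => Tl κ z g a.1 a.2
  have hSA : ∀ a, a ∈ SA ↔ Tl κ z g a.1 a.2 := by
    intro a
    simp [SA]
  have hSB : ∀ a, a ∈ SB ↔ Tl κ z g a.1 a.2 := by
    intro a
    simp [SB]
  let SX : Finset ((Fin m.length → (V →ₗ[F] V)) × (Fin κ.h → (V →ₗ[F] V))) :=
    Finset.univ.filter fun x => Tl κ z g x.1 x.2 ∧ ∃ h : Ik x.1 x.2 W,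
            (Nat.card (Hk κ (sb x.1 W h.1) (sb x.2 W h.2) (qt x.1 W h.1) (qt x.2 W h.2)) : ℝ) ≤ H
  have hSX : ∀ x, x ∈ SX ↔ Tl κ z g x.1 x.2 ∧ ∃ h : Ik x.1 x.2 W,
            (Nat.card (Hk κ (sb x.1 W h.1) (sb x.2 W h.2) (qt x.1 W h.1) (qt x.2 W h.2)) : ℝ) ≤
              H := by
    intro x
    simp [SX]
  have hN : Nat.card {x : (Fin m.length → (V →ₗ[F] V)) × (Fin κ.h → (V →ₗ[F] V)) //
          Tl κ z g x.1 x.2 ∧ ∃ h : Ik x.1 x.2 W,
            (Nat.card (Hk κ (sb x.1 W h.1) (sb x.2 W h.2) (qt x.1 W h.1) (qt x.2 W h.2)) : ℝ) ≤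
              H} = SX.card := by
    rw [Nat.card_eq_fintype_card, Fintype.card_subtype]
  rw [hN]
  let Fb : ((Fin m.length → (W →ₗ[F] W)) × (Fin κ.h → (W →ₗ[F] W))) ×
      ((Fin m.length → ((V ⧸ W) →ₗ[F] (V ⧸ W))) × (Fin κ.h → ((V ⧸ W) →ₗ[F] (V ⧸ W)))) →
      Finset ((Fin m.length → (V →ₗ[F] V)) × (Fin κ.h → (V →ₗ[F] V))) := fun p =>
    SX.filter fun x => ∃ h : Ik x.1 x.2 W, sb x.1 W h.1 = p.1.1 ∧ sb x.2 W h.2 = p.1.2 ∧
      qt x.1 W h.1 = p.2.1 ∧ qt x.2 W h.2 = p.2.2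
  -- the weights
  have hwA := pak_weight hCLE κ m hm (C₀ + κ₀ * (kk : ℝ) ^ 2) F W z g hg
    (fun y hy => hUPE F W z hz g hg y hy) SA hSA
  have hwB := pak_weight hCLE κ m hm (C₀ + κ₀ * (ll : ℝ) ^ 2) F (V ⧸ W) z g hg
    (fun y hy => hUPE F (V ⧸ W) z hz g hg y hy) SB hSB
  have hcover : SX.card ≤ ∑ p ∈ SA ×ˢ SB, (Fb p).card := by
    have h1 : SX ⊆ (SA ×ˢ SB).biUnion Fb := by
      intro x hx
      obtain ⟨hx1, h, hx3⟩ := (hSX x).1 hx
      rw [Finset.mem_biUnion]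
      refine ⟨((sb x.1 W h.1, sb x.2 W h.2), (qt x.1 W h.1, qt x.2 W h.2)), ?_, ?_⟩
      · rw [Finset.mem_product]
        have h2 := (hTLR κ F V m.length z g x.1 x.2 hx1).1 W h
        exact ⟨(hSA _).2 h2.1, (hSB _).2 h2.2⟩
      · exact Finset.mem_filter.2 ⟨hx, h, rfl, rfl, rfl, rfl⟩
    exact (Finset.card_le_card h1).trans Finset.card_biUnion_le
  have hfib : ∀ p ∈ SA ×ˢ SB, ((Fb p).card : ℝ) ≤
      q ^ (((m.length : ℝ) + κ.h - 1) * (kk * ll) -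
        ((m.length : ℝ) - sig m) * ((kk : ℝ) + ll) ^ 2 / 2) * H *
      ((∏ j, (Cm (p.1.1 j) : ℝ) ^ (1 / 2 : ℝ)) * (∏ j, (Cm (p.2.1 j) : ℝ) ^ (1 / 2 : ℝ))) := by
    rintro ⟨⟨a, u⟩, ⟨b, v⟩⟩ hp
    obtain ⟨ha, hb⟩ := Finset.mem_product.1 hp
    have ha1 := (hSA (a, u)).1 ha
    have hb1 := (hSB (b, v)).1 hb
    have hA0 : (0 : ℝ) ≤ ∏ j, (Cm (a j) : ℝ) ^ (1 / 2 : ℝ) :=
      Finset.prod_nonneg fun j _ => Real.rpow_nonneg (Nat.cast_nonneg _) _
    have hB0 : (0 : ℝ) ≤ ∏ j, (Cm (b j) : ℝ) ^ (1 / 2 : ℝ) :=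
      Finset.prod_nonneg fun j _ => Real.rpow_nonneg (Nat.cast_nonneg _) _
    rcases (Fb ((a, u), (b, v))).eq_empty_or_nonempty with h0 | ⟨x, hx⟩
    · rw [h0, Finset.card_empty, Nat.cast_zero]
      positivity
    · obtain ⟨hxS, h', hxa, hxu, hxb, hxv⟩ := Finset.mem_filter.1 hx
      obtain ⟨_, h, hxH⟩ := (hSX x).1 hxS
      have hHm : (Nat.card (Hk κ a u b v) : ℝ) ≤ H := by
        have e1 : sb x.1 W h.1 = a := hxa
        have e2 : qt x.1 W h.1 = b := hxb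
        have e3 : sb x.2 W h.2 = u := hxu
        have e4 : qt x.2 W h.2 = v := hxv
        rw [e1, e2, e3, e4] at hxH
        exact hxH
      have h1 := hFBK κ F V m.length z hz g W a u b v ha1 hb1
      rw [← hkk, ← hll] at h1
      have h2 : (Fb ((a, u), (b, v))).card ≤
          Nat.card {x : (Fin m.length → (V →ₗ[F] V)) × (Fin κ.h → (V →ₗ[F] V)) //
          Tl κ z g x.1 x.2 ∧ ∃ h : Ik x.1 x.2 W,
            sb x.1 W h.1 = a ∧ sb x.2 W h.2 = u ∧ qt x.1 W h.1 = b ∧ qt x.2 W h.2 = v} := by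
        rw [← Nat.card_eq_finsetCard]
        refine Nat.card_le_card_of_injective (fun t => ⟨t.1, ?_⟩) ?_
        · obtain ⟨h5, h6⟩ := Finset.mem_filter.1 t.2
          exact ⟨((hSX t.1).1 h5).1, h6⟩
        · intro t t' htt
          apply Subtype.ext
          exact congrArg (fun s => s.1) htt
      have hZ0 : (0 : ℝ) ≤ ∏ j, (Zc (g j) (a j) (b j) : ℝ) :=
        Finset.prod_nonneg fun j _ => Nat.cast_nonneg _
      have h3 : ((Fb ((a, u), (b, v))).card : ℝ) * q ^ (kk * ll) ≤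
          q ^ (κ.h * (kk * ll)) * (∏ j, (Zc (g j) (a j) (b j) : ℝ)) * H := by
        have h4 : ((Fb ((a, u), (b, v))).card : ℝ) * q ^ (kk * ll) ≤
            q ^ (κ.h * (kk * ll)) * (∏ j, (Zc (g j) (a j) (b j) : ℝ)) *
              (Nat.card (Hk κ a u b v) : ℝ) := by
          have h5 := (Nat.mul_le_mul_right (Nat.card F ^ (kk * ll)) h2).trans h1
          rw [hq]
          exact_mod_cast h5
        exact h4.trans (mul_le_mul_of_nonneg_left hHm (by positivity))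
      have hZ := pak_zc hCSE m hm F W (V ⧸ W) g hg a b ha1.1 hb1.1
      rw [← hkk, ← hll, ← hq] at hZ
      -- divide
      have h9 : 0 < q ^ (kk * ll) := by positivity
      have h10 : q ^ (((κ.h : ℝ) - 1) * (kk * ll)) * q ^ (kk * ll) = q ^ (κ.h * (kk * ll)) := by
        rw [← Real.rpow_natCast q (kk * ll), ← Real.rpow_natCast q (κ.h * (kk * ll)),
          ← Real.rpow_add hq0]
        congr 1
        push_cast
        ring
      have h8 : ((Fb ((a, u), (b, v))).card : ℝ) ≤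
          q ^ (((κ.h : ℝ) - 1) * (kk * ll)) * (∏ j, (Zc (g j) (a j) (b j) : ℝ)) * H := by
        rw [← h10] at h3
        refine le_of_mul_le_mul_right (h3.trans (le_of_eq ?_)) h9
        ring
      refine h8.trans ?_
      have h11 : q ^ (((κ.h : ℝ) - 1) * (kk * ll)) * (∏ j, (Zc (g j) (a j) (b j) : ℝ)) ≤
          q ^ (((κ.h : ℝ) - 1) * (kk * ll)) *
          ((∏ j, (Cm (a j) : ℝ) ^ (1 / 2 : ℝ)) * (∏ j, (Cm (b j) : ℝ) ^ (1 / 2 : ℝ)) *
            q ^ ((m.length : ℝ) * (kk * ll) -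
              ((m.length : ℝ) - sig m) * ((kk : ℝ) + ll) ^ 2 / 2)) :=
        mul_le_mul_of_nonneg_left hZ (Real.rpow_nonneg hq0.le _)
      refine (mul_le_mul_of_nonneg_right h11 hH).trans (le_of_eq ?_)
      have h12 : q ^ (((m.length : ℝ) + κ.h - 1) * (kk * ll) -
          ((m.length : ℝ) - sig m) * ((kk : ℝ) + ll) ^ 2 / 2) =
          q ^ (((κ.h : ℝ) - 1) * (kk * ll)) * q ^ ((m.length : ℝ) * (kk * ll) -
              ((m.length : ℝ) - sig m) * ((kk : ℝ) + ll) ^ 2 / 2) := by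
        rw [← Real.rpow_add hq0]
        congr 1
        ring
      rw [h12]
      ring
  have hsum : (SX.card : ℝ) ≤ q ^ (((m.length : ℝ) + κ.h - 1) * (kk * ll) -
        ((m.length : ℝ) - sig m) * ((kk : ℝ) + ll) ^ 2 / 2) * H *
      ((∑ a ∈ SA, ∏ j, (Cm (a.1 j) : ℝ) ^ (1 / 2 : ℝ)) *
        (∑ b ∈ SB, ∏ j, (Cm (b.1 j) : ℝ) ^ (1 / 2 : ℝ))) := by
    have h1 : (SX.card : ℝ) ≤ ∑ p ∈ SA ×ˢ SB, ((Fb p).card : ℝ) := by exact_mod_cast hcover
    refine h1.trans ((Finset.sum_le_sum hfib).trans (le_of_eq ?_))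
    rw [← Finset.mul_sum, Finset.sum_product, Finset.sum_mul_sum]
  refine hsum.trans ?_
  have hA0 : 0 ≤ ∑ a ∈ SA, ∏ j, (Cm (a.1 j) : ℝ) ^ (1 / 2 : ℝ) :=
    Finset.sum_nonneg fun a _ => Finset.prod_nonneg fun j _ =>
      Real.rpow_nonneg (Nat.cast_nonneg _) _
  have hB0 : 0 ≤ ∑ b ∈ SB, ∏ j, (Cm (b.1 j) : ℝ) ^ (1 / 2 : ℝ) :=
    Finset.sum_nonneg fun a _ => Finset.prod_nonneg fun j _ =>
      Real.rpow_nonneg (Nat.cast_nonneg _) _
  have h1 : (∑ a ∈ SA, ∏ j, (Cm (a.1 j) : ℝ) ^ (1 / 2 : ℝ)) *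
        (∑ b ∈ SB, ∏ j, (Cm (b.1 j) : ℝ) ^ (1 / 2 : ℝ)) ≤
      (((kk : ℝ) + 1) ^ m.sum * q ^ (C₀ + κ₀ * (kk : ℝ) ^ 2)) *
        (((ll : ℝ) + 1) ^ m.sum * q ^ (C₀ + κ₀ * (ll : ℝ) ^ 2)) :=
    mul_le_mul hwA hwB hB0 (by positivity)
  have h2 := mul_le_mul_of_nonneg_left h1 (by positivity :
    0 ≤ q ^ (((m.length : ℝ) + κ.h - 1) * (kk * ll) -
        ((m.length : ℝ) - sig m) * ((kk : ℝ) + ll) ^ 2 / 2) * H)
  refine h2.trans ?_
  have h3 : ((kk : ℝ) + 1) ^ m.sum * ((ll : ℝ) + 1) ^ m.sum ≤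
      ((Module.finrank F V : ℝ) + 1) ^ (2 * m.sum) := by
    rw [hn, two_mul, pow_add]
    push_cast
    have e1 : (0 : ℝ) ≤ kk := Nat.cast_nonneg _
    have e2 : (0 : ℝ) ≤ ll := Nat.cast_nonneg _
    apply mul_le_mul
    · exact pow_le_pow_left₀ (by positivity) (by linarith) _
    · exact pow_le_pow_left₀ (by positivity) (by linarith) _
    · positivity
    · positivity
  have h4 : q ^ (((m.length : ℝ) + κ.h - 1) * (kk * ll) -
        ((m.length : ℝ) - sig m) * ((kk : ℝ) + ll) ^ 2 / 2) *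
      (q ^ (C₀ + κ₀ * (kk : ℝ) ^ 2) * q ^ (C₀ + κ₀ * (ll : ℝ) ^ 2)) =
      q ^ (2 * C₀ + (th κ m + 1) * (Module.finrank F V : ℝ) ^ 2 -
          (th κ m + 1) * (kk * ll)) := by
    rw [← Real.rpow_add hq0, ← Real.rpow_add hq0, hn, hκ]
    congr 1
    unfold th
    push_cast
    ring
  calc q ^ (((m.length : ℝ) + κ.h - 1) * (kk * ll) -
        ((m.length : ℝ) - sig m) * ((kk : ℝ) + ll) ^ 2 / 2) * H *
      ((((kk : ℝ) + 1) ^ m.sum * q ^ (C₀ + κ₀ * (kk : ℝ) ^ 2)) *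
        (((ll : ℝ) + 1) ^ m.sum * q ^ (C₀ + κ₀ * (ll : ℝ) ^ 2)))
      = (((kk : ℝ) + 1) ^ m.sum * ((ll : ℝ) + 1) ^ m.sum) *
        (q ^ (((m.length : ℝ) + κ.h - 1) * (kk * ll) -
        ((m.length : ℝ) - sig m) * ((kk : ℝ) + ll) ^ 2 / 2) *
      (q ^ (C₀ + κ₀ * (kk : ℝ) ^ 2) * q ^ (C₀ + κ₀ * (ll : ℝ) ^ 2))) * H := by ring
    _ = (((kk : ℝ) + 1) ^ m.sum * ((ll : ℝ) + 1) ^ m.sum) *
        q ^ (2 * C₀ + (th κ m + 1) * (Module.finrank F V : ℝ) ^ 2 -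
          (th κ m + 1) * (kk * ll)) * H := by rw [h4]
    _ ≤ ((Module.finrank F V : ℝ) + 1) ^ (2 * m.sum) *
        q ^ (2 * C₀ + (th κ m + 1) * (Module.finrank F V : ℝ) ^ 2 -
          (th κ m + 1) * (kk * ll)) * H :=
        mul_le_mul_of_nonneg_right (mul_le_mul_of_nonneg_right h3 (Real.rpow_nonneg hq0.le _)) hH

end

end FLY
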