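import Mathlib
import Pool.Agent.FLY.StY
import Pool.Agent.FGQ.PRQ
import Pool.Agent.FGE.PRNX
import Pool.Agent.RSF.B

/-!
# Module `PRG`: the union bound over structures, all four classes of groups, all fields
-/

set_option autoImplicit false

open RSF

namespace FLY

open FL0 FGE

/-- the number of the tuples for one structure -/
theorem prg_tup {G : Type} [Group G] [Finite G] {h : ℕ} (w : (Fin h → G) → G) {d : ℕ} (i : Fin d)
    (P : Fin d → G → Prop) (R : G → Prop) :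
    Nat.card {t : (Fin d → G) × (Fin h → G) // (∀ j, P j (t.1 j)) ∧ (∀ l, R (t.2 l)) ∧
        (List.ofFn t.1).prod * w t.2 = 1} ≤
      (∏ j ∈ Finset.univ.erase i, Nat.card {g : G // P j g}) * Nat.card {g : G // R g} ^ h := by
  classical
  have h1 : Nat.card {t : (Fin d → G) × (Fin h → G) // (∀ j, P j (t.1 j)) ∧ (∀ l, R (t.2 l)) ∧
        (List.ofFn t.1).prod * w t.2 = 1} ≤
      Nat.card (((j : {j : Fin d // j ≠ i}) → {g : G // P j.1 g}) ×
        (Fin h → {g : G // R g})) := by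
    refine Nat.card_le_card_of_injective
      (fun t => (fun j => ⟨t.1.1 j.1, t.2.1 j.1⟩, fun l => ⟨t.1.2 l, t.2.2.1 l⟩)) ?_
    intro t t' hh
    simp only [Prod.mk.injEq] at hh
    obtain ⟨h2, h3⟩ := hh
    have h4 : t.1.2 = t'.1.2 := funext fun l => congrArg Subtype.val (congrFun h3 l)
    have h5 : ∀ j, j ≠ i → t.1.1 j = t'.1.1 j := fun j hj =>
      congrArg Subtype.val (congrFun h2 ⟨j, hj⟩)
    have h6 : (List.ofFn t.1.1).prod = (List.ofFn t'.1.1).prod := by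
      have h7 := t.2.2.2
      have h8 := t'.2.2.2
      rw [h4] at h7
      exact mul_right_cancel (h7.trans h8.symm)
    apply Subtype.ext
    refine Prod.ext ?_ h4
    funext j
    by_cases hj : j = i
    · subst hj
      exact prn_det d _ _ _ h5 h6
    · exact h5 j hj
  refine h1.trans (le_of_eq ?_)
  rw [Nat.card_prod, Nat.card_pi, Nat.card_fun, Nat.card_eq_fintype_card (α := Fin h),
    Fintype.card_fin]
  congr 1
  exact (Finset.prod_subtype (Finset.univ.erase i) (fun j => by simp)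
    (fun j => Nat.card {g : G // P j g})).symm

/-- a power of the bound -/
theorem prg_bd_pow (C : ℝ) (n : ℕ) (F : Type) [Finite F] [Nonempty F] (e : ℝ) (h : ℕ) :
    Bd C n F e ^ h = Bd (h * C) n F (h * e) := by
  have h1 := prn_bd_prod (Finset.univ : Finset (Fin h)) C n F (fun _ => e)
  rw [Finset.prod_const, Finset.sum_const, Finset.card_univ, Fintype.card_fin, nsmul_eq_mul] at h1
  exact h1

/-- the number of the tuples with a structure -/
theorem prg_num {n : ℕ} {F : Type} [Field F] [Finite F] (hn : 1 ≤ n) {h : ℕ}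
    (w : (Fin h → PS n F) → PS n F) (m : List ℕ) (i : Fin m.length)
    (C μ : ℝ) (I : Type) [Finite I]
    (Q : I → Matrix (Fin n) (Fin n) F → Prop)
    (hI : (Nat.card I : ℝ) ≤ Bd C n F ((1 - μ) * (n : ℝ) ^ 2))
    (hy : ∀ T, ∀ k ∈ m, ∀ β : F, (Nat.card {y : GL (Fin n) F //
          y.1 ^ k = β • (1 : Matrix (Fin n) (Fin n) F) ∧ Q T y.1} : ℝ) ≤
        Bd C n F (μ * (1 - 1 / (k : ℝ)) * (n : ℝ) ^ 2))
    (ha : ∀ T, (Nat.card {y : GL (Fin n) F // Q T y.1} : ℝ) ≤ Bd C n F (μ * (n : ℝ) ^ 2))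
    (X : Type)
    (hX : Nat.card X ≤ Nat.card {t : (Fin m.length → PS n F) × (Fin h → PS n F) // ∃ T,
          (∀ j, t.1 j ^ m.get j = 1 ∧ prn_A (Q T) (t.1 j)) ∧
            (∀ l, prn_A (Q T) (t.2 l)) ∧ (List.ofFn t.1).prod * w t.2 = 1}) :
    (Nat.card X : ℝ) ≤ Bd (C + ((Finset.univ.erase i).card * (C + 1) + h * C)) n F
      ((1 - μ) * (n : ℝ) ^ 2 + (μ * (sig m - (1 - 1 / (m.get i : ℝ))) * (n : ℝ) ^ 2 +
        h * (μ * (n : ℝ) ^ 2))) := by
  classical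
  have hfin : Finite (PS n F) := RSF.B.fin_ps n F
  have hpos : ∀ (D e : ℝ), 0 ≤ Bd D n F e := fun D e => prn_bd_pos D n F e
  have hone : ∀ T : I, (Nat.card {t : (Fin m.length → PS n F) × (Fin h → PS n F) //
      (∀ j, t.1 j ^ m.get j = 1 ∧ prn_A (Q T) (t.1 j)) ∧
        (∀ l, prn_A (Q T) (t.2 l)) ∧ (List.ofFn t.1).prod * w t.2 = 1} : ℝ) ≤
      (∏ j ∈ Finset.univ.erase i, Bd (C + 1) n F (μ * (1 - 1 / (m.get j : ℝ)) * (n : ℝ) ^ 2)) *
        Bd C n F (μ * (n : ℝ) ^ 2) ^ h := by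
    intro T
    have h1 := prg_tup (G := PS n F) w i (fun j g => g ^ m.get j = 1 ∧ prn_A (Q T) g)
      (prn_A (Q T))
    have h2 : (Nat.card {t : (Fin m.length → PS n F) × (Fin h → PS n F) //
        (∀ j, t.1 j ^ m.get j = 1 ∧ prn_A (Q T) (t.1 j)) ∧
          (∀ l, prn_A (Q T) (t.2 l)) ∧ (List.ofFn t.1).prod * w t.2 = 1} : ℝ) ≤
        (∏ j ∈ Finset.univ.erase i,
          (Nat.card {g : PS n F // g ^ m.get j = 1 ∧ prn_A (Q T) g} : ℝ)) *
          (Nat.card {g : PS n F // prn_A (Q T) g} : ℝ) ^ h := by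
      exact_mod_cast h1
    refine h2.trans ?_
    have h5 : (Nat.card {g : PS n F // prn_A (Q T) g} : ℝ) ≤ Bd C n F (μ * (n : ℝ) ^ 2) := by
      have h3 := prn_el2 (n := n) (F := F) (Q T)
      have h4 : (Nat.card {g : PS n F // prn_A (Q T) g} : ℝ) ≤
          Nat.card {y : GL (Fin n) F // Q T y.1} := by exact_mod_cast h3
      exact h4.trans (ha T)
    refine mul_le_mul ?_ (pow_le_pow_left₀ (Nat.cast_nonneg _) h5 h)
      (pow_nonneg (Nat.cast_nonneg _) h) (Finset.prod_nonneg fun j _ => hpos _ _)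
    refine Finset.prod_le_prod (fun j _ => Nat.cast_nonneg _) fun j _ => ?_
    have hmj := List.get_mem m j
    exact FGQ.prq_el hn (m.get j) (Q T) C _ (hy T _ hmj)
  have h3 := prn_un (I := I) (T := (Fin m.length → PS n F) × (Fin h → PS n F))
    (fun T t => (∀ j, t.1 j ^ m.get j = 1 ∧ prn_A (Q T) (t.1 j)) ∧
          (∀ l, prn_A (Q T) (t.2 l)) ∧ (List.ofFn t.1).prod * w t.2 = 1) _ hone
  have hsum : ∑ j ∈ Finset.univ.erase i, μ * (1 - 1 / (m.get j : ℝ)) * (n : ℝ) ^ 2 =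
      μ * (sig m - (1 - 1 / (m.get i : ℝ))) * (n : ℝ) ^ 2 := by
    rw [← Finset.sum_mul, ← Finset.mul_sum, prn_sum]
  have hnum : (Nat.card X : ℝ) ≤ Nat.card I * ((∏ j ∈ Finset.univ.erase i,
        Bd (C + 1) n F (μ * (1 - 1 / (m.get j : ℝ)) * (n : ℝ) ^ 2)) *
        Bd C n F (μ * (n : ℝ) ^ 2) ^ h) :=
    le_trans (by exact_mod_cast hX) h3
  rw [prn_bd_prod, hsum, prg_bd_pow, prn_bd_mul] at hnum
  refine hnum.trans ?_
  refine (mul_le_mul_of_nonneg_right hI (hpos _ _)).trans (le_of_eq ?_)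
  rw [prn_bd_mul]

/-- the quotient -/
theorem prg_quot {n : ℕ} {F : Type} [Field F] [Finite F] (K s h x μ A B c₀ C' : ℝ)
    (hx : 0 ≤ x) (hc : c₀ = (s + h - 2 - x) / 2) (hs : 0 < s + h - 2) (hμ1 : μ ≤ 1 / 2)
    (habs : ∀ e : ℝ, e ≤ -(c₀ * (n : ℝ) ^ 2) →
      Bd K n F (e + C') ≤ (Nat.card F : ℝ) ^ (-(2 * (n : ℝ))))
    (hA : A ≤ Bd K n F ((1 - μ) * (n : ℝ) ^ 2 + (μ * (s - (1 - x)) * (n : ℝ) ^ 2 +
        h * (μ * (n : ℝ) ^ 2))))
    (hB : (Nat.card F : ℝ) ^ ((s + h - 2 + 1) * (n : ℝ) ^ 2 - C') ≤ B) :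
    A / B ≤ (Nat.card F : ℝ) ^ (-(2 * (n : ℝ))) := by
  have hq1 : (1 : ℝ) < Nat.card F := by exact_mod_cast (Finite.one_lt_card : 1 < Nat.card F)
  have hq0 : (0 : ℝ) < Nat.card F := by linarith
  refine (div_le_div₀ (prn_bd_pos _ _ _ _) hA (Real.rpow_pos_of_pos hq0 _) hB).trans ?_
  have hdiv : Bd K n F ((1 - μ) * (n : ℝ) ^ 2 + (μ * (s - (1 - x)) * (n : ℝ) ^ 2 +
        h * (μ * (n : ℝ) ^ 2))) /
      (Nat.card F : ℝ) ^ ((s + h - 2 + 1) * (n : ℝ) ^ 2 - C') =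
      Bd K n F ((-((1 - μ) * (s + h - 2)) + μ * x) * (n : ℝ) ^ 2 + C') := by
    unfold Bd
    rw [mul_div_assoc, ← Real.rpow_sub hq0]
    congr 2
    ring
  rw [hdiv]
  refine habs _ ?_
  have hN : 0 ≤ (n : ℝ) ^ 2 := by positivity
  have h1 : -((1 - μ) * (s + h - 2)) + μ * x ≤ -c₀ := by
    rw [hc]
    nlinarith
  calc (-((1 - μ) * (s + h - 2)) + μ * x) * (n : ℝ) ^ 2 ≤ -c₀ * (n : ℝ) ^ 2 :=
        mul_le_mul_of_nonneg_right h1 hN
    _ = -(c₀ * (n : ℝ) ^ 2) := by ring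

theorem t_PRG : M_PRG := by
  classical
  intro hLOG κ m hm hth hex C hC
  obtain ⟨k0, hk0, hk1⟩ := hex
  obtain ⟨i, hi⟩ := List.mem_iff_get.1 hk0
  obtain ⟨C', r0, hC', hL⟩ := hLOG κ m hm hth
  unfold th at hth hk1 hL
  obtain ⟨c₀, hc₀⟩ : ∃ c₀ : ℝ, c₀ = (sig m + κ.h - 2 - 1 / (k0 : ℝ)) / 2 := ⟨_, rfl⟩
  have hc : 0 < c₀ := by rw [hc₀]; linarith
  obtain ⟨K, hK⟩ : ∃ K : ℝ, K = C + ((Finset.univ.erase i).card * (C + 1) + κ.h * C) :=
    ⟨_, rfl⟩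
  have hK0 : 0 ≤ K := by rw [hK]; positivity
  obtain ⟨r1, hr1⟩ := prn_abs K C' c₀ hK0 hC' hc
  refine ⟨max r0 (max r1 1), fun n hn F _ _ I _ Q μ _ hμ1 hI hy ha => ?_⟩
  have hn0 : r0 ≤ n := (le_max_left _ _).trans hn
  have hn1 : r1 ≤ n := (le_max_left _ _).trans ((le_max_right _ _).trans hn)
  have hn2 : 1 ≤ n := (le_max_right _ _).trans ((le_max_right _ _).trans hn)
  have hfin : Finite (PS n F) := RSF.B.fin_ps n F
  have hx : 0 ≤ 1 / (k0 : ℝ) := by positivity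
  unfold prk
  refine prg_quot K (sig m) κ.h (1 / (k0 : ℝ)) μ _ _ c₀ C' hx hc₀ hth hμ1 (hr1 n hn1 F) ?_
    (hL n hn0 F)
  have h0 := prg_num hn2 (wk κ) m i C μ I Q hI hy ha
    {p : Tk κ (PS n F) m // ∃ T, All (rg p) (Q T)} (by
    refine Nat.card_le_card_of_injective (fun p => ⟨p.1.1, ?_⟩) ?_
    · obtain ⟨T, hT⟩ := p.2
      refine ⟨T, fun j => ⟨p.1.2.1 j, ?_⟩, fun l => ?_, p.1.2.2⟩
      · exact hT _ (Subgroup.subset_closure (Or.inl ⟨j, rfl⟩))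
      · exact hT _ (Subgroup.subset_closure (Or.inr ⟨l, rfl⟩))
    · intro p p' hp
      simp only [Subtype.mk.injEq] at hp
      exact Subtype.ext (Subtype.ext hp))
  rw [← hK, hi] at h0
  exact h0

end FLY
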