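import Mathlib
import Pool.Agent.FLY.StY
import Pool.Agent.FLN.RED

/-!
# FLY, module REK: the number of the tuples with an invariant subspace
-/

set_option autoImplicit false

namespace FLY

open RSF FL0 FGE Polynomial Pool.Agent.Lib_helper13

noncomputable section

/-- invertibility of the linear map of an invertible matrix -/
theorem rek_isUnit {F : Type} [Field F] {n : ℕ} (A : GL (Fin n) F) : IsUnit (lm A.1) := by
  refine ⟨⟨lm A.1, lm A⁻¹.1, ?_, ?_⟩, rfl⟩
  · rw [← FLN.red_lm_mul, ← Units.val_mul, mul_inv_cancel, Units.val_one, FLN.red_lm_one]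
  · rw [← FLN.red_lm_mul, ← Units.val_mul, inv_mul_cancel, Units.val_one, FLN.red_lm_one]

/-- the value of a polynomial at the linear map of a matrix -/
theorem rek_aeval {F : Type} [Field F] {n : ℕ} (A : Matrix (Fin n) (Fin n) F) (g : F[X])
    (h : aeval A g = 0) : aeval (lm A) g = 0 := by
  have h1 : lm A = (Matrix.toLinAlgEquiv' : Matrix (Fin n) (Fin n) F ≃ₐ[F] _) A := rfl
  rw [h1, Polynomial.aeval_algHom_apply, h, map_zero]

/-- the equation for the linear maps -/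
theorem rek_Wk {F : Type} [Field F] {n : ℕ} (κ : Kd) (z : F) (X : Matrix (Fin n) (Fin n) F)
    (A : Fin κ.h → GL (Fin n) F) (h : X * (wk κ A).1 = Matrix.scalar (Fin n) z) :
    Wk κ z (lm X) (fun i => lm (A i).1) = 0 := by
  cases κ with
  | o0 =>
    unfold Wk
    rw [sub_eq_zero]
    unfold wk at h
    have h1 := congrArg lm h
    rw [Units.val_one, mul_one, FLN.red_lm_scalar] at h1
    exact h1
  | n1 =>
    unfold Wk
    rw [sub_eq_zero]
    unfold wk at h
    have h1 := congrArg lm h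
    rw [FLN.red_lm_scalar, FLN.red_lm_mul, Units.val_pow_eq_pow_val, FLN.red_lm_pow] at h1
    exact h1
  | o1 =>
    unfold Wk
    rw [sub_eq_zero]
    unfold wk at h
    have h1 : X * (A (0 : Fin 2)).1 * (A (1 : Fin 2)).1 =
        Matrix.scalar (Fin n) z * ((A (1 : Fin 2)).1 * (A (0 : Fin 2)).1) := by
      rw [← h, ← Units.val_mul, mul_assoc, mul_assoc, ← Units.val_mul, ← Units.val_mul]
      congr 2
      group
    have h2 := congrArg lm h1
    rw [FLN.red_lm_mul, FLN.red_lm_mul, FLN.red_lm_mul, FLN.red_lm_mul, FLN.red_lm_scalar,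
      smul_one_mul] at h2
    exact h2
  | n2 =>
    unfold Wk
    rw [sub_eq_zero]
    unfold wk at h
    have h1 := congrArg lm h
    rw [FLN.red_lm_scalar, FLN.red_lm_mul, Units.val_mul, FLN.red_lm_mul,
      Units.val_pow_eq_pow_val, Units.val_pow_eq_pow_val, FLN.red_lm_pow, FLN.red_lm_pow,
      ← mul_assoc] at h1
    exact h1

/-- the counted tuples as tuples of endomorphisms -/
theorem rek_card {F : Type} [Field F] [Finite F] {n d : ℕ} (κ : Kd) (z : F)
    (g : Fin d → F[X]) :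
    Nat.card {t : (Fin d → GL (Fin n) F) × (Fin κ.h → GL (Fin n) F) //
        (∀ j, aeval (t.1 j).1 (g j) = 0) ∧
        (List.ofFn t.1).prod.1 * (wk κ t.2).1 = Matrix.scalar (Fin n) z ∧
        ∃ W : Submodule F (Fin n → F), W ≠ ⊥ ∧ W ≠ ⊤ ∧
          (∀ j, ∀ w ∈ W, (t.1 j).1.mulVec w ∈ W) ∧ ∀ i, ∀ w ∈ W, (t.2 i).1.mulVec w ∈ W} ≤
      Nat.card {x : (Fin d → ((Fin n → F) →ₗ[F] (Fin n → F))) ×
          (Fin κ.h → ((Fin n → F) →ₗ[F] (Fin n → F))) //
          Tl κ z g x.1 x.2 ∧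
          ∃ W : Submodule F (Fin n → F), Ik x.1 x.2 W ∧ W ≠ ⊥ ∧ W ≠ ⊤} := by
  have := FLN.red_finEnd (F := F) n
  refine Nat.card_le_card_of_injective (fun t => ⟨⟨fun j => lm (t.1.1 j).1,
    fun i => lm (t.1.2 i).1⟩, ⟨fun j => ?_, fun i => rek_isUnit _, ?_⟩, ?_⟩) ?_
  · exact rek_aeval _ _ (t.2.1 j)
  · have h := rek_Wk κ z _ t.1.2 t.2.2.1
    have h1 : (List.ofFn t.1.1).prod.1 = (List.ofFn fun j => (t.1.1 j).1).prod := by
      have h2 : (List.ofFn t.1.1).prod.1 = Units.coeHom (Matrix (Fin n) (Fin n) F)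
        (List.ofFn t.1.1).prod := rfl
      rw [h2, map_list_prod, List.map_ofFn]
      rfl
    rw [h1, FLN.red_lm_prod, List.map_ofFn] at h
    exact h
  · obtain ⟨W, h1, h2, h3, h4⟩ := t.2.2.2
    refine ⟨W, ⟨fun j w hw => ?_, fun i w hw => ?_⟩, h1, h2⟩
    · rw [Submodule.mem_comap]
      exact h3 j w hw
    · rw [Submodule.mem_comap]
      exact h4 i w hw
  · intro t t' h
    have h1 := congrArg Subtype.val h
    apply Subtype.ext
    apply Prod.ext
    · funext j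
      have h2 := congrFun (congrArg Prod.fst h1) j
      exact Units.ext (Matrix.toLin'.injective h2)
    · funext i
      have h2 := congrFun (congrArg Prod.snd h1) i
      exact Units.ext (Matrix.toLin'.injective h2)

/-- the image in `V` of an invariant subspace of `W` is invariant -/
theorem rek_map {F V : Type} [Field F] [AddCommGroup V] [Module F V] {d : ℕ}
    (x : Fin d → (V →ₗ[F] V)) (W : Submodule F V) (h : Inv x W) (U : Submodule F W)
    (hU : Inv (sb x W h) U) : Inv x (U.map W.subtype) := by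
  intro j w hw
  rw [Submodule.mem_map] at hw
  obtain ⟨u, hu, rfl⟩ := hw
  rw [Submodule.mem_comap, Submodule.mem_map]
  exact ⟨(x j).restrict (h j) u, hU j hu, rfl⟩

/-- a minimal invariant subspace is simple -/
theorem rek_min {F V : Type} [Field F] [AddCommGroup V] [Module F V] [FiniteDimensional F V]
    {d h : ℕ} (x : Fin d → (V →ₗ[F] V)) (e : Fin h → (V →ₗ[F] V))
    (hW : ∃ W : Submodule F V, Ik x e W ∧ W ≠ ⊥ ∧ W ≠ ⊤) :
    ∃ (W : Submodule F V) (hI : Ik x e W), W ≠ ⊥ ∧ W ≠ ⊤ ∧ Sk (sb x W hI.1) (sb e W hI.2) := by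
  obtain ⟨W, hWs, hmin⟩ := (wellFounded_lt (α := Submodule F V)).has_min
    {W : Submodule F V | Ik x e W ∧ W ≠ ⊥ ∧ W ≠ ⊤} hW
  refine ⟨W, hWs.1, hWs.2.1, hWs.2.2, Submodule.nontrivial_iff_ne_bot.2 hWs.2.1, ?_⟩
  intro U hU
  by_contra hcon
  rw [not_or] at hcon
  have h1 : U.map W.subtype ≤ W := Submodule.map_subtype_le W U
  have h2 : U.map W.subtype ≠ ⊥ := by
    intro h3
    apply hcon.1
    apply Submodule.map_injective_of_injective W.subtype_injective
    rw [h3, Submodule.map_bot]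
  have h3 : U.map W.subtype ≠ W := by
    intro h4
    apply hcon.2
    apply Submodule.map_injective_of_injective W.subtype_injective
    rw [h4, Submodule.map_top, Submodule.range_subtype]
  have h4 : U.map W.subtype ≠ ⊤ := by
    intro h5
    apply hWs.2.2
    rw [← top_le_iff, ← h5]
    exact h1
  exact hmin (U.map W.subtype) ⟨⟨rek_map x W hWs.1.1 U hU.1, rek_map e W hWs.1.2 U hU.2⟩, h2, h4⟩
    (lt_of_le_of_ne h1 h3)

/-- the sum over the subspaces -/
theorem rek_sum {F : Type} [Field F] [Finite F] {n d : ℕ} (κ : Kd) (z : F)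
    (g : Fin d → F[X]) (K A σ : ℝ) (hK : 0 ≤ K) (hSUB : S_SUB) (hσ : 1 ≤ σ)
    (hP : ∀ W : Submodule F (Fin n → F), W ≠ ⊥ → W ≠ ⊤ →
      (Nat.card {x : (Fin d → ((Fin n → F) →ₗ[F] (Fin n → F))) ×
          (Fin κ.h → ((Fin n → F) →ₗ[F] (Fin n → F))) //
          Tl κ z g x.1 x.2 ∧ ∃ h : Ik x.1 x.2 W, Sk (sb x.1 W h.1) (sb x.2 W h.2)} : ℝ) ≤
      K * (Nat.card F : ℝ) ^ (A - (Module.finrank F W : ℝ) *
        ((n : ℝ) - Module.finrank F W) * σ)) :
    (Nat.card {x : (Fin d → ((Fin n → F) →ₗ[F] (Fin n → F))) ×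
          (Fin κ.h → ((Fin n → F) →ₗ[F] (Fin n → F))) //
          Tl κ z g x.1 x.2 ∧
          ∃ W : Submodule F (Fin n → F), Ik x.1 x.2 W ∧ W ≠ ⊥ ∧ W ≠ ⊤} : ℝ) ≤
      K * (4 * (n : ℝ) * (Nat.card F : ℝ) ^ (A + (σ - 1) - (σ - 1) * n)) := by
  classical
  have := FLN.red_finEnd (F := F) n
  have : Fintype (RG.Sub n F) := Fintype.ofFinite _
  have hq : (0 : ℝ) < Nat.card F := by exact_mod_cast Nat.card_pos
  let T : RG.Sub n F → Type := fun W =>
    {x : (Fin d → ((Fin n → F) →ₗ[F] (Fin n → F))) ×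
          (Fin κ.h → ((Fin n → F) →ₗ[F] (Fin n → F))) //
          Tl κ z g x.1 x.2 ∧ ∃ h : Ik x.1 x.2 W.1, Sk (sb x.1 W.1 h.1) (sb x.2 W.1 h.2)}
  have hTfin : ∀ W, Finite (T W) := fun W => inferInstance
  have hex : ∀ x : {x : (Fin d → ((Fin n → F) →ₗ[F] (Fin n → F))) ×
          (Fin κ.h → ((Fin n → F) →ₗ[F] (Fin n → F))) //
          Tl κ z g x.1 x.2 ∧
          ∃ W : Submodule F (Fin n → F), Ik x.1 x.2 W ∧ W ≠ ⊥ ∧ W ≠ ⊤},
      ∃ W : RG.Sub n F, ∃ h : Ik x.1.1 x.1.2 W.1, Sk (sb x.1.1 W.1 h.1) (sb x.1.2 W.1 h.2) := by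
    intro x
    obtain ⟨W, h, h1, h2, h3⟩ := rek_min x.1.1 x.1.2 x.2.2
    refine ⟨⟨W, ?_, ?_⟩, h, h3⟩
    · rw [Nat.one_le_iff_ne_zero]
      intro h4
      exact h1 (Submodule.finrank_eq_zero.1 h4)
    · have h4 := Submodule.finrank_lt h2
      rwa [Module.finrank_fin_fun] at h4
  choose W hW using hex
  have h1 : Nat.card {x : (Fin d → ((Fin n → F) →ₗ[F] (Fin n → F))) ×
          (Fin κ.h → ((Fin n → F) →ₗ[F] (Fin n → F))) //
          Tl κ z g x.1 x.2 ∧
          ∃ W : Submodule F (Fin n → F), Ik x.1 x.2 W ∧ W ≠ ⊥ ∧ W ≠ ⊤} ≤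
      Nat.card (Σ W : RG.Sub n F, T W) := by
    refine Nat.card_le_card_of_injective (fun x => ⟨W x, ⟨x.1, x.2.1, hW x⟩⟩) ?_
    intro x x' h
    apply Subtype.ext
    have h2 : ∀ p q : (Σ W : RG.Sub n F, T W), p = q → p.2.1 = q.2.1 := by
      rintro p q rfl
      rfl
    exact h2 _ _ h
  have h2 : (Nat.card (Σ W : RG.Sub n F, T W) : ℝ) ≤
      ∑ W : RG.Sub n F, K * (Nat.card F : ℝ) ^ (A - (Module.finrank F W.1 : ℝ) *
        ((n : ℝ) - Module.finrank F W.1) * σ) := by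
    rw [Nat.card_sigma, Nat.cast_sum]
    refine Finset.sum_le_sum fun W _ => hP W.1 ?_ ?_
    · intro h3
      have h4 := W.2.1
      rw [h3, finrank_bot] at h4
      omega
    · intro h3
      have h4 := W.2.2
      rw [h3, finrank_top, Module.finrank_fin_fun] at h4
      omega
  rw [← Finset.mul_sum] at h2
  exact ((Nat.cast_le.2 h1).trans h2).trans
    (mul_le_mul_of_nonneg_left (RG.sum_le hSUB hσ) hK)

theorem t_REK : M_REK := by
  intro hSUB hSMS hPAK hSUK κ m hm hθ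
  obtain ⟨C₁, hC₁, hP⟩ := hPAK κ m hm hθ
  have hS := hSUK κ m hm hθ
  choose! Ck hCk hS using hS
  set θ : ℝ := th κ m with hθd
  set N : ℕ := ⌈2 / θ⌉₊ with hN
  set D : ℝ := ∑ i ∈ Finset.range N, |Ck i| with hD
  have hD0 : 0 ≤ D := Finset.sum_nonneg fun i _ => abs_nonneg _
  refine ⟨C₁ + D + θ / 2 + 2 + (2 * (m.sum : ℝ) + 1), by positivity, ?_⟩
  intro n hn F _ _ z hz g hg
  have hq : (2 : ℝ) ≤ (Nat.card F : ℝ) := by
    exact_mod_cast Finite.one_lt_card (α := F)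
  have hq0 : (0 : ℝ) < (Nat.card F : ℝ) := by linarith
  have hq1 : (1 : ℝ) ≤ (Nat.card F : ℝ) := by linarith
  have hn0 : (1 : ℝ) ≤ n := by exact_mod_cast hn
  have hn1 : (1 : ℝ) ≤ (n : ℝ) + 1 := by linarith
  have := FLN.red_finEnd (F := F) n
  have h1 := rek_card (F := F) (n := n) κ z g
  have h2 := rek_sum (F := F) (n := n) κ z g (((n : ℝ) + 1) ^ (2 * m.sum))
    (C₁ + D + (θ + 1) * (n : ℝ) ^ 2) (θ / 2 + 1) (by positivity) hSUB (by linarith) (by
    intro W hW0 hW1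
    have hk1 : 1 ≤ Module.finrank F W := by
      rw [Nat.one_le_iff_ne_zero]
      intro h4
      exact hW0 (Submodule.finrank_eq_zero.1 h4)
    have hk2 : Module.finrank F W < n := by
      have h4 := Submodule.finrank_lt hW1
      rwa [Module.finrank_fin_fun] at h4
    set k : ℕ := Module.finrank F W with hk
    have hk1' : (1 : ℝ) ≤ k := by exact_mod_cast hk1
    have hk2' : (k : ℝ) ≤ n := by exact_mod_cast hk2.le
    have hkk : (0 : ℝ) ≤ (k : ℝ) * ((n : ℝ) - k) := mul_nonneg (by linarith) (by linarith)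
    have hq' : (Module.finrank F ((Fin n → F) ⧸ W) : ℝ) = (n : ℝ) - k := by
      have h4 := Submodule.finrank_quotient_add_finrank W
      rw [Module.finrank_fin_fun, ← hk] at h4
      rw [eq_sub_iff_add_eq]
      exact_mod_cast h4
    rcases lt_or_ge (k : ℝ) (2 / θ) with hlt | hge
    · have hkN : k < N := by
        have h5 : (k : ℝ) < N := hlt.trans_le (Nat.le_ceil _)
        exact_mod_cast h5
      have h3 := hS k hk1 F (Fin n → F) z hz g hg W hk.symm
      rw [Module.finrank_fin_fun] at h3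
      refine h3.trans ?_
      have h4 : Ck k ≤ D := (le_abs_self _).trans
        (Finset.single_le_sum (f := fun i => |Ck i|) (fun i _ => abs_nonneg _)
          (Finset.mem_range.2 hkN))
      refine mul_le_mul ?_ ?_ (Real.rpow_nonneg hq0.le _) (by positivity)
      · exact pow_le_pow_right₀ hn1 (by omega)
      · apply Real.rpow_le_rpow_of_exponent_le hq1
        nlinarith
    · have h3 := hP F (Fin n → F) z hz g hg W ((Nat.card F : ℝ) ^ ((n : ℝ) - k))
        (Real.rpow_nonneg hq0.le _)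
      rw [Module.finrank_fin_fun, ← hk, hq'] at h3
      have h4 : Nat.card {x : (Fin m.length → ((Fin n → F) →ₗ[F] (Fin n → F))) ×
          (Fin κ.h → ((Fin n → F) →ₗ[F] (Fin n → F))) //
          Tl κ z g x.1 x.2 ∧ ∃ h : Ik x.1 x.2 W, Sk (sb x.1 W h.1) (sb x.2 W h.2)} ≤
          Nat.card {x : (Fin m.length → ((Fin n → F) →ₗ[F] (Fin n → F))) ×
          (Fin κ.h → ((Fin n → F) →ₗ[F] (Fin n → F))) //
          Tl κ z g x.1 x.2 ∧ ∃ h : Ik x.1 x.2 W,
            (Nat.card (Hk κ (sb x.1 W h.1) (sb x.2 W h.2) (qt x.1 W h.1) (qt x.2 W h.2)) : ℝ) ≤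
              (Nat.card F : ℝ) ^ ((n : ℝ) - k)} := by
        refine Nat.card_le_card_of_injective (fun x => ⟨x.1, x.2.1, ?_⟩) ?_
        · obtain ⟨h, hs⟩ := x.2.2
          refine ⟨h, ?_⟩
          have h5 := (hSMS κ F W ((Fin n → F) ⧸ W) m.length (sb x.1.1 W h.1) (sb x.1.2 W h.2)
            (qt x.1.1 W h.1) (qt x.1.2 W h.2) hs).1
          rw [← hq', Real.rpow_natCast]
          exact_mod_cast h5
        · intro x x' h
          exact Subtype.ext (congrArg (fun y => y.1) h)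
      refine ((Nat.cast_le.2 h4).trans h3).trans ?_
      rw [mul_assoc, ← Real.rpow_add hq0]
      refine mul_le_mul_of_nonneg_left ?_ (by positivity)
      apply Real.rpow_le_rpow_of_exponent_le hq1
      have h6 : 2 ≤ (k : ℝ) * θ := by
        rwa [div_le_iff₀ hθ] at hge
      have h7 : 0 ≤ ((k : ℝ) * θ - 2) * ((n : ℝ) - k) :=
        mul_nonneg (by linarith) (by linarith)
      nlinarith)
  refine ((Nat.cast_le.2 h1).trans h2).trans ?_
  have h3 : (4 : ℝ) ≤ (Nat.card F : ℝ) ^ (2 : ℝ) := by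
    rw [show (2 : ℝ) = ((2 : ℕ) : ℝ) by norm_num, Real.rpow_natCast]
    nlinarith
  have h4 : ((n : ℝ) + 1) ^ (2 * m.sum) * (n : ℝ) ≤
      ((n : ℝ) + 1) ^ (C₁ + D + θ / 2 + 2 + (2 * (m.sum : ℝ) + 1)) := by
    have h5 : ((n : ℝ) + 1) ^ (2 * m.sum) * (n : ℝ) ≤ ((n : ℝ) + 1) ^ (2 * m.sum + 1) := by
      rw [pow_succ]
      exact mul_le_mul_of_nonneg_left (by linarith) (by positivity)
    refine h5.trans ?_
    rw [← Real.rpow_natCast]
    apply Real.rpow_le_rpow_of_exponent_le hn1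
    push_cast
    linarith
  have h5 : (4 : ℝ) * (Nat.card F : ℝ) ^ (C₁ + D + (θ + 1) * (n : ℝ) ^ 2 + (θ / 2 + 1 - 1) -
      (θ / 2 + 1 - 1) * n) ≤ (Nat.card F : ℝ) ^ ((θ + 1) * (n : ℝ) ^ 2 +
        (C₁ + D + θ / 2 + 2 + (2 * (m.sum : ℝ) + 1)) - θ / 2 * n) := by
    refine (mul_le_mul_of_nonneg_right h3 (Real.rpow_nonneg hq0.le _)).trans ?_
    rw [← Real.rpow_add hq0]
    apply Real.rpow_le_rpow_of_exponent_le hq1
    have h6 : (0 : ℝ) ≤ (m.sum : ℝ) := Nat.cast_nonneg _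
    linarith
  calc ((n : ℝ) + 1) ^ (2 * m.sum) * (4 * (n : ℝ) * (Nat.card F : ℝ) ^
        (C₁ + D + (θ + 1) * (n : ℝ) ^ 2 + (θ / 2 + 1 - 1) - (θ / 2 + 1 - 1) * n))
      = (((n : ℝ) + 1) ^ (2 * m.sum) * (n : ℝ)) * (4 * (Nat.card F : ℝ) ^
        (C₁ + D + (θ + 1) * (n : ℝ) ^ 2 + (θ / 2 + 1 - 1) - (θ / 2 + 1 - 1) * n)) := by ring
    _ ≤ _ := mul_le_mul h4 h5 (mul_nonneg (by norm_num) (Real.rpow_nonneg hq0.le _))
        (Real.rpow_nonneg (by linarith) _)

end

end FLY
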