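import Mathlib
import Pool.Agent.FLY.StY

/-!
# Homomorphisms from a simple module (module SMS)
-/

set_option autoImplicit false

namespace FLY

open RSF FL0 FGE Polynomial

section

variable {F A B : Type} [Field F] [AddCommGroup A] [Module F A] [AddCommGroup B] [Module F B]
  {κ : Kd} {d : ℕ} {α : Fin d → (A →ₗ[F] A)} {u : Fin κ.h → (A →ₗ[F] A)}
  {β : Fin d → (B →ₗ[F] B)} {v : Fin κ.h → (B →ₗ[F] B)}

/-- the kernel is invariant -/
lemma sms_ker (f : A →ₗ[F] B) (h1 : ∀ j, f ∘ₗ α j = β j ∘ₗ f)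
    (h2 : ∀ i, f ∘ₗ u i = sgk F κ • (v i ∘ₗ f)) : Ik α u (LinearMap.ker f) := by
  refine ⟨fun j w hw => ?_, fun i w hw => ?_⟩
  · rw [LinearMap.mem_ker] at hw
    rw [Submodule.mem_comap, LinearMap.mem_ker]
    have := LinearMap.congr_fun (h1 j) w
    simp only [LinearMap.comp_apply] at this
    rw [this, hw, map_zero]
  · rw [LinearMap.mem_ker] at hw
    rw [Submodule.mem_comap, LinearMap.mem_ker]
    have := LinearMap.congr_fun (h2 i) w
    simp only [LinearMap.comp_apply, LinearMap.smul_apply] at this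
    rw [this, hw, map_zero, smul_zero]

/-- the kernel is trivial or everything -/
lemma sms_zero (hS : Sk α u) (f : A →ₗ[F] B) (h1 : ∀ j, f ∘ₗ α j = β j ∘ₗ f)
    (h2 : ∀ i, f ∘ₗ u i = sgk F κ • (v i ∘ₗ f)) (x : A) (hx : x ≠ 0) (hf : f x = 0) : f = 0 := by
  rcases hS.2 _ (sms_ker f h1 h2) with h | h
  · exfalso
    apply hx
    have : x ∈ LinearMap.ker f := hf
    rw [h] at this
    exact (Submodule.mem_bot F).1 this
  · exact LinearMap.ker_eq_top.1 h

end

theorem t_SMS : S_SMS := by
  intro κ F A B _ _ _ _ _ _ _ _ d α u β v hS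
  have : Finite A := Module.finite_of_finite F
  have : Finite B := Module.finite_of_finite F
  constructor
  · have hnt : Nontrivial A := hS.1
    obtain ⟨x, hx⟩ := exists_ne (0 : A)
    have hinj : Function.Injective (fun f : Hk κ α u β v => f.1 x) := by
      intro f g hfg
      have h0 : f.1 - g.1 = 0 := by
        refine sms_zero hS (β := β) (v := v) (f.1 - g.1) (fun j => ?_) (fun i => ?_) x hx ?_
        · rw [LinearMap.sub_comp, LinearMap.comp_sub, f.2.1 j, g.2.1 j]
        · rw [LinearMap.sub_comp, LinearMap.comp_sub, f.2.2 i, g.2.2 i, smul_sub]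
        · rw [LinearMap.sub_apply, sub_eq_zero]
          exact hfg
      exact Subtype.ext (sub_eq_zero.1 h0)
    refine (Nat.card_le_card_of_injective _ hinj).trans ?_
    rw [Module.natCard_eq_pow_finrank (K := F)]
  · intro f hf
    rw [← LinearMap.ker_eq_bot]
    rcases hS.2 _ (sms_ker f.1 f.2.1 f.2.2) with h | h
    · exact h
    · exact absurd (LinearMap.ker_eq_top.1 h) hf

end FLY
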