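import Mathlib
import Pool.Agent.FLY.StY
import Pool.Agent.FL0.FIII

/-!
# Module `SSG`: subgroups of large index, all four classes
-/

set_option autoImplicit false

open RSF

namespace FLY

namespace SSG

/-- the tuples with relation in a conjugate of `M` -/
theorem card_conj {G : Type} [Group G] [Finite G] (κ : Kd) (M : Subgroup G) (e : ℕ) :
    Nat.card {t : (Fin (e + 1) → G) × (Fin κ.h → G) // (List.ofFn t.1).prod * wk κ t.2 = 1 ∧
        ∃ g : G, (∀ j, g⁻¹ * t.1 j * g ∈ M) ∧ ∀ i, g⁻¹ * t.2 i * g ∈ M} ≤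
      M.index * Nat.card M ^ (e + κ.h) := by
  classical
  have cj : ∀ (g x : G), g⁻¹ * x * g ∈ M →
      (Quotient.out (g : G ⧸ M))⁻¹ * x * (Quotient.out (g : G ⧸ M)) ∈ M := by
    intro g x hx
    obtain ⟨h, hh⟩ := QuotientGroup.mk_out_eq_mul M g
    rw [hh]
    have h1 : (g * (h : G))⁻¹ * x * (g * (h : G)) = (h : G)⁻¹ * (g⁻¹ * x * g) * (h : G) := by
      group
    rw [h1]
    exact M.mul_mem (M.mul_mem (M.inv_mem h.2) hx) h.2
  have key : ∀ t : {t : (Fin (e + 1) → G) × (Fin κ.h → G) //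
        (List.ofFn t.1).prod * wk κ t.2 = 1 ∧
        ∃ g : G, (∀ j, g⁻¹ * t.1 j * g ∈ M) ∧ ∀ i, g⁻¹ * t.2 i * g ∈ M},
      ∃ c : G ⧸ M, (∀ j, c.out⁻¹ * t.1.1 j * c.out ∈ M) ∧ ∀ i, c.out⁻¹ * t.1.2 i * c.out ∈ M := by
    rintro ⟨t, ht, g, hg, hg2⟩
    exact ⟨(g : G ⧸ M), fun j => cj g _ (hg j), fun i => cj g _ (hg2 i)⟩
  choose c hc using key
  have h1 : Nat.card {t : (Fin (e + 1) → G) × (Fin κ.h → G) //
        (List.ofFn t.1).prod * wk κ t.2 = 1 ∧
        ∃ g : G, (∀ j, g⁻¹ * t.1 j * g ∈ M) ∧ ∀ i, g⁻¹ * t.2 i * g ∈ M} ≤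
      Nat.card ((G ⧸ M) × ((Fin e → M) × (Fin κ.h → M))) := by
    refine Nat.card_le_card_of_injective
      (fun t => (c t, (fun j => (⟨(c t).out⁻¹ * t.1.1 j.succ * (c t).out, (hc t).1 j.succ⟩ : M)),
        (fun i => (⟨(c t).out⁻¹ * t.1.2 i * (c t).out, (hc t).2 i⟩ : M)))) ?_
    intro t t' h
    simp only [Prod.mk.injEq] at h
    obtain ⟨h2, h3, h3'⟩ := h
    have h6 : ∀ j : Fin e, t.1.1 j.succ = t'.1.1 j.succ := by
      intro j
      have h4 := congrArg Subtype.val (congrFun h3 j)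
      simp only at h4
      rw [h2] at h4
      have h5 := mul_right_cancel h4
      exact mul_left_cancel h5
    have h6' : t.1.2 = t'.1.2 := by
      funext i
      have h4 := congrArg Subtype.val (congrFun h3' i)
      simp only at h4
      rw [h2] at h4
      have h5 := mul_right_cancel h4
      exact mul_left_cancel h5
    have h7 := t.2.1
    have h8 := t'.2.1
    rw [List.ofFn_succ, List.prod_cons] at h7 h8
    have h9 : (fun i : Fin e => t.1.1 i.succ) = fun i : Fin e => t'.1.1 i.succ := funext h6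
    rw [h9, h6', mul_assoc] at h7
    rw [mul_assoc] at h8
    have h10 : t.1.1 0 = t'.1.1 0 := mul_right_cancel (h7.trans h8.symm)
    apply Subtype.ext
    refine Prod.ext ?_ h6'
    funext j
    refine Fin.cases h10 h6 j
  refine h1.trans (le_of_eq ?_)
  rw [Nat.card_prod, Nat.card_prod, Nat.card_fun, Nat.card_fun, Nat.card_fin, Nat.card_fin,
    Subgroup.index, pow_add]

/-- one subgroup -/
theorem one_sub {G : Type} [Group G] [Finite G] (κ : Kd) (M : Subgroup G) (e f : ℕ)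
    (hef : e + κ.h = f + 1) (Q Y : ℝ)
    (hQ : 0 < Q) (hQM : Q ≤ M.index) (hY : (Nat.card G : ℝ) ≤ Y) :
    (Nat.card {t : (Fin (e + 1) → G) × (Fin κ.h → G) // (List.ofFn t.1).prod * wk κ t.2 = 1 ∧
        ∃ g : G, (∀ j, g⁻¹ * t.1 j * g ∈ M) ∧ ∀ i, g⁻¹ * t.2 i * g ∈ M} : ℝ) ≤
      Y ^ (f + 1) / Q ^ f := by
  have h4 : (Nat.card {t : (Fin (e + 1) → G) × (Fin κ.h → G) //
        (List.ofFn t.1).prod * wk κ t.2 = 1 ∧
        ∃ g : G, (∀ j, g⁻¹ * t.1 j * g ∈ M) ∧ ∀ i, g⁻¹ * t.2 i * g ∈ M} : ℝ) ≤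
      M.index * (Nat.card M : ℝ) ^ (f + 1) := by
    have := card_conj κ M e
    rw [hef] at this
    exact_mod_cast this
  have hG : (0 : ℝ) < Nat.card G := by exact_mod_cast Nat.card_pos
  have h5 : (M.index : ℝ) * Nat.card M = Nat.card G := by
    have := M.card_mul_index
    rw [mul_comm] at this
    exact_mod_cast this
  have h6 : (Nat.card M : ℝ) * Q ≤ Nat.card G := by
    rw [← h5, mul_comm]
    exact mul_le_mul_of_nonneg_right hQM (Nat.cast_nonneg _)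
  refine h4.trans ?_
  rw [le_div_iff₀ (pow_pos hQ _), pow_succ]
  calc (M.index : ℝ) * ((Nat.card M : ℝ) ^ f * Nat.card M) * Q ^ f
      = ((M.index : ℝ) * Nat.card M) * ((Nat.card M : ℝ) * Q) ^ f := by
        rw [mul_pow]; ring
    _ ≤ (Nat.card G : ℝ) * (Nat.card G : ℝ) ^ f := by
        rw [h5]
        exact mul_le_mul_of_nonneg_left (pow_le_pow_left₀ (by positivity) h6 f) hG.le
    _ = (Nat.card G : ℝ) ^ (f + 1) := by ring
    _ ≤ Y ^ (f + 1) := pow_le_pow_left₀ hG.le hY _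

theorem sig_le (m : List ℕ) : sig m ≤ m.length := by
  induction m with
  | nil => simp [sig]
  | cons k l ih =>
    have h3 : sig (k :: l) = (1 - 1 / (k : ℝ)) + sig l := by
      simp [sig]
    rw [h3, List.length_cons]
    push_cast
    have : 0 ≤ 1 / (k : ℝ) := by positivity
    linarith

theorem h_le (κ : Kd) : κ.h ≤ 2 := by
  cases κ <;> simp [Kd.h]

/-- the number of the generators -/
theorem len (κ : Kd) (m : List ℕ) (hs : 0 < th κ m) :
    ∃ e f : ℕ, m.length = e + 1 ∧ e + κ.h = f + 1 := by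
  have h2 := sig_le m
  unfold th at hs
  have h3 : (2 : ℝ) < m.length + κ.h := by linarith
  have h4 : 2 < m.length + κ.h := by exact_mod_cast h3
  have h5 := h_le κ
  exact ⟨m.length - 1, m.length + κ.h - 2, by omega, by omega⟩

end SSG

open SSG in
theorem t_SSG : M_SSG := by
  intro hLOW κ m hm hs θ hθ
  obtain ⟨e, f, he, hf⟩ := len κ m hs
  obtain ⟨C, r0, hC, hL⟩ := hLOW κ m hm hs
  obtain ⟨η, hη⟩ : ∃ η : ℝ, η = (θ * (m.length + κ.h - 2) - (m.length - sig m)) / 3 := ⟨_, rfl⟩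
  have hη0 : 0 < η := by rw [hη]; linarith
  obtain ⟨r1, hr1⟩ := exists_nat_ge ((C + 1) / (2 * η))
  refine ⟨η, max r0 (max r1 1), hη0, fun n hn F _ _ S hS hM => ?_⟩
  have hn0 : r0 ≤ n := (le_max_left _ _).trans hn
  have hn1 : r1 ≤ n := (le_max_left _ _).trans ((le_max_right _ _).trans hn)
  have hn2 : 1 ≤ n := (le_max_right _ _).trans ((le_max_right _ _).trans hn)
  have hfin : Finite (PS n F) := RSF.B.fin_ps n F
  have hlow := hL n hn0 F
  obtain ⟨q, hq⟩ : ∃ q : ℝ, q = Nat.card F := ⟨_, rfl⟩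
  have hPS := FL0.FIII.card_PS_le n F
  rw [← hq] at hS hM hlow hPS ⊢
  have hq1 : 1 < q := by
    rw [hq]
    exact_mod_cast Finite.one_lt_card
  have hq0 : 0 < q := by linarith
  -- the numerator
  have hnum : (Nat.card {p : Tk κ (PS n F) m // ∃ M ∈ S, InConj (rg p) M} : ℝ) ≤
      q ^ (η * (n : ℝ) ^ 2) * ((q ^ ((n : ℝ) ^ 2)) ^ (f + 1) / (q ^ (θ * (n : ℝ) ^ 2)) ^ f) := by
    have h2 : Nat.card {p : Tk κ (PS n F) m // ∃ M ∈ S, InConj (rg p) M} ≤
        Nat.card {t : (Fin m.length → PS n F) × (Fin κ.h → PS n F) // ∃ M ∈ S,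
          (List.ofFn t.1).prod * wk κ t.2 = 1 ∧
            ∃ g : PS n F, (∀ j, g⁻¹ * t.1 j * g ∈ M) ∧ ∀ i, g⁻¹ * t.2 i * g ∈ M} := by
      refine Nat.card_le_card_of_injective (fun t => ⟨t.1.1, ?_⟩) ?_
      · obtain ⟨M, hMS, g, hg⟩ := t.2
        refine ⟨M, hMS, t.1.2.2, g, fun j => hg _ (Subgroup.subset_closure (Or.inl ⟨j, rfl⟩)),
          fun i => hg _ (Subgroup.subset_closure (Or.inr ⟨i, rfl⟩))⟩
      · intro t t' h
        simp only [Subtype.mk.injEq] at h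
        exact Subtype.ext (Subtype.ext h)
    have h3 := FL0.FIII.card_un S
      (fun (M : Subgroup (PS n F)) (t : (Fin m.length → PS n F) × (Fin κ.h → PS n F)) =>
        (List.ofFn t.1).prod * wk κ t.2 = 1 ∧
          ∃ g : PS n F, (∀ j, g⁻¹ * t.1 j * g ∈ M) ∧ ∀ i, g⁻¹ * t.2 i * g ∈ M)
      ((q ^ ((n : ℝ) ^ 2)) ^ (f + 1) / (q ^ (θ * (n : ℝ) ^ 2)) ^ f) (by
        rw [he]
        intro M hMS
        exact one_sub κ M e f hf _ _ (Real.rpow_pos_of_pos hq0 _) (hM M hMS) hPS)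
    have h4 : (Nat.card {p : Tk κ (PS n F) m // ∃ M ∈ S, InConj (rg p) M} : ℝ) ≤
        Nat.card {t : (Fin m.length → PS n F) × (Fin κ.h → PS n F) // ∃ M ∈ S,
          (List.ofFn t.1).prod * wk κ t.2 = 1 ∧
            ∃ g : PS n F, (∀ j, g⁻¹ * t.1 j * g ∈ M) ∧ ∀ i, g⁻¹ * t.2 i * g ∈ M} := by
      exact_mod_cast h2
    refine h4.trans (h3.trans ?_)
    exact mul_le_mul_of_nonneg_right hS (by positivity)
  -- the exponents
  have hexp : q ^ (η * (n : ℝ) ^ 2) *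
      ((q ^ ((n : ℝ) ^ 2)) ^ (f + 1) / (q ^ (θ * (n : ℝ) ^ 2)) ^ f) =
      q ^ (η * (n : ℝ) ^ 2 + ((n : ℝ) ^ 2 * (f + 1) - θ * (n : ℝ) ^ 2 * f)) := by
    obtain ⟨N2, hN2⟩ : ∃ N2 : ℝ, N2 = (n : ℝ) ^ 2 := ⟨_, rfl⟩
    rw [← hN2]
    have a1 : (q ^ N2) ^ (f + 1) = q ^ (N2 * (f + 1)) := by
      rw [← Real.rpow_natCast, ← Real.rpow_mul hq0.le]
      push_cast
      rfl
    have a2 : (q ^ (θ * N2)) ^ f = q ^ (θ * N2 * f) := by
      rw [← Real.rpow_natCast, ← Real.rpow_mul hq0.le]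
    rw [a1, a2, ← Real.rpow_sub hq0, ← Real.rpow_add hq0]
  rw [hexp] at hnum
  unfold prk
  have hden : 0 < q ^ ((th κ m + 1) * (n : ℝ) ^ 2 - C) := Real.rpow_pos_of_pos hq0 _
  have hfrac := div_le_div₀ (Real.rpow_nonneg hq0.le _) hnum hden hlow
  refine hfrac.trans ?_
  rw [← Real.rpow_sub hq0]
  apply Real.rpow_le_rpow_of_exponent_le hq1.le
  have hle : (m.length : ℝ) = e + 1 := by rw [he]; push_cast; ring
  have hle2 : (e : ℝ) + κ.h = f + 1 := by exact_mod_cast hf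
  rw [hle] at hη
  have hnr : (1 : ℝ) ≤ n := by exact_mod_cast hn2
  have hnr1 : (C + 1) / (2 * η) ≤ n := hr1.trans (by exact_mod_cast hn1)
  rw [div_le_iff₀ (by positivity)] at hnr1
  have e1 : η * (n : ℝ) ^ 2 + ((n : ℝ) ^ 2 * (f + 1) - θ * (n : ℝ) ^ 2 * f) -
      ((th κ m + 1) * (n : ℝ) ^ 2 - C) = C - 2 * η * (n : ℝ) ^ 2 := by
    have h3 : 3 * η = θ * (e + 1 + κ.h - 2) - (e + 1 - sig m) := by rw [hη]; ring
    have h4 : (κ.h : ℝ) = f + 1 - e := by linarith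
    unfold th
    rw [h4] at h3 ⊢
    linear_combination ((n : ℝ) ^ 2) * h3
  rw [e1]
  have e2 : (C + 1) * n ≤ n * (2 * η) * n := mul_le_mul_of_nonneg_right hnr1 (by linarith)
  have e3 : C ≤ C * n := le_mul_of_one_le_right hC hnr
  have e4 : (n : ℝ) * (2 * η) * n = 2 * η * (n : ℝ) ^ 2 := by ring
  linarith

end FLY
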