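import Mathlib
import Pool.Agent.FLY.StY

/-!
# STK: one step of the recursion for the number of the tuples with a homomorphism (MP_5b5212_al)
-/

set_option autoImplicit false

namespace FLY

open RSF FL0 FGE Polynomial Pool.Agent.Lib_helper13

noncomputable section

section

variable {F A B : Type} [Field F] [AddCommGroup A] [Module F A] [AddCommGroup B] [Module F B]
  {d : ℕ}

/-- the relation of `Hk` -/
def stk_R (κ : Kd) (a : Fin d → (A →ₗ[F] A)) (u : Fin κ.h → (A →ₗ[F] A)) (f : A →ₗ[F] B)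
    (b : Fin d → (B →ₗ[F] B)) (v : Fin κ.h → (B →ₗ[F] B)) : Prop :=
  (∀ j, f ∘ₗ a j = b j ∘ₗ f) ∧ ∀ i, f ∘ₗ u i = sgk F κ • (v i ∘ₗ f)

theorem stk_sg (F : Type) [Field F] (κ : Kd) : sgk F κ * sgk F κ = 1 := by
  cases κ <;> simp [sgk]

variable {κ : Kd} {a : Fin d → (A →ₗ[F] A)} {u : Fin κ.h → (A →ₗ[F] A)} {f : A →ₗ[F] B}
  {b b' : Fin d → (B →ₗ[F] B)} {v v' : Fin κ.h → (B →ₗ[F] B)}

theorem stk_app (h : stk_R κ a u f b v) (j : Fin d) (x : A) : b j (f x) = f (a j x) :=
  (LinearMap.congr_fun (h.1 j) x).symm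

theorem stk_app2 (h : stk_R κ a u f b v) (i : Fin κ.h) (x : A) :
    v i (f x) = sgk F κ • f (u i x) := by
  have h1 : f (u i x) = sgk F κ • v i (f x) := LinearMap.congr_fun (h.2 i) x
  rw [h1, smul_smul, stk_sg, one_smul]

theorem stk_Ik (h : stk_R κ a u f b v) : Ik b v (LinearMap.range f) := by
  constructor
  · rintro j _ ⟨x, rfl⟩
    exact ⟨a j x, (stk_app h j x).symm⟩
  · rintro i _ ⟨x, rfl⟩
    exact ⟨sgk F κ • u i x, by rw [map_smul, stk_app2 h]⟩

theorem stk_Sk (hf : Function.Injective f) (hs : Sk a u) (h : stk_R κ a u f b v)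
    (hi : Ik b v (LinearMap.range f)) :
    Sk (sb b (LinearMap.range f) hi.1) (sb v (LinearMap.range f) hi.2) := by
  obtain ⟨hn, hs⟩ := hs
  let e : A ≃ₗ[F] LinearMap.range f := LinearEquiv.ofInjective f hf
  refine ⟨e.symm.toEquiv.nontrivial, fun U hU => ?_⟩
  have hc : Ik a u (U.comap e.toLinearMap) := by
    constructor
    · intro j x hx
      show e (a j x) ∈ U
      have e1 : e (a j x) = sb b (LinearMap.range f) hi.1 j (e x) :=
        Subtype.ext (stk_app h j x).symm
      rw [e1]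
      exact hU.1 j hx
    · intro i x hx
      show e (u i x) ∈ U
      have e1 : e (u i x) = sgk F κ • sb v (LinearMap.range f) hi.2 i (e x) := by
        apply Subtype.ext
        show f (u i x) = sgk F κ • v i (f x)
        rw [stk_app2 h, smul_smul, stk_sg, one_smul]
      rw [e1]
      exact U.smul_mem _ (hU.2 i hx)
  rcases hs _ hc with h0 | h1
  · left
    rw [eq_bot_iff]
    intro y hy
    have hy' : e.symm y ∈ U.comap e.toLinearMap := by
      show e (e.symm y) ∈ U
      rw [e.apply_symm_apply]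
      exact hy
    rw [h0, Submodule.mem_bot] at hy'
    rw [Submodule.mem_bot]
    rw [← e.apply_symm_apply y, hy', map_zero]
  · right
    rw [eq_top_iff]
    intro y _
    have hy' : e.symm y ∈ U.comap e.toLinearMap := by
      rw [h1]
      exact Submodule.mem_top
    have h2 : e (e.symm y) ∈ U := hy'
    rwa [e.apply_symm_apply] at h2

theorem stk_sb_eq (h : stk_R κ a u f b v) (h' : stk_R κ a u f b' v')
    (hi : Ik b v (LinearMap.range f)) (hi' : Ik b' v' (LinearMap.range f)) :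
    sb b (LinearMap.range f) hi.1 = sb b' (LinearMap.range f) hi'.1 ∧
    sb v (LinearMap.range f) hi.2 = sb v' (LinearMap.range f) hi'.2 := by
  constructor
  · funext j
    refine LinearMap.ext ?_
    rintro ⟨_, x, rfl⟩
    apply Subtype.ext
    show b j (f x) = b' j (f x)
    rw [stk_app h, stk_app h']
  · funext i
    refine LinearMap.ext ?_
    rintro ⟨_, x, rfl⟩
    apply Subtype.ext
    show v i (f x) = v' i (f x)
    rw [stk_app2 h, stk_app2 h']

theorem stk_om (hSPA : S_SPA) [Finite F] [FiniteDimensional F A] [FiniteDimensional F B]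
    (g : Fin d → F[X]) (hf : Function.Injective f) (ha : ∀ j, aeval (a j) (g j) = 0)
    (hb : ∀ j, aeval (b j) (g j) = 0) (h : stk_R κ a u f b v)
    (hi : Ik b v (LinearMap.range f))
    (hb1 : ∀ j, aeval (sb b (LinearMap.range f) hi.1 j) (g j) = 0)
    (hb2 : ∀ j, aeval (qt b (LinearMap.range f) hi.1 j) (g j) = 0) :
    om g a b ≤ om g (sb b (LinearMap.range f) hi.1) (qt b (LinearMap.range f) hi.1) := by
  have hq : (0 : ℝ) < Nat.card F := by exact_mod_cast Nat.card_pos
  let e : A ≃ₗ[F] LinearMap.range f := LinearEquiv.ofInjective f hf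
  have hk : Module.finrank F (LinearMap.range f) = Module.finrank F A := e.symm.finrank_eq
  have hl : Module.finrank F (B ⧸ LinearMap.range f) + Module.finrank F A =
      Module.finrank F B := by
    rw [← hk]
    exact Submodule.finrank_quotient_add_finrank _
  refine Finset.prod_le_prod (fun j _ => by positivity) fun j _ => ?_
  obtain ⟨s1, -, -, -, -⟩ := hSPA F A B (g j) (a j) (b j) (ha j) (hb j)
  have t1 : Zc (g j) (a j) (b j) ≤ Zc (g j) (a j) (sb b (LinearMap.range f) hi.1 j) *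
      Zc (g j) (a j) (qt b (LinearMap.range f) hi.1 j) := s1 (LinearMap.range f) (hi.1 j)
  obtain ⟨-, -, -, -, t2⟩ := hSPA F A (LinearMap.range f) (g j) (a j)
    (sb b (LinearMap.range f) hi.1 j) (ha j) (hb1 j)
  obtain ⟨-, s3, -, -, -⟩ := hSPA F A (B ⧸ LinearMap.range f) (g j) (a j)
    (qt b (LinearMap.range f) hi.1 j) (ha j) (hb2 j)
  have t3 := s3 (LinearMap.range f) (sb b (LinearMap.range f) hi.1 j) e
    fun x => Subtype.ext (stk_app h j x).symm
  rw [hk] at t2
  rw [div_le_div_iff₀ (by positivity) (by positivity), hk, ← hl]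
  have t4 : (Zc (g j) (a j) (b j) : ℝ) ≤ (Nat.card F : ℝ) ^ (Module.finrank F A *
      Module.finrank F A) * Zc (g j) (sb b (LinearMap.range f) hi.1 j)
        (qt b (LinearMap.range f) hi.1 j) := by
    have t5 := t1.trans (Nat.mul_le_mul_right _ t2)
    rw [t3]
    exact_mod_cast t5
  refine (mul_le_mul_of_nonneg_right t4 (by positivity)).trans (le_of_eq ?_)
  rw [mul_add, pow_add]
  ring

end

/-- the tuples -/
abbrev stk_T (κ : Kd) {F : Type} [Field F] {d : ℕ} (z : F) (g : Fin d → F[X]) (B : Type)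
    [AddCommGroup B] [Module F B] : Type :=
  {p : (Fin d → (B →ₗ[F] B)) × (Fin κ.h → (B →ₗ[F] B)) // Tl κ z g p.1 p.2}

theorem stk_fin (F A B : Type) [Field F] [Finite F] [AddCommGroup A] [Module F A]
    [FiniteDimensional F A] [AddCommGroup B] [Module F B] [FiniteDimensional F B] :
    Finite (A →ₗ[F] B) := by
  have : Finite A := Module.finite_of_finite F
  have : Finite B := Module.finite_of_finite F
  exact Finite.of_injective (fun f : A →ₗ[F] B => (f : A → B)) DFunLike.coe_injective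

/-- the tuples with a given homomorphism `f ≠ 0` -/
theorem stk_one (hTLR : S_TLR) (hFBK : S_FBK) (hSPA : S_SPA) (κ : Kd) (F A B : Type) [Field F]
    [Finite F] [AddCommGroup A] [Module F A] [FiniteDimensional F A]
    [AddCommGroup B] [Module F B] [FiniteDimensional F B] (d : ℕ) (z : F) (hz : z ≠ 0)
    (g : Fin d → F[X]) (a : Fin d → (A →ₗ[F] A)) (u : Fin κ.h → (A →ₗ[F] A)) (hT : Tl κ z g a u)
    (hS : Sk a u) (r : ℕ) (K : ℝ) (hK0 : 0 ≤ K)
    (hK : ∀ (A' B' : Type) [AddCommGroup A'] [Module F A'] [FiniteDimensional F A']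
        [AddCommGroup B'] [Module F B'] [FiniteDimensional F B'] (a' : Fin d → (A' →ₗ[F] A'))
        (u' : Fin κ.h → (A' →ₗ[F] A')), Tl κ z g a' u' → Sk a' u' →
        Module.finrank F A' = Module.finrank F A →
        Module.finrank F B' + Module.finrank F A = Module.finrank F B →
          Zr κ z g (r + 1) a' u' B' ≤ K)
    [Fintype (stk_T κ z g B)] (f : A →ₗ[F] B) (hf : Function.Injective f)
    (S : Finset (stk_T κ z g B)) (hSm : ∀ p ∈ S, stk_R κ a u f p.1.1 p.1.2) :
    ∑ p ∈ S, om g a p.1.1 ^ r ≤ K * (Nat.card F : ℝ) ^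
        (((d : ℝ) + κ.h - 1) *
          (Module.finrank F A * ((Module.finrank F B : ℝ) - Module.finrank F A))) := by
  classical
  have hq : (0 : ℝ) < Nat.card F := by exact_mod_cast Nat.card_pos
  rcases S.eq_empty_or_nonempty with rfl | ⟨p₀, hp₀⟩
  · rw [Finset.sum_empty]
    positivity
  have h0 := hSm p₀ hp₀
  have hi0 := stk_Ik h0
  set W : Submodule F B := LinearMap.range f with hW
  let e : A ≃ₗ[F] W := LinearEquiv.ofInjective f hf
  have hk : Module.finrank F W = Module.finrank F A := e.symm.finrank_eq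
  have hl : Module.finrank F (B ⧸ W) + Module.finrank F A = Module.finrank F B := by
    rw [← hk]
    exact Submodule.finrank_quotient_add_finrank _
  have hl' : (Module.finrank F B : ℝ) - Module.finrank F A = Module.finrank F (B ⧸ W) := by
    rw [← hl]
    push_cast
    ring
  obtain ⟨ht0, -⟩ := hTLR κ F B d z g p₀.1.1 p₀.1.2 p₀.2
  have hTW := (ht0 W hi0).1
  have hSW := stk_Sk hf hS h0 hi0
  have hZ := hK W (B ⧸ W) (sb p₀.1.1 W hi0.1) (sb p₀.1.2 W hi0.2) hTW hSW hk hl
  have := stk_fin F (B ⧸ W) (B ⧸ W)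
  have := stk_fin F B B
  let _ : Fintype (stk_T κ z g (B ⧸ W)) := Fintype.ofFinite _
  -- the induced tuple
  have hIk : ∀ p ∈ S, Ik p.1.1 p.1.2 W := fun p hp => stk_Ik (hSm p hp)
  let φ : stk_T κ z g B → stk_T κ z g (B ⧸ W) := fun p =>
    if h : Ik p.1.1 p.1.2 W then ⟨(qt p.1.1 W h.1, qt p.1.2 W h.2),
      ((hTLR κ F B d z g p.1.1 p.1.2 p.2).1 W h).2⟩
    else ⟨(qt p₀.1.1 W hi0.1, qt p₀.1.2 W hi0.2), (ht0 W hi0).2⟩
  have hφ : ∀ p (h : Ik p.1.1 p.1.2 W), (φ p).1 = (qt p.1.1 W h.1, qt p.1.2 W h.2) := by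
    intro p h
    simp only [φ, dif_pos h]
  set Q : ℝ := (Nat.card F : ℝ) with hQ
  set k : ℕ := Module.finrank F A with hkd
  set l : ℕ := Module.finrank F (B ⧸ W) with hld
  have hfib : ∀ t : stk_T κ z g (B ⧸ W),
      ((S.filter (fun p => φ p = t)).card : ℝ) * Q ^ (k * l) ≤ Q ^ (κ.h * (k * l)) *
        (om g (sb p₀.1.1 W hi0.1) t.1.1 * Q ^ (d * (k * l))) *
        Nat.card (Hk κ (sb p₀.1.1 W hi0.1) (sb p₀.1.2 W hi0.2) t.1.1 t.1.2) := by
    intro t
    have h1 := hFBK κ F B d z hz g W (sb p₀.1.1 W hi0.1) (sb p₀.1.2 W hi0.2) t.1.1 t.1.2 hTW t.2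
    have h2 : (S.filter (fun p => φ p = t)).card ≤
        Nat.card {x : (Fin d → (B →ₗ[F] B)) × (Fin κ.h → (B →ₗ[F] B)) //
          Tl κ z g x.1 x.2 ∧ ∃ h : Ik x.1 x.2 W,
            sb x.1 W h.1 = sb p₀.1.1 W hi0.1 ∧ sb x.2 W h.2 = sb p₀.1.2 W hi0.2 ∧
            qt x.1 W h.1 = t.1.1 ∧ qt x.2 W h.2 = t.1.2} := by
      rw [← Nat.card_eq_finsetCard]
      refine Nat.card_le_card_of_injective (fun p => ⟨p.1.1, p.1.2, ?_⟩) ?_
      · obtain ⟨h5, h6⟩ := Finset.mem_filter.1 p.2
        have h7 := hIk p.1 h5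
        have h8 := hφ p.1 h7
        rw [h6] at h8
        refine ⟨h7, (stk_sb_eq (hSm p.1 h5) h0 h7 hi0).1, (stk_sb_eq (hSm p.1 h5) h0 h7 hi0).2,
          ?_, ?_⟩
        · rw [h8]
        · rw [h8]
      · intro x y hxy
        apply Subtype.ext
        apply Subtype.ext
        exact congrArg (fun s => s.1) hxy
    have h3 : (∏ j, (Zc (g j) (sb p₀.1.1 W hi0.1 j) (t.1.1 j) : ℝ)) =
        om g (sb p₀.1.1 W hi0.1) t.1.1 * Q ^ (d * (k * l)) := by
      unfold om
      rw [Finset.prod_div_distrib, Finset.prod_const, Finset.card_univ, Fintype.card_fin, hk,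
        ← pow_mul, mul_comm d, div_mul_cancel₀]
      positivity
    rw [← h3]
    rw [hk] at h1
    have h4 := (Nat.cast_le (α := ℝ)).2 ((Nat.mul_le_mul_right _ h2).trans h1)
    push_cast at h4
    exact h4
  have hfib2 : ∀ t : stk_T κ z g (B ⧸ W),
      ((S.filter (fun p => φ p = t)).card : ℝ) ≤ Q ^ (((d : ℝ) + κ.h - 1) * (k * l)) *
        (om g (sb p₀.1.1 W hi0.1) t.1.1 *
        Nat.card (Hk κ (sb p₀.1.1 W hi0.1) (sb p₀.1.2 W hi0.2) t.1.1 t.1.2)) := by
    intro t
    have h1 := hfib t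
    have h2 : Q ^ (((d : ℝ) + κ.h - 1) * (k * l)) * Q ^ (k * l) =
        Q ^ (κ.h * (k * l)) * Q ^ (d * (k * l)) := by
      rw [← Real.rpow_natCast Q (k * l), ← Real.rpow_natCast Q (κ.h * (k * l)),
        ← Real.rpow_natCast Q (d * (k * l)), ← Real.rpow_add hq, ← Real.rpow_add hq]
      congr 1
      push_cast
      ring
    refine le_of_mul_le_mul_right ?_ (show (0 : ℝ) < Q ^ (k * l) by positivity)
    refine h1.trans (le_of_eq ?_)
    calc _ = (Q ^ (κ.h * (k * l)) * Q ^ (d * (k * l))) * (om g (sb p₀.1.1 W hi0.1) t.1.1 *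
        Nat.card (Hk κ (sb p₀.1.1 W hi0.1) (sb p₀.1.2 W hi0.2) t.1.1 t.1.2)) := by ring
      _ = _ := by
        rw [← h2]
        ring
  have homn : ∀ (A₁ B₁ : Type) [AddCommGroup A₁] [Module F A₁] [AddCommGroup B₁] [Module F B₁]
      (a₁ : Fin d → (A₁ →ₗ[F] A₁)) (b₁ : Fin d → (B₁ →ₗ[F] B₁)), 0 ≤ om g a₁ b₁ := by
    intro A₁ B₁ _ _ _ _ a₁ b₁
    exact Finset.prod_nonneg fun j _ => by positivity
  have hZ2 : Zr κ z g (r + 1) (sb p₀.1.1 W hi0.1) (sb p₀.1.2 W hi0.2) (B ⧸ W) =
      ∑ t : stk_T κ z g (B ⧸ W), om g (sb p₀.1.1 W hi0.1) t.1.1 ^ (r + 1) *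
        (Nat.card (Hk κ (sb p₀.1.1 W hi0.1) (sb p₀.1.2 W hi0.2) t.1.1 t.1.2) : ℝ) := by
    unfold Zr
    rw [finsum_eq_sum_of_fintype]
  rw [hl']
  calc ∑ p ∈ S, om g a p.1.1 ^ r
      = ∑ t : stk_T κ z g (B ⧸ W), ∑ p ∈ S.filter (fun p => φ p = t), om g a p.1.1 ^ r :=
        (Finset.sum_fiberwise S φ _).symm
    _ ≤ ∑ t : stk_T κ z g (B ⧸ W), Q ^ (((d : ℝ) + κ.h - 1) * (k * l)) *
          (om g (sb p₀.1.1 W hi0.1) t.1.1 ^ (r + 1) *
        (Nat.card (Hk κ (sb p₀.1.1 W hi0.1) (sb p₀.1.2 W hi0.2) t.1.1 t.1.2) : ℝ)) := by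
        refine Finset.sum_le_sum fun t _ => ?_
        have h1 : ∀ p ∈ S.filter (fun p => φ p = t), om g a p.1.1 ^ r ≤
            om g (sb p₀.1.1 W hi0.1) t.1.1 ^ r := by
          intro p hp
          obtain ⟨h5, h6⟩ := Finset.mem_filter.1 hp
          have h7 := hIk p h5
          have h8 := hφ p h7
          rw [h6] at h8
          have h9 := (hTLR κ F B d z g p.1.1 p.1.2 p.2).1 W h7
          have h10 := stk_om hSPA g hf hT.1 p.2.1 (hSm p h5) h7 h9.1.1 h9.2.1
          rw [(stk_sb_eq (hSm p h5) h0 h7 hi0).1] at h10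
          have h11 : qt p.1.1 W h7.1 = t.1.1 := by rw [h8]
          refine pow_le_pow_left₀ (homn _ _ _ _) ?_ r
          rw [← h11]
          exact h10
        refine (Finset.sum_le_sum h1).trans ?_
        rw [Finset.sum_const, nsmul_eq_mul]
        refine (mul_le_mul_of_nonneg_right (hfib2 t) (pow_nonneg (homn _ _ _ _) _)).trans
          (le_of_eq ?_)
        rw [pow_succ]
        ring
    _ = Q ^ (((d : ℝ) + κ.h - 1) * (k * l)) *
        Zr κ z g (r + 1) (sb p₀.1.1 W hi0.1) (sb p₀.1.2 W hi0.2) (B ⧸ W) := by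
        rw [hZ2, Finset.mul_sum]
    _ ≤ K * Q ^ (((d : ℝ) + κ.h - 1) * (k * l)) := by
        rw [mul_comm]
        exact mul_le_mul_of_nonneg_right hZ (by positivity)

theorem t_STK : M_STK := by
  intro hTLR hFBK hSPA hSMS κ F A B _ _ _ _ _ _ _ _ d z hz g a u hT hS r K hK0 hK
  classical
  have hq : (0 : ℝ) < Nat.card F := by exact_mod_cast Nat.card_pos
  have fB := stk_fin F B B
  have fAB := stk_fin F A B
  let _ : Fintype (stk_T κ z g B) := Fintype.ofFinite _
  let _ : Fintype (A →ₗ[F] B) := Fintype.ofFinite _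
  set R : ℝ := K * (Nat.card F : ℝ) ^ (((d : ℝ) + κ.h - 1) *
    (Module.finrank F A * ((Module.finrank F B : ℝ) - Module.finrank F A))) with hR
  have hR0 : 0 ≤ R := by positivity
  have hcard : (Nat.card (A →ₗ[F] B) : ℝ) =
      (Nat.card F : ℝ) ^ ((Module.finrank F A : ℝ) * Module.finrank F B) := by
    rw [Module.natCard_eq_pow_finrank (K := F), Module.finrank_linearMap, Nat.cast_pow,
      ← Real.rpow_natCast, Nat.cast_mul]
  have hone : ∀ f : A →ₗ[F] B, f ≠ 0 →
      ∑ p ∈ Finset.univ.filter (fun p : stk_T κ z g B => stk_R κ a u f p.1.1 p.1.2),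
        om g a p.1.1 ^ r ≤ R := by
    intro f hf0
    by_cases hf : Function.Injective f
    · exact stk_one hTLR hFBK hSPA κ F A B d z hz g a u hT hS r K hK0 hK f hf _
        fun p hp => (Finset.mem_filter.1 hp).2
    · have : Finset.univ.filter (fun p : stk_T κ z g B => stk_R κ a u f p.1.1 p.1.2) = ∅ := by
        refine Finset.filter_eq_empty_iff.2 fun p _ hp => hf ?_
        exact (hSMS κ F A B d a u p.1.1 p.1.2 hS).2 ⟨f, hp⟩ hf0
      rw [this, Finset.sum_empty]
      exact hR0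
  have homn : ∀ p : stk_T κ z g B, 0 ≤ om g a p.1.1 ^ r := fun p =>
    pow_nonneg (Finset.prod_nonneg fun j _ => by positivity) _
  have hHk : ∀ p : stk_T κ z g B, (Nat.card (Hk κ a u p.1.1 p.1.2) : ℝ) ≤
      1 + ∑ f ∈ Finset.univ.filter (fun f : A →ₗ[F] B => f ≠ 0),
        if stk_R κ a u f p.1.1 p.1.2 then 1 else 0 := by
    intro p
    have h1 : Nat.card (Hk κ a u p.1.1 p.1.2) =
        (Finset.univ.filter (fun f : A →ₗ[F] B => stk_R κ a u f p.1.1 p.1.2)).card := by
      rw [← Nat.card_eq_finsetCard]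
      refine Nat.card_congr (Equiv.subtypeEquivRight fun f => ?_)
      show stk_R κ a u f p.1.1 p.1.2 ↔ _
      rw [Finset.mem_filter]
      exact ⟨fun h => ⟨Finset.mem_univ _, h⟩, fun h => h.2⟩
    have h2 : Finset.univ.filter (fun f : A →ₗ[F] B => stk_R κ a u f p.1.1 p.1.2) ⊆
        insert 0 ((Finset.univ.filter (fun f : A →ₗ[F] B => f ≠ 0)).filter
          (fun f => stk_R κ a u f p.1.1 p.1.2)) := by
      intro f hf
      by_cases h0 : f = 0
      · rw [h0]
        exact Finset.mem_insert_self _ _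
      · refine Finset.mem_insert_of_mem ?_
        simp only [Finset.mem_filter, Finset.mem_univ, true_and] at hf ⊢
        exact ⟨h0, hf⟩
    rw [h1, Finset.sum_boole]
    have h3 := (Finset.card_le_card h2).trans (Finset.card_insert_le _ _)
    rw [add_comm] at h3
    exact_mod_cast h3
  have hZr : Zr κ z g r a u B = ∑ p : stk_T κ z g B, om g a p.1.1 ^ r *
      (Nat.card (Hk κ a u p.1.1 p.1.2) : ℝ) := by
    unfold Zr
    rw [finsum_eq_sum_of_fintype]
  have hAr : Ar κ z g r a B = ∑ p : stk_T κ z g B, om g a p.1.1 ^ r := by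
    unfold Ar
    rw [finsum_eq_sum_of_fintype]
  calc Zr κ z g r a u B
      ≤ ∑ p : stk_T κ z g B, om g a p.1.1 ^ r *
        (1 + ∑ f ∈ Finset.univ.filter (fun f : A →ₗ[F] B => f ≠ 0),
          if stk_R κ a u f p.1.1 p.1.2 then 1 else 0) := by
        rw [hZr]
        exact Finset.sum_le_sum fun p _ => mul_le_mul_of_nonneg_left (hHk p) (homn p)
    _ = Ar κ z g r a B + ∑ f ∈ Finset.univ.filter (fun f : A →ₗ[F] B => f ≠ 0),
        ∑ p ∈ Finset.univ.filter (fun p : stk_T κ z g B => stk_R κ a u f p.1.1 p.1.2),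
          om g a p.1.1 ^ r := by
        rw [hAr]
        simp only [mul_add, mul_one, Finset.sum_add_distrib, Finset.mul_sum]
        rw [Finset.sum_comm]
        congr 1
        refine Finset.sum_congr rfl fun f _ => ?_
        rw [Finset.sum_filter]
        refine Finset.sum_congr rfl fun p _ => ?_
        split_ifs <;> simp
    _ ≤ Ar κ z g r a B + ∑ f ∈ Finset.univ.filter (fun f : A →ₗ[F] B => f ≠ 0), R := by
        refine add_le_add_right (Finset.sum_le_sum fun f hf => hone f ?_) _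
        exact (Finset.mem_filter.1 hf).2
    _ ≤ Ar κ z g r a B + (Nat.card (A →ₗ[F] B) : ℝ) * R := by
        refine add_le_add_right ?_ _
        rw [Finset.sum_const, nsmul_eq_mul]
        refine mul_le_mul_of_nonneg_right ?_ hR0
        rw [Nat.card_eq_fintype_card]
        exact_mod_cast Finset.card_le_univ _
    _ = _ := by
        rw [hcard, hR, Real.rpow_add hq]
        ring

end

end FLY
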