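import Mathlib
import Pool.Agent.FLY.StY
import Pool.Agent.FL0.PAR

/-!
# SUK: the tuples with a simple invariant subspace of a given dimension (MP_5b5212_al)
-/

set_option autoImplicit false

namespace FLY

open RSF FL0 FGE Polynomial Pool.Agent.Lib_helper13

noncomputable section

/-- the number of the tuples of endomorphisms -/
theorem suk_card (F W : Type) [Field F] [Finite F] [AddCommGroup W] [Module F W]
    [FiniteDimensional F W] (d h : ℕ) :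
    Nat.card ((Fin d → (W →ₗ[F] W)) × (Fin h → (W →ₗ[F] W))) =
      Nat.card F ^ ((d + h) * (Module.finrank F W) ^ 2) := by
  haveI := FL0.PAR_aux.fin_end (F := F) (V := W)
  have h1 : Nat.card (W →ₗ[F] W) = Nat.card F ^ ((Module.finrank F W) ^ 2) := by
    rw [Module.natCard_eq_pow_finrank (K := F) (V := W →ₗ[F] W), Module.finrank_linearMap, _root_.sq]
  rw [Nat.card_prod, Nat.card_fun, Nat.card_fun, h1, Nat.card_fin, Nat.card_fin, ← pow_mul,
    ← pow_mul, ← pow_add]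
  congr 1
  ring

/-- the product of the numbers `Zc` -/
theorem suk_om {F A B : Type} [Field F] [Finite F] [AddCommGroup A] [Module F A]
    [AddCommGroup B] [Module F B] {d : ℕ} (g : Fin d → F[X]) (a : Fin d → (A →ₗ[F] A))
    (b : Fin d → (B →ₗ[F] B)) :
    ((∏ j, Zc (g j) (a j) (b j) : ℕ) : ℝ) =
      om g a b * (Nat.card F : ℝ) ^ (d * (Module.finrank F A * Module.finrank F B)) := by
  have hq0 : (0 : ℝ) < Nat.card F := by exact_mod_cast Nat.card_pos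
  unfold om
  rw [Finset.prod_div_distrib, Finset.prod_const, Finset.card_univ, Fintype.card_fin, ← pow_mul,
    mul_comm (Module.finrank F A * Module.finrank F B) d]
  push_cast
  rw [div_mul_cancel₀]
  positivity

theorem suk_sig_le (m : List ℕ) : sig m ≤ m.length := by
  have h := FL0.PAR_aux.sig_eq m
  have h1 : (0 : ℝ) ≤ ∑ j : Fin m.length, 1 / ((m.get j : ℕ) : ℝ) :=
    Finset.sum_nonneg fun j _ => by positivity
  linarith

theorem t_SUK : M_SUK := by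
  classical
  intro hTLR hFBK hAVK κ m hm hθ k hk
  obtain ⟨C₀, hC₀, hAVK⟩ := hAVK κ m hm hθ k hk
  refine ⟨C₀ + ((m.length : ℝ) + κ.h) * (k : ℝ) ^ 2, by positivity, ?_⟩
  intro F V _ _ _ _ _ z hz g hg W hW
  haveI : Fintype F := Fintype.ofFinite F
  haveI := FL0.PAR_aux.fin_end (F := F) (V := V)
  haveI := FL0.PAR_aux.fin_end (F := F) (V := W)
  haveI := FL0.PAR_aux.fin_end (F := F) (V := V ⧸ W)
  haveI : Fintype ((Fin m.length → (V →ₗ[F] V)) × (Fin κ.h → (V →ₗ[F] V))) := Fintype.ofFinite _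
  haveI : Fintype ((Fin m.length → (W →ₗ[F] W)) × (Fin κ.h → (W →ₗ[F] W))) := Fintype.ofFinite _
  haveI : Fintype ((Fin m.length → ((V ⧸ W) →ₗ[F] (V ⧸ W))) ×
    (Fin κ.h → ((V ⧸ W) →ₗ[F] (V ⧸ W)))) := Fintype.ofFinite _
  have hq0 : (0 : ℝ) < Nat.card F := by exact_mod_cast Nat.card_pos
  have hq1 : (1 : ℝ) ≤ Nat.card F := by
    have : 0 < Nat.card F := Nat.card_pos
    exact_mod_cast this
  set q : ℝ := (Nat.card F : ℝ) with hq
  set ll : ℕ := Module.finrank F (V ⧸ W) with hll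
  have hn : Module.finrank F V = k + ll := by
    rw [← hW, add_comm]
    exact (Submodule.finrank_quotient_add_finrank W).symm
  set κ₀ : ℝ := ((m.length : ℝ) + sig m) / 2 - 1 + κ.h with hκ
  let SA : Finset ((Fin m.length → (W →ₗ[F] W)) × (Fin κ.h → (W →ₗ[F] W))) :=
    Finset.univ.filter fun a => Tl κ z g a.1 a.2 ∧ Sk a.1 a.2
  let SB : Finset ((Fin m.length → ((V ⧸ W) →ₗ[F] (V ⧸ W))) × (Fin κ.h → ((V ⧸ W) →ₗ[F] (V ⧸ W)))) :=
    Finset.univ.filter fun b => Tl κ z g b.1 b.2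
  have hSA : ∀ a, a ∈ SA ↔ Tl κ z g a.1 a.2 ∧ Sk a.1 a.2 := by
    intro a
    simp [SA]
  have hSB : ∀ b, b ∈ SB ↔ Tl κ z g b.1 b.2 := by
    intro a
    simp [SB]
  let SX : Finset ((Fin m.length → (V →ₗ[F] V)) × (Fin κ.h → (V →ₗ[F] V))) :=
    Finset.univ.filter fun x => Tl κ z g x.1 x.2 ∧ ∃ h : Ik x.1 x.2 W, Sk (sb x.1 W h.1) (sb x.2 W h.2)
  have hSX : ∀ x, x ∈ SX ↔ Tl κ z g x.1 x.2 ∧ ∃ h : Ik x.1 x.2 W,
      Sk (sb x.1 W h.1) (sb x.2 W h.2) := by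
    intro x
    simp [SX]
  have hN : Nat.card {x : (Fin m.length → (V →ₗ[F] V)) × (Fin κ.h → (V →ₗ[F] V)) //
      Tl κ z g x.1 x.2 ∧ ∃ h : Ik x.1 x.2 W, Sk (sb x.1 W h.1) (sb x.2 W h.2)} = SX.card := by
    rw [Nat.card_eq_fintype_card, Fintype.card_subtype]
  rw [hN]
  let Fb : ((Fin m.length → (W →ₗ[F] W)) × (Fin κ.h → (W →ₗ[F] W))) ×
      ((Fin m.length → ((V ⧸ W) →ₗ[F] (V ⧸ W))) × (Fin κ.h → ((V ⧸ W) →ₗ[F] (V ⧸ W)))) →
      Finset ((Fin m.length → (V →ₗ[F] V)) × (Fin κ.h → (V →ₗ[F] V))) := fun p =>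
    SX.filter fun x => ∃ h : Ik x.1 x.2 W, sb x.1 W h.1 = p.1.1 ∧ sb x.2 W h.2 = p.1.2 ∧
      qt x.1 W h.1 = p.2.1 ∧ qt x.2 W h.2 = p.2.2
  have hcover : SX.card ≤ ∑ p ∈ SA ×ˢ SB, (Fb p).card := by
    have h1 : SX ⊆ (SA ×ˢ SB).biUnion Fb := by
      intro x hx
      obtain ⟨hx1, h, hx3⟩ := (hSX x).1 hx
      have h2 := (hTLR κ F V m.length z g x.1 x.2 hx1).1 W h
      rw [Finset.mem_biUnion]
      refine ⟨((sb x.1 W h.1, sb x.2 W h.2), (qt x.1 W h.1, qt x.2 W h.2)), ?_, ?_⟩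
      · rw [Finset.mem_product]
        exact ⟨(hSA _).2 ⟨h2.1, hx3⟩, (hSB _).2 h2.2⟩
      · exact Finset.mem_filter.2 ⟨hx, h, rfl, rfl, rfl, rfl⟩
    exact (Finset.card_le_card h1).trans Finset.card_biUnion_le
  -- one fibre
  have hfib : ∀ a ∈ SA, ∀ b ∈ SB, ((Fb (a, b)).card : ℝ) ≤
      q ^ (((m.length : ℝ) + κ.h - 1) * (k * ll)) *
        (om g a.1 b.1 ^ 1 * Nat.card (Hk κ a.1 a.2 b.1 b.2)) := by
    intro a ha b hb
    have ha1 := ((hSA a).1 ha).1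
    have hb1 := (hSB b).1 hb
    have h1 := hFBK κ F V m.length z hz g W a.1 a.2 b.1 b.2 ha1 hb1
    have h2 : (Fb (a, b)).card ≤
        Nat.card {x : (Fin m.length → (V →ₗ[F] V)) × (Fin κ.h → (V →ₗ[F] V)) //
          Tl κ z g x.1 x.2 ∧ ∃ h : Ik x.1 x.2 W,
            sb x.1 W h.1 = a.1 ∧ sb x.2 W h.2 = a.2 ∧ qt x.1 W h.1 = b.1 ∧ qt x.2 W h.2 = b.2} := by
      rw [← Nat.card_eq_finsetCard]
      refine Nat.card_le_card_of_injective (fun t => ⟨t.1, ?_⟩) ?_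
      · obtain ⟨h5, h6⟩ := Finset.mem_filter.1 t.2
        exact ⟨((hSX t.1).1 h5).1, h6⟩
      · intro t t' htt
        apply Subtype.ext
        exact congrArg (fun s => s.1) htt
    have h5 := (Nat.mul_le_mul_right (Nat.card F ^ (Module.finrank F W * ll)) h2).trans h1
    have h6 : ((Fb (a, b)).card : ℝ) * q ^ (k * ll) ≤
        q ^ (κ.h * (k * ll)) * ((∏ j, Zc (g j) (a.1 j) (b.1 j) : ℕ) : ℝ) *
          (Nat.card (Hk κ a.1 a.2 b.1 b.2) : ℝ) := by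
      rw [hW] at h5
      rw [hq]
      exact_mod_cast h5
    rw [suk_om, hW, ← hll, ← hq] at h6
    have h9 : 0 < q ^ (k * ll) := by positivity
    have h10 : q ^ (((m.length : ℝ) + κ.h - 1) * (k * ll)) * q ^ (k * ll) =
        q ^ (κ.h * (k * ll)) * q ^ (m.length * (k * ll)) := by
      rw [← Real.rpow_natCast q (k * ll), ← Real.rpow_natCast q (κ.h * (k * ll)),
        ← Real.rpow_natCast q (m.length * (k * ll)), ← Real.rpow_add hq0, ← Real.rpow_add hq0]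
      congr 1
      push_cast
      ring
    refine le_of_mul_le_mul_right ?_ h9
    calc ((Fb (a, b)).card : ℝ) * q ^ (k * ll) ≤ _ := h6
      _ = (q ^ (κ.h * (k * ll)) * q ^ (m.length * (k * ll))) *
          (om g a.1 b.1 ^ 1 * Nat.card (Hk κ a.1 a.2 b.1 b.2)) := by ring
      _ = _ := by rw [← h10]; ring
  -- the sum over the quotient
  have hZr : ∀ a ∈ SA, ∑ b ∈ SB, (om g a.1 b.1 ^ 1 * Nat.card (Hk κ a.1 a.2 b.1 b.2)) ≤
      ((ll : ℝ) + 1) ^ m.sum * q ^ (C₀ + κ₀ * (ll : ℝ) ^ 2 -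
          (m.length - sig m) * ((ll : ℝ) + k) ^ 2 / 2) := by
    intro a ha
    obtain ⟨ha1, ha2⟩ := (hSA a).1 ha
    have h1 := hAVK F W (V ⧸ W) z hz g hg hW a.1 a.2 ha1 ha2
    have h2 : Zr κ z g 1 a.1 a.2 (V ⧸ W) =
        ∑ b ∈ SB, (om g a.1 b.1 ^ 1 * Nat.card (Hk κ a.1 a.2 b.1 b.2)) := by
      unfold Zr
      rw [finsum_eq_sum_of_fintype]
      exact (Finset.sum_subtype SB (fun b => hSB b)
        (fun b => om g a.1 b.1 ^ 1 * (Nat.card (Hk κ a.1 a.2 b.1 b.2) : ℝ))).symm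
    rw [h2] at h1
    exact h1
  have hSAc : (SA.card : ℝ) ≤ q ^ (((m.length : ℝ) + κ.h) * (k : ℝ) ^ 2) := by
    have h1 : SA.card ≤ Nat.card F ^ ((m.length + κ.h) * k ^ 2) := by
      have h2 := suk_card F W m.length κ.h
      rw [hW] at h2
      rw [← h2, Nat.card_eq_fintype_card, ← Finset.card_univ]
      exact Finset.card_le_card (Finset.subset_univ _)
    have h3 : (SA.card : ℝ) ≤ q ^ ((m.length + κ.h) * k ^ 2) := by
      rw [hq]
      exact_mod_cast h1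
    refine h3.trans (le_of_eq ?_)
    rw [← Real.rpow_natCast]
    congr 1
    push_cast
    ring
  have hE : 0 ≤ q ^ (((m.length : ℝ) + κ.h - 1) * (k * ll)) := Real.rpow_nonneg hq0.le _
  have hsum : (SX.card : ℝ) ≤ (SA.card : ℝ) * (q ^ (((m.length : ℝ) + κ.h - 1) * (k * ll)) *
      (((ll : ℝ) + 1) ^ m.sum * q ^ (C₀ + κ₀ * (ll : ℝ) ^ 2 -
          (m.length - sig m) * ((ll : ℝ) + k) ^ 2 / 2))) := by
    have h1 : (SX.card : ℝ) ≤ ∑ p ∈ SA ×ˢ SB, ((Fb p).card : ℝ) := by exact_mod_cast hcover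
    refine h1.trans ?_
    rw [Finset.sum_product, ← nsmul_eq_mul]
    refine Finset.sum_le_card_nsmul _ _ _ ?_
    intro a ha
    refine (Finset.sum_le_sum (hfib a ha)).trans ?_
    rw [← Finset.mul_sum]
    exact mul_le_mul_of_nonneg_left (hZr a ha) hE
  refine hsum.trans ?_
  have hl1 : ((ll : ℝ) + 1) ^ m.sum ≤ ((Module.finrank F V : ℝ) + 1) ^ m.sum := by
    rw [hn]
    push_cast
    have e1 : (0 : ℝ) ≤ k := Nat.cast_nonneg _
    have e2 : (0 : ℝ) ≤ ll := Nat.cast_nonneg _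
    exact pow_le_pow_left₀ (by positivity) (by linarith) _
  have hY0 : 0 ≤ q ^ (((m.length : ℝ) + κ.h - 1) * (k * ll)) *
      (((ll : ℝ) + 1) ^ m.sum * q ^ (C₀ + κ₀ * (ll : ℝ) ^ 2 -
          (m.length - sig m) * ((ll : ℝ) + k) ^ 2 / 2)) := by
    positivity
  refine (mul_le_mul_of_nonneg_right hSAc hY0).trans ?_
  have hexp : ((m.length : ℝ) + κ.h) * (k : ℝ) ^ 2 + (((m.length : ℝ) + κ.h - 1) * (k * ll) +
      (C₀ + κ₀ * (ll : ℝ) ^ 2 - (m.length - sig m) * ((ll : ℝ) + k) ^ 2 / 2)) ≤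
      C₀ + ((m.length : ℝ) + κ.h) * (k : ℝ) ^ 2 + (th κ m + 1) * (Module.finrank F V : ℝ) ^ 2 -
          (th κ m + 1) * (k * ((Module.finrank F V : ℝ) - k)) := by
    have hs := suk_sig_le m
    have h1 : 0 ≤ ((m.length : ℝ) - sig m) * (k : ℝ) ^ 2 :=
      mul_nonneg (by linarith) (by positivity)
    have h2 : 0 ≤ (th κ m + 1) * (k : ℝ) ^ 2 := mul_nonneg (by linarith) (by positivity)
    rw [hn, hκ]
    unfold th at h2 ⊢
    push_cast
    nlinarith [h1, h2]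
  calc q ^ (((m.length : ℝ) + κ.h) * (k : ℝ) ^ 2) *
      (q ^ (((m.length : ℝ) + κ.h - 1) * (k * ll)) *
      (((ll : ℝ) + 1) ^ m.sum * q ^ (C₀ + κ₀ * (ll : ℝ) ^ 2 -
          (m.length - sig m) * ((ll : ℝ) + k) ^ 2 / 2)))
      = ((ll : ℝ) + 1) ^ m.sum * (q ^ (((m.length : ℝ) + κ.h) * (k : ℝ) ^ 2 +
        (((m.length : ℝ) + κ.h - 1) * (k * ll) +
      (C₀ + κ₀ * (ll : ℝ) ^ 2 - (m.length - sig m) * ((ll : ℝ) + k) ^ 2 / 2)))) := by
        rw [Real.rpow_add hq0, Real.rpow_add hq0 (((m.length : ℝ) + κ.h - 1) * (k * ll))]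
        ring
    _ ≤ ((Module.finrank F V : ℝ) + 1) ^ m.sum * (q ^ (C₀ + ((m.length : ℝ) + κ.h) * (k : ℝ) ^ 2 +
          (th κ m + 1) * (Module.finrank F V : ℝ) ^ 2 -
          (th κ m + 1) * (k * ((Module.finrank F V : ℝ) - k)))) := by
        apply mul_le_mul hl1 _ (Real.rpow_nonneg hq0.le _) (by positivity)
        exact Real.rpow_le_rpow_of_exponent_le hq1 hexp

end

end FLY
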