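import Mathlib
import Pool.Agent.FLY.StY

/-!
# TLR: restrictions and quotients of tuples (MP_5b5212_al)
-/

set_option autoImplicit false

namespace FLY

open RSF FL0 FGE Polynomial

noncomputable section

section

variable {F A B : Type} [Field F] [AddCommGroup A] [Module F A] [AddCommGroup B] [Module F B]

/-- `φ` intertwines `a` and `b` -/
def tlr_I (φ : A →ₗ[F] B) (a : A →ₗ[F] A) (b : B →ₗ[F] B) : Prop := ∀ v, φ (a v) = b (φ v)

theorem tlr_one (φ : A →ₗ[F] B) : tlr_I φ 1 1 := fun _ => rfl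

theorem tlr_mul (φ : A →ₗ[F] B) {a a' : A →ₗ[F] A} {b b' : B →ₗ[F] B} (h : tlr_I φ a b)
    (h' : tlr_I φ a' b') : tlr_I φ (a * a') (b * b') := by
  intro v
  rw [Module.End.mul_apply, Module.End.mul_apply, h, h']

theorem tlr_pow (φ : A →ₗ[F] B) {a : A →ₗ[F] A} {b : B →ₗ[F] B} (h : tlr_I φ a b) (n : ℕ) :
    tlr_I φ (a ^ n) (b ^ n) := by
  induction n with
  | zero => rw [pow_zero, pow_zero]; exact tlr_one φ
  | succ n ih => rw [pow_succ, pow_succ]; exact tlr_mul φ ih h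

theorem tlr_sub (φ : A →ₗ[F] B) {a a' : A →ₗ[F] A} {b b' : B →ₗ[F] B} (h : tlr_I φ a b)
    (h' : tlr_I φ a' b') : tlr_I φ (a - a') (b - b') := by
  intro v
  rw [LinearMap.sub_apply, LinearMap.sub_apply, map_sub, h, h']

theorem tlr_add (φ : A →ₗ[F] B) {a a' : A →ₗ[F] A} {b b' : B →ₗ[F] B} (h : tlr_I φ a b)
    (h' : tlr_I φ a' b') : tlr_I φ (a + a') (b + b') := by
  intro v
  rw [LinearMap.add_apply, LinearMap.add_apply, map_add, h, h']

theorem tlr_smul (φ : A →ₗ[F] B) {a : A →ₗ[F] A} {b : B →ₗ[F] B} (z : F) (h : tlr_I φ a b) :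
    tlr_I φ (z • a) (z • b) := by
  intro v
  rw [LinearMap.smul_apply, LinearMap.smul_apply, map_smul, h]

theorem tlr_prod (φ : A →ₗ[F] B) {d : ℕ} {x : Fin d → (A →ₗ[F] A)} {y : Fin d → (B →ₗ[F] B)}
    (h : ∀ j, tlr_I φ (x j) (y j)) : tlr_I φ (List.ofFn x).prod (List.ofFn y).prod := by
  induction d with
  | zero =>
    rw [List.ofFn_zero, List.ofFn_zero, List.prod_nil, List.prod_nil]
    exact tlr_one φ
  | succ d ih =>
    rw [List.ofFn_succ, List.ofFn_succ, List.prod_cons, List.prod_cons]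
    exact tlr_mul φ (h 0) (ih fun j => h j.succ)

theorem tlr_aeval (φ : A →ₗ[F] B) {a : A →ₗ[F] A} {b : B →ₗ[F] B} (h : tlr_I φ a b) (g : F[X]) :
    tlr_I φ (aeval a g) (aeval b g) := by
  induction g using Polynomial.induction_on' with
  | add p q hp hq =>
    rw [map_add, map_add]
    exact tlr_add φ hp hq
  | monomial n c =>
    rw [aeval_monomial, aeval_monomial, ← Algebra.smul_def, ← Algebra.smul_def]
    exact tlr_smul φ c (tlr_pow φ h n)

theorem tlr_Wk (φ : A →ₗ[F] B) (κ : Kd) (z : F) {X : A →ₗ[F] A} {Y : B →ₗ[F] B}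
    {e : Fin κ.h → (A →ₗ[F] A)} {e' : Fin κ.h → (B →ₗ[F] B)} (hX : tlr_I φ X Y)
    (he : ∀ i, tlr_I φ (e i) (e' i)) : tlr_I φ (Wk κ z X e) (Wk κ z Y e') := by
  cases κ with
  | o0 => exact tlr_sub φ hX (tlr_smul φ z (tlr_one φ))
  | n1 => exact tlr_sub φ (tlr_mul φ hX (tlr_pow φ (he (0 : Fin 1)) 2)) (tlr_smul φ z (tlr_one φ))
  | o1 =>
    exact tlr_sub φ (tlr_mul φ (tlr_mul φ hX (he (0 : Fin 2))) (he (1 : Fin 2)))
      (tlr_smul φ z (tlr_mul φ (he (1 : Fin 2)) (he (0 : Fin 2))))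
  | n2 =>
    exact tlr_sub φ (tlr_mul φ (tlr_mul φ hX (tlr_pow φ (he (0 : Fin 2)) 2))
      (tlr_pow φ (he (1 : Fin 2)) 2)) (tlr_smul φ z (tlr_one φ))

theorem tlr_inj (φ : A →ₗ[F] B) (hφ : Function.Injective φ) {a : A →ₗ[F] A} {b : B →ₗ[F] B}
    (h : tlr_I φ a b) (hb : b = 0) : a = 0 := by
  apply LinearMap.ext
  intro v
  apply hφ
  rw [h v, hb, LinearMap.zero_apply, LinearMap.zero_apply, map_zero]

theorem tlr_surj (φ : A →ₗ[F] B) (hφ : Function.Surjective φ) {a : A →ₗ[F] A} {b : B →ₗ[F] B}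
    (h : tlr_I φ a b) (ha : a = 0) : b = 0 := by
  apply LinearMap.ext
  intro w
  obtain ⟨v, rfl⟩ := hφ w
  rw [← h v, ha, LinearMap.zero_apply, LinearMap.zero_apply, map_zero]

theorem tlr_unit_sb [FiniteDimensional F A] (a : A →ₗ[F] A) (W : Submodule F A)
    (h : W ≤ W.comap a) (ha : IsUnit a) : IsUnit (a.restrict h) := by
  rw [LinearMap.isUnit_iff_ker_eq_bot] at ha ⊢
  rw [LinearMap.ker_eq_bot'] at ha ⊢
  intro w hw
  apply Subtype.ext
  apply ha
  exact congrArg Subtype.val hw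

theorem tlr_unit_qt [FiniteDimensional F A] (a : A →ₗ[F] A) (W : Submodule F A)
    (h : W ≤ W.comap a) (ha : IsUnit a) : IsUnit (W.mapQ W a h) := by
  rw [LinearMap.isUnit_iff_range_eq_top] at ha ⊢
  rw [LinearMap.range_eq_top] at ha ⊢
  intro y
  obtain ⟨y, rfl⟩ := W.mkQ_surjective y
  obtain ⟨x, rfl⟩ := ha y
  exact ⟨W.mkQ x, rfl⟩

end

theorem t_TLR : S_TLR := by
  intro κ F V _ _ _ _ d z g x e hT
  obtain ⟨h1, h2, h3⟩ := hT
  refine ⟨?_, ?_, ?_, ?_⟩
  · intro W h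
    constructor
    · have hx : ∀ j, tlr_I W.subtype (sb x W h.1 j) (x j) := fun j v => rfl
      have he : ∀ i, tlr_I W.subtype (sb e W h.2 i) (e i) := fun i v => rfl
      refine ⟨fun j => ?_, fun i => tlr_unit_sb (e i) W (h.2 i) (h2 i), ?_⟩
      · exact tlr_inj W.subtype W.injective_subtype (tlr_aeval W.subtype (hx j) (g j)) (h1 j)
      · exact tlr_inj W.subtype W.injective_subtype
          (tlr_Wk W.subtype κ z (tlr_prod W.subtype hx) he) h3
    · have hx : ∀ j, tlr_I W.mkQ (x j) (qt x W h.1 j) := fun j v => rfl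
      have he : ∀ i, tlr_I W.mkQ (e i) (qt e W h.2 i) := fun i v => rfl
      refine ⟨fun j => ?_, fun i => tlr_unit_qt (e i) W (h.2 i) (h2 i), ?_⟩
      · exact tlr_surj W.mkQ W.mkQ_surjective (tlr_aeval W.mkQ (hx j) (g j)) (h1 j)
      · exact tlr_surj W.mkQ W.mkQ_surjective
          (tlr_Wk W.mkQ κ z (tlr_prod W.mkQ hx) he) h3
  · exact h1
  · intro i
    have hs : sgk F κ = 1 ∨ sgk F κ = -1 := by
      cases κ with
      | o0 => exact Or.inl rfl
      | n1 => exact Or.inr rfl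
      | o1 => exact Or.inl rfl
      | n2 => exact Or.inr rfl
    rcases hs with hs | hs
    · show IsUnit (sgk F κ • e i)
      rw [hs, one_smul]
      exact h2 i
    · show IsUnit (sgk F κ • e i)
      rw [hs, neg_one_smul]
      exact (h2 i).neg
  · cases κ with
    | o0 => exact h3
    | n1 =>
      have h4 : (List.ofFn x).prod * e (0 : Fin 1) ^ 2 - z • (1 : Module.End F V) = 0 := h3
      show (List.ofFn x).prod * ((-1 : F) • e (0 : Fin 1)) ^ 2 - z • (1 : Module.End F V) = 0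
      rw [neg_one_smul, neg_sq]
      exact h4
    | o1 =>
      have h4 : (List.ofFn x).prod * e (0 : Fin 2) * e (1 : Fin 2) -
        z • (e (1 : Fin 2) * e (0 : Fin 2) : Module.End F V) = 0 := h3
      show (List.ofFn x).prod * ((1 : F) • e (0 : Fin 2)) * ((1 : F) • e (1 : Fin 2)) -
        z • (((1 : F) • e (1 : Fin 2)) * ((1 : F) • e (0 : Fin 2)) : Module.End F V) = 0
      rw [one_smul, one_smul]
      exact h4
    | n2 =>
      have h4 : (List.ofFn x).prod * e (0 : Fin 2) ^ 2 * e (1 : Fin 2) ^ 2 -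
        z • (1 : Module.End F V) = 0 := h3
      show (List.ofFn x).prod * ((-1 : F) • e (0 : Fin 2)) ^ 2 * ((-1 : F) • e (1 : Fin 2)) ^ 2 -
        z • (1 : Module.End F V) = 0
      rw [neg_one_smul, neg_one_smul, neg_sq, neg_sq]
      exact h4

end

end FLY
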