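import Mathlib
import Pool.Agent.FLY.StY
import Pool.Agent.FLW.FRO

set_option autoImplicit false

/-!
# FLY, UFR: the number of tuples in given classes, all four classes of groups
-/

namespace FLY

open Pool.Agent.Lib_helper13 RSF FL0 Polynomial

noncomputable section

/-- the order of the centralizer is at least `q ^ (n ^ 2 / deg g)` -/
theorem ufr_cN (hTYP : FLX.S_TYP) {F : Type} [Field F] [Finite F] {n : ℕ} (g : F[X])
    (hg : g.Monic) (hd : 1 ≤ g.natDegree) (A : Matrix (Fin n) (Fin n) F) (hA : aeval A g = 0) :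
    1 ≤ (SRJ.cN A : ℝ) * (Nat.card F : ℝ) ^ (-((n : ℝ) ^ 2 / g.natDegree)) := by
  obtain ⟨w, e, P, hw, -, -, -, h⟩ := hTYP F g hg
  obtain ⟨ν, -, -, -, hn, hc, -⟩ := h n A hA
  have hq1 : (1 : ℝ) ≤ Nat.card F := by exact_mod_cast (Finite.one_lt_card (α := F)).le
  have hq0 : (0 : ℝ) < Nat.card F := by linarith
  have hd0 : (0 : ℝ) < g.natDegree := by exact_mod_cast hd
  have hwR : ∑ j, (w j : ℝ) = g.natDegree := by
    exact_mod_cast congrArg (Nat.cast : ℕ → ℝ) hw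
  have hnR : ∑ j, (w j : ℝ) * ν j = n := by
    exact_mod_cast congrArg (Nat.cast : ℕ → ℝ) hn
  have h1 : (n : ℝ) ^ 2 / g.natDegree ≤ ∑ j, (w j : ℝ) * (ν j * ν j) := by
    have h2 : 0 ≤ ∑ j, (w j : ℝ) * ((ν j : ℝ) - n / g.natDegree) ^ 2 :=
      Finset.sum_nonneg fun j _ => mul_nonneg (Nat.cast_nonneg _) (sq_nonneg _)
    have h3 : ∑ j, (w j : ℝ) * ((ν j : ℝ) - n / g.natDegree) ^ 2 =
        ∑ j, (w j : ℝ) * (ν j * ν j) - (2 * (n / g.natDegree)) * ∑ j, (w j : ℝ) * ν j +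
          (n / g.natDegree) ^ 2 * ∑ j, (w j : ℝ) := by
      rw [Finset.mul_sum, Finset.mul_sum, ← Finset.sum_sub_distrib, ← Finset.sum_add_distrib]
      exact Finset.sum_congr rfl fun j _ => by ring
    rw [h3, hwR, hnR] at h2
    have h4 : (2 * ((n : ℝ) / g.natDegree)) * n - ((n : ℝ) / g.natDegree) ^ 2 * g.natDegree =
        (n : ℝ) ^ 2 / g.natDegree := by
      field_simp
      ring
    linarith
  rw [hc]
  push_cast
  rw [← Real.rpow_natCast, ← Real.rpow_add hq0]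
  refine Real.one_le_rpow hq1 ?_
  push_cast
  linarith

/-- one term of the sum over the irreducible characters -/
theorem ufr_term (hMN : FLC.S_MN) {n : ℕ} {F : Type} [Field F] [Fintype F] [DecidableEq F]
    (κ : Kd) (m : List ℕ) (ε : ℝ) {X : GL (Fin n) F → ℂ} (hX : IsIrr X)
    (y : Fin m.length → GL (Fin n) F) (δ : Fin m.length → ℝ)
    (hy : ∀ j, ‖X (y j)‖ ≤ δ j * (X 1).re ^ (1 / ((m.get j : ℕ) : ℝ) + ε)) (hδ : ∀ j, 0 ≤ δ j)
    (s : ℂ) (M : ℝ) (hs : ‖s‖ * ‖X 1‖ ^ κ.h ≤ M * ‖X 1‖) :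
    ‖(∏ j, X (y j) / X 1) * s * X 1‖ ≤
      M * (∏ j, δ j) * (X 1).re ^ (-(th κ m - m.length * ε)) := by
  obtain ⟨hD1, hDn⟩ := FLC.fro_deg hMN hX
  have hD0 : 0 < (X 1).re := lt_of_lt_of_le one_pos hD1
  rw [norm_mul, norm_mul, norm_prod, hDn]
  rw [hDn] at hs
  have h1 : ∏ j, ‖X (y j) / X 1‖ ≤
      (∏ j, δ j) * (X 1).re ^ (-sig m + m.length * ε) := by
    rw [← FLC.fro_sig, Real.rpow_sum_of_pos hD0, ← Finset.prod_mul_distrib]
    refine Finset.prod_le_prod (fun j _ => norm_nonneg _) fun j _ => ?_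
    rw [norm_div, hDn, Real.rpow_sub_one hD0.ne', ← mul_div_assoc]
    exact div_le_div_of_nonneg_right (hy j) hD0.le
  have h2 : ‖s‖ ≤ M * (X 1).re ^ (1 - (κ.h : ℝ)) := by
    rw [Real.rpow_sub hD0, Real.rpow_one, Real.rpow_natCast, ← mul_div_assoc,
      le_div_iff₀ (pow_pos hD0 _)]
    exact hs
  have h3 : 0 ≤ ∏ j, δ j := Finset.prod_nonneg fun j _ => hδ j
  calc (∏ j, ‖X (y j) / X 1‖) * ‖s‖ * (X 1).re
      ≤ ((∏ j, δ j) * (X 1).re ^ (-sig m + m.length * ε)) *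
        (M * (X 1).re ^ (1 - (κ.h : ℝ))) * (X 1).re := by
        refine mul_le_mul_of_nonneg_right ?_ hD0.le
        exact mul_le_mul h1 h2 (norm_nonneg _)
          (mul_nonneg h3 (Real.rpow_nonneg hD0.le _))
    _ = M * (∏ j, δ j) * ((X 1).re ^ (-sig m + m.length * ε) * (X 1).re ^ (1 - (κ.h : ℝ)) *
          (X 1).re) := by ring
    _ = _ := by
        rw [← Real.rpow_add hD0, ← Real.rpow_add_one hD0.ne']
        congr 2
        unfold th
        ring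

/-- `S_KWS` for the whole group -/
theorem ufr_kws (hKWS : S_KWS) (κ : Kd) {G : Type} [Group G] [Fintype G] (X : G → ℂ)
    (hX : IsIrr X) : ‖∑ b : Fin κ.h → G, X (wk κ b)‖ * ‖X 1‖ ^ κ.h ≤
      (Nat.card G : ℝ) ^ κ.h * ‖X 1‖ := by
  classical
  have h1 := hKWS κ G X ⊤ inferInstance hX
  have h2 : ∑ᶠ b : Fin κ.h → (⊤ : Subgroup G), X (wk κ fun i => (b i : G)) =
      ∑ b : Fin κ.h → G, X (wk κ b) := by
    rw [finsum_eq_sum_of_fintype]
    exact Fintype.sum_equiv (Equiv.arrowCongr (Equiv.refl _) Subgroup.topEquiv.toEquiv) _ _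
      fun b => rfl
  rwa [h2] at h1

theorem t_UFR : M_UFR := by
  classical
  intro hMN hFRB hXMB hZET hLIN hTYP hKWS κ m hm hth
  have hlen : 0 < m.length := by
    rcases Nat.eq_zero_or_pos m.length with h | h
    · have h1 : m = [] := List.eq_nil_of_length_eq_zero h
      rw [h1] at hth
      cases κ <;> norm_num [th, sig, Kd.h] at hth
    · exact h
  have hlenR : (0 : ℝ) < m.length := by exact_mod_cast hlen
  obtain ⟨ε, hε⟩ : ∃ ε : ℝ, ε = th κ m / (2 * m.length) := ⟨_, rfl⟩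
  have hε0 : 0 < ε := by
    rw [hε]
    exact div_pos hth (by linarith)
  have hlε : m.length * ε = th κ m / 2 := by
    rw [hε]
    field_simp
  have hs0 : 0 < th κ m - m.length * ε := by
    rw [hlε]
    linarith
  have hr1 : ∀ j : Fin m.length, ∃ r : ℕ, ∀ n : ℕ, r ≤ n →
      ∀ (F : Type) [Field F] [Fintype F] [DecidableEq F] (X : GL (Fin n) F → ℂ), IsIrr X →
      X 1 ≠ 1 → ∀ g₀ : F[X], g₀.Monic → g₀.natDegree = m.get j → ∀ x : GL (Fin n) F,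
      aeval (x : Matrix (Fin n) (Fin n) F) g₀ = 0 →
      ‖X x‖ ≤ ((SRJ.cN (x : Matrix (Fin n) (Fin n) F) : ℝ) *
          (Nat.card F : ℝ) ^ (-((n : ℝ) ^ 2 / (m.get j : ℕ)))) ^ (1 / 2 : ℝ) *
          (X 1).re ^ (1 / ((m.get j : ℕ) : ℝ) + ε) :=
    fun j => hXMB (m.get j) (hm _ (m.get_mem j)) ε hε0
  choose r1 hr1 using hr1
  obtain ⟨c, r2, hc, hr2⟩ := hZET _ hs0
  refine ⟨(∑ j, r1 j) + r2 + 5, ?_⟩
  intro n hn F _ _ z hz g hg y hy
  have : Fintype F := Fintype.ofFinite F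
  have hq1 : 1 < Nat.card F := Finite.one_lt_card
  have hqR : (1 : ℝ) < Nat.card F := by exact_mod_cast hq1
  have hq0 : (0 : ℝ) < Nat.card F := by linarith
  obtain ⟨Z, hZ⟩ : ∃ Z : GL (Fin n) F,
      Z = Matrix.GeneralLinearGroup.scalar (Fin n) (Units.mk0 z hz) := ⟨_, rfl⟩
  have hZv : (Z : Matrix (Fin n) (Fin n) F) = Matrix.scalar (Fin n) z := by
    rw [hZ]
    rfl
  have hZc : ∀ g, Z⁻¹ * g = g * Z⁻¹ := by
    intro g
    have h1 : Z * g = g * Z := by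
      rw [hZ]
      exact Matrix.GeneralLinearGroup.scalar_commute _ g
    exact (Commute.inv_left (show Commute Z g from h1))
  obtain ⟨P, hP⟩ : ∃ P : ℝ, P = ∏ j, (Nat.card {t : GL (Fin n) F // IsConj (y j) t} : ℝ) :=
    ⟨_, rfl⟩
  have hP0 : 0 ≤ P := by
    rw [hP]
    exact Finset.prod_nonneg fun j _ => Nat.cast_nonneg _
  have hPc : (∏ j, (Nat.card {t : GL (Fin n) F // IsConj (y j) t} : ℂ)) = (P : ℂ) := by
    rw [hP]
    push_cast
    rfl
  obtain ⟨δ, hδ⟩ : ∃ δ : Fin m.length → ℝ, δ = fun j => ((SRJ.cN (y j).1 : ℝ) *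
      (Nat.card F : ℝ) ^ (-((n : ℝ) ^ 2 / (m.get j : ℕ)))) ^ (1 / 2 : ℝ) := ⟨_, rfl⟩
  have hδ1 : ∀ j, 1 ≤ δ j := by
    intro j
    have h1 := ufr_cN hTYP (g j) (hg j).1
      (by rw [(hg j).2.1]; have := hm _ (m.get_mem j); omega) (y j).1 (hy j)
    rw [(hg j).2.1] at h1
    rw [hδ]
    exact Real.one_le_rpow h1 (by norm_num)
  have hδ0 : ∀ j, 0 ≤ δ j := fun j => zero_le_one.trans (hδ1 j)
  have hδP : 1 ≤ ∏ j, δ j := by
    have h1 : ∏ j : Fin m.length, (1 : ℝ) ≤ ∏ j, δ j :=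
      Finset.prod_le_prod (fun j _ => zero_le_one) fun j _ => hδ1 j
    simpa using h1
  have hgoal : (∏ j, ((SRJ.cN (y j).1 : ℝ) *
      (Nat.card F : ℝ) ^ (-((n : ℝ) ^ 2 / m.get j))) ^ (1 / 2 : ℝ)) = ∏ j, δ j := by
    rw [hδ]
  rw [hgoal, ← hP]
  obtain ⟨Gn, hGn⟩ : ∃ Gn : ℕ, Gn = Nat.card (GL (Fin n) F) := ⟨_, rfl⟩
  obtain ⟨N, hN⟩ : ∃ N : ℕ, N = Nat.card {t : (Fin m.length → GL (Fin n) F) ×
      (Fin κ.h → GL (Fin n) F) // (∀ j, IsConj (y j) (t.1 j)) ∧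
      (List.ofFn t.1).prod.1 * (wk κ t.2).1 = Matrix.scalar (Fin n) z} := ⟨_, rfl⟩
  have hN' : N = Nat.card {t : (Fin m.length → GL (Fin n) F) × (Fin κ.h → GL (Fin n) F) //
      (∀ j, IsConj (y j) (t.1 j)) ∧ (List.ofFn t.1).prod * wk κ t.2 = Z} := by
    rw [hN]
    refine Nat.card_congr (Equiv.subtypeEquivRight fun t => and_congr_right fun _ => ?_)
    rw [← hZv]
    constructor
    · intro h
      exact Units.ext h
    · intro h
      exact congrArg Units.val h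
  have hfrb := FLW.fro_count hFRB y (fun b : Fin κ.h → GL (Fin n) F => wk κ b) Z
  have hsplit : ∀ (f : (GL (Fin n) F → ℂ) → ℂ), ∑ X ∈ irrF (GL (Fin n) F), f X =
      ∑ X ∈ (irrF (GL (Fin n) F)).filter (fun X => X 1 = 1), f X +
      ∑ X ∈ (irrF (GL (Fin n) F)).filter (fun X => X 1 ≠ 1), f X := fun f =>
    (Finset.sum_filter_add_sum_filter_not (irrF (GL (Fin n) F)) (fun X => X 1 = 1) f).symm
  rw [← hN', hPc, ← hGn, hsplit] at hfrb
  obtain ⟨A, hA⟩ : ∃ A : ℂ, A = ∑ X ∈ (irrF (GL (Fin n) F)).filter (fun X => X 1 = 1),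
      (∏ j, X (y j) / X 1) * (∑ b : Fin κ.h → GL (Fin n) F, X (wk κ b * Z⁻¹)) * X 1 := ⟨_, rfl⟩
  obtain ⟨B, hB⟩ : ∃ B : ℂ, B = ∑ X ∈ (irrF (GL (Fin n) F)).filter (fun X => X 1 ≠ 1),
      (∏ j, X (y j) / X 1) * (∑ b : Fin κ.h → GL (Fin n) F, X (wk κ b * Z⁻¹)) * X 1 := ⟨_, rfl⟩
  rw [← hA, ← hB] at hfrb
  have hGh : (0 : ℝ) ≤ (Gn : ℝ) ^ κ.h := by positivity
  -- the linear characters
  have hcard : (((irrF (GL (Fin n) F)).filter (fun X => X 1 = 1)).card : ℝ) =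
      (Nat.card F : ℝ) - 1 := by
    have h0 := hLIN n (by omega) F (fun _ => (1 : ℂ)) 1 (fun _ => rfl)
    rw [Finset.sum_const, nsmul_eq_mul, mul_one, mul_one] at h0
    have h1 := congrArg Complex.re h0
    simpa using h1
  have hAn : ‖A‖ ≤ ((Nat.card F : ℝ) - 1) * (Gn : ℝ) ^ κ.h := by
    rw [hA]
    refine (norm_sum_le _ _).trans ?_
    refine (Finset.sum_le_card_nsmul _ _ ((Gn : ℝ) ^ κ.h) (fun X hX => ?_)).trans ?_
    · obtain ⟨h0, h2⟩ := Finset.mem_filter.1 hX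
      have h1 := mem_irrF.1 h0
      have h3 := (hMN _ X h1.isChr).2.2.1
      have h5 : ∀ g, ‖X g‖ ≤ 1 := fun g => by
        have := h3 g
        rwa [h2, norm_one] at this
      rw [norm_mul, norm_mul, norm_prod, h2, norm_one, mul_one]
      have h4 : ∏ j, ‖X (y j) / 1‖ ≤ 1 := by
        refine Finset.prod_le_one (fun j _ => norm_nonneg _) fun j _ => ?_
        rw [div_one]
        exact h5 _
      have h6 : ‖∑ b : Fin κ.h → GL (Fin n) F, X (wk κ b * Z⁻¹)‖ ≤ (Gn : ℝ) ^ κ.h := by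
        refine (norm_sum_le _ _).trans ?_
        refine (Finset.sum_le_card_nsmul _ _ (1 : ℝ) (fun p _ => h5 _)).trans (le_of_eq ?_)
        rw [nsmul_eq_mul, mul_one, Finset.card_univ, Fintype.card_fun, Fintype.card_fin, hGn,
          Nat.card_eq_fintype_card]
        push_cast
        rfl
      calc (∏ j, ‖X (y j) / 1‖) *
            ‖∑ b : Fin κ.h → GL (Fin n) F, X (wk κ b * Z⁻¹)‖ ≤ 1 * (Gn : ℝ) ^ κ.h :=
            mul_le_mul h4 h6 (norm_nonneg _) zero_le_one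
        _ = (Gn : ℝ) ^ κ.h := one_mul _
    · rw [nsmul_eq_mul, hcard]
  -- the other characters
  have hBn : ‖B‖ ≤ (Gn : ℝ) ^ κ.h * (∏ j, δ j) * Nat.card F := by
    rw [hB]
    refine (norm_sum_le _ _).trans ?_
    have h1 : ∀ X ∈ (irrF (GL (Fin n) F)).filter (fun X => X 1 ≠ 1),
        ‖(∏ j, X (y j) / X 1) * (∑ b : Fin κ.h → GL (Fin n) F, X (wk κ b * Z⁻¹)) * X 1‖ ≤
        (Gn : ℝ) ^ κ.h * (∏ j, δ j) * (X 1).re ^ (-(th κ m - m.length * ε)) := by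
      intro X hX
      rw [Finset.mem_filter] at hX
      have hXi := mem_irrF.1 hX.1
      refine ufr_term hMN κ m ε hXi y δ (fun j => ?_) hδ0 _ _ ?_
      · have hj : r1 j ≤ n := by
          have h2 := Finset.single_le_sum (f := r1) (fun i _ => Nat.zero_le _)
            (Finset.mem_univ j)
          omega
        rw [hδ]
        exact hr1 j n hj F X hXi hX.2 (g j) (hg j).1 (hg j).2.1 (y j) (hy j)
      · rw [FLW.fro_twist hXi Z⁻¹ hZc, hGn]
        exact ufr_kws hKWS κ X hXi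
    refine (Finset.sum_le_sum h1).trans ?_
    rw [← Finset.mul_sum]
    refine mul_le_mul_of_nonneg_left ?_ (mul_nonneg hGh (zero_le_one.trans hδP))
    refine (hr2 n (by omega) F).trans ?_
    have h2 : (Nat.card F : ℝ) ^ (-(c * n)) ≤ 1 :=
      Real.rpow_le_one_of_one_le_of_nonpos hqR.le
        (neg_nonpos.2 (mul_nonneg hc.le (Nat.cast_nonneg _)))
    calc ((Nat.card F : ℝ) - 1) * (Nat.card F : ℝ) ^ (-(c * n)) ≤ ((Nat.card F : ℝ) - 1) * 1 :=
          mul_le_mul_of_nonneg_left h2 (by linarith)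
      _ ≤ Nat.card F := by linarith
  rw [← hN, ← hGn]
  have hnorm := congrArg norm hfrb
  rw [norm_mul, norm_mul, Complex.norm_natCast, Complex.norm_natCast, Complex.norm_real,
    Real.norm_of_nonneg hP0] at hnorm
  rw [hnorm, mul_assoc P]
  refine mul_le_mul_of_nonneg_left ?_ hP0
  refine (norm_add_le _ _).trans ((add_le_add hAn hBn).trans ?_)
  have h7 : ((Nat.card F : ℝ) - 1) * (Gn : ℝ) ^ κ.h ≤
      (Gn : ℝ) ^ κ.h * (∏ j, δ j) * Nat.card F := by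
    have h8 : ((Nat.card F : ℝ) - 1) ≤ (∏ j, δ j) * Nat.card F := by nlinarith
    calc ((Nat.card F : ℝ) - 1) * (Gn : ℝ) ^ κ.h = (Gn : ℝ) ^ κ.h * ((Nat.card F : ℝ) - 1) := by
          ring
      _ ≤ (Gn : ℝ) ^ κ.h * ((∏ j, δ j) * Nat.card F) := mul_le_mul_of_nonneg_left h8 hGh
      _ = _ := by ring
  calc ((Nat.card F : ℝ) - 1) * (Gn : ℝ) ^ κ.h + (Gn : ℝ) ^ κ.h * (∏ j, δ j) * Nat.card F
      ≤ (Gn : ℝ) ^ κ.h * (∏ j, δ j) * Nat.card F +
        (Gn : ℝ) ^ κ.h * (∏ j, δ j) * Nat.card F := by linarith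
    _ = (Gn : ℝ) ^ κ.h * (2 * Nat.card F * ∏ j, δ j) := by ring

end

end FLY
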