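import Mathlib
import Pool.Agent.FLY.StY

/-!
# Random homomorphisms to `PSL_n(q)` (MP_5b5212_al): module ZAK

The four cases of the lower bound for the upper right blocks, from the three earlier statements.
-/

set_option autoImplicit false

namespace FLY

open RSF FL0 FGE Polynomial

section

variable {F A B : Type} [Field F] [AddCommGroup A] [Module F A] [AddCommGroup B] [Module F B]

lemma zak_fst_one (z : F) (X : (A × B) →ₗ[F] (A × B)) :
    LinearMap.fst F A B ∘ₗ (X - z • 1) ∘ₗ LinearMap.inr F A B =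
      LinearMap.fst F A B ∘ₗ X ∘ₗ LinearMap.inr F A B := by
  ext y
  simp

end

lemma zak_o0 (H : FL0.S_ZAN) (F A B : Type) [Field F] [Finite F] [AddCommGroup A] [Module F A]
    [FiniteDimensional F A] [AddCommGroup B] [Module F B] [FiniteDimensional F B] (d : ℕ) (z : F)
    (hz : z ≠ 0) (a : Fin d → (A →ₗ[F] A)) (u : Fin Kd.o0.h → (A →ₗ[F] A))
    (b : Fin d → (B →ₗ[F] B)) (v : Fin Kd.o0.h → (B →ₗ[F] B))
    (h1 : Wk .o0 z (List.ofFn a).prod u = 0) (h2 : Wk .o0 z (List.ofFn b).prod v = 0) :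
    Nat.card F ^ (Module.finrank F A * Module.finrank F B) ≤
      Nat.card {y : B →ₗ[F] A // ∃ (h : Fin d → (B →ₗ[F] A)) (f : Fin Kd.o0.h → (B →ₗ[F] A)),
        uk .o0 z a u b v (fun j => a j ∘ₗ h j - h j ∘ₗ b j) f = y} * Nat.card (Hk .o0 a u b v) := by
  have h1' : (List.ofFn a).prod = z • 1 := sub_eq_zero.1 h1
  have h2' : (List.ofFn b).prod = z • 1 := sub_eq_zero.1 h2
  refine (H F A B d z hz a b h1' h2').trans (le_of_eq ?_)
  congr 1
  · refine Nat.card_congr (Equiv.subtypeEquivRight fun y => ?_)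
    have key : ∀ (h : Fin d → (B →ₗ[F] A)) (f : Fin Kd.o0.h → (B →ₗ[F] A)),
        uk .o0 z a u b v (fun j => a j ∘ₗ h j - h j ∘ₗ b j) f =
          ur a b (fun j => a j ∘ₗ h j - h j ∘ₗ b j) := fun h f => zak_fst_one z _
    constructor
    · rintro ⟨h, hy⟩
      exact ⟨h, fun _ => 0, (key h _).trans hy⟩
    · rintro ⟨h, f, hy⟩
      exact ⟨h, (key h f).symm.trans hy⟩
  · refine Nat.card_congr (Equiv.subtypeEquivRight fun f => ?_)
    exact ⟨fun h => ⟨h, fun i => Fin.elim0 i⟩, fun h => h.1⟩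

lemma zak_n1 (H : FLN.S_ZAN) (F A B : Type) [Field F] [Finite F] [AddCommGroup A] [Module F A]
    [FiniteDimensional F A] [AddCommGroup B] [Module F B] [FiniteDimensional F B] (d : ℕ) (z : F)
    (hz : z ≠ 0) (a : Fin d → (A →ₗ[F] A)) (u : Fin Kd.n1.h → (A →ₗ[F] A))
    (b : Fin d → (B →ₗ[F] B)) (v : Fin Kd.n1.h → (B →ₗ[F] B))
    (h1 : Wk .n1 z (List.ofFn a).prod u = 0) (h2 : Wk .n1 z (List.ofFn b).prod v = 0) :
    Nat.card F ^ (Module.finrank F A * Module.finrank F B) ≤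
      Nat.card {y : B →ₗ[F] A // ∃ (h : Fin d → (B →ₗ[F] A)) (f : Fin Kd.n1.h → (B →ₗ[F] A)),
        uk .n1 z a u b v (fun j => a j ∘ₗ h j - h j ∘ₗ b j) f = y} * Nat.card (Hk .n1 a u b v) := by
  have h1' : (List.ofFn a).prod * u (0 : Fin 1) ^ 2 = z • 1 := sub_eq_zero.1 h1
  have h2' : (List.ofFn b).prod * v (0 : Fin 1) ^ 2 = z • 1 := sub_eq_zero.1 h2
  refine (H F A B d z hz a (u (0 : Fin 1)) b (v (0 : Fin 1)) h1' h2').trans (le_of_eq ?_)
  congr 1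
  · refine Nat.card_congr (Equiv.subtypeEquivRight fun y => ?_)
    have key : ∀ (h : Fin d → (B →ₗ[F] A)) (f : Fin Kd.n1.h → (B →ₗ[F] A)),
        uk .n1 z a u b v (fun j => a j ∘ₗ h j - h j ∘ₗ b j) f =
          FLN.un a (u (0 : Fin 1)) b (v (0 : Fin 1)) (fun j => a j ∘ₗ h j - h j ∘ₗ b j)
            (f (0 : Fin 1)) := fun h f => zak_fst_one z _
    constructor
    · rintro ⟨h, e, hy⟩
      exact ⟨h, fun _ => e, (key h _).trans hy⟩
    · rintro ⟨h, f, hy⟩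
      exact ⟨h, f (0 : Fin 1), (key h f).symm.trans hy⟩
  · refine Nat.card_congr (Equiv.subtypeEquivRight fun f => ?_)
    have hs : ∀ w : A →ₗ[F] B, sgk F .n1 • w = -w := fun w => by
      show (-1 : F) • w = -w
      rw [neg_smul, one_smul]
    constructor
    · rintro ⟨h3, h4⟩
      refine ⟨h3, fun i => ?_⟩
      have hi : i = (0 : Fin 1) := Subsingleton.elim (α := Fin 1) i 0
      subst hi
      exact h4.trans (hs _).symm
    · rintro ⟨h3, h4⟩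
      exact ⟨h3, (h4 (0 : Fin 1)).trans (hs _)⟩

lemma zak_o1 (H : FLW.S_ZAN) (F A B : Type) [Field F] [Finite F] [AddCommGroup A] [Module F A]
    [FiniteDimensional F A] [AddCommGroup B] [Module F B] [FiniteDimensional F B] (d : ℕ) (z : F)
    (hz : z ≠ 0) (a : Fin d → (A →ₗ[F] A)) (u : Fin Kd.o1.h → (A →ₗ[F] A))
    (b : Fin d → (B →ₗ[F] B)) (v : Fin Kd.o1.h → (B →ₗ[F] B)) (hu : ∀ i, IsUnit (u i))
    (hv : ∀ i, IsUnit (v i))
    (h1 : Wk .o1 z (List.ofFn a).prod u = 0) (h2 : Wk .o1 z (List.ofFn b).prod v = 0) :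
    Nat.card F ^ (Module.finrank F A * Module.finrank F B) ≤
      Nat.card {y : B →ₗ[F] A // ∃ (h : Fin d → (B →ₗ[F] A)) (f : Fin Kd.o1.h → (B →ₗ[F] A)),
        uk .o1 z a u b v (fun j => a j ∘ₗ h j - h j ∘ₗ b j) f = y} * Nat.card (Hk .o1 a u b v) := by
  refine (H F A B d z hz true a (u (0 : Fin 2)) (u (1 : Fin 2)) b (v (0 : Fin 2)) (v (1 : Fin 2))
    (hu _) (hu _) (hv _) (hv _) h1 h2).trans (le_of_eq ?_)
  congr 1
  · refine Nat.card_congr (Equiv.subtypeEquivRight fun y => ?_)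
    have key : ∀ (h : Fin d → (B →ₗ[F] A)) (f : Fin Kd.o1.h → (B →ₗ[F] A)),
        uk .o1 z a u b v (fun j => a j ∘ₗ h j - h j ∘ₗ b j) f =
          FLW.u2 true z a (u (0 : Fin 2)) (u (1 : Fin 2)) b (v (0 : Fin 2)) (v (1 : Fin 2))
            (fun j => a j ∘ₗ h j - h j ∘ₗ b j) (f (0 : Fin 2)) (f (1 : Fin 2)) := fun h f => rfl
    constructor
    · rintro ⟨h, e, g, hy⟩
      exact ⟨h, (![e, g] : Fin 2 → (B →ₗ[F] A)), (key h _).trans hy⟩
    · rintro ⟨h, f, hy⟩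
      exact ⟨h, f (0 : Fin 2), f (1 : Fin 2), (key h f).symm.trans hy⟩
  · refine Nat.card_congr (Equiv.subtypeEquivRight fun f => ?_)
    constructor
    · rintro ⟨h3, h4, h5⟩
      exact ⟨h3, fun i => (Fin.forall_fin_two (p := fun i : Fin 2 =>
        f ∘ₗ u i = sgk F .o1 • (v i ∘ₗ f))).2 ⟨h4, h5⟩ i⟩
    · rintro ⟨h3, h4⟩
      exact ⟨h3, h4 (0 : Fin 2), h4 (1 : Fin 2)⟩

lemma zak_n2 (H : FLW.S_ZAN) (F A B : Type) [Field F] [Finite F] [AddCommGroup A] [Module F A]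
    [FiniteDimensional F A] [AddCommGroup B] [Module F B] [FiniteDimensional F B] (d : ℕ) (z : F)
    (hz : z ≠ 0) (a : Fin d → (A →ₗ[F] A)) (u : Fin Kd.n2.h → (A →ₗ[F] A))
    (b : Fin d → (B →ₗ[F] B)) (v : Fin Kd.n2.h → (B →ₗ[F] B)) (hu : ∀ i, IsUnit (u i))
    (hv : ∀ i, IsUnit (v i))
    (h1 : Wk .n2 z (List.ofFn a).prod u = 0) (h2 : Wk .n2 z (List.ofFn b).prod v = 0) :
    Nat.card F ^ (Module.finrank F A * Module.finrank F B) ≤
      Nat.card {y : B →ₗ[F] A // ∃ (h : Fin d → (B →ₗ[F] A)) (f : Fin Kd.n2.h → (B →ₗ[F] A)),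
        uk .n2 z a u b v (fun j => a j ∘ₗ h j - h j ∘ₗ b j) f = y} * Nat.card (Hk .n2 a u b v) := by
  refine (H F A B d z hz false a (u (0 : Fin 2)) (u (1 : Fin 2)) b (v (0 : Fin 2)) (v (1 : Fin 2))
    (hu _) (hu _) (hv _) (hv _) h1 h2).trans (le_of_eq ?_)
  congr 1
  · refine Nat.card_congr (Equiv.subtypeEquivRight fun y => ?_)
    have key : ∀ (h : Fin d → (B →ₗ[F] A)) (f : Fin Kd.n2.h → (B →ₗ[F] A)),
        uk .n2 z a u b v (fun j => a j ∘ₗ h j - h j ∘ₗ b j) f =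
          FLW.u2 false z a (u (0 : Fin 2)) (u (1 : Fin 2)) b (v (0 : Fin 2)) (v (1 : Fin 2))
            (fun j => a j ∘ₗ h j - h j ∘ₗ b j) (f (0 : Fin 2)) (f (1 : Fin 2)) := fun h f => rfl
    constructor
    · rintro ⟨h, e, g, hy⟩
      exact ⟨h, (![e, g] : Fin 2 → (B →ₗ[F] A)), (key h _).trans hy⟩
    · rintro ⟨h, f, hy⟩
      exact ⟨h, f (0 : Fin 2), f (1 : Fin 2), (key h f).symm.trans hy⟩
  · refine Nat.card_congr (Equiv.subtypeEquivRight fun f => ?_)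
    constructor
    · rintro ⟨h3, h4, h5⟩
      exact ⟨h3, fun i => (Fin.forall_fin_two (p := fun i : Fin 2 =>
        f ∘ₗ u i = sgk F .n2 • (v i ∘ₗ f))).2 ⟨h4, h5⟩ i⟩
    · rintro ⟨h3, h4⟩
      exact ⟨h3, h4 (0 : Fin 2), h4 (1 : Fin 2)⟩

theorem t_ZAK : M_ZAK := by
  intro H0 HN HW κ F A B _ _ _ _ _ _ _ _ d z hz a u b v hu hv h1 h2
  cases κ with
  | o0 => exact zak_o0 H0 F A B d z hz a u b v h1 h2
  | n1 => exact zak_n1 HN F A B d z hz a u b v h1 h2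
  | o1 => exact zak_o1 HW F A B d z hz a u b v hu hv h1 h2
  | n2 => exact zak_n2 HW F A B d z hz a u b v hu hv h1 h2

end FLY
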