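import Pool.Agent.FLX.Fin
import Pool.Agent.FGQ.Fin
import Pool.Agent.FLY.ARK
import Pool.Agent.FLY.AVK
import Pool.Agent.FLY.CLE
import Pool.Agent.FLY.CSE
import Pool.Agent.FLY.CTG
import Pool.Agent.FLY.CYZ
import Pool.Agent.FLY.FBK
import Pool.Agent.FLY.FIG
import Pool.Agent.FLY.FNK
import Pool.Agent.FLY.GAG
import Pool.Agent.FLY.GEG
import Pool.Agent.FLY.GRP
import Pool.Agent.FLY.HMZ
import Pool.Agent.FLY.KWS
import Pool.Agent.FLY.LFK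
import Pool.Agent.FLY.LOG
import Pool.Agent.FLY.MAG
import Pool.Agent.FLY.NSG
import Pool.Agent.FLY.PAK
import Pool.Agent.FLY.PRG
import Pool.Agent.FLY.REK
import Pool.Agent.FLY.SMS
import Pool.Agent.FLY.SPA
import Pool.Agent.FLY.SSG
import Pool.Agent.FLY.STK
import Pool.Agent.FLY.SUK
import Pool.Agent.FLY.TLR
import Pool.Agent.FLY.UFR
import Pool.Agent.FLY.ZAK

/-!
# Random homomorphisms of all four classes of groups to `PSL_n(q)`, all `q`: assembly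
-/

namespace FLY

open RSF FL0 FGE

/-! ### modules over `F[X]` -/

theorem a_HMZ : S_HMZ := t_HMZ t_CYZ
theorem a_CSE : S_CSE := t_CSE a_HMZ
theorem a_CLE : S_CLE := t_CLE a_HMZ SRJ.a_AUL
theorem a_ZAK : S_ZAK := t_ZAK FL0.t_ZAN FLN.t_ZAN FLW.t_ZAN

/-! ### Frobenius' formula -/

theorem a_XMB : FLX.S_XMB :=
  have h1 : FLX.S_IST := FLX.t_IST FLX.t_CHR FLX.t_DGR FLX.t_STP FLX.t_SEL FLX.a_K1N FLX.t_HLD
    FLX.t_PSC FLX.t_PAT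
  have h2 : FLX.S_CHN := FLX.t_CHN FLX.a_IFR h1 FLX.t_PSC
  have h3 : FLX.S_MBX := FLX.t_MBX FLC.t_MN FLC.a_DC FLX.t_UTG FLX.a_RA1 FLX.t_RA2 FLX.t_RNK
    FLX.a_DC0
  FLX.t_XMB FLC.a_STR FLX.t_TYP h2 h3 FLX.t_XNM
theorem a_SBX : FLX.S_SBX := FLX.t_SBX FLC.a_STR a_XMB FLX.a_CLR t_POL

theorem a_KWS : S_KWS := t_KWS FLN.t_FSI FLW.t_COM FLW.a_CON
theorem a_UFR : S_UFR := t_UFR FLC.t_MN FLC.t_FRB a_XMB FLC.a_ZET FLC.a_LIN FLX.t_TYP a_KWS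
theorem a_NSG : S_NSG := t_NSG FLC.t_MN FLC.t_FRB SRJ.t_PVL a_SBX FLC.a_ZET FLC.a_LIN a_KWS

/-! ### the number of the homomorphisms -/

theorem a_GRP : S_GRP := t_GRP FL0.t_HO0 FLN.t_HO FLW.t_HO
theorem a_CTG : S_CTG := t_CTG FL0.a_LFH t_LFK a_NSG
theorem a_LOG : S_LOG := t_LOG f_PI f_PJ a_CTG

/-! ### subgroups -/

theorem a_SSG : S_SSG := t_SSG a_LOG
theorem a_PRG : S_PRG := t_PRG a_LOG
theorem a_GEG : S_GEG := t_GEG a_PRG t_C2R a_C2N FGQ.a_C2Q t_C2S t_C3R a_C3N FGQ.a_C3Q a_C3S a_C4N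
  FGQ.a_C4Q t_C4S a_C5N FGQ.a_C5Q t_C5S t_C8R t_C8N FGQ.a_C8Q a_C8S
theorem a_GAG : S_GAG := t_GAG a_PRG a_C6N t_C6S t_C7N t_C7S

/-- the theorem from the two modules that are proved in separate files -/
theorem main_of (hZOK : M_ZOK) (hUPE : M_UPE) : MainG :=
  have h1 : S_UPE := hUPE f_PI a_CLE a_UFR
  have h2 : S_FBK := t_FBK (hZOK a_ZAK)
  have h3 : S_PAK := t_PAK a_CLE a_CSE t_SPA h1 t_TLR h2
  have h4 : S_ARK := t_ARK a_CLE a_CSE t_SPA h1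
  have h5 : S_STK := t_STK t_TLR h2 t_SPA t_SMS
  have h6 : S_AVK := t_AVK t_SMS h4 h5
  have h7 : S_SUK := t_SUK t_TLR h2 h6
  have h8 : S_REK := t_REK f_SUB t_SMS h3 h7
  have h9 : S_FIG := t_FIG h8 a_LOG t_POL
  t_MAG a_GRP (t_FNK a_CTG h9 a_SSG a_GEG a_GAG)

end FLY
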