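import Mathlib
import Pool.Agent.FLY.StY
import Pool.Agent.FL0.LFH
import Pool.Agent.FL0.LFT

/-!
# Module `LFK`: lifts of the tuples of a homomorphism, all four classes
-/

set_option autoImplicit false

namespace FLY

open RSF FL0

/-- the numbers of the lifts -/
theorem lfk_card (n : ℕ) (F : Type) [Field F] [Finite F] (d h : ℕ)
    (E : (Fin d → PS n F) × (Fin h → PS n F) → Prop) :
    Nat.card {A : (Fin d → SL n F) × (Fin h → SL n F) //
        E (fun j => mk (A.1 j), fun i => mk (A.2 i))} =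
      Nat.card (Subgroup.center (SL n F)) ^ (d + h) *
        Nat.card {t : (Fin d → PS n F) × (Fin h → PS n F) // E t} := by
  have h0 := t_LFT n F (d + h) fun t => E ((Fin.appendEquiv d h).symm t)
  have e1 : Nat.card {A : (Fin d → SL n F) × (Fin h → SL n F) //
        E (fun j => mk (A.1 j), fun i => mk (A.2 i))} =
      Nat.card {A : Fin (d + h) → SL n F // E ((Fin.appendEquiv d h).symm fun j => mk (A j))} :=
    Nat.card_congr ((Fin.appendEquiv d h).symm.subtypeEquiv fun A => Iff.rfl).symm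
  have e2 : Nat.card {t : Fin (d + h) → PS n F // E ((Fin.appendEquiv d h).symm t)} =
      Nat.card {t : (Fin d → PS n F) × (Fin h → PS n F) // E t} :=
    Nat.card_congr ((Fin.appendEquiv d h).symm.subtypeEquiv fun A => Iff.rfl)
  rw [e1, h0, e2]

/-- the word of the images -/
theorem lfk_wk (n : ℕ) (F : Type) [Field F] (κ : Kd) (e : Fin κ.h → SL n F) :
    wk κ (fun i => mk (e i)) = mk (wk κ e) := by
  cases κ
  · rfl
  · rfl
  · rfl
  · rfl

open FL0.LFH in
theorem t_LFK : S_LFK := by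
  intro κ n F _ _ m E
  have h := lfk_card n F m.length κ.h fun t => (∀ j, t.1 j ^ m.get j = 1) ∧ E t.1 t.2 ∧
    (List.ofFn t.1).prod * wk κ t.2 = 1
  have h2 : Nat.card {t : (Fin m.length → PS n F) × (Fin κ.h → PS n F) //
      (∀ j, t.1 j ^ m.get j = 1) ∧ E t.1 t.2 ∧ (List.ofFn t.1).prod * wk κ t.2 = 1} =
      Nat.card {p : Tk κ (PS n F) m // E p.1.1 p.1.2} := by
    refine Nat.card_congr ?_
    exact
      { toFun := fun t => ⟨⟨t.1, t.2.1, t.2.2.2⟩, t.2.2.1⟩
        invFun := fun p => ⟨p.1.1, p.1.2.1, p.2, p.1.2.2⟩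
        left_inv := fun t => rfl
        right_inv := fun p => rfl }
  rw [← h2]
  refine Eq.trans (Nat.card_congr (Equiv.subtypeEquivRight fun A => ?_)) h
  have e : (List.ofFn fun j => mk (A.1 j)).prod * wk κ (fun i => mk (A.2 i)) =
      mk ((List.ofFn A.1).prod * wk κ A.2) := by
    rw [mk_prod, lfk_wk]
    rfl
  show _ ↔ (∀ j, mk (A.1 j) ^ m.get j = 1) ∧ E (fun j => mk (A.1 j)) (fun i => mk (A.2 i)) ∧
    (List.ofFn fun j => mk (A.1 j)).prod * wk κ (fun i => mk (A.2 i)) = 1
  rw [e, mk_one]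
  refine and_congr_left fun _ => forall_congr' fun j => ?_
  exact (mk_pow_one (A.1 j) _).symm

end FLY
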